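import Pool.Agent.Lib_helper27.Area

set_option autoImplicit false

namespace Pool.Agent.Lib27

open Finset Filter Topology

/-- mean of a function of the rescaled area -/
noncomputable def EL (f : ℝ → ℝ) (n : ℕ) : ℝ := (∑ s ∈ W n, f (T s / mom 1 n)) / (W n).card

lemma bad_frac : ∀ᶠ n : ℕ in atTop, ((Bad n).card : ℝ) ≤ (W n).card / (n : ℝ) ^ 2 := by
  have h := bs_small g1
  filter_upwards [h] with n hn
  rw [aw_one] at hn
  unfold bs at hn
  simpa using hn

/-- the merging error -/
noncomputable def er (L : ℝ) (n : ℕ) : ℝ :=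
  ((W n).card / (W (n + 1)).card : ℝ) *
    (((W (n + 1)).card / (W n).card : ℝ) * (1 / ((n : ℝ) + 1) ^ 2) +
      (8 * n + Real.exp Lc) / (n : ℝ) ^ 2 +
      192000 * (L * (2 / n + |mom 1 n / mom 1 (n + 1) - 1|)) + 11520000000 / n +
      Real.sqrt (VV (fun _ _ => (1 : ℝ)) n)) +
    |Real.exp Lc * ((W n).card / (W (n + 1)).card) - 1|

lemma er_tendsto (L : ℝ) : Tendsto (er L) atTop (𝓝 0) := by
  have hκ : Real.exp Lc ≠ 0 := (Real.exp_pos _).ne'
  have hinv : ∀ c : ℝ, Tendsto (fun n : ℕ => c / (n : ℝ)) atTop (𝓝 0) := fun c =>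
    tendsto_const_nhds.div_atTop tendsto_natCast_atTop_atTop
  have h1 := card_ratio
  have h2 : Tendsto (fun n => ((W n).card / (W (n + 1)).card : ℝ)) atTop (𝓝 (Real.exp Lc)⁻¹) := by
    refine (h1.inv₀ hκ).congr' ?_
    filter_upwards with n
    rw [inv_div]
  have h3 : Tendsto (fun n => mom 1 n / mom 1 (n + 1)) atTop (𝓝 1) := by
    have := (mom_ratio 1).inv₀ one_ne_zero
    rw [inv_one] at this
    refine this.congr' ?_
    filter_upwards with n
    rw [inv_div]
  have h4 : Tendsto (fun n => |mom 1 n / mom 1 (n + 1) - 1|) atTop (𝓝 0) := by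
    have := (h3.sub_const 1).abs
    simpa using this
  have h5 : Tendsto (fun n => Real.sqrt (VV (fun _ _ => (1 : ℝ)) n)) atTop (𝓝 0) := by
    have := (Real.continuous_sqrt.tendsto 0).comp (variance_limit g1)
    rw [Real.sqrt_zero] at this
    exact this
  have h6 : Tendsto (fun n : ℕ => 1 / ((n : ℝ) + 1) ^ 2) atTop (𝓝 0) := by
    have h := tendsto_one_div_add_atTop_nhds_zero_nat (𝕜 := ℝ)
    have := h.mul h
    simp only [mul_zero] at this
    refine this.congr' ?_
    filter_upwards with n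
    field_simp
  have h7 : Tendsto (fun n : ℕ => (8 * n + Real.exp Lc) / (n : ℝ) ^ 2) atTop (𝓝 0) := by
    have h := (hinv 8).add ((hinv (Real.exp Lc)).mul (hinv 1))
    simp only [mul_zero, add_zero] at h
    refine h.congr' ?_
    filter_upwards [eventually_ge_atTop 1] with n hn
    have : (n : ℝ) ≠ 0 := by positivity
    field_simp
  have h8 : Tendsto (fun n : ℕ => 192000 * (L * (2 / (n : ℝ) + |mom 1 n / mom 1 (n + 1) - 1|)))
      atTop (𝓝 0) := by
    have := (((hinv 2).add h4).const_mul L).const_mul 192000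
    simpa using this
  have h9 := (((h1.mul h6).add h7).add h8).add (hinv 11520000000) |>.add h5
  have h10 := h2.mul h9
  have h11 : Tendsto (fun n => |Real.exp Lc * ((W n).card / (W (n + 1)).card : ℝ) - 1|) atTop
      (𝓝 0) := by
    have := ((h2.const_mul (Real.exp Lc)).sub_const 1).abs
    rw [mul_inv_cancel₀ hκ] at this
    simpa using this
  have h12 := h10.add h11
  simp only [mul_zero, add_zero] at h12
  exact h12

theorem merge (L : ℝ) (hL : 0 ≤ L) : ∀ᶠ n : ℕ in atTop, ∀ f : ℝ → ℝ,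
    (∀ x, 0 ≤ f x ∧ f x ≤ 1) → (∀ x y, |f x - f y| ≤ L * |x - y|) →
    |EL f (n + 1) - EL f n| ≤ er L n := by
  have hb := bad_frac
  have hb1 := (tendsto_add_atTop_nat 1).eventually hb
  filter_upwards [hb, hb1, eventually_ge_atTop 120000] with n h1 h2 hn f hf hlip
  have hn' : (0 : ℝ) < n := by
    have : 0 < n := by omega
    exact_mod_cast this
  have hA := card_pos' n (by omega)
  have hA1 := card_pos' (n + 1) (by omega)
  have hm := mom_pos 1 n (by omega)
  have hm1 := mom_pos 1 (n + 1) (by omega)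
  have hmn : (n : ℝ) ≤ mom 1 (n + 1) := by
    have := mom_one_ge (n + 1) (by omega)
    push_cast at this
    linarith
  set m := mom 1 n with hmdef
  set m' := mom 1 (n + 1) with hm'def
  set D : List (Fin 4) → ℝ := fun s => L * (2 / n + T s / m * |m / m' - 1|) with hDdef
  have hD0 : ∀ s, 0 ≤ D s := by
    intro s
    have := T_nonneg s
    simp only [hDdef]
    positivity
  have hD : ∀ s ∈ W n, ∀ x ∈ Up s, |f (T (ins x.1 x.2 s) / m') - f (T s / m)| ≤ D s := by
    intro s hs x hx
    refine (hlip _ _).trans ?_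
    apply mul_le_mul_of_nonneg_left _ hL
    have h3 := T_ins n s hs x hx
    have e : T (ins x.1 x.2 s) / m' - T s / m =
        (T (ins x.1 x.2 s) - T s) / m' + T s / m * (m / m' - 1) := by
      field_simp
      ring
    rw [e]
    refine (abs_add_le _ _).trans ?_
    apply add_le_add
    · rw [abs_div, abs_of_pos hm1, div_le_div_iff₀ hm1 hn']
      nlinarith [abs_nonneg (T (ins x.1 x.2 s) - T s)]
    · rw [abs_mul, abs_of_nonneg (div_nonneg (T_nonneg s) hm.le)]
  have hmain := merge_gen n hn (fun s => f (T s / m)) (fun s => f (T s / m')) D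
    (fun s => hf _) (fun s => hf _) hD0 hD
  have hsumD : ∑ s ∈ W n, D s = (W n).card * (L * (2 / n + |m / m' - 1|)) := by
    have e1 : ∑ s ∈ W n, T s = m * (W n).card := by
      rw [hmdef]; unfold mom
      simp only [pow_one]
      rw [div_mul_cancel₀ _ hA.ne']
    simp only [hDdef]
    rw [← mul_sum, sum_add_distrib, sum_const, nsmul_eq_mul, ← sum_mul, ← sum_div, e1]
    rw [mul_div_cancel_left₀ _ hm.ne']
    ring
  rw [hsumD] at hmain
  set a : ℝ := ((W n).card : ℝ) with ha
  set a' : ℝ := ((W (n + 1)).card : ℝ) with ha'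
  set κ := Real.exp Lc with hκ
  set S := ∑ s ∈ W n, f (T s / m) with hS
  set S' := ∑ s ∈ W (n + 1), f (T s / m') with hS'
  have hSle : S ≤ a := by
    calc S ≤ ∑ s ∈ W n, (1 : ℝ) := sum_le_sum fun s _ => (hf _).2
      _ = a := by simp [ha]
  have hS0 : 0 ≤ S := sum_nonneg fun s _ => (hf _).1
  have hκ0 : 0 < κ := Real.exp_pos _
  have e1 : EL f (n + 1) - EL f n = (S' - κ * S) / a' + (S / a) * (κ * (a / a') - 1) := by
    unfold EL
    rw [← hmdef, ← hm'def, ← ha, ← ha', ← hS, ← hS']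
    field_simp
    ring
  rw [e1]
  refine (abs_add_le _ _).trans ?_
  unfold er
  rw [← ha, ← ha', ← hκ, ← hmdef, ← hm'def]
  apply add_le_add
  · rw [abs_div, abs_of_pos hA1, div_le_iff₀ hA1]
    refine hmain.trans ?_
    have e2 : a / a' * (a' / a * (1 / ((n : ℝ) + 1) ^ 2) + (8 * n + κ) / (n : ℝ) ^ 2 +
        192000 * (L * (2 / n + |m / m' - 1|)) + 11520000000 / n +
        Real.sqrt (VV (fun _ _ => (1 : ℝ)) n)) * a' =
        a' / ((n : ℝ) + 1) ^ 2 + (8 * n + κ) * (a / (n : ℝ) ^ 2) +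
        192000 * (a * (L * (2 / n + |m / m' - 1|))) + 11520000000 / n * a +
        a * Real.sqrt (VV (fun _ _ => (1 : ℝ)) n) := by
      field_simp
    rw [e2]
    have e3 : ((Bad (n + 1)).card : ℝ) ≤ a' / ((n : ℝ) + 1) ^ 2 := by
      simpa using h2
    have e4 : (8 * n + κ) * ((Bad n).card : ℝ) ≤ (8 * n + κ) * (a / (n : ℝ) ^ 2) :=
      mul_le_mul_of_nonneg_left h1 (by positivity)
    linarith
  · rw [abs_mul, abs_of_nonneg (div_nonneg hS0 hA.le)]
    have : S / a ≤ 1 := (div_le_one hA).2 hSle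
    calc S / a * |κ * (a / a') - 1| ≤ 1 * |κ * (a / a') - 1| :=
          mul_le_mul_of_nonneg_right this (abs_nonneg _)
      _ = _ := one_mul _

end Pool.Agent.Lib27
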