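import Pool.Agent.Lib_helper27.Defs
import Pool.Agent.Lib_helper27.Merge

set_option autoImplicit false

namespace Pool.Agent.AreaLaw

open Finset MeasureTheory Pool.Agent.Lib27

lemma step_eq : step = dv := rfl

lemma ep_take_succ (l : List (Fin 4)) (k : ℕ) (hk : k < l.length) :
    ep 0 (l.take (k + 1)) = ep 0 (l.take k) + dv l[k] := by
  rw [List.take_succ_eq_append_getElem hk, ep_append]
  rfl

lemma pos_eq (n : ℕ) (s : Fin (2 * n) → Fin 4) (k : ℕ) (hk : k ≤ 2 * n) :
    pos n s k = ep 0 ((List.ofFn s).take k) := by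
  induction k with
  | zero => simp [pos]
  | succ k ih =>
    rw [ep_take_succ _ _ (by simpa using hk), ← ih (by omega)]
    unfold pos
    have h1 : Finset.univ.filter (fun i : Fin (2 * n) => i.val < k + 1) =
        insert ⟨k, hk⟩ (Finset.univ.filter (fun i : Fin (2 * n) => i.val < k)) := by
      ext i
      simp only [mem_filter, mem_univ, true_and, mem_insert]
      constructor
      · intro h
        rcases Nat.lt_succ_iff_lt_or_eq.1 h with h | h
        · right; exact h
        · left; exact Fin.ext h
      · rintro (h | h)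
        · rw [h]; simp
        · omega
    rw [h1, sum_insert (by simp), add_comm, step_eq]
    congr 2
    simp

lemma dbl_eq_sum (p : ℤ × ℤ) (l : List (Fin 4)) :
    dbl p l = ∑ k ∈ range l.length, ((ep p (l.take k)).1 * (ep p (l.take (k + 1))).2 -
      (ep p (l.take (k + 1))).1 * (ep p (l.take k)).2) := by
  induction l generalizing p with
  | nil => simp
  | cons d l ih =>
    rw [List.length_cons, sum_range_succ', dbl_cons, ih (p + dv d)]
    rw [add_comm]
    congr 1
    simp only [List.take_zero, ep_nil, zero_add, List.take_succ_cons, ep_cons, Prod.fst_add,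
      Prod.snd_add]
    ring

lemma area_eq (n : ℕ) (s : Fin (2 * n) → Fin 4) : area n s = T (List.ofFn s) / 2 := by
  unfold area T
  congr 1
  rw [dbl_eq_sum, List.length_ofFn]
  congr 2
  apply sum_congr rfl
  intro k hk
  rw [mem_range] at hk
  rw [pos_eq n s k hk.le, pos_eq n s (k + 1) hk]

lemma SAP_iff (n : ℕ) (s : Fin (2 * n) → Fin 4) : s ∈ SAP n ↔ List.ofFn s ∈ W n := by
  rw [mem_W]
  unfold SAP SAPw
  simp only [mem_filter, mem_univ, true_and, List.length_ofFn]
  rw [pos_eq n s (2 * n) le_rfl, List.take_of_length_le (by simp)]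
  apply and_congr Iff.rfl
  rw [List.nodup_iff_injective_get]
  constructor
  · intro h i j hij
    by_contra hne
    have hL : (vs 0 (List.ofFn s)).length = 2 * n := by rw [vs_length, List.length_ofFn]
    have hi : i.val < 2 * n := lt_of_lt_of_eq i.2 hL
    have hj : j.val < 2 * n := lt_of_lt_of_eq j.2 hL
    apply h ⟨i.val, hi⟩ ⟨j.val, hj⟩ (fun h => hne (Fin.ext (by simpa using h)))
    rw [pos_eq n s _ hi.le, pos_eq n s _ hj.le]
    simp only [List.get_eq_getElem, vs_getElem] at hij
    exact hij
  · intro h j k hjk heq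
    apply hjk
    rw [pos_eq n s _ j.2.le, pos_eq n s _ k.2.le] at heq
    have hj : j.val < (vs 0 (List.ofFn s)).length := by simp
    have hk : k.val < (vs 0 (List.ofFn s)).length := by simp
    have := @h ⟨j.val, hj⟩ ⟨k.val, hk⟩ (by
      simp only [List.get_eq_getElem, vs_getElem]
      exact heq)
    exact Fin.ext (by simpa using this)

lemma image_SAP (n : ℕ) : (SAP n).map ⟨List.ofFn, List.ofFn_injective⟩ = W n := by
  ext l
  rw [mem_map]
  constructor
  · rintro ⟨s, hs, rfl⟩
    exact (SAP_iff n s).1 hs
  · intro hl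
    have hlen := ((mem_W n l).1 hl).1
    refine ⟨fun i => l.getD i.val 0, ?_, ?_⟩
    · rw [SAP_iff]
      convert hl using 1
      apply List.ext_getElem
      · simp [hlen]
      · intro i h1 h2
        simp [h2]
    · apply List.ext_getElem
      · simp [hlen]
      · intro i h1 h2
        simp [h2]

lemma sum_SAP (n : ℕ) (g : List (Fin 4) → ℝ) :
    ∑ s ∈ SAP n, g (List.ofFn s) = ∑ l ∈ W n, g l := by
  rw [← image_SAP, sum_map]
  rfl

lemma card_SAP (n : ℕ) : (SAP n).card = (W n).card := by
  rw [← image_SAP, card_map]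

lemma moment_eq (k n : ℕ) : moment k n = mom k n / 2 ^ k := by
  unfold moment mom
  rw [card_SAP]
  have : ∑ s ∈ SAP n, area n s ^ k = (∑ l ∈ W n, T l ^ k) / 2 ^ k := by
    rw [← sum_SAP, sum_div]
    apply sum_congr rfl
    intro s _
    rw [area_eq, div_pow]
  rw [this]
  ring

lemma meanArea_eq (n : ℕ) : meanArea n = mom 1 n / 2 := by
  have := moment_eq 1 n
  unfold moment at this
  simp only [pow_one] at this
  unfold meanArea
  exact this

lemma ratio_eq (n : ℕ) (s : Fin (2 * n) → Fin 4) :
    area n s / meanArea n = T (List.ofFn s) / mom 1 n := by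
  rw [area_eq, meanArea_eq, div_div_div_cancel_right₀ (by norm_num)]

end Pool.Agent.AreaLaw
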