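import Pool.Agent.Lib_helper27.BridgePoly

set_option autoImplicit false

namespace Pool.Agent.Lib27

open Finset Filter Topology

/-- dropping the last step of a polygon gives a self-avoiding walk -/
lemma W_le_Cs (n : ℕ) (hn : 1 ≤ n) : (W n).card ≤ 4 * (Cs (2 * n - 1)).card := by
  classical
  have hsub : W n ⊆ ((univ : Finset (Fin 4)) ×ˢ Cs (2 * n - 1)).image (fun x => x.2 ++ [x.1]) := by
    intro s hs
    rw [mem_W] at hs
    obtain ⟨hl, h1, h2⟩ := hs
    have hs0 : s ≠ [] := by rintro rfl; simp at hl; omega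
    obtain ⟨t, d, rfl⟩ : ∃ t d, s = t ++ [d] :=
      ⟨s.dropLast, s.getLast hs0, (List.dropLast_append_getLast hs0).symm⟩
    rw [mem_image]
    refine ⟨(d, t), ?_, rfl⟩
    rw [mem_product, mem_Cs]
    refine ⟨mem_univ _, ?_, ?_⟩
    · rw [List.length_append, List.length_singleton] at hl
      show t.length = _
      omega
    · unfold SAWs
      rw [vs_append] at h2
      exact h2
  refine (card_le_card hsub).trans (card_image_le.trans ?_)
  rw [card_product]
  simp

/-- explicit lower bound for the number of polygons -/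
lemma W_log_ge (n : ℕ) (hn : 3 ≤ n) :
    2 * n * Lm - 4 * Lm - 10 * Real.sqrt n - 8 * Real.log (2 * n) ≤ Real.log (W n).card := by
  obtain ⟨N, rfl⟩ : ∃ N, n = N + 2 := ⟨n - 2, by omega⟩
  have h1 := Cs_Br N
  have h2 := Br_sq_le (N + 1) (by omega)
  have h3 := cs_ge N
  have hc := Cs_pos N
  have hW := W_pos (N + 2) (by omega)
  have hc' : (0 : ℝ) < (Cs N).card := by positivity
  have hW' : (0 : ℝ) < (W (N + 2)).card := by positivity
  set b : ℝ := ((Br (N + 1)).card : ℝ) with hb
  have hb0 : 0 < b := by
    by_contra hcon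
    have : b = 0 := le_antisymm (not_lt.1 hcon) (by positivity)
    rw [this, mul_zero] at h1
    linarith
  have h2' : b ^ 2 ≤ (((2 * ((N : ℝ) + 1) + 1) ^ 2 * ((N : ℝ) + 1 + 1)) ^ 2) * (W (N + 2)).card := by
    rw [hb]
    exact_mod_cast h2
  -- take logarithms
  have l1 : Real.log (Cs N).card ≤ Real.log ((N : ℝ) + 1) + 5 * Real.sqrt (N + 1) + Real.log b := by
    have := Real.log_le_log hc' h1
    rw [Real.log_mul (by positivity) hb0.ne', Real.log_mul (by positivity) (Real.exp_pos _).ne',
      Real.log_exp] at this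
    exact this
  have l2 : 2 * Real.log b ≤ 2 * (2 * Real.log (2 * ((N : ℝ) + 1) + 1) + Real.log ((N : ℝ) + 1 + 1)) +
      Real.log (W (N + 2)).card := by
    have := Real.log_le_log (by positivity) h2'
    rw [Real.log_pow, Real.log_mul (by positivity) hW'.ne', Real.log_pow,
      Real.log_mul (by positivity) (by positivity), Real.log_pow] at this
    push_cast at this
    linarith
  have l3 := cs_log_ge N
  set x : ℝ := ((N + 2 : ℕ) : ℝ) with hx
  have hxN : x = N + 2 := by rw [hx]; push_cast; ring
  have hN0 : (0 : ℝ) ≤ N := by positivity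
  have m1 : Real.log ((N : ℝ) + 1) ≤ Real.log (2 * x) :=
    Real.log_le_log (by positivity) (by rw [hxN]; linarith)
  have m2 : Real.log (2 * ((N : ℝ) + 1) + 1) ≤ Real.log (2 * x) :=
    Real.log_le_log (by positivity) (by rw [hxN]; linarith)
  have m3 : Real.log ((N : ℝ) + 1 + 1) ≤ Real.log (2 * x) :=
    Real.log_le_log (by positivity) (by rw [hxN]; linarith)
  have m4 : Real.sqrt (N + 1) ≤ Real.sqrt x := Real.sqrt_le_sqrt (by rw [hxN]; linarith)
  have m5 : 2 * x * Lm - 4 * Lm = 2 * (N * Lm) := by rw [hxN]; ring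
  rw [m5]
  linarith

/-- the growth rate of polygons is that of self-avoiding walks -/
theorem Lc_eq : Lc = 2 * Lm := by
  have hsq : Tendsto (fun n : ℕ => Real.sqrt n / n) atTop (𝓝 0) := by
    have h : Tendsto (fun n : ℕ => 1 / Real.sqrt n) atTop (𝓝 0) :=
      tendsto_const_nhds.div_atTop (Real.tendsto_sqrt_atTop.comp tendsto_natCast_atTop_atTop)
    refine h.congr' ?_
    filter_upwards [eventually_ge_atTop 1] with n hn
    have hn' : (0 : ℝ) < n := by exact_mod_cast hn
    have h1 : Real.sqrt n * Real.sqrt n = n := Real.mul_self_sqrt hn'.le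
    have h2 : 0 < Real.sqrt n := Real.sqrt_pos.2 hn'
    rw [div_eq_div_iff h2.ne' hn'.ne', h1, one_mul]
  have hlog : Tendsto (fun n : ℕ => Real.log (2 * n) / n) atTop (𝓝 0) := by
    have h2 : Tendsto (fun x : ℝ => Real.log x / x) atTop (𝓝 0) := by
      have := Real.isLittleO_log_id_atTop.tendsto_div_nhds_zero
      simpa using this
    have h3 : Tendsto (fun n : ℕ => (2 : ℝ) * (n : ℝ)) atTop atTop :=
      tendsto_natCast_atTop_atTop.const_mul_atTop (by norm_num)
    have h4 := (h2.comp h3).const_mul 2
    rw [mul_zero] at h4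
    refine h4.congr' ?_
    filter_upwards [eventually_ge_atTop 1] with n hn
    have : (n : ℝ) ≠ 0 := by positivity
    simp only [Function.comp_apply]
    field_simp
  have hinv : ∀ c : ℝ, Tendsto (fun n : ℕ => c / (n : ℝ)) atTop (𝓝 0) := fun c =>
    tendsto_const_nhds.div_atTop tendsto_natCast_atTop_atTop
  apply le_antisymm
  · -- upper bound
    have h1 : Tendsto (fun n : ℕ => Real.log 4 / n + (2 * n - 1 : ℕ) / (n : ℝ) *
        (Real.log (Cs (2 * n - 1)).card / (2 * n - 1 : ℕ))) atTop (𝓝 (0 + 2 * Lm)) := by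
      apply Tendsto.add (hinv _)
      apply Tendsto.mul
      · have : Tendsto (fun n : ℕ => 2 - 1 / (n : ℝ)) atTop (𝓝 (2 - 0)) :=
          (hinv 1).const_sub 2
        rw [sub_zero] at this
        refine this.congr' ?_
        filter_upwards [eventually_ge_atTop 1] with n hn
        have hn' : (n : ℝ) ≠ 0 := by positivity
        rw [Nat.cast_sub (by omega)]
        push_cast
        field_simp
      · apply tendsto_cs.comp
        apply tendsto_atTop_mono (f := fun n : ℕ => n) _ tendsto_id
        intro n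
        omega
    rw [zero_add] at h1
    refine le_of_tendsto_of_tendsto tendsto_W h1 ?_
    filter_upwards [eventually_ge_atTop 1] with n hn
    have h2 := W_le_Cs n hn
    have h3 := W_pos n hn
    have h4 := Cs_pos (2 * n - 1)
    have hn' : (0 : ℝ) < n := by exact_mod_cast hn
    have h5 : Real.log (W n).card ≤ Real.log 4 + Real.log (Cs (2 * n - 1)).card := by
      rw [← Real.log_mul (by norm_num) (by positivity)]
      apply Real.log_le_log (by positivity)
      exact_mod_cast h2
    have h6 : ((2 * n - 1 : ℕ) : ℝ) ≠ 0 := by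
      have : 2 * n - 1 ≠ 0 := by omega
      exact_mod_cast this
    rw [div_mul_div_comm, mul_comm (n : ℝ), mul_div_mul_left _ _ h6, ← add_div]
    exact div_le_div_of_nonneg_right h5 hn'.le
  · have h1 : Tendsto (fun n : ℕ => 2 * Lm - (4 * Lm) / n - 10 * (Real.sqrt n / n) -
        8 * (Real.log (2 * n) / n)) atTop (𝓝 (2 * Lm - 0 - 10 * 0 - 8 * 0)) :=
      (((hinv _).const_sub _).sub (hsq.const_mul 10)).sub (hlog.const_mul 8)
    simp only [sub_zero, mul_zero] at h1
    refine le_of_tendsto_of_tendsto h1 tendsto_W ?_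
    filter_upwards [eventually_ge_atTop 3] with n hn
    have h2 := W_log_ge n hn
    have hn' : (0 : ℝ) < n := by
      have : 0 < n := by omega
      exact_mod_cast this
    rw [le_div_iff₀ hn']
    refine le_trans (le_of_eq ?_) h2
    field_simp

/-- lower bound with an explicit rate -/
theorem W_rate_lower : ∃ C : ℝ, 0 ≤ C ∧ ∀ n : ℕ, 1 ≤ n →
    n * Lc - C * Real.sqrt n ≤ Real.log (W n).card := by
  have hL := Lm_nonneg
  refine ⟨4 * Lm + 10 + 16 + 6 * Lm, by linarith, ?_⟩
  intro n hn
  have hn' : (1 : ℝ) ≤ n := by exact_mod_cast hn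
  have hs1 : 1 ≤ Real.sqrt n := Real.one_le_sqrt.2 hn'
  have hss : Real.sqrt n * Real.sqrt n = n := Real.mul_self_sqrt (by linarith)
  rw [Lc_eq]
  rcases Nat.lt_or_ge n 3 with h | h
  · have h1 : 0 ≤ Real.log (W n).card := by
      have := W_pos n hn
      apply Real.log_nonneg
      exact_mod_cast this
    have h2 : (n : ℝ) ≤ 2 := by
      have : n ≤ 2 := by omega
      exact_mod_cast this
    nlinarith
  · have h1 := W_log_ge n h
    -- log (2 n) ≤ 2 sqrt n
    have h2 : Real.log (2 * n) ≤ 2 * Real.sqrt n := by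
      have h3 := Real.log_le_sub_one_of_pos (x := Real.sqrt n / 1) (by linarith)
      have h4 : Real.log n = 2 * Real.log (Real.sqrt n) := by
        rw [Real.log_sqrt (by linarith)]
        ring
      have h5 : Real.log 2 ≤ 1 := by
        have := Real.log_two_lt_d9
        linarith
      rw [Real.log_mul (by norm_num) (by linarith), h4]
      rw [div_one] at h3
      linarith
    nlinarith

theorem W_rate_upper : ∀ n : ℕ, 2 ≤ n →
    Real.log (W n).card ≤ n * Lc + 4 * Real.sqrt n := by
  intro n hn
  have hn' : (1 : ℝ) ≤ n := by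
    have : 1 ≤ n := by omega
    exact_mod_cast this
  have h2 := can_pos n (by omega)
  have h3 := W_le_can n hn
  have h4 := can_log_le n (by omega)
  have h5 := W_pos n (by omega)
  have h6 : Real.log (W n).card ≤ Real.log (4 * n) + Real.log (Can n).card := by
    rw [← Real.log_mul (by positivity) (by positivity)]
    apply Real.log_le_log (by positivity)
    exact_mod_cast h3
  have hs1 : 1 ≤ Real.sqrt n := Real.one_le_sqrt.2 hn'
  have h7 : Real.log (4 * n) ≤ 4 * Real.sqrt n := by
    have h3 := Real.log_le_sub_one_of_pos (x := Real.sqrt n) (by linarith)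
    have h4 : Real.log n = 2 * Real.log (Real.sqrt n) := by
      rw [Real.log_sqrt (by linarith)]
      ring
    have h5 : Real.log 4 ≤ 2 := by
      have h8 : Real.log 4 = 2 * Real.log 2 := by
        rw [show (4 : ℝ) = 2 ^ 2 by norm_num, Real.log_pow]
        norm_num
      have := Real.log_two_lt_d9
      linarith
    rw [Real.log_mul (by norm_num) (by linarith), h4]
    linarith
  linarith

end Pool.Agent.Lib27
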