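import Pool.Agent.Lib_helper27.Glue

set_option autoImplicit false

namespace Pool.Agent.Lib27

open Finset

/-- rotated words -/
lemma SAPw_rotate (l₁ l₂ : List (Fin 4)) (h : SAPw (l₁ ++ l₂)) : SAPw (l₂ ++ l₁) := by
  obtain ⟨h1, h2⟩ := h
  rw [ep_append] at h1
  have h3 : ep 0 l₂ = - ep 0 l₁ := by
    rw [ep_eq] at h1
    exact eq_neg_of_add_eq_zero_left h1
  constructor
  · rw [ep_append, ep_eq, h3]
    simp
  · rw [vs_append] at h2 ⊢
    have h4 : vs (ep 0 l₁) l₂ = (vs 0 l₂).map (· + ep 0 l₁) := vs_eq _ _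
    have h5 : vs (ep 0 l₂) l₁ = (vs 0 l₁).map (· + ep 0 l₂) := vs_eq _ _
    rw [h4] at h2
    rw [h5, h3]
    rw [List.nodup_append'] at h2 ⊢
    obtain ⟨a, b, c⟩ := h2
    refine ⟨b.of_map, a.map (add_left_injective _), ?_⟩
    intro v hv hv'
    rw [List.mem_map] at hv'
    obtain ⟨w, hw, rfl⟩ := hv'
    apply c hw
    rw [List.mem_map]
    exact ⟨_, hv, by abel⟩

/-- reversed word -/
def rv (s : List (Fin 4)) : List (Fin 4) := (s.map (· + 2)).reverse

lemma rv_cons (a : Fin 4) (s : List (Fin 4)) : rv (a :: s) = rv s ++ [a + 2] := by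
  simp [rv]

lemma ep_rv (p : ℤ × ℤ) (s : List (Fin 4)) : ep (ep p s) (rv s) = p := by
  induction s generalizing p with
  | nil => simp [rv]
  | cons a s ih =>
    rw [rv_cons, ep_append, ep_cons p a s, ih (p + dv a), ep_cons, ep_nil, dv_add_two]
    abel

/-- vertices of the reversed word: the arrival points, in reversed order -/
lemma vs_rv (p : ℤ × ℤ) (s : List (Fin 4)) :
    vs (ep p s) (rv s) ++ [p] = (vs p s ++ [ep p s]).reverse := by
  induction s generalizing p with
  | nil => simp [rv]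
  | cons a s ih =>
    rw [rv_cons, vs_append, ep_cons, ep_rv, vs_cons, vs_nil, ih, vs_cons]
    simp

lemma SAPw_rv (s : List (Fin 4)) (h : SAPw s) : SAPw (rv s) := by
  obtain ⟨h1, h2⟩ := h
  constructor
  · have := ep_rv 0 s
    rw [h1] at this
    exact this
  · have h3 := vs_rv 0 s
    rw [h1] at h3
    cases s with
    | nil => simp [rv]
    | cons a s =>
      rw [vs_cons] at h3 h2
      have h4 : List.Perm (vs 0 (rv (a :: s)) ++ [0]) ((0 :: vs (0 + dv a) s) ++ [0]) := by
        rw [h3]; exact List.reverse_perm _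
      have h5 := (List.perm_append_right_iff [(0 : ℤ × ℤ)]).1 h4
      rw [h5.nodup_iff]
      exact h2

lemma rv_rv (s : List (Fin 4)) : rv (rv s) = s := by
  have h1 : ∀ a : Fin 4, a + 2 + 2 = a := by decide
  have : (fun a : Fin 4 => a + 2 + 2) = id := funext h1
  simp only [rv, List.map_reverse, List.reverse_reverse, List.map_map]
  have h2 : ((fun x : Fin 4 => x + 2) ∘ fun x => x + 2) = id := this
  rw [h2, List.map_id]

lemma mem_vs_rv (s : List (Fin 4)) (h : SAPw s) (v : ℤ × ℤ) : v ∈ vs 0 (rv s) ↔ v ∈ vs 0 s := by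
  obtain ⟨h1, h2⟩ := h
  have h3 := vs_rv 0 s
  rw [h1] at h3
  cases s with
  | nil => simp [rv]
  | cons a s =>
    rw [vs_cons] at h3 ⊢
    have h4 : List.Perm (vs 0 (rv (a :: s)) ++ [0]) ((0 :: vs (0 + dv a) s) ++ [0]) := by
      rw [h3]; exact List.reverse_perm _
    have h5 := (List.perm_append_right_iff [(0 : ℤ × ℤ)]).1 h4
    exact h5.mem_iff

/-- a lexicographically minimal vertex -/
lemma exists_lexmin (s : List (Fin 4)) (h : 0 < s.length) :
    ∃ i < s.length, ∀ j < s.length, (ep 0 (s.take i)).1 < (ep 0 (s.take j)).1 ∨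
      ((ep 0 (s.take i)).1 = (ep 0 (s.take j)).1 ∧
        (ep 0 (s.take i)).2 ≤ (ep 0 (s.take j)).2) := by
  obtain ⟨i, hi, hmin⟩ := exists_min_image (range s.length)
    (fun j => toLex (ep 0 (s.take j))) ⟨0, by simpa using h⟩
  refine ⟨i, by simpa using hi, fun j hj => ?_⟩
  have := hmin j (by simpa using hj)
  rw [Prod.Lex.toLex_le_toLex] at this
  exact this

/-- rooted at the lexicographically minimal vertex -/
def Rooted (s : List (Fin 4)) : Prop := ∀ v ∈ vs 0 s, lexNonneg v

lemma exists_rooted (s : List (Fin 4)) (h : 0 < s.length) (hs : SAPw s) :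
    ∃ i < s.length, Rooted (s.drop i ++ s.take i) := by
  obtain ⟨i, hi, hmin⟩ := exists_lexmin s h
  refine ⟨i, hi, ?_⟩
  have h0 : s.take i ++ s.drop i = s := List.take_append_drop i s
  have hep : ep 0 (s.drop i) = - ep 0 (s.take i) := by
    have := hs.1
    rw [← h0, ep_append, ep_eq] at this
    exact eq_neg_of_add_eq_zero_left this
  intro v hv
  have : ∃ w ∈ vs 0 s, v = w - ep 0 (s.take i) := by
    rw [vs_append, List.mem_append] at hv
    rcases hv with hv | hv
    · refine ⟨v + ep 0 (s.take i), ?_, by abel⟩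
      rw [← h0, vs_append, List.mem_append]
      right
      rw [h0, vs_eq, List.mem_map]
      exact ⟨v, hv, rfl⟩
    · rw [hep, vs_eq, List.mem_map] at hv
      obtain ⟨w, hw, rfl⟩ := hv
      refine ⟨w, ?_, by abel⟩
      have h7 : w ∈ vs 0 (s.take i ++ s.drop i) := by
        rw [vs_append, List.mem_append]
        exact Or.inl hw
      rwa [h0] at h7
  obtain ⟨w, hw, rfl⟩ := this
  obtain ⟨j, hj, rfl⟩ := List.mem_iff_getElem.1 hw
  rw [vs_getElem]
  rw [vs_length] at hj
  have := hmin j hj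
  unfold lexNonneg
  simp only [Prod.fst_sub, Prod.snd_sub]
  omega

/-- at a rooted word the first step is East or North; the last one South or West -/
lemma rooted_steps (n : ℕ) (hn : 2 ≤ n) (s : List (Fin 4)) (hl : s.length = 2 * n)
    (hs : SAPw s) (hr : Rooted s) :
    s.getD 0 0 = 1 ∨ (rv s).getD 0 0 = 1 := by
  have h1 : lexNonneg (ep 0 (s.take 1)) := hr _ (vertex_mem s 1 (by omega))
  have h1' := vertex_succ s 0 (by omega)
  simp only [List.take_zero, ep_nil, zero_add] at h1'
  rw [h1'] at h1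
  have h2 : lexNonneg (ep 0 (s.take (s.length - 1))) := hr _ (vertex_mem s _ (by omega))
  have h3 := vertex_succ s (s.length - 1) (by omega)
  rw [Nat.sub_add_cancel (by omega), closed_take s hs] at h3
  have h4 : (rv s).getD 0 0 = s.getD (s.length - 1) 0 + 2 := by
    rw [rv, List.getD_eq_getElem _ _ (by simp; omega), List.getElem_reverse, List.getElem_map,
      List.getD_eq_getElem _ _ (by omega)]
    simp
  rw [h4]
  have h5 : ep 0 (s.take (s.length - 1)) = - dv (s.getD (s.length - 1) 0) := by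
    exact eq_neg_of_add_eq_zero_left h3.symm
  have h6 : s.getD 0 0 ≠ s.getD (s.length - 1) 0 + 2 := by
    intro h
    refine norev s hs (by omega) (s.length - 1) 0 (by omega) (by omega) ?_ h
    rw [Nat.sub_add_cancel (by omega), closed_take s hs]
    simp
  rw [h5] at h2
  generalize s.getD 0 0 = d at *
  generalize s.getD (s.length - 1) 0 = e at *
  clear h3 h4 h5 h1'
  have key : ∀ d e : Fin 4, (0 < (dv d).1 ∨ (dv d).1 = 0 ∧ 0 ≤ (dv d).2) →
    (0 < (-dv e).1 ∨ (-dv e).1 = 0 ∧ 0 ≤ (-dv e).2) → d ≠ e + 2 → (d = 1 ∨ e + 2 = 1) := by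
    decide
  exact key d e h1 h2 h6

/-- the number of words is at most `4n` times the number of canonical words -/
lemma W_le_can (n : ℕ) (hn : 2 ≤ n) : (W n).card ≤ 4 * n * (Can n).card := by
  classical
  have hex : ∀ s ∈ W n, ∃ y : (ℕ × Bool) × List (Fin 4),
      y ∈ (range (2 * n) ×ˢ (univ : Finset Bool)) ×ˢ Can n ∧
      (if y.1.2 then y.2 else rv y.2) = s.drop y.1.1 ++ s.take y.1.1 := by
    intro s hs
    rw [mem_W] at hs
    obtain ⟨hl, hS⟩ := hs
    obtain ⟨i, hi, hr⟩ := exists_rooted s (by omega) hS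
    have hS' : SAPw (s.drop i ++ s.take i) := by
      apply SAPw_rotate
      rwa [List.take_append_drop]
    have hl' : (s.drop i ++ s.take i).length = 2 * n := by
      simp; omega
    rcases rooted_steps n hn _ hl' hS' hr with h | h
    · refine ⟨((i, true), s.drop i ++ s.take i), ?_, by simp⟩
      simp only [mem_product, mem_range, mem_univ, and_true, mem_Can]
      exact ⟨by omega, ⟨hl', hS'⟩, h, hr⟩
    · refine ⟨((i, false), rv (s.drop i ++ s.take i)), ?_, by simp [rv_rv]⟩
      simp only [mem_product, mem_range, mem_univ, and_true, mem_Can]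
      refine ⟨by omega, ⟨by simp [rv]; omega, SAPw_rv _ hS'⟩, h, ?_⟩
      intro v hv
      rw [mem_vs_rv _ hS'] at hv
      exact hr v hv
  choose! f hf1 hf2 using hex
  have hcard : (W n).card ≤ ((range (2 * n) ×ˢ (univ : Finset Bool)) ×ˢ Can n).card := by
    refine card_le_card_of_injOn f hf1 ?_
    intro s hs t ht hst
    have e1 := hf2 s hs
    have e2 := hf2 t ht
    rw [hst] at e1
    have e3 : s.drop (f t).1.1 ++ s.take (f t).1.1 = t.drop (f t).1.1 ++ t.take (f t).1.1 :=
      e1.symm.trans e2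
    have hs' := mem_coe.1 hs
    have ht' := mem_coe.1 ht
    rw [mem_W] at hs' ht'
    have h4 := List.append_inj e3 (by simp [hs'.1, ht'.1])
    calc s = s.take (f t).1.1 ++ s.drop (f t).1.1 := (List.take_append_drop _ _).symm
      _ = t.take (f t).1.1 ++ t.drop (f t).1.1 := by rw [h4.1, h4.2]
      _ = t := List.take_append_drop _ _
  rw [card_product, card_product, card_range, card_univ, Fintype.card_bool] at hcard
  calc (W n).card ≤ 2 * n * 2 * (Can n).card := hcard
    _ = 4 * n * (Can n).card := by ring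

lemma can_le_W (n : ℕ) : (Can n).card ≤ (W n).card := by
  classical
  exact card_filter_le _ _

end Pool.Agent.Lib27
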