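import Pool.Agent.Lib_helper27.Bounds

set_option autoImplicit false

namespace Pool.Agent.Lib27

open Finset

/-- contribution of a step to the winding number about the face `f` -/
def wstep (v : ℤ × ℤ) (d : Fin 4) (f : ℤ × ℤ) : ℤ :=
  if d = 1 ∧ v.2 = f.2 ∧ f.1 < v.1 then 1
  else if d = 3 ∧ v.2 = f.2 + 1 ∧ f.1 < v.1 then -1 else 0

def wind (p : ℤ × ℤ) : List (Fin 4) → ℤ × ℤ → ℤ
  | [], _ => 0
  | d :: s, f => wstep p d f + wind (p + dv d) s f

def fstep (u : ℤ × ℤ) (e : Fin 4) (v : ℤ × ℤ) (d : Fin 4) : ℤ :=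
  (if u = v ∧ e = d then 1 else 0) - (if u = v + dv d ∧ e = d + 2 then 1 else 0)

def flow (p : ℤ × ℤ) : List (Fin 4) → ℤ × ℤ → Fin 4 → ℤ
  | [], _, _ => 0
  | e :: s, v, d => fstep p e v d + flow (p + dv e) s v d

/-- the face to the left of the step `g` out of `v` -/
def Q (v : ℤ × ℤ) : Fin 4 → ℤ × ℤ := ![v, (v.1 - 1, v.2), (v.1 - 1, v.2 - 1), (v.1, v.2 - 1)]

def tele (g : Fin 4) (v u : ℤ × ℤ) : ℤ :=
  if g = 0 then (if u.2 = v.2 ∧ v.1 + 1 ≤ u.1 then -1 else 0)
  else if g = 2 then (if u.2 = v.2 ∧ v.1 ≤ u.1 then 1 else 0) else 0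

lemma step_identity (u v : ℤ × ℤ) (e g : Fin 4) :
    wstep u e (Q v g) - wstep u e (Q v (g + 3)) - fstep u e v g =
      tele g v (u + dv e) - tele g v u := by
  obtain ⟨u1, u2⟩ := u
  obtain ⟨v1, v2⟩ := v
  fin_cases g <;> fin_cases e <;>
    simp [wstep, Q, fstep, tele, dv, Prod.ext_iff] <;>
    (try split_ifs) <;> (try omega)

lemma wind_flow (p : ℤ × ℤ) (s : List (Fin 4)) (v : ℤ × ℤ) (g : Fin 4) :
    wind p s (Q v g) - wind p s (Q v (g + 3)) - flow p s v g =
      tele g v (ep p s) - tele g v p := by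
  induction s generalizing p with
  | nil => simp [wind, flow]
  | cons e s ih =>
    have h1 := ih (p + dv e)
    have h2 := step_identity p v e g
    simp only [wind, flow, ep_cons]
    linarith

lemma wind_flow_closed (s : List (Fin 4)) (h : ep 0 s = 0) (v : ℤ × ℤ) (g : Fin 4) :
    wind 0 s (Q v g) - wind 0 s (Q v (g + 3)) = flow 0 s v g := by
  have := wind_flow 0 s v g
  rw [h] at this
  linarith

lemma flow_sum (p : ℤ × ℤ) (s : List (Fin 4)) (v : ℤ × ℤ) (d : Fin 4) :
    flow p s v d = ∑ j ∈ range s.length, fstep (ep p (s.take j)) (s.getD j 0) v d := by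
  induction s generalizing p with
  | nil => simp [flow]
  | cons e s ih =>
    rw [List.length_cons, sum_range_succ', flow, ih]
    simp only [List.take_succ_cons, ep_cons, List.getD_cons_succ, List.take_zero, ep_nil,
      List.getD_cons_zero]
    ring

lemma wind_sum (p : ℤ × ℤ) (s : List (Fin 4)) (f : ℤ × ℤ) :
    wind p s f = ∑ j ∈ range s.length, wstep (ep p (s.take j)) (s.getD j 0) f := by
  induction s generalizing p with
  | nil => simp [wind]
  | cons e s ih =>
    rw [List.length_cons, sum_range_succ', wind, ih]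
    simp only [List.take_succ_cons, ep_cons, List.getD_cons_succ, List.take_zero, ep_nil,
      List.getD_cons_zero]
    ring

lemma fin4_add_two_two (a : Fin 4) : a + 2 + 2 = a := by revert a; decide

lemma f4_1 (d : Fin 4) : d + 1 ≠ d := by revert d; decide
lemma f4_2 (d : Fin 4) : d + 1 ≠ d + 2 := by revert d; decide
lemma f4_3 (d : Fin 4) : d + 1 + 3 = d := by revert d; decide
lemma f4_4 (d : Fin 4) : d + 1 ≠ d + 3 := by revert d; decide
lemma f4_5 (d : Fin 4) : d ≠ d + 3 := by revert d; decide
lemma f4_6 (d : Fin 4) : d ≠ d + 2 := by revert d; decide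
lemma f4_cases (d d' : Fin 4) (h : d' ≠ d + 2) : d' = d + 1 ∨ d' = d ∨ d' = d + 3 := by
  revert d d'; decide

lemma norev (s : List (Fin 4)) (hs : SAPw s) (h3 : 3 ≤ s.length) (j k : ℕ)
    (hj : j < s.length) (hk : k < s.length)
    (h1 : ep 0 (s.take k) = ep 0 (s.take (j + 1))) (h2 : s.getD k 0 = s.getD j 0 + 2) : False := by
  have h4 : ep 0 (s.take (k + 1)) = ep 0 (s.take j) := by
    rw [vertex_succ s k hk, h1, vertex_succ s j hj, h2, dv_add_two]
    abel
  have h0 : ep 0 (s.take s.length) = ep 0 (s.take 0) := by simpa using hs.1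
  have h5 : k + 1 = j ∨ (j = 0 ∧ k + 1 = s.length) := by
    rcases Nat.eq_zero_or_pos j with rfl | hpos
    · right
      refine ⟨rfl, ?_⟩
      have h6 : ep 0 (s.take (k + 1)) = ep 0 (s.take (s.length - 1 + 1)) := by
        rw [h4, Nat.sub_add_cancel (by omega), h0]
      have := arrival_inj s hs k (s.length - 1) hk (by omega) h6
      omega
    · left
      have h6 : ep 0 (s.take (k + 1)) = ep 0 (s.take (j - 1 + 1)) := by
        rw [h4, Nat.sub_add_cancel hpos]
      have := arrival_inj s hs k (j - 1) hk (by omega) h6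
      omega
  rcases Nat.lt_or_ge (j + 1) s.length with h7 | h7
  · have := vertex_inj s hs k (j + 1) hk h7 h1
    omega
  · have h8 : j + 1 = s.length := by omega
    rw [h8, h0] at h1
    have := vertex_inj s hs k 0 hk (by omega) h1
    omega

lemma flow_own (s : List (Fin 4)) (hs : SAPw s) (h3 : 3 ≤ s.length) (j : ℕ)
    (hj : j < s.length) : flow 0 s (ep 0 (s.take j)) (s.getD j 0) = 1 := by
  rw [flow_sum, sum_eq_single j]
  · unfold fstep
    rw [if_pos ⟨rfl, rfl⟩, if_neg]
    · norm_num
    · rintro ⟨h, _⟩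
      exact dv_ne_zero _ (left_eq_add.mp h)
  · intro k hk hkj
    rw [mem_range] at hk
    unfold fstep
    rw [if_neg, if_neg]
    · norm_num
    · rintro ⟨h, h'⟩
      rw [← vertex_succ s j hj] at h
      exact norev s hs h3 j k hj hk h h'
    · rintro ⟨h, _⟩
      exact hkj (vertex_inj s hs k j hk hj h)
  · intro h
    exact absurd (mem_range.2 hj) h

lemma flow_other (s : List (Fin 4)) (hs : SAPw s) (j : ℕ)
    (hj : j + 1 < s.length) (g : Fin 4) (hg : g ≠ s.getD (j + 1) 0) (hg' : g ≠ s.getD j 0 + 2) :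
    flow 0 s (ep 0 (s.take (j + 1))) g = 0 := by
  rw [flow_sum]
  apply sum_eq_zero
  intro k hk
  rw [mem_range] at hk
  unfold fstep
  rw [if_neg, if_neg]
  · norm_num
  · rintro ⟨h, h'⟩
    have h1 : ep 0 (s.take (k + 1)) = ep 0 (s.take (j + 1)) := by
      rw [vertex_succ s k hk, h, h', dv_add_two]
      abel
    have := arrival_inj s hs k j hk (by omega) h1
    subst this
    apply hg'
    rw [h', fin4_add_two_two]
  · rintro ⟨h, h'⟩
    have := vertex_inj s hs k (j + 1) hk hj h
    subst this
    exact hg h'.symm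

lemma Q_shift (v : ℤ × ℤ) (d : Fin 4) : Q v d = Q (v + dv d) (d + 1) := by
  obtain ⟨x, y⟩ := v
  fin_cases d <;> simp [Q, dv] <;> omega

lemma left_const (s : List (Fin 4)) (hs : SAPw s) (h3 : 3 ≤ s.length) (j : ℕ)
    (hj : j < s.length) :
    wind 0 s (Q (ep 0 (s.take j)) (s.getD j 0)) = wind 0 s (Q 0 (s.getD 0 0)) := by
  induction j with
  | zero => simp
  | succ j ih =>
    have ih := ih (by omega)
    rw [← ih, Q_shift (ep 0 (s.take j)), ← vertex_succ s j (by omega)]
    set v := ep 0 (s.take (j + 1)) with hv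
    set d := s.getD j 0 with hd
    set d' := s.getD (j + 1) 0 with hd'
    have hne : d' ≠ d + 2 := by
      intro h
      exact norev s hs h3 j (j + 1) (by omega) hj rfl h
    have hfl : ∀ g, g ≠ d' → g ≠ d + 2 → wind 0 s (Q v g) = wind 0 s (Q v (g + 3)) := by
      intro g h1 h2
      have e1 := wind_flow_closed s hs.1 v g
      rw [flow_other s hs j hj g h1 h2] at e1
      linarith
    rcases f4_cases d d' hne with h | h | h
    · rw [h]
    · have := hfl (d + 1) (by rw [h]; exact f4_1 d) (f4_2 d)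
      rw [this, h, f4_3]
    · have e1 := hfl (d + 1) (by rw [h]; exact f4_4 d) (f4_2 d)
      have e2 := hfl d (by rw [h]; exact f4_5 d) (f4_6 d)
      rw [e1, h, ← e2, f4_3]

lemma right_const (s : List (Fin 4)) (hs : SAPw s) (h3 : 3 ≤ s.length) (j : ℕ)
    (hj : j < s.length) :
    wind 0 s (Q (ep 0 (s.take j)) (s.getD j 0 + 3)) = wind 0 s (Q 0 (s.getD 0 0)) - 1 := by
  have h1 := wind_flow_closed s hs.1 (ep 0 (s.take j)) (s.getD j 0)
  rw [flow_own s hs h3 j hj, left_const s hs h3 j hj] at h1
  linarith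

lemma dv_bound (e : Fin 4) : (dv e).1 ≤ 1 ∧ -1 ≤ (dv e).1 ∧ (dv e).2 ≤ 1 ∧ -1 ≤ (dv e).2 := by
  revert e; decide

lemma ep_bound (p : ℤ × ℤ) (s : List (Fin 4)) :
    (ep p s).1 ≤ p.1 + s.length ∧ p.1 - s.length ≤ (ep p s).1 ∧
    (ep p s).2 ≤ p.2 + s.length ∧ p.2 - s.length ≤ (ep p s).2 := by
  induction s generalizing p with
  | nil => simp
  | cons e s ih =>
    have h1 := ih (p + dv e)
    have h2 := dv_bound e
    simp only [ep_cons, Prod.fst_add, Prod.snd_add, List.length_cons, Nat.cast_add,
      Nat.cast_one] at h1 ⊢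
    omega

lemma vertex_bound (s : List (Fin 4)) (j : ℕ) (hj : j ≤ s.length) :
    (ep 0 (s.take j)).1 ≤ s.length ∧ -(s.length : ℤ) ≤ (ep 0 (s.take j)).1 ∧
    (ep 0 (s.take j)).2 ≤ s.length ∧ -(s.length : ℤ) ≤ (ep 0 (s.take j)).2 := by
  have h1 := ep_bound 0 (s.take j)
  rw [List.length_take, min_eq_left hj] at h1
  simp only [Prod.fst_zero, Prod.snd_zero] at h1
  omega

lemma wind_range (s : List (Fin 4)) (hs : SAPw s) (h3 : 3 ≤ s.length) (f : ℤ × ℤ) :
    wind 0 s f = 0 ∨ wind 0 s f = wind 0 s (Q 0 (s.getD 0 0)) ∨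
      wind 0 s f = wind 0 s (Q 0 (s.getD 0 0)) - 1 := by
  have key : ∀ m : ℕ, ∀ f : ℤ × ℤ, (s.length : ℤ) ≤ f.1 + m → (wind 0 s f = 0 ∨
      wind 0 s f = wind 0 s (Q 0 (s.getD 0 0)) ∨
      wind 0 s f = wind 0 s (Q 0 (s.getD 0 0)) - 1) := by
    intro m
    induction m with
    | zero =>
      intro f hf
      left
      rw [wind_sum]
      apply sum_eq_zero
      intro j hj
      rw [mem_range] at hj
      have hb := vertex_bound s j hj.le
      unfold wstep
      rw [if_neg, if_neg]
      · rintro ⟨_, _, h⟩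
        simp only [Nat.cast_zero, add_zero] at hf
        omega
      · rintro ⟨_, _, h⟩
        simp only [Nat.cast_zero, add_zero] at hf
        omega
    | succ m ih =>
      intro f hf
      have h1 := ih (f.1 + 1, f.2) (by push_cast at hf ⊢; linarith)
      have h2 := wind_flow_closed s hs.1 (f.1 + 1, f.2) 1
      have h4 : Q (f.1 + 1, f.2) 1 = f := by simp [Q]
      have h5 : Q (f.1 + 1, f.2) (1 + 3) = (f.1 + 1, f.2) := by simp [Q]
      rw [h4, h5] at h2
      by_cases hfl : flow 0 s (f.1 + 1, f.2) 1 = 0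
      · rw [hfl] at h2
        have : wind 0 s f = wind 0 s (f.1 + 1, f.2) := by linarith
        rw [this]
        exact h1
      · right
        rw [flow_sum] at hfl
        obtain ⟨j, hj, hj'⟩ := exists_ne_zero_of_sum_ne_zero hfl
        rw [mem_range] at hj
        have h6 : (ep 0 (s.take j) = (f.1 + 1, f.2) ∧ s.getD j 0 = 1) ∨
            (ep 0 (s.take j) = (f.1 + 1, f.2) + dv 1 ∧ s.getD j 0 = 1 + 2) := by
          by_contra hcon
          push Not at hcon
          apply hj'
          unfold fstep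
          rw [if_neg, if_neg]
          · norm_num
          · rintro ⟨h, h'⟩
            exact hcon.2 h h'
          · rintro ⟨h, h'⟩
            exact hcon.1 h h'
        rcases h6 with ⟨h7, h8⟩ | ⟨h7, h8⟩
        · left
          have := left_const s hs h3 j hj
          rw [h7, h8, h4] at this
          exact this
        · right
          have := right_const s hs h3 j hj
          rw [h7, h8] at this
          have h9 : Q ((f.1 + 1, f.2) + dv 1) (1 + 2 + 3) = f := by
            simp [Q, dv]
          rw [h9] at this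
          exact this
  have hb : (s.length : ℤ) ≤ f.1 + ((s.length : ℤ) - f.1).toNat := by
    have := Int.self_le_toNat ((s.length : ℤ) - f.1)
    linarith
  exact key _ f hb

/-- the sum of `x dy` -/
def xdy (p : ℤ × ℤ) : List (Fin 4) → ℤ
  | [] => 0
  | d :: s => p.1 * (dv d).2 + xdy (p + dv d) s

lemma dv_prod (d : Fin 4) : (dv d).1 * (dv d).2 = 0 := by revert d; decide

lemma dbl_eq_xdy (p : ℤ × ℤ) (s : List (Fin 4)) :
    dbl p s = 2 * xdy p s - ((ep p s).1 * (ep p s).2 - p.1 * p.2) := by
  induction s generalizing p with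
  | nil => simp [xdy]
  | cons d s ih =>
    simp only [dbl_cons, xdy, ep_cons]
    rw [ih (p + dv d)]
    have := dv_prod d
    simp only [Prod.fst_add, Prod.snd_add]
    linear_combination this

/-- the box of faces -/
noncomputable def Box (M : ℕ) : Finset (ℤ × ℤ) := Ico (-(M : ℤ)) M ×ˢ Ico (-(M : ℤ)) M

lemma sum_wstep (M : ℕ) (v : ℤ × ℤ) (d : Fin 4) (h1 : -(M : ℤ) ≤ v.1) (h2 : v.1 ≤ M)
    (h3 : -(M : ℤ) < v.2) (h4 : v.2 < M) :
    ∑ f ∈ Box M, wstep v d f = (v.1 + M) * (dv d).2 := by
  have hA : ∀ r : ℤ, -(M : ℤ) ≤ r → r < M → ∀ e : ℤ,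
      ∑ f ∈ Box M, (if r = f.2 ∧ f.1 < v.1 then e else 0) = (v.1 + M) * e := by
    intro r hr1 hr2 e
    rw [← sum_filter]
    have : (Box M).filter (fun f => r = f.2 ∧ f.1 < v.1) = Ico (-(M : ℤ)) v.1 ×ˢ {r} := by
      ext f
      simp only [Box, mem_filter, mem_product, mem_Ico, mem_singleton]
      omega
    rw [this, sum_const, card_product, card_singleton, mul_one, Int.card_Ico, nsmul_eq_mul]
    congr 1
    rw [Int.toNat_of_nonneg (by linarith)]
    ring
  fin_cases d
  · simp [wstep, dv]
  · have h := hA v.2 h3.le h4 1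
    simp only [wstep, dv]
    simpa using h
  · simp [wstep, dv]
  · have h := hA (v.2 - 1) (by omega) (by omega) (-1)
    have e1 : (dv 3).2 = -1 := rfl
    have e2 : ∀ f : ℤ × ℤ, wstep v 3 f = if v.2 - 1 = f.2 ∧ f.1 < v.1 then -1 else 0 := by
      intro f
      unfold wstep
      rw [if_neg (by simp)]
      have : (v.2 = f.2 + 1) ↔ (v.2 - 1 = f.2) := by constructor <;> intro h <;> omega
      simp [this]
    change ∑ f ∈ Box M, wstep v 3 f = (v.1 + M) * (dv 3).2
    rw [e1, ← h]
    exact sum_congr rfl (fun f _ => e2 f)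

lemma sum_wind (M : ℕ) (s : List (Fin 4)) (p : ℤ × ℤ)
    (hb : ∀ j < s.length, -(M : ℤ) ≤ (ep p (s.take j)).1 ∧ (ep p (s.take j)).1 ≤ M ∧
      -(M : ℤ) < (ep p (s.take j)).2 ∧ (ep p (s.take j)).2 < M) :
    ∑ f ∈ Box M, wind p s f = xdy p s + M * ((ep p s).2 - p.2) := by
  induction s generalizing p with
  | nil => simp [wind, xdy]
  | cons d s ih =>
    have h0 := hb 0 (by simp)
    simp only [List.take_zero, ep_nil] at h0
    have h1 := ih (p + dv d) (fun j hj => by
      have := hb (j + 1) (by simpa using hj)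
      simpa using this)
    simp only [wind, sum_add_distrib, xdy, ep_cons]
    rw [h1, sum_wstep M p d h0.1 h0.2.1 h0.2.2.1 h0.2.2.2]
    simp only [Prod.snd_add]
    ring

/-- vertical steps -/
def vertIdx (s : List (Fin 4)) : Finset ℕ :=
  (range s.length).filter (fun j => s.getD j 0 = 1 ∨ s.getD j 0 = 3)

lemma mem_vertIdx (s : List (Fin 4)) (j : ℕ) :
    j ∈ vertIdx s ↔ j < s.length ∧ (s.getD j 0 = 1 ∨ s.getD j 0 = 3) := by
  simp [vertIdx]

/-- if there is a vertical step the left value is `0` or `1` -/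
lemma left_value (s : List (Fin 4)) (hs : SAPw s) (h3 : 3 ≤ s.length)
    (hv : (vertIdx s).Nonempty) :
    wind 0 s (Q 0 (s.getD 0 0)) = 0 ∨ wind 0 s (Q 0 (s.getD 0 0)) = 1 := by
  obtain ⟨j, hj, hmax⟩ := exists_max_image (vertIdx s) (fun j => (ep 0 (s.take j)).1) hv
  have hj' := hj
  rw [mem_vertIdx] at hj'
  obtain ⟨hjl, hjd⟩ := hj'
  have hz : ∀ f : ℤ × ℤ, f.1 = (ep 0 (s.take j)).1 → wind 0 s f = 0 := by
    intro f hf
    rw [wind_sum]
    apply sum_eq_zero
    intro k hk
    rw [mem_range] at hk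
    unfold wstep
    rw [if_neg, if_neg]
    · rintro ⟨h1, _, h2⟩
      have := hmax k ((mem_vertIdx s k).2 ⟨hk, Or.inr h1⟩)
      omega
    · rintro ⟨h1, _, h2⟩
      have := hmax k ((mem_vertIdx s k).2 ⟨hk, Or.inl h1⟩)
      omega
  rcases hjd with h | h
  · right
    have h1 := right_const s hs h3 j hjl
    rw [h, hz _ (by simp [Q])] at h1
    linarith
  · left
    have h1 := left_const s hs h3 j hjl
    rw [h, hz _ (by simp [Q])] at h1
    exact h1.symm

/-- number of vertical steps is at most the absolute shoelace sum -/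
lemma vert_le_dbl (s : List (Fin 4)) (hs : SAPw s) (h3 : 3 ≤ s.length) :
    ((vertIdx s).card : ℤ) ≤ |dbl 0 s| := by
  classical
  rcases (vertIdx s).eq_empty_or_nonempty with he | hv
  · rw [he]; simp
  set l := wind 0 s (Q 0 (s.getD 0 0)) with hl
  have hl01 := left_value s hs h3 hv
  set M := s.length + 2 with hM
  have hsum : ∑ f ∈ Box M, wind 0 s f = xdy 0 s := by
    rw [sum_wind M s 0, hs.1]
    · simp
    · intro j hj
      have := vertex_bound s j hj.le
      rw [hM]; push_cast
      omega
  have hdbl : dbl 0 s = 2 * xdy 0 s := by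
    rw [dbl_eq_xdy, hs.1]; simp
  set I := (Box M).filter (fun f => wind 0 s f ≠ 0) with hI
  -- all nonzero values have the same sign
  have habs : |∑ f ∈ Box M, wind 0 s f| = I.card := by
    have hr := wind_range s hs h3
    rw [← hl] at hr
    have h1 : ∑ f ∈ Box M, wind 0 s f = ∑ f ∈ I, wind 0 s f := by
      rw [hI, sum_filter]
      apply sum_congr rfl
      intro f _
      split_ifs with h
      · rfl
      · push Not at h; exact h
    rw [h1]
    rcases hl01 with h0 | h0
    · have : ∀ f ∈ I, wind 0 s f = -1 := by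
        intro f hf
        rw [hI, mem_filter] at hf
        rcases hr f with h | h | h
        · exact absurd h hf.2
        · rw [← hl] at h0; rw [h0] at h; exact absurd h hf.2
        · rw [← hl] at h0; rw [h, h0]; norm_num
      rw [sum_congr rfl this]
      simp
    · have : ∀ f ∈ I, wind 0 s f = 1 := by
        intro f hf
        rw [hI, mem_filter] at hf
        rcases hr f with h | h | h
        · exact absurd h hf.2
        · rw [← hl] at h0; rw [h0] at h; exact h
        · rw [← hl] at h0; rw [h0] at h; exact absurd (by rw [h]; norm_num) hf.2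
      rw [sum_congr rfl this]
      simp
  -- inner faces
  let g : ℕ → ℤ × ℤ := fun j =>
    if l = 1 then Q (ep 0 (s.take j)) (s.getD j 0) else Q (ep 0 (s.take j)) (s.getD j 0 + 3)
  have hgI : ∀ j ∈ vertIdx s, g j ∈ I := by
    intro j hj
    rw [mem_vertIdx] at hj
    have hb := vertex_bound s j hj.1.le
    have hL := left_const s hs h3 j hj.1
    have hR := right_const s hs h3 j hj.1
    rw [← hl] at hL hR
    rw [hI, mem_filter]
    constructor
    · simp only [Box, mem_product, mem_Ico, hM, g]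
      push_cast
      rcases hj.2 with h | h <;> rw [h] <;> split_ifs <;> simp [Q] <;> omega
    · simp only [g]
      split_ifs with h
      · rw [hL, h]; norm_num
      · have h0 : l = 0 := by
          rcases hl01 with h' | h'
          · exact h'
          · exact absurd h' h
        rw [hR, h0]; norm_num
  have hcard : (vertIdx s).card ≤ I.card * 2 := by
    have := card_le_mul_card_image_of_maps_to hgI 2 ?_
    · rw [mul_comm]; exact this
    · intro f hf
      have : ((vertIdx s).filter (fun j => g j = f)).card ≤ (univ : Finset Bool).card := by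
        refine card_le_card_of_injOn (fun j => decide ((ep 0 (s.take j)).1 = f.1))
          (fun _ _ => mem_univ _) ?_
        intro j hj k hk hjk
        simp only [coe_filter, Set.mem_ofPred_eq, mem_vertIdx] at hj hk
        simp only [decide_eq_decide] at hjk
        obtain ⟨⟨hj1, hj2⟩, hj3⟩ := hj
        obtain ⟨⟨hk1, hk2⟩, hk3⟩ := hk
        have e0 : g j = g k := hj3.trans hk3.symm
        have key : ep 0 (s.take j) = ep 0 (s.take k) ∨
            (ep 0 (s.take j) = ep 0 (s.take (k+1)) ∧ s.getD j 0 = s.getD k 0 + 2) := by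
          rw [vertex_succ s k hk1]
          simp only [g] at e0 hj3 hk3
          rw [← hj3] at hjk
          have hjk' := hjk
          rw [e0] at hjk'
          clear hgI habs hsum hdbl
          generalize ep 0 (s.take j) = u at *
          generalize ep 0 (s.take k) = w at *
          generalize s.getD j 0 = d at *
          generalize s.getD k 0 = e at *
          obtain ⟨u1, u2⟩ := u
          obtain ⟨w1, w2⟩ := w
          rcases hj2 with rfl | rfl <;> rcases hk2 with rfl | rfl <;> split_ifs at * <;>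
            simp [Q, dv, Prod.ext_iff] at * <;> omega
        rcases key with h | ⟨h, h'⟩
        · exact vertex_inj s hs j k hj1 hk1 h
        · exact (norev s hs h3 k j hk1 hj1 h h').elim
      simpa using this
  rw [hdbl, ← hsum, abs_mul, habs]
  have : ((vertIdx s).card : ℤ) ≤ I.card * 2 := by exact_mod_cast hcard
  simp only [Nat.abs_ofNat]
  linarith

/-- quarter turn -/
def rot (v : ℤ × ℤ) : ℤ × ℤ := (-v.2, v.1)

lemma rot_add (u v : ℤ × ℤ) : rot (u + v) = rot u + rot v := by
  simp [rot, Prod.ext_iff]; ring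

lemma rot_dv (d : Fin 4) : rot (dv d) = dv (d + 1) := by revert d; decide

lemma rot_inj : Function.Injective rot := by
  rintro ⟨a, b⟩ ⟨c, d⟩ h
  simp only [rot, Prod.mk.injEq, neg_inj] at h
  rw [h.1, h.2]

lemma ep_rot (p : ℤ × ℤ) (s : List (Fin 4)) : ep (rot p) (s.map (· + 1)) = rot (ep p s) := by
  induction s generalizing p with
  | nil => simp
  | cons d s ih => simp only [List.map_cons, ep_cons, ← rot_dv, ← rot_add, ih]

lemma vs_rot (p : ℤ × ℤ) (s : List (Fin 4)) :
    vs (rot p) (s.map (· + 1)) = (vs p s).map rot := by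
  induction s generalizing p with
  | nil => simp
  | cons d s ih => simp only [List.map_cons, vs_cons, ← rot_dv, ← rot_add, ih]

lemma dbl_rot (p : ℤ × ℤ) (s : List (Fin 4)) : dbl (rot p) (s.map (· + 1)) = dbl p s := by
  induction s generalizing p with
  | nil => simp
  | cons d s ih =>
    simp only [List.map_cons, dbl_cons, ← rot_dv, ← rot_add, ih]
    simp only [rot]
    ring

lemma SAPw_rot (s : List (Fin 4)) (hs : SAPw s) : SAPw (s.map (· + 1)) := by
  have h0 : rot 0 = 0 := by simp [rot]
  constructor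
  · have := ep_rot 0 s
    rw [h0, hs.1, h0] at this
    exact this
  · have := vs_rot 0 s
    rw [h0] at this
    rw [this]
    exact hs.2.map rot_inj

/-- twice the area of a polygon of perimeter `2n` is at least `n` -/
lemma dbl_ge (n : ℕ) (s : List (Fin 4)) (hs : SAPw s) (hl : s.length = 2 * n) (hn : 2 ≤ n) :
    (n : ℤ) ≤ |dbl 0 s| := by
  classical
  have h3 : 3 ≤ s.length := by omega
  have h1 := vert_le_dbl s hs h3
  have h2 := vert_le_dbl (s.map (· + 1)) (SAPw_rot s hs) (by simpa using h3)
  have h0 : rot 0 = 0 := by simp [rot]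
  have h4 := dbl_rot 0 s
  rw [h0] at h4
  rw [h4] at h2
  have h5 : vertIdx s ∪ vertIdx (s.map (· + 1)) = range s.length := by
    ext j
    rw [mem_union, mem_vertIdx, mem_vertIdx, mem_range, List.length_map]
    constructor
    · rintro (h | h) <;> exact h.1
    · intro hj
      have e1 : (s.map (· + 1)).getD j 0 = s.getD j 0 + 1 := by
        rw [List.getD_eq_getElem _ _ (by simpa using hj), List.getD_eq_getElem _ _ hj,
          List.getElem_map]
      rw [e1]
      generalize s.getD j 0 = d
      have : (d = 1 ∨ d = 3) ∨ (d + 1 = 1 ∨ d + 1 = 3) := by revert d; decide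
      tauto
  have h6 := card_union_le (vertIdx s) (vertIdx (s.map (· + 1)))
  rw [h5, card_range, hl] at h6
  have h7 : ((2 * n : ℕ) : ℤ) ≤ (vertIdx s).card + (vertIdx (s.map (· + 1))).card := by
    exact_mod_cast h6
  push_cast at h7
  omega

end Pool.Agent.Lib27
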