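import Pool.Agent.Lib_helper27.Block

set_option autoImplicit false

namespace Pool.Agent.Lib27

open Finset

/-- square box -/
noncomputable def box (R : ℤ) (c : ℤ × ℤ) : Finset (ℤ × ℤ) :=
  Icc (c.1 - R) (c.1 + R) ×ˢ Icc (c.2 - R) (c.2 + R)

lemma mem_box (R : ℤ) (c v : ℤ × ℤ) : v ∈ box R c ↔
    (c.1 - R ≤ v.1 ∧ v.1 ≤ c.1 + R) ∧ (c.2 - R ≤ v.2 ∧ v.2 ≤ c.2 + R) := by
  unfold box; rw [mem_product, mem_Icc, mem_Icc]

lemma box_comm (R : ℤ) (c v : ℤ × ℤ) : v ∈ box R c ↔ c ∈ box R v := by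
  rw [mem_box, mem_box]; constructor <;> intro h <;> omega

lemma box_shift (R : ℤ) (c v : ℤ × ℤ) : v ∈ box R c ↔ v - c ∈ box R 0 := by
  rw [mem_box, mem_box]
  simp only [Prod.fst_sub, Prod.snd_sub, Prod.fst_zero, Prod.snd_zero]
  constructor <;> intro h <;> omega

lemma box_card (R : ℤ) (hR : R ≤ 2) (c : ℤ × ℤ) : (box R c).card ≤ 25 := by
  unfold box
  rw [card_product, Int.card_Icc, Int.card_Icc]
  have h1 : (c.1 + R + 1 - (c.1 - R)).toNat ≤ 5 := by omega
  have h2 : (c.2 + R + 1 - (c.2 - R)).toNat ≤ 5 := by omega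
  calc _ ≤ 5 * 5 := Nat.mul_le_mul h1 h2
    _ = 25 := by norm_num

/-- boundary of the box -/
def ring (R : ℤ) (v : ℤ × ℤ) : Prop := v ∈ box R 0 ∧ v ∉ box (R - 1) 0

/-- `c` is the centre of a window visited only during a short time interval -/
def GoodAt (R : ℤ) (M : ℕ) (s : List (Fin 4)) (c : ℤ × ℤ) : Prop :=
  ∃ l₁ l₂ l₃, s = l₁ ++ l₂ ++ l₃ ∧ l₁ ≠ [] ∧ l₃ ≠ [] ∧ l₂.length ≤ M ∧
    c ∈ vt (ep 0 l₁) l₂ ∧ ep 0 l₁ ∈ box R c ∧ ep 0 (l₁ ++ l₂) ∈ box R c ∧
    (∀ v ∈ vs 0 l₁, v ∉ box R c) ∧ (∀ v ∈ (vt (ep 0 (l₁ ++ l₂)) l₃).tail, v ∉ box R c)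

open Classical in
noncomputable def Gds (R : ℤ) (M : ℕ) (s : List (Fin 4)) : Finset (ℤ × ℤ) :=
  (vset s).filter (GoodAt R M s)

lemma mem_Gds (R : ℤ) (M : ℕ) (s : List (Fin 4)) (c : ℤ × ℤ) :
    c ∈ Gds R M s ↔ c ∈ vset s ∧ GoodAt R M s c := by
  classical
  rw [Gds, mem_filter]

lemma prefix_of_le {l₁ t l₁' t' : List (Fin 4)} (h : l₁ ++ t = l₁' ++ t')
    (hl : l₁.length ≤ l₁'.length) : ∃ u, l₁' = l₁ ++ u ∧ t = u ++ t' := by
  have h2 : l₁ <+: l₁' := by
    apply List.prefix_of_prefix_length_le (l₃ := l₁ ++ t) (List.prefix_append l₁ t)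
      (by rw [h]; exact List.prefix_append l₁' t') hl
  obtain ⟨u, hu⟩ := h2
  subst hu
  refine ⟨u, rfl, ?_⟩
  rw [List.append_assoc] at h
  exact List.append_cancel_left h

lemma ep_mem_vs {p : ℤ × ℤ} {l u : List (Fin 4)} (hu : u ≠ []) : ep p l ∈ vs p (l ++ u) := by
  rw [vs_append, List.mem_append]
  right
  cases u with
  | nil => exact absurd rfl hu
  | cons a u => simp

lemma first_unique (B : Finset (ℤ × ℤ)) {l₁ t l₁' t' : List (Fin 4)} (h : l₁ ++ t = l₁' ++ t')
    (h1 : ep 0 l₁ ∈ B) (h1' : ep 0 l₁' ∈ B) (h2 : ∀ v ∈ vs 0 l₁, v ∉ B)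
    (h2' : ∀ v ∈ vs 0 l₁', v ∉ B) : l₁ = l₁' ∧ t = t' := by
  rcases le_total l₁.length l₁'.length with hl | hl
  · obtain ⟨u, rfl, rfl⟩ := prefix_of_le h hl
    rcases eq_or_ne u [] with rfl | hu
    · simp
    · exact absurd h1 (h2' _ (ep_mem_vs hu))
  · obtain ⟨u, rfl, rfl⟩ := prefix_of_le h.symm hl
    rcases eq_or_ne u [] with rfl | hu
    · simp
    · exact absurd h1' (h2 _ (ep_mem_vs hu))

lemma last_unique (B : Finset (ℤ × ℤ)) (p : ℤ × ℤ) {t l t' l' : List (Fin 4)}
    (h : t ++ l = t' ++ l') (h1 : ep p t ∈ B) (h1' : ep p t' ∈ B)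
    (h2 : ∀ v ∈ (vt (ep p t) l).tail, v ∉ B) (h2' : ∀ v ∈ (vt (ep p t') l').tail, v ∉ B) :
    t = t' ∧ l = l' := by
  have key : ∀ t l t' l' : List (Fin 4), t ++ l = t' ++ l' → ep p t' ∈ B →
      (∀ v ∈ (vt (ep p t) l).tail, v ∉ B) → t.length ≤ t'.length → t = t' ∧ l = l' := by
    intro t l t' l' h h1' h2 hl
    obtain ⟨u, rfl, rfl⟩ := prefix_of_le h hl
    rcases eq_or_ne u [] with rfl | hu
    · simp
    · exfalso
      apply h2 _ _ h1'
      rw [vt_tail_append, List.mem_append, ep_append]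
      left
      exact ep_mem_tail _ _ hu
  rcases le_total t.length t'.length with hl | hl
  · exact key t l t' l' h h1' h2 hl
  · obtain ⟨e1, e2⟩ := key t' l' t l h.symm h1 h2' hl
    exact ⟨e1.symm, e2.symm⟩

/-- a unit step changes coordinates by at most one -/
lemma ring_of_enter (R : ℤ) (c : ℤ × ℤ) (l₁ : List (Fin 4)) (h0 : l₁ ≠ [])
    (hin : ep 0 l₁ ∈ box R c) (hout : ∀ v ∈ vs 0 l₁, v ∉ box R c) : ring R (ep 0 l₁ - c) := by
  obtain ⟨t, d, rfl⟩ : ∃ t d, l₁ = t ++ [d] :=
    ⟨l₁.dropLast, l₁.getLast h0, (List.dropLast_append_getLast h0).symm⟩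
  refine ⟨(box_shift _ _ _).1 hin, fun hcon => ?_⟩
  have h1 := hout (ep 0 t) (ep_mem_vs (by simp))
  apply h1
  rw [ep_append, ep_cons, ep_nil] at hcon
  have h2 := dv_bound d
  rw [mem_box] at hcon ⊢
  simp only [Prod.fst_sub, Prod.snd_sub, Prod.fst_add, Prod.snd_add, Prod.fst_zero,
    Prod.snd_zero] at hcon
  omega

lemma ring_of_exit (R : ℤ) (c q : ℤ × ℤ) (l₃ : List (Fin 4)) (h0 : l₃ ≠ [])
    (hin : q ∈ box R c) (hout : ∀ v ∈ (vt q l₃).tail, v ∉ box R c) : ring R (q - c) := by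
  cases l₃ with
  | nil => exact absurd rfl h0
  | cons d l₃ =>
    refine ⟨(box_shift _ _ _).1 hin, fun hcon => ?_⟩
    have h1 := hout (q + dv d) (by rw [vt_cons, List.tail_cons]; exact mem_vt_self _ _)
    apply h1
    have h2 := dv_bound d
    rw [mem_box] at hcon ⊢
    simp only [Prod.fst_sub, Prod.snd_sub, Prod.fst_zero, Prod.snd_zero] at hcon
    simp only [Prod.fst_add, Prod.snd_add]
    omega

/-- the replacement keeps the word self-avoiding -/
lemma surg_SAW (R : ℤ) (c : ℤ × ℤ) (l₁ l₂ l₃ f : List (Fin 4)) (hs : SAWs (l₁ ++ l₂ ++ l₃))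
    (hout1 : ∀ v ∈ vs 0 l₁, v ∉ box R c)
    (hout3 : ∀ v ∈ (vt (ep 0 (l₁ ++ l₂)) l₃).tail, v ∉ box R c)
    (hep : ep (ep 0 l₁) f = ep 0 (l₁ ++ l₂)) (hf : (vt (ep 0 l₁) f).Nodup)
    (hbox : ∀ v ∈ vt (ep 0 l₁) f, v ∈ box R c) : SAWs (l₁ ++ f ++ l₃) := by
  unfold SAWs at *
  have e1 : vt 0 (l₁ ++ f ++ l₃) =
      vs 0 l₁ ++ (vt (ep 0 l₁) f ++ (vt (ep 0 (l₁ ++ l₂)) l₃).tail) := by
    rw [vt_append', vt_append, ep_append, hep, List.append_assoc]
  have e2 : vt 0 (l₁ ++ l₂ ++ l₃) =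
      vs 0 l₁ ++ (vt (ep 0 l₁) l₂ ++ (vt (ep 0 (l₁ ++ l₂)) l₃).tail) := by
    rw [vt_append', vt_append, List.append_assoc]
  rw [e2] at hs
  rw [List.nodup_append', List.nodup_append'] at hs
  obtain ⟨h1, ⟨_, h2, _⟩, h3⟩ := hs
  rw [e1, List.nodup_append', List.nodup_append']
  refine ⟨h1, ⟨hf, h2, ?_⟩, ?_⟩
  · intro v hv hv'
    exact hout3 v hv' (hbox v hv)
  · intro v hv hv'
    rw [List.mem_append] at hv'
    rcases hv' with hv' | hv'
    · exact hout1 v hv (hbox v hv')
    · exact h3 hv (List.mem_append_right _ hv')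

/-- vertices close in time to position `i` -/
def nearIdx (M : ℕ) (s : List (Fin 4)) (i : ℕ) : Finset (ℤ × ℤ) :=
  (range (2 * M + 1)).image (fun k => ep 0 (s.take (i + k - M)))

lemma nearIdx_card (M : ℕ) (s : List (Fin 4)) (i : ℕ) : (nearIdx M s i).card ≤ 2 * M + 1 := by
  unfold nearIdx
  exact card_image_le.trans (by rw [card_range])

lemma mem_vt_iff (p : ℤ × ℤ) (s : List (Fin 4)) (v : ℤ × ℤ) :
    v ∈ vt p s ↔ ∃ u t, s = u ++ t ∧ v = ep p u := by
  constructor
  · intro h
    obtain ⟨l₁, l₂, h1, h2, _⟩ := split_first (fun w => w = v) s p ⟨v, h, rfl⟩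
    exact ⟨l₁, l₂, h1, h2.symm⟩
  · rintro ⟨u, t, rfl, rfl⟩
    rw [vt_append, List.mem_append]
    right
    exact mem_vt_self _ _

/-- good windows away from the modification stay good -/
lemma good_stay (R : ℤ) (hR : R ≤ 2) (M : ℕ) (l₁ l₂ l₃ f : List (Fin 4))
    (h0 : l₁ ≠ []) (hep : ep (ep 0 l₁) f = ep 0 (l₁ ++ l₂)) (hl : l₂.length ≤ M)
    (hfl : f.length ≤ 24) :
    (Gds R M (l₁ ++ l₂ ++ l₃)).card ≤ (Gds R M (l₁ ++ f ++ l₃)).card + (700 + 28 * M) := by
  classical
  set s := l₁ ++ l₂ ++ l₃ with hs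
  set s' := l₁ ++ f ++ l₃ with hs'
  set p := ep 0 l₁ with hp
  set q := ep 0 (l₁ ++ l₂) with hq
  have hsub : Gds R M s ⊆ Gds R M s' ∪ ((vt p f).toFinset.biUnion (box R) ∪
      ((vt p l₂).toFinset.biUnion (box R) ∪ nearIdx M s l₁.length)) := by
    intro c hc
    by_contra hcon
    simp only [mem_union, not_or, mem_biUnion, List.mem_toFinset, not_exists, not_and] at hcon
    obtain ⟨hn, hf, hl₂, hnear⟩ := hcon
    have hf' : ∀ v ∈ vt p f, v ∉ box R c := fun v hv h => hf v hv ((box_comm _ _ _).1 h)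
    have hl₂' : ∀ v ∈ vt p l₂, v ∉ box R c := fun v hv h => hl₂ v hv ((box_comm _ _ _).1 h)
    rw [mem_Gds] at hc
    obtain ⟨_, m₁, m₂, m₃, hdec, hm1, hm3, hmM, hcv, hb1, hb2, ho1, ho3⟩ := hc
    apply hn
    have hcs' : ∀ u₁ u₂ u₃ : List (Fin 4), s' = u₁ ++ u₂ ++ u₃ → c ∈ vt (ep 0 u₁) u₂ →
        c ∈ vset s' := by
      intro u₁ u₂ u₃ h1 h2
      rw [mem_vset, h1, vt_append', List.mem_append, vt_append, List.mem_append]
      left; right; exact h2
    rcases Nat.lt_or_ge l₁.length (m₁ ++ m₂).length with hA | hA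
    · rcases Nat.lt_or_ge m₁.length (l₁ ++ l₂).length with hB | hB
      · -- the straddling case
        exfalso
        -- the entrance is before `l₁`
        have h1 : m₁.length < l₁.length := by
          by_contra hcon
          push Not at hcon
          obtain ⟨u, hu, -⟩ := prefix_of_le (l₁ := l₁) (t := l₂ ++ l₃) (l₁' := m₁) (t' := m₂ ++ m₃)
            (by rw [← List.append_assoc, ← hs, hdec, List.append_assoc]) hcon
          obtain ⟨u', hu', -⟩ := prefix_of_le (l₁ := m₁) (t := m₂ ++ m₃) (l₁' := l₁ ++ l₂) (t' := l₃)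
            (by rw [← hs, hdec, List.append_assoc]) hB.le
          rw [hu, List.append_assoc] at hu'
          have h2 : l₂ = u ++ u' := List.append_cancel_left hu'
          apply hl₂' (ep 0 m₁) _ hb1
          rw [hu, ep_append, mem_vt_iff]
          exact ⟨u, u', h2, rfl⟩
        have h2 : (l₁ ++ l₂).length < (m₁ ++ m₂).length := by
          by_contra hcon
          push Not at hcon
          obtain ⟨u, hu, -⟩ := prefix_of_le (l₁ := l₁) (t := l₂ ++ l₃) (l₁' := m₁ ++ m₂) (t' := m₃)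
            (by rw [← List.append_assoc, ← hs, hdec]) hA.le
          obtain ⟨u', hu', -⟩ := prefix_of_le (l₁ := m₁ ++ m₂) (t := m₃) (l₁' := l₁ ++ l₂) (t' := l₃)
            (by rw [← hs, hdec]) hcon
          rw [hu, List.append_assoc] at hu'
          have h3 : l₂ = u ++ u' := List.append_cancel_left hu'
          apply hl₂' (ep 0 (m₁ ++ m₂)) _ hb2
          rw [hu, ep_append, mem_vt_iff]
          exact ⟨u, u', h3, rfl⟩
        apply hnear
        rw [mem_vt_iff] at hcv
        obtain ⟨u, t, hut, hcu⟩ := hcv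
        unfold nearIdx
        rw [mem_image]
        have hlen : u.length ≤ m₂.length := by rw [hut, List.length_append]; omega
        rw [List.length_append] at h2
        rw [List.length_append] at h2
        refine ⟨m₁.length + u.length + M - l₁.length, ?_, ?_⟩
        · rw [mem_range]; omega
        · have e1 : l₁.length + (m₁.length + u.length + M - l₁.length) - M =
              (m₁ ++ u).length := by rw [List.length_append]; omega
          rw [e1, hdec, hut]
          have e2 : m₁ ++ (u ++ t) ++ m₃ = (m₁ ++ u) ++ (t ++ m₃) := by simp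
          rw [e2, List.take_left', ep_append, ← hcu]
          rfl
      · -- the window is visited after the modification
        obtain ⟨t, ht, ht'⟩ := prefix_of_le (l₁ := l₁ ++ l₂) (t := l₃) (l₁' := m₁) (t' := m₂ ++ m₃)
            (by rw [← hs, hdec, List.append_assoc]) hB
        have e1 : ep 0 (l₁ ++ f ++ t) = ep 0 m₁ := by
          rw [ht, ep_append, ep_append, hep, ep_append _ _ t]
        have e0 : s' = (l₁ ++ f ++ t) ++ m₂ ++ m₃ := by
          rw [hs', ht']; simp
        rw [mem_Gds]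
        refine ⟨hcs' _ _ _ e0 (by rw [e1]; exact hcv), l₁ ++ f ++ t, m₂, m₃, e0, ?_, hm3, hmM,
          by rw [e1]; exact hcv, by rw [e1]; exact hb1, ?_, ?_, ?_⟩
        · intro h
          simp only [List.append_eq_nil_iff] at h
          exact h0 h.1.1
        · rw [ep_append, e1, ← ep_append]; exact hb2
        · intro v hv
          rw [vs_append, vs_append, List.mem_append, List.mem_append] at hv
          rcases hv with (hv | hv) | hv
          · apply ho1
            rw [ht, vs_append, vs_append, List.mem_append, List.mem_append]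
            left; left; exact hv
          · exact hf' v (by unfold vt; exact List.mem_append_left _ hv)
          · apply ho1
            rw [ht, vs_append, List.mem_append]
            right
            rw [ep_append, hep] at hv
            exact hv
        · rw [ep_append, e1, ← ep_append]; exact ho3
    · -- the window is visited before the modification
      obtain ⟨t, ht, ht'⟩ := prefix_of_le (l₁ := m₁ ++ m₂) (t := m₃) (l₁' := l₁) (t' := l₂ ++ l₃)
          (by rw [← hdec, hs, List.append_assoc]) hA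
      have ht0 : t ≠ [] := by
        rintro rfl
        rw [List.append_nil] at ht
        apply hl₂' p (mem_vt_self _ _)
        rw [hp, ht]; exact hb2
      have e0 : s' = m₁ ++ m₂ ++ (t ++ f ++ l₃) := by
        rw [hs', ht]; simp
      rw [mem_Gds]
      refine ⟨hcs' _ _ _ e0 hcv, m₁, m₂, t ++ f ++ l₃, e0, hm1, ?_, hmM, hcv, hb1, hb2, ho1, ?_⟩
      · intro h
        simp only [List.append_eq_nil_iff] at h
        exact ht0 h.1.1
      · intro v hv
        have hpt : ep (ep 0 (m₁ ++ m₂)) t = p := by rw [hp, ht, ep_append _ _ t]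
        rw [vt_tail_append, vt_tail_append, List.mem_append, List.mem_append, hpt] at hv
        rw [ht', vt_tail_append, vt_tail_append, hpt] at ho3
        rcases hv with (hv | hv) | hv
        · exact ho3 v (List.mem_append_left _ hv)
        · exact hf' v (List.mem_of_mem_tail hv)
        · apply ho3 v
          apply List.mem_append_right
          apply List.mem_append_right
          rw [ep_append, hpt, hep] at hv
          have : ep p l₂ = q := by rw [hq, ep_append]
          rw [this]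
          exact hv
  have hc1 : ((vt p f).toFinset.biUnion (box R)).card ≤ 25 * 25 := by
    refine card_biUnion_le.trans ?_
    calc ∑ u ∈ (vt p f).toFinset, (box R u).card ≤ ∑ u ∈ (vt p f).toFinset, 25 :=
          sum_le_sum fun u _ => box_card R hR u
      _ = (vt p f).toFinset.card * 25 := by rw [sum_const, smul_eq_mul]
      _ ≤ 25 * 25 := by
          apply Nat.mul_le_mul_right
          refine (List.toFinset_card_le _).trans ?_
          rw [vt_length]; omega
  have hc2 : ((vt p l₂).toFinset.biUnion (box R)).card ≤ (M + 1) * 25 := by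
    refine card_biUnion_le.trans ?_
    calc ∑ u ∈ (vt p l₂).toFinset, (box R u).card ≤ ∑ u ∈ (vt p l₂).toFinset, 25 :=
          sum_le_sum fun u _ => box_card R hR u
      _ = (vt p l₂).toFinset.card * 25 := by rw [sum_const, smul_eq_mul]
      _ ≤ (M + 1) * 25 := by
          apply Nat.mul_le_mul_right
          refine (List.toFinset_card_le _).trans ?_
          rw [vt_length]; omega
  have hc3 := nearIdx_card M s l₁.length
  have h1 := card_le_card hsub
  have h2 := card_union_le (Gds R M s') ((vt p f).toFinset.biUnion (box R) ∪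
      ((vt p l₂).toFinset.biUnion (box R) ∪ nearIdx M s l₁.length))
  have h3 := card_union_le ((vt p f).toFinset.biUnion (box R))
      ((vt p l₂).toFinset.biUnion (box R) ∪ nearIdx M s l₁.length)
  have h4 := card_union_le ((vt p l₂).toFinset.biUnion (box R)) (nearIdx M s l₁.length)
  omega

end Pool.Agent.Lib27
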