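import Pool.Agent.Lib_helper27.Bridge

set_option autoImplicit false

namespace Pool.Agent.Lib27

open Finset

lemma vt_rv (p : ℤ × ℤ) (s : List (Fin 4)) : vt (ep p s) (rv s) = (vt p s).reverse := by
  have := vs_rv p s
  unfold vt
  rw [ep_rv]
  exact this

lemma Hs_sub (N : ℕ) : Hs N ⊆ Hsa N N := by
  intro s hs
  rw [mem_Hs] at hs
  rw [mem_Hsa]
  refine ⟨hs.1, hs.2, ?_⟩
  intro v hv
  -- every vertex is at distance at most the length
  have key : ∀ (s : List (Fin 4)) (p v : ℤ × ℤ), v ∈ vt p s → v.1 ≤ p.1 + s.length := by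
    intro s
    induction s with
    | nil =>
      intro p v hv
      simp only [vt_nil, List.mem_singleton] at hv
      subst hv
      simp
    | cons d s ih =>
      intro p v hv
      rw [vt_cons, List.mem_cons] at hv
      rcases hv with rfl | hv
      · simp
        positivity
      · have h1 := ih _ _ hv
        have h2 := (dv_bound d).1
        rw [Prod.fst_add] at h1
        simp only [List.length_cons, Nat.cast_add, Nat.cast_one]
        omega
  have := key s 0 v hv
  rw [hs.1] at this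
  simpa using this

lemma prod_bound (y : ℝ) (hy : 0 < y) (hy1 : y < 1) (A : ℕ) :
    ∏ a ∈ range A, (1 + y ^ (a + 1)) ≤ Real.exp (1 / (1 - y)) := by
  have h1 : ∏ a ∈ range A, (1 + y ^ (a + 1)) ≤ Real.exp (∑ a ∈ range A, y ^ (a + 1)) := by
    rw [Real.exp_sum]
    apply prod_le_prod
    · intro a _; positivity
    · intro a _
      have := Real.add_one_le_exp (y ^ (a + 1))
      linarith
  refine h1.trans (Real.exp_le_exp.2 ?_)
  have h2 : ∑ a ∈ range A, y ^ (a + 1) ≤ ∑ a ∈ range A, y ^ a := by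
    apply sum_le_sum
    intro a _
    exact pow_le_pow_of_le_one hy.le hy1.le (by omega)
  refine h2.trans ?_
  rw [geom_sum_eq hy1.ne, ← neg_div_neg_eq, neg_sub, neg_sub]
  apply div_le_div_of_nonneg_right _ (by linarith)
  have : 0 < y ^ A := by positivity
  linarith

lemma Hs_bound (y : ℝ) (hy : 0 < y) (hy1 : y < 1) (N : ℕ) :
    ((Hs N).card : ℝ) * y ^ N ≤ (Br N).card * Real.exp (1 / (1 - y)) := by
  have h1 : ((Hs N).card : ℝ) ≤ (Hsa N N).card := by exact_mod_cast card_le_card (Hs_sub N)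
  calc ((Hs N).card : ℝ) * y ^ N ≤ (Hsa N N).card * y ^ N :=
        mul_le_mul_of_nonneg_right h1 (by positivity)
    _ ≤ (Br N).card * ∏ a ∈ range N, (1 + y ^ (a + 1)) := Hsa_bound y hy hy1.le N N
    _ ≤ _ := mul_le_mul_of_nonneg_left (prod_bound y hy hy1 N) (by positivity)

/-- a leftmost vertex -/
lemma exists_min_vertex (s : List (Fin 4)) (p : ℤ × ℤ) :
    ∃ v ∈ vt p s, ∀ w ∈ vt p s, v.1 ≤ w.1 := by
  classical
  obtain ⟨v, hv, hmin⟩ := Finset.exists_min_image (vt p s).toFinset (fun v => v.1)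
    ⟨p, by rw [List.mem_toFinset]; exact mem_vt_self p s⟩
  exact ⟨v, List.mem_toFinset.1 hv, fun w hw => hmin w (List.mem_toFinset.2 hw)⟩

lemma Cs_le_Hs (N : ℕ) :
    (Cs N).card ≤ ∑ m ∈ range (N + 1), (Hs (m + 1)).card * (Hs (N - m)).card := by
  classical
  have hsub : Cs N ⊆ (range (N + 1)).biUnion (fun m =>
      (Hs (m + 1) ×ˢ Hs (N - m)).image (fun x => rv x.1.tail ++ x.2)) := by
    intro s hs
    rw [mem_Cs] at hs
    obtain ⟨hl, hsaw⟩ := hs
    have hex : ∃ v ∈ vt 0 s, (∀ w ∈ vt 0 s, v.1 ≤ w.1) := exists_min_vertex s 0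
    obtain ⟨l₁, l₂, heq, hP, hlast⟩ := split_last (fun v => ∀ w ∈ vt 0 s, v.1 ≤ w.1) s 0 hex
    subst heq
    obtain ⟨hs1, hs2⟩ := SAWs_append _ _ hsaw
    rw [List.length_append] at hl
    rw [mem_biUnion]
    refine ⟨l₁.length, by rw [mem_range]; omega, ?_⟩
    rw [mem_image]
    refine ⟨(0 :: rv l₁, l₂), ?_, ?_⟩
    · rw [mem_product, mem_Hs, mem_Hs]
      refine ⟨⟨?_, ?_, ?_⟩, ⟨?_, hs2, ?_⟩⟩
      · simp [rv]
      · -- self-avoiding
        unfold SAWs
        rw [vt_cons, List.nodup_cons]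
        have h1 : vt (0 + dv 0) (rv l₁) = (vt (ep 0 l₁) (rv l₁)).map (· + (dv 0 - ep 0 l₁)) := by
          rw [← vt_add]
          congr 1
          abel
        constructor
        · intro h
          rw [h1, vt_rv, List.mem_map] at h
          obtain ⟨w, hw, hw0⟩ := h
          rw [List.mem_reverse] at hw
          have h2 := hP w (by rw [vt_append', List.mem_append]; left; exact hw)
          have h3 : w.1 + (1 - (ep 0 l₁).1) = 0 := by
            have := congrArg Prod.fst hw0
            simpa [dv] using this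
          omega
        · rw [h1]
          apply List.Nodup.map (add_left_injective _)
          rw [vt_rv, List.nodup_reverse]
          exact hs1
      · intro v hv
        rw [vt_cons, List.tail_cons] at hv
        have h1 : vt (0 + dv 0) (rv l₁) = (vt (ep 0 l₁) (rv l₁)).map (· + (dv 0 - ep 0 l₁)) := by
          rw [← vt_add]
          congr 1
          abel
        rw [h1, vt_rv, List.mem_map] at hv
        obtain ⟨w, hw, rfl⟩ := hv
        rw [List.mem_reverse] at hw
        have h2 := hP w (by rw [vt_append', List.mem_append]; left; exact hw)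
        have h3 : (w + (dv 0 - ep 0 l₁)).1 = w.1 + (1 - (ep 0 l₁).1) := by simp [dv]
        rw [h3]
        omega
      · show l₂.length = N - l₁.length
        omega
      · intro v hv
        have h1 : v + ep 0 l₁ ∈ (vt (ep 0 l₁) l₂).tail := by
          rw [vt_tail_map, List.mem_map]
          exact ⟨v, hv, rfl⟩
        have h2 := hlast _ h1
        push Not at h2
        obtain ⟨w, hw, hlt⟩ := h2
        have h3 := hP w hw
        rw [Prod.fst_add] at hlt
        omega
    · show rv (rv l₁) ++ l₂ = _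
      rw [rv_rv]
  refine (card_le_card hsub).trans (card_biUnion_le.trans ?_)
  apply sum_le_sum
  intro m _
  refine card_image_le.trans ?_
  rw [card_product]

theorem Cs_Br_y (y : ℝ) (hy : 0 < y) (hy1 : y < 1) (N : ℕ) :
    ((Cs N).card : ℝ) * y ^ (N + 1) ≤ (N + 1) * Real.exp (2 / (1 - y)) * (Br (N + 1)).card := by
  have h1 : ((Cs N).card : ℝ) ≤ ∑ m ∈ range (N + 1), ((Hs (m + 1)).card : ℝ) * (Hs (N - m)).card := by
    exact_mod_cast Cs_le_Hs N
  have h2 : ∀ m ∈ range (N + 1), ((Hs (m + 1)).card : ℝ) * (Hs (N - m)).card * y ^ (N + 1) ≤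
      Real.exp (2 / (1 - y)) * (Br (N + 1)).card := by
    intro m hm
    rw [mem_range] at hm
    have h3 := Hs_bound y hy hy1 (m + 1)
    have h4 := Hs_bound y hy hy1 (N - m)
    have h5 : y ^ (N + 1) = y ^ (m + 1) * y ^ (N - m) := by
      rw [← pow_add]; congr 1; omega
    have h6 : Real.exp (2 / (1 - y)) = Real.exp (1 / (1 - y)) * Real.exp (1 / (1 - y)) := by
      rw [← Real.exp_add]; congr 1; ring
    have h7 : ((Br (m + 1)).card : ℝ) * (Br (N - m)).card ≤ (Br (N + 1)).card := by
      have := Br_mul (m + 1) (N - m)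
      rw [show m + 1 + (N - m) = N + 1 by omega] at this
      exact_mod_cast this
    calc ((Hs (m + 1)).card : ℝ) * (Hs (N - m)).card * y ^ (N + 1)
        = ((Hs (m + 1)).card * y ^ (m + 1)) * ((Hs (N - m)).card * y ^ (N - m)) := by
          rw [h5]; ring
      _ ≤ ((Br (m + 1)).card * Real.exp (1 / (1 - y))) *
          ((Br (N - m)).card * Real.exp (1 / (1 - y))) :=
          mul_le_mul h3 h4 (by positivity) (by positivity)
      _ = (Real.exp (1 / (1 - y)) * Real.exp (1 / (1 - y))) *
          ((Br (m + 1)).card * (Br (N - m)).card) := by ring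
      _ ≤ _ := by
          rw [h6]
          exact mul_le_mul_of_nonneg_left h7 (by positivity)
  calc ((Cs N).card : ℝ) * y ^ (N + 1)
      ≤ (∑ m ∈ range (N + 1), ((Hs (m + 1)).card : ℝ) * (Hs (N - m)).card) * y ^ (N + 1) :=
        mul_le_mul_of_nonneg_right h1 (by positivity)
    _ = ∑ m ∈ range (N + 1), ((Hs (m + 1)).card : ℝ) * (Hs (N - m)).card * y ^ (N + 1) := by
        rw [sum_mul]
    _ ≤ ∑ m ∈ range (N + 1), Real.exp (2 / (1 - y)) * (Br (N + 1)).card := sum_le_sum h2
    _ = _ := by rw [sum_const, card_range, nsmul_eq_mul]; push_cast; ring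

/-- the Hammersley-Welsh bound -/
theorem Cs_Br (N : ℕ) : ((Cs N).card : ℝ) ≤
    (N + 1) * Real.exp (5 * Real.sqrt (N + 1)) * (Br (N + 1)).card := by
  set r := Real.sqrt (N + 1) with hr
  have hr0 : 0 < r := Real.sqrt_pos.2 (by positivity)
  have hr1 : 1 ≤ r := by
    rw [hr]
    apply Real.one_le_sqrt.2
    have : (0 : ℝ) ≤ N := by positivity
    linarith
  have hr2 : r * r = N + 1 := Real.mul_self_sqrt (by positivity)
  set δ := 1 / (2 * r) with hδ
  have hδ0 : 0 < δ := by positivity
  have hδ1 : δ ≤ 1 / 2 := by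
    rw [hδ]
    apply div_le_div_of_nonneg_left (by norm_num) (by norm_num)
    linarith
  have h1 := Cs_Br_y (1 - δ) (by linarith) (by linarith) N
  have h2 : Real.exp (-r) ≤ (1 - δ) ^ (N + 1) := by
    have h3 : Real.exp (-2 * δ) ≤ 1 - δ := by
      -- exp(-2δ) (1 + 2δ) ≤ 1 and (1-δ)(1+2δ) ≥ 1
      have h4 := Real.add_one_le_exp (2 * δ)
      have h5 : Real.exp (-2 * δ) * Real.exp (2 * δ) = 1 := by
        rw [← Real.exp_add]; simp
      have h6 : 0 < Real.exp (-2 * δ) := Real.exp_pos _
      have h7 : Real.exp (-2 * δ) * (2 * δ + 1) ≤ 1 := by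
        calc Real.exp (-2 * δ) * (2 * δ + 1) ≤ Real.exp (-2 * δ) * Real.exp (2 * δ) :=
              mul_le_mul_of_nonneg_left h4 h6.le
          _ = 1 := h5
      have h8 : 1 ≤ (1 - δ) * (2 * δ + 1) := by nlinarith
      have h9 : 0 < 2 * δ + 1 := by linarith
      by_contra hcon
      push Not at hcon
      nlinarith
    calc Real.exp (-r) = Real.exp (-2 * δ) ^ (N + 1) := by
          rw [← Real.exp_nat_mul]
          congr 1
          rw [hδ]
          push_cast
          rw [← hr2]
          field_simp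
      _ ≤ _ := pow_le_pow_left₀ (Real.exp_pos _).le h3 _
  have h3 : 2 / (1 - (1 - δ)) = 4 * r := by
    rw [hδ]; field_simp; ring
  rw [h3] at h1
  have h4 : ((Cs N).card : ℝ) * Real.exp (-r) ≤ (N + 1) * Real.exp (4 * r) * (Br (N + 1)).card :=
    (mul_le_mul_of_nonneg_left h2 (by positivity)).trans h1
  have h5 : Real.exp (5 * r) = Real.exp (4 * r) * Real.exp r := by
    rw [← Real.exp_add]; congr 1; ring
  have h6 : Real.exp (-r) * Real.exp r = 1 := by rw [← Real.exp_add]; simp
  calc ((Cs N).card : ℝ) = (Cs N).card * (Real.exp (-r) * Real.exp r) := by rw [h6, mul_one]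
    _ = ((Cs N).card * Real.exp (-r)) * Real.exp r := by ring
    _ ≤ ((N + 1) * Real.exp (4 * r) * (Br (N + 1)).card) * Real.exp r :=
        mul_le_mul_of_nonneg_right h4 (Real.exp_pos _).le
    _ = _ := by rw [h5]; ring

end Pool.Agent.Lib27
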