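import Pool.Agent.Lib_helper27.Saw

set_option autoImplicit false

namespace Pool.Agent.Lib27

open Finset

lemma split_last (P : ℤ × ℤ → Prop) (s : List (Fin 4)) (p : ℤ × ℤ) (h : ∃ v ∈ vt p s, P v) :
    ∃ l₁ l₂, s = l₁ ++ l₂ ∧ P (ep p l₁) ∧ ∀ v ∈ (vt (ep p l₁) l₂).tail, ¬ P v := by
  induction s generalizing p with
  | nil =>
    refine ⟨[], [], rfl, ?_, by simp⟩
    obtain ⟨v, hv, hP⟩ := h
    simp only [vt_nil, List.mem_singleton] at hv
    subst hv
    exact hP
  | cons d s ih =>
    by_cases h1 : ∃ v ∈ vt (p + dv d) s, P v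
    · obtain ⟨l₁, l₂, h2, h3, h4⟩ := ih (p + dv d) h1
      exact ⟨d :: l₁, l₂, by rw [h2]; rfl, h3, h4⟩
    · push Not at h1
      refine ⟨[], d :: s, rfl, ?_, ?_⟩
      · obtain ⟨v, hv, hP⟩ := h
        rw [vt_cons, List.mem_cons] at hv
        rcases hv with rfl | hv
        · exact hP
        · exact absurd hP (h1 v hv)
      · intro v hv
        simp only [ep_nil, vt_cons, List.tail_cons] at hv
        exact h1 v hv

lemma split_first (P : ℤ × ℤ → Prop) (s : List (Fin 4)) (p : ℤ × ℤ) (h : ∃ v ∈ vt p s, P v) :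
    ∃ l₁ l₂, s = l₁ ++ l₂ ∧ P (ep p l₁) ∧ ∀ v ∈ vs p l₁, ¬ P v := by
  induction s generalizing p with
  | nil =>
    refine ⟨[], [], rfl, ?_, by simp⟩
    obtain ⟨v, hv, hP⟩ := h
    simp only [vt_nil, List.mem_singleton] at hv
    subst hv
    exact hP
  | cons d s ih =>
    by_cases hp : P p
    · exact ⟨[], d :: s, rfl, hp, by simp⟩
    · have h1 : ∃ v ∈ vt (p + dv d) s, P v := by
        obtain ⟨v, hv, hP⟩ := h
        rw [vt_cons, List.mem_cons] at hv
        rcases hv with rfl | hv
        · exact absurd hP hp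
        · exact ⟨v, hv, hP⟩
      obtain ⟨l₁, l₂, h2, h3, h4⟩ := ih (p + dv d) h1
      refine ⟨d :: l₁, l₂, by rw [h2]; rfl, h3, ?_⟩
      intro v hv
      rw [vs_cons, List.mem_cons] at hv
      rcases hv with rfl | hv
      · exact hp
      · exact h4 v hv

lemma vt_tail_append (p : ℤ × ℤ) (s t : List (Fin 4)) :
    (vt p (s ++ t)).tail = (vt p s).tail ++ (vt (ep p s) t).tail := by
  rw [vt_append', vt_head p s]
  simp

lemma vt_tail_map (p : ℤ × ℤ) (s : List (Fin 4)) :
    (vt p s).tail = (vt 0 s).tail.map (· + p) := by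
  rw [vt_eq, List.map_tail]

lemma mem_tail_shift (p : ℤ × ℤ) (s : List (Fin 4)) (v : ℤ × ℤ) (h : v ∈ (vt p s).tail) :
    v - p ∈ (vt 0 s).tail := by
  rw [vt_tail_map, List.mem_map] at h
  obtain ⟨w, hw, rfl⟩ := h
  simpa using hw

lemma ep_mem_tail (p : ℤ × ℤ) (s : List (Fin 4)) (h : s ≠ []) : ep p s ∈ (vt p s).tail := by
  cases s with
  | nil => exact absurd rfl h
  | cons d s =>
    rw [vt_cons, List.tail_cons, ep_cons]
    exact ep_mem_vt _ _

/-- reflection of steps -/
def rx (d : Fin 4) : Fin 4 := ![2, 1, 0, 3] d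

lemma rx_rx (d : Fin 4) : rx (rx d) = d := by revert d; decide

lemma dv_rx (d : Fin 4) : dv (rx d) = (-(dv d).1, (dv d).2) := by revert d; decide

/-- reflected word -/
def refl (s : List (Fin 4)) : List (Fin 4) := s.map rx

lemma refl_refl (s : List (Fin 4)) : refl (refl s) = s := by
  unfold refl
  rw [List.map_map]
  conv_rhs => rw [← List.map_id s]
  apply List.map_congr_left
  intro d _
  exact rx_rx d

lemma vt_refl (s : List (Fin 4)) (p : ℤ × ℤ) :
    vt (-p.1, p.2) (refl s) = (vt p s).map (fun v => (-v.1, v.2)) := by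
  induction s generalizing p with
  | nil => simp [refl]
  | cons d s ih =>
    show vt _ (rx d :: refl s) = _
    rw [vt_cons, vt_cons, List.map_cons, ← ih (p + dv d), dv_rx]
    congr 2
    ext
    · simp; ring
    · simp

lemma vt_refl0 (s : List (Fin 4)) : vt 0 (refl s) = (vt 0 s).map (fun v => (-v.1, v.2)) := by
  have h0 : ((-(0 : ℤ × ℤ).1, (0 : ℤ × ℤ).2) : ℤ × ℤ) = 0 := Prod.ext (by simp) (by simp)
  have := vt_refl s 0
  rw [h0] at this
  exact this

lemma refl_length (s : List (Fin 4)) : (refl s).length = s.length := by simp [refl]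

lemma SAWs_refl (s : List (Fin 4)) (h : SAWs s) : SAWs (refl s) := by
  unfold SAWs at *
  rw [vt_refl0]
  apply h.map
  intro a b hab
  simp only [Prod.mk.injEq, neg_inj] at hab
  exact Prod.ext hab.1 hab.2

/-- half-space walks -/
def HS (s : List (Fin 4)) : Prop := SAWs s ∧ ∀ v ∈ (vt 0 s).tail, 0 < v.1

/-- half-space walks of bounded width -/
def HSA (A : ℕ) (s : List (Fin 4)) : Prop := HS s ∧ ∀ v ∈ vt 0 s, v.1 ≤ A

/-- bridges -/
def BRw (s : List (Fin 4)) : Prop := SAWs s ∧ ∀ v ∈ (vt 0 s).tail, 0 < v.1 ∧ v.1 ≤ (ep 0 s).1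

open Classical in
noncomputable def Hs (N : ℕ) : Finset (List (Fin 4)) := (words N).filter HS
open Classical in
noncomputable def Hsa (N A : ℕ) : Finset (List (Fin 4)) := (words N).filter (HSA A)
open Classical in
noncomputable def Br (N : ℕ) : Finset (List (Fin 4)) := (words N).filter BRw
open Classical in
noncomputable def Bra (N : ℕ) (A : ℕ) : Finset (List (Fin 4)) :=
  (words N).filter (fun s => BRw s ∧ (ep 0 s).1 = A)

lemma mem_Hs (N : ℕ) (s : List (Fin 4)) : s ∈ Hs N ↔ s.length = N ∧ HS s := by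
  classical
  rw [Hs, mem_filter, mem_words]
lemma mem_Hsa (N A : ℕ) (s : List (Fin 4)) : s ∈ Hsa N A ↔ s.length = N ∧ HSA A s := by
  classical
  rw [Hsa, mem_filter, mem_words]
lemma mem_Br (N : ℕ) (s : List (Fin 4)) : s ∈ Br N ↔ s.length = N ∧ BRw s := by
  classical
  rw [Br, mem_filter, mem_words]
lemma mem_Bra (N A : ℕ) (s : List (Fin 4)) :
    s ∈ Bra N A ↔ s.length = N ∧ BRw s ∧ (ep 0 s).1 = A := by
  classical
  rw [Bra, mem_filter, mem_words]

lemma BRw_ep_nonneg (s : List (Fin 4)) (h : BRw s) : 0 ≤ (ep 0 s).1 := by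
  rcases eq_or_ne s [] with rfl | hs
  · simp
  · exact (h.2 _ (ep_mem_tail 0 s hs)).1.le

lemma BR_le (s : List (Fin 4)) (h : BRw s) (v : ℤ × ℤ) (hv : v ∈ vt 0 s) : v.1 ≤ (ep 0 s).1 := by
  rw [vt_head] at hv
  rw [List.mem_cons] at hv
  rcases hv with rfl | hv
  · exact BRw_ep_nonneg s h
  · exact (h.2 v hv).2

lemma BRw_append (s t : List (Fin 4)) (hs : BRw s) (ht : BRw t) : BRw (s ++ t) := by
  have h0 : ∀ v ∈ (vt (ep 0 s) t).tail, (ep 0 s).1 < v.1 ∧ v.1 ≤ (ep 0 s).1 + (ep 0 t).1 := by
    intro v hv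
    have h1 := ht.2 _ (mem_tail_shift _ _ _ hv)
    simp only [Prod.fst_sub] at h1
    omega
  have he : (ep 0 (s ++ t)).1 = (ep 0 s).1 + (ep 0 t).1 := by
    rw [ep_append, ep_eq (ep 0 s) t, Prod.fst_add]
    ring
  have ht0 := BRw_ep_nonneg t ht
  constructor
  · unfold SAWs
    rw [vt_append']
    rw [List.nodup_append']
    refine ⟨hs.1, ?_, ?_⟩
    · have := ht.1
      unfold SAWs at this
      rw [← nodup_vt (ep 0 s), vt_head] at this
      exact (List.nodup_cons.1 this).2
    · intro v hv hv'
      have h1 := BR_le s hs v hv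
      have h2 := (h0 v hv').1
      omega
  · intro v hv
    rw [vt_tail_append, List.mem_append] at hv
    rw [he]
    rcases hv with hv | hv
    · have := hs.2 v hv
      omega
    · have h1 := h0 v hv
      have h2 := BRw_ep_nonneg s hs
      omega

lemma Br_mul (m n : ℕ) : (Br m).card * (Br n).card ≤ (Br (m + n)).card := by
  rw [← card_product]
  apply card_le_card_of_injOn (fun x => x.1 ++ x.2)
  · rintro ⟨s, t⟩ h
    simp only [coe_product, Set.mem_prod, mem_coe, mem_Br] at h ⊢
    obtain ⟨⟨h1, h2⟩, ⟨h3, h4⟩⟩ := h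
    exact ⟨by simp [h1, h3], BRw_append s t h2 h4⟩
  · rintro ⟨s, t⟩ h ⟨s', t'⟩ h' heq
    simp only [coe_product, Set.mem_prod, mem_coe, mem_Br] at h h' heq
    have := List.append_inj heq (by rw [h.1.1, h'.1.1])
    rw [this.1, this.2]

/-- concatenation at a fixed height is injective -/
lemma Bra_sum (N A : ℕ) :
    ∑ k ∈ range (N + 1), (Bra k A).card * (Br (N - k)).card ≤ (Br N).card := by
  have h1 : ∑ k ∈ range (N + 1), (Bra k A).card * (Br (N - k)).card =
      ((range (N + 1)).sigma (fun k => Bra k A ×ˢ Br (N - k))).card := by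
    rw [card_sigma]
    apply sum_congr rfl
    intro k _
    rw [card_product]
  rw [h1]
  -- the shorter first part determines everything
  have key : ∀ s t s' t' : List (Fin 4), BRw s → BRw t → (ep 0 s).1 = A → (ep 0 s').1 = A →
      s ++ t = s' ++ t' → s'.length ≤ s.length := by
    intro s t s' t' hs ht hA hA' heq
    by_contra hlt
    push Not at hlt
    obtain ⟨u, hu⟩ : ∃ u, s' = s ++ u := by
      have h2 : s <+: s' := by
        apply List.prefix_of_prefix_length_le (l₃ := s ++ t) (List.prefix_append s t)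
          (by rw [heq]; exact List.prefix_append s' t') hlt.le
      obtain ⟨u, hu⟩ := h2
      exact ⟨u, hu.symm⟩
    subst hu
    rw [List.append_assoc] at heq
    have h3 : t = u ++ t' := List.append_cancel_left heq
    have hu0 : u ≠ [] := by
      rintro rfl
      simp at hlt
    have h4 : ep (ep 0 s) u ∈ (vt (ep 0 s) t).tail := by
      rw [h3, vt_tail_append, List.mem_append]
      left
      exact ep_mem_tail _ _ hu0
    have h5 := (ht.2 _ (mem_tail_shift _ _ _ h4)).1
    rw [ep_append] at hA'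
    rw [Prod.fst_sub] at h5
    omega
  apply card_le_card_of_injOn (fun x => x.2.1 ++ x.2.2)
  · rintro ⟨k, s, t⟩ h
    simp only [coe_sigma, Set.mem_sigma_iff, mem_coe, mem_range, mem_product, mem_Bra, mem_Br] at h ⊢
    obtain ⟨h0, ⟨h1, h2, _⟩, ⟨h3, h4⟩⟩ := h
    refine ⟨?_, BRw_append s t h2 h4⟩
    rw [List.length_append]
    omega
  · rintro ⟨k, s, t⟩ h ⟨k', s', t'⟩ h' heq
    simp only [coe_sigma, Set.mem_sigma_iff, mem_coe, mem_range, mem_product, mem_Bra, mem_Br] at h h' heq
    obtain ⟨h0, ⟨h1, h2, h5⟩, ⟨h3, h4⟩⟩ := h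
    obtain ⟨h0', ⟨h1', h2', h5'⟩, ⟨h3', h4'⟩⟩ := h'
    have e1 := key s t s' t' h2 h4 h5 h5' heq
    have e2 := key s' t' s t h2' h4' h5' h5 heq.symm
    have e3 := List.append_inj heq (by omega)
    have e4 : k = k' := by omega
    subst e4
    rw [e3.1, e3.2]

/-- unfolding of one piece -/
lemma Hsa_succ (N A : ℕ) : (Hsa N (A + 1)).card ≤ (Hsa N A).card +
    ∑ k ∈ range (N + 1), (Bra k (A + 1)).card * (Hsa (N - k) A).card := by
  classical
  have hsub : Hsa N (A + 1) ⊆ Hsa N A ∪ (range (N + 1)).biUnion (fun k =>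
      (Bra k (A + 1) ×ˢ Hsa (N - k) A).image (fun x => x.1 ++ refl x.2)) := by
    intro s hs
    rw [mem_Hsa] at hs
    obtain ⟨hl, ⟨hsaw, hpos⟩, hle⟩ := hs
    rw [mem_union]
    by_cases hA : ∀ v ∈ vt 0 s, v.1 ≤ A
    · left
      rw [mem_Hsa]
      exact ⟨hl, ⟨hsaw, hpos⟩, hA⟩
    · right
      push Not at hA
      obtain ⟨v, hv, hvA⟩ := hA
      have hex : ∃ v ∈ vt 0 s, v.1 = (A : ℤ) + 1 := by
        refine ⟨v, hv, ?_⟩
        have := hle v hv
        push_cast at this
        omega
      obtain ⟨l₁, l₂, rfl, hP, hlast⟩ := split_last (fun v => v.1 = (A : ℤ) + 1) s 0 hex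
      rw [mem_biUnion]
      rw [List.length_append] at hl
      refine ⟨l₁.length, by rw [mem_range]; omega, ?_⟩
      rw [mem_image]
      refine ⟨(l₁, refl l₂), ?_, ?_⟩
      · rw [mem_product, mem_Bra, mem_Hsa]
        obtain ⟨hs1, hs2⟩ := SAWs_append _ _ hsaw
        have hl₁ : l₁ ≠ [] := by
          rintro rfl
          simp at hP
          omega
        refine ⟨⟨rfl, ⟨hs1, ?_⟩, by rw [hP]; push_cast; ring⟩, ?_, ⟨SAWs_refl _ hs2, ?_⟩, ?_⟩
        · intro v hv
          rw [hP]
          constructor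
          · apply hpos
            rw [vt_tail_append, List.mem_append]
            left; exact hv
          · have := hle v (by
              rw [vt_append', List.mem_append]
              left; exact List.mem_of_mem_tail hv)
            push_cast at this
            exact this
        · show (refl l₂).length = N - l₁.length
          rw [refl_length]
          omega
        · intro v hv
          rw [vt_refl0, ← List.map_tail, List.mem_map] at hv
          obtain ⟨w, hw, rfl⟩ := hv
          have hw' : w + ep 0 l₁ ∈ (vt (ep 0 l₁) l₂).tail := by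
            rw [vt_tail_map, List.mem_map]
            exact ⟨w, hw, rfl⟩
          have h1 := hlast _ hw'
          have h2 := hle (w + ep 0 l₁) (by
            rw [vt_append', List.mem_append]
            right; exact hw')
          rw [Prod.fst_add] at h1 h2
          push_cast at h2
          show (0 : ℤ) < -w.1
          omega
        · intro v hv
          rw [vt_refl0, List.mem_map] at hv
          obtain ⟨w, hw, rfl⟩ := hv
          show -w.1 ≤ (A : ℤ)
          rw [vt_head, List.mem_cons] at hw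
          rcases hw with rfl | hw
          · simp
          · have hw' : w + ep 0 l₁ ∈ (vt (ep 0 l₁) l₂).tail := by
              rw [vt_tail_map, List.mem_map]
              exact ⟨w, hw, rfl⟩
            have h2 := hpos (w + ep 0 l₁) (by
              rw [vt_tail_append, List.mem_append]
              right; exact hw')
            rw [Prod.fst_add] at h2
            omega
      · show l₁ ++ refl (refl l₂) = _
        rw [refl_refl]
  refine (card_le_card hsub).trans ((card_union_le _ _).trans ?_)
  apply Nat.add_le_add_left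
  refine card_biUnion_le.trans ?_
  apply sum_le_sum
  intro k _
  refine card_image_le.trans ?_
  rw [card_product]

lemma Bra_empty (k A : ℕ) (h : k < A) : (Bra k A).card = 0 := by
  rw [card_eq_zero, eq_empty_iff_forall_notMem]
  intro s hs
  rw [mem_Bra] at hs
  have := (ep_bound 0 s).1
  simp only [Prod.fst_zero] at this
  omega

/-- Hammersley-Welsh bound for half-space walks of bounded width -/
lemma Hsa_bound (y : ℝ) (hy : 0 < y) (hy1 : y ≤ 1) (A : ℕ) : ∀ N : ℕ,
    ((Hsa N A).card : ℝ) * y ^ N ≤ (Br N).card * ∏ a ∈ range A, (1 + y ^ (a + 1)) := by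
  induction A with
  | zero =>
    intro N
    rw [range_zero, prod_empty, mul_one]
    rcases Nat.eq_zero_or_pos N with rfl | hN
    · rw [pow_zero, mul_one]
      have h1 : Hsa 0 0 ⊆ Br 0 := by
        intro s hs
        rw [mem_Hsa] at hs
        have : s = [] := List.length_eq_zero_iff.1 hs.1
        subst this
        rw [mem_Br]
        exact ⟨rfl, by simp [SAWs], by simp⟩
      exact_mod_cast card_le_card h1
    · have h1 : (Hsa N 0).card = 0 := by
        rw [card_eq_zero, eq_empty_iff_forall_notMem]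
        intro s hs
        rw [mem_Hsa] at hs
        obtain ⟨h1, h2, h3⟩ := hs
        have hs0 : s ≠ [] := by rintro rfl; simp at h1; omega
        have h4 := h2.2 _ (ep_mem_tail 0 s hs0)
        have h5 := h3 _ (ep_mem_vt 0 s)
        simp at h5
        omega
      rw [h1]
      simp
  | succ A ih =>
    intro N
    set Q : ℝ := ∏ a ∈ range A, (1 + y ^ (a + 1)) with hQ
    have hQ0 : 0 ≤ Q := prod_nonneg fun a _ => by positivity
    have h1 : ((Hsa N (A + 1)).card : ℝ) ≤ (Hsa N A).card +
        ∑ k ∈ range (N + 1), ((Bra k (A + 1)).card : ℝ) * (Hsa (N - k) A).card := by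
      have := Hsa_succ N A
      exact_mod_cast this
    have h2 : ∑ k ∈ range (N + 1), ((Bra k (A + 1)).card : ℝ) * (Hsa (N - k) A).card * y ^ N ≤
        y ^ (A + 1) * Q * (Br N).card := by
      have h3 : ∀ k ∈ range (N + 1), ((Bra k (A + 1)).card : ℝ) * (Hsa (N - k) A).card * y ^ N ≤
          y ^ (A + 1) * Q * (((Bra k (A + 1)).card : ℝ) * (Br (N - k)).card) := by
        intro k hk
        rw [mem_range] at hk
        rcases Nat.lt_or_ge k (A + 1) with h | h
        · rw [Bra_empty k (A + 1) h]
          simp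
        · have h4 : y ^ N = y ^ k * y ^ (N - k) := by
            rw [← pow_add]; congr 1; omega
          have h5 : y ^ k ≤ y ^ (A + 1) := pow_le_pow_of_le_one hy.le hy1 h
          have h6 := ih (N - k)
          have h7 : 0 ≤ ((Hsa (N - k) A).card : ℝ) * y ^ (N - k) := by positivity
          calc ((Bra k (A + 1)).card : ℝ) * (Hsa (N - k) A).card * y ^ N
              = (Bra k (A + 1)).card * (y ^ k * ((Hsa (N - k) A).card * y ^ (N - k))) := by
                rw [h4]; ring
            _ ≤ (Bra k (A + 1)).card * (y ^ (A + 1) * ((Br (N - k)).card * Q)) := by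
                apply mul_le_mul_of_nonneg_left _ (by positivity)
                exact mul_le_mul h5 h6 h7 (by positivity)
            _ = _ := by ring
      refine (sum_le_sum h3).trans ?_
      rw [← mul_sum]
      apply mul_le_mul_of_nonneg_left _ (by positivity)
      have := Bra_sum N (A + 1)
      exact_mod_cast this
    rw [prod_range_succ, ← hQ]
    calc ((Hsa N (A + 1)).card : ℝ) * y ^ N ≤ ((Hsa N A).card +
        ∑ k ∈ range (N + 1), ((Bra k (A + 1)).card : ℝ) * (Hsa (N - k) A).card) * y ^ N :=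
          mul_le_mul_of_nonneg_right h1 (by positivity)
      _ = (Hsa N A).card * y ^ N +
          ∑ k ∈ range (N + 1), ((Bra k (A + 1)).card : ℝ) * (Hsa (N - k) A).card * y ^ N := by
          rw [add_mul, sum_mul]
      _ ≤ (Br N).card * Q + y ^ (A + 1) * Q * (Br N).card := add_le_add (ih N) h2
      _ = _ := by ring

end Pool.Agent.Lib27
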