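import Pool.Agent.Lib_helper27.Winding

set_option autoImplicit false

namespace Pool.Agent.Lib27

open Finset

/-- lexicographic nonnegativity -/
def lexNonneg (v : ℤ × ℤ) : Prop := 0 < v.1 ∨ (v.1 = 0 ∧ 0 ≤ v.2)

open Classical in
/-- canonical words: the root is the leftmost-lowest vertex and the first step is North -/
noncomputable def Can (n : ℕ) : Finset (List (Fin 4)) :=
  (W n).filter (fun s => s.getD 0 0 = 1 ∧ ∀ v ∈ vs 0 s, lexNonneg v)

lemma mem_Can (n : ℕ) (s : List (Fin 4)) :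
    s ∈ Can n ↔ (s.length = 2 * n ∧ SAPw s) ∧ s.getD 0 0 = 1 ∧ ∀ v ∈ vs 0 s, lexNonneg v := by
  classical
  rw [Can, mem_filter, mem_W]

/-- indicator of `a < b` -/
def abv (a b : ℤ) : ℤ := if a < b then 1 else 0

lemma wind_left_of_all (p : ℤ × ℤ) (s : List (Fin 4)) (f : ℤ × ℤ)
    (h : ∀ v ∈ vs p s, f.1 < v.1) :
    wind p s f = abv f.2 (ep p s).2 - abv f.2 p.2 := by
  induction s generalizing p with
  | nil => simp [wind]
  | cons d s ih =>
    have h1 := ih (p + dv d) (fun v hv => h v (by simp [hv]))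
    have h2 : f.1 < p.1 := h p (by simp)
    simp only [wind, ep_cons, h1]
    have h3 : wstep p d f = abv f.2 (p + dv d).2 - abv f.2 p.2 := by
      unfold wstep abv
      fin_cases d <;> simp [dv, h2] <;> split_ifs <;> omega
    rw [h3]
    ring

/-- a lexicographically maximal vertex -/
lemma exists_lexmax (s : List (Fin 4)) (h : 0 < s.length) :
    ∃ i < s.length, ∀ j < s.length, (ep 0 (s.take j)).1 < (ep 0 (s.take i)).1 ∨
      ((ep 0 (s.take j)).1 = (ep 0 (s.take i)).1 ∧
        (ep 0 (s.take j)).2 ≤ (ep 0 (s.take i)).2) := by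
  obtain ⟨i, hi, hmax⟩ := exists_max_image (range s.length)
    (fun j => toLex (ep 0 (s.take j))) ⟨0, by simpa using h⟩
  refine ⟨i, by simpa using hi, fun j hj => ?_⟩
  have := hmax j (by simpa using hj)
  rw [Prod.Lex.toLex_le_toLex] at this
  exact this

lemma closed_take (s : List (Fin 4)) (hs : SAPw s) : ep 0 (s.take s.length) = 0 := by
  simpa using hs.1

/-- the step out of the lexicographically maximal vertex of a canonical word is South -/
lemma step_at_max (n : ℕ) (s : List (Fin 4)) (hs : s ∈ Can n) (hn : 1 ≤ n) (i : ℕ)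
    (hi : i < s.length)
    (hmax : ∀ j < s.length, (ep 0 (s.take j)).1 < (ep 0 (s.take i)).1 ∨
      ((ep 0 (s.take j)).1 = (ep 0 (s.take i)).1 ∧
        (ep 0 (s.take j)).2 ≤ (ep 0 (s.take i)).2)) :
    1 ≤ i ∧ s.getD i 0 = 3 := by
  rw [mem_Can] at hs
  obtain ⟨⟨hl, hS⟩, hf, hlex⟩ := hs
  have hv1 : ep 0 (s.take 1) = (0, 1) := by
    have := vertex_succ s 0 (by omega)
    rw [this, hf]
    simp [dv]
  have hi1 : 1 ≤ i := by
    by_contra hcon
    have : i = 0 := by omega
    subst this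
    have := hmax 1 (by omega)
    rw [hv1] at this
    simp at this
  refine ⟨hi1, ?_⟩
  -- the closing vertex is also below
  have hmax' : ∀ j ≤ s.length, (ep 0 (s.take j)).1 < (ep 0 (s.take i)).1 ∨
      ((ep 0 (s.take j)).1 = (ep 0 (s.take i)).1 ∧
        (ep 0 (s.take j)).2 ≤ (ep 0 (s.take i)).2) := by
    intro j hj
    rcases Nat.lt_or_ge j s.length with h | h
    · exact hmax j h
    · have : j = s.length := by omega
      rw [this, closed_take s hS]
      have := hmax 0 (by omega)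
      simpa using this
  have hout := hmax' (i + 1) (by omega)
  rw [vertex_succ s i hi] at hout
  have hin := hmax' (i - 1) (by omega)
  have hin2 := vertex_succ s (i - 1) (by omega)
  rw [Nat.sub_add_cancel hi1] at hin2
  rcases Nat.lt_or_ge s.length 3 with h3 | h3
  · -- n = 1
    have hi2 : i = 1 := by omega
    subst hi2
    have h4 : ep 0 (s.take 2) = 0 := by
      have : 2 = s.length := by omega
      rw [this]; exact closed_take s hS
    have h5 := vertex_succ s 1 hi
    rw [h4, hv1] at h5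
    generalize s.getD 1 0 = d at h5
    revert h5
    fin_cases d <;> simp [dv, Prod.ext_iff]
  · have hnr : s.getD i 0 ≠ s.getD (i - 1) 0 + 2 := by
      intro h
      refine norev s hS h3 (i - 1) i (by omega) hi ?_ h
      rw [Nat.sub_add_cancel hi1]
    -- exclude incoming North, outgoing West
    by_contra hne
    have hd : s.getD i 0 = 2 := by
      generalize s.getD i 0 = d at hout hne
      fin_cases d
      · simp [dv] at hout
      · simp [dv] at hout
      · rfl
      · exact absurd rfl hne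
    have he : s.getD (i - 1) 0 = 1 := by
      rw [hd] at hnr
      rw [hin2] at hin
      generalize s.getD (i - 1) 0 = e at hin hnr
      fin_cases e
      · exact absurd rfl hnr
      · rfl
      · simp [dv] at hin
      · simp [dv] at hin
    -- left value is zero
    have hL : wind 0 s (Q 0 (s.getD 0 0)) = 0 := by
      rw [hf]
      rw [wind_left_of_all]
      · rw [hS.1]; simp [Q]
      · intro v hv
        have := hlex v hv
        unfold lexNonneg at this
        simp [Q]
        omega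
    have hR := right_const s hS h3 (i - 1) (by omega)
    rw [hL, he] at hR
    have hz : wind 0 s (Q (ep 0 (s.take (i - 1))) (1 + 3)) = 0 := by
      rw [wind_sum]
      apply sum_eq_zero
      intro k hk
      rw [mem_range] at hk
      have e1 := hmax k hk
      rw [hin2, he] at e1
      have e2 : Q (ep 0 (s.take (i - 1))) (1 + 3) = ep 0 (s.take (i - 1)) := by
        simp [Q]
      rw [e2]
      unfold wstep
      rw [if_neg, if_neg]
      · rintro ⟨_, _, h⟩
        simp [dv] at e1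
        omega
      · rintro ⟨_, _, h⟩
        simp [dv] at e1
        omega
    rw [hz] at hR
    norm_num at hR

/-- splitting of a canonical word at its lexicographically maximal vertex -/
lemma can_split (n : ℕ) (s : List (Fin 4)) (hs : s ∈ Can n) (hn : 1 ≤ n) :
    ∃ l₁ l₂ : List (Fin 4), s = l₁ ++ 3 :: l₂ ∧ 1 ≤ l₁.length ∧
      ∀ v ∈ vs 0 s, v.1 ≤ (ep 0 l₁).1 := by
  have hs' := hs
  rw [mem_Can] at hs'
  obtain ⟨⟨hl, hS⟩, _, _⟩ := hs'
  obtain ⟨i, hi, hmax⟩ := exists_lexmax s (by omega)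
  obtain ⟨h1, h2⟩ := step_at_max n s hs hn i hi hmax
  obtain ⟨l₁, b, l₂, rfl, rfl⟩ := exists_split i s hi
  have e1 : (l₁ ++ b :: l₂).getD l₁.length 0 = b := by simp
  have e2 : (l₁ ++ b :: l₂).take l₁.length = l₁ := by simp
  rw [e1] at h2
  subst h2
  refine ⟨l₁, l₂, rfl, h1, ?_⟩
  intro v hv
  obtain ⟨j, hj, rfl⟩ := List.mem_iff_getElem.1 hv
  rw [vs_getElem]
  rw [vs_length] at hj
  have := hmax j hj
  rw [e2] at this
  omega

open Classical in
noncomputable def cut (s : List (Fin 4)) : List (Fin 4) × List (Fin 4) :=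
  if h : ∃ l : List (Fin 4) × List (Fin 4), s = l.1 ++ 3 :: l.2 ∧ 1 ≤ l.1.length ∧
      ∀ v ∈ vs 0 s, v.1 ≤ (ep 0 l.1).1 then h.choose else ([], [])

lemma cut_spec (n : ℕ) (s : List (Fin 4)) (hs : s ∈ Can n) (hn : 1 ≤ n) :
    s = (cut s).1 ++ 3 :: (cut s).2 ∧ 1 ≤ (cut s).1.length ∧
      ∀ v ∈ vs 0 s, v.1 ≤ (ep 0 (cut s).1).1 := by
  have h : ∃ l : List (Fin 4) × List (Fin 4), s = l.1 ++ 3 :: l.2 ∧ 1 ≤ l.1.length ∧
      ∀ v ∈ vs 0 s, v.1 ≤ (ep 0 l.1).1 := by
    obtain ⟨l₁, l₂, h⟩ := can_split n s hs hn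
    exact ⟨(l₁, l₂), h⟩
  have := h.choose_spec
  rw [cut, dif_pos h]
  exact this

/-- gluing two canonical words -/
noncomputable def glue (s t : List (Fin 4)) : List (Fin 4) :=
  (cut s).1 ++ (0 :: t.tail ++ 2 :: (cut s).2)

lemma can_cons (m : ℕ) (t : List (Fin 4)) (ht : t ∈ Can m) (hm : 1 ≤ m) : t = 1 :: t.tail := by
  rw [mem_Can] at ht
  obtain ⟨⟨hl, _⟩, hf, _⟩ := ht
  match t with
  | [] => simp at hl; omega
  | a :: t => simp at hf; simp [hf]

lemma shift_eq (u : ℤ × ℤ) : u + dv 0 = (0 + dv 1) + (u + dv 0 - dv 1) := by abel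

lemma shift_eq2 (u : ℤ × ℤ) : (u + dv 0 - dv 1) + dv 2 = u + dv 3 := by
  simp [dv, Prod.ext_iff]
  ring

/-- positions along a glued word -/
lemma glue_pos (l₁ t' : List (Fin 4)) (ht : ep 0 (1 :: t') = 0) :
    ep (ep 0 l₁ + dv 0) t' = ep 0 l₁ + dv 0 - dv 1 := by
  have : ep (0 + dv 1) t' = 0 := ht
  conv_lhs => rw [shift_eq, ep_add, this, zero_add]

lemma vs_glue (l₁ l₂ t' : List (Fin 4)) (ht : ep 0 (1 :: t') = 0) :
    List.Perm (vs 0 (l₁ ++ (0 :: t' ++ 2 :: l₂)))
      (vs 0 (l₁ ++ 3 :: l₂) ++ (vs 0 (1 :: t')).map (· + (ep 0 l₁ + dv 0 - dv 1))) := by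
  have h1 : vs 0 (l₁ ++ (0 :: t' ++ 2 :: l₂)) = vs 0 l₁ ++ (ep 0 l₁ ::
      (vs (ep 0 l₁ + dv 0) t' ++ (ep 0 l₁ + dv 0 - dv 1) :: vs (ep 0 l₁ + dv 3) l₂)) := by
    rw [vs_append, List.cons_append, vs_cons, vs_append, glue_pos l₁ t' ht, vs_cons,
      shift_eq2]
  have h2 : vs 0 (l₁ ++ 3 :: l₂) = vs 0 l₁ ++ (ep 0 l₁ :: vs (ep 0 l₁ + dv 3) l₂) := by
    rw [vs_append, vs_cons]
  have h3 : (vs 0 (1 :: t')).map (· + (ep 0 l₁ + dv 0 - dv 1)) =
      (ep 0 l₁ + dv 0 - dv 1) :: vs (ep 0 l₁ + dv 0) t' := by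
    rw [vs_cons, List.map_cons, zero_add]
    congr 1
    conv_rhs => rw [shift_eq, vs_add]
  rw [h1, h2, h3, List.append_assoc]
  apply List.Perm.append_left
  rw [List.cons_append]
  apply List.Perm.cons
  refine (List.perm_append_comm).trans ?_
  rw [List.cons_append]
  exact List.perm_middle.symm

lemma glue_mem (n m : ℕ) (hn : 1 ≤ n) (hm : 1 ≤ m) (s t : List (Fin 4)) (hs : s ∈ Can n)
    (ht : t ∈ Can m) : glue s t ∈ Can (n + m) := by
  obtain ⟨h1, h2, h3⟩ := cut_spec n s hs hn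
  have h4 := can_cons m t ht hm
  rw [mem_Can] at hs ht ⊢
  obtain ⟨⟨hsl, hsS⟩, hsf, hsx⟩ := hs
  obtain ⟨⟨htl, htS⟩, htf, htx⟩ := ht
  unfold glue
  generalize (cut s).1 = l₁ at *
  generalize (cut s).2 = l₂ at *
  generalize t.tail = t' at *
  subst h1
  subst h4
  have hperm := vs_glue l₁ l₂ t' htS.1
  have hX0 : 0 ≤ (ep 0 l₁).1 := by
    have : (0 : ℤ × ℤ) ∈ vs 0 (l₁ ++ 3 :: l₂) := by
      cases l₁ with
      | nil => simp
      | cons a l => simp
    simpa using h3 0 this
  have htpos : ∀ v ∈ (vs 0 (1 :: t')).map (· + (ep 0 l₁ + dv 0 - dv 1)),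
      (ep 0 l₁).1 + 1 ≤ v.1 := by
    intro v hv
    rw [List.mem_map] at hv
    obtain ⟨w, hw, rfl⟩ := hv
    have := htx w hw
    unfold lexNonneg at this
    simp [dv]
    omega
  refine ⟨⟨?_, ?_, ?_⟩, ?_, ?_⟩
  · simp only [List.length_append, List.length_cons] at hsl htl ⊢
    omega
  · rw [ep_append, List.cons_append, ep_cons, ep_append, glue_pos l₁ t' htS.1, ep_cons,
      shift_eq2]
    have := hsS.1
    rw [ep_append, ep_cons] at this
    exact this
  · rw [hperm.nodup_iff, List.nodup_append']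
    refine ⟨hsS.2, ?_, ?_⟩
    · exact htS.2.map (add_left_injective _)
    · intro v hv hv'
      have e1 := h3 v hv
      have e2 := htpos v hv'
      omega
  · cases l₁ with
    | nil => simp at h2
    | cons a l =>
      simp only [List.cons_append, List.getD_cons_zero] at hsf ⊢
      exact hsf
  · intro v hv
    rw [hperm.mem_iff, List.mem_append] at hv
    rcases hv with hv | hv
    · exact hsx v hv
    · have := htpos v hv
      unfold lexNonneg
      omega

lemma x_le_of_closed (s : List (Fin 4)) (hS : SAPw s) (h0 : 0 < s.length) (X : ℤ)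
    (h : ∀ v ∈ vs 0 s, v.1 ≤ X) (k : ℕ) (hk : k ≤ s.length) : (ep 0 (s.take k)).1 ≤ X := by
  rcases Nat.lt_or_ge k s.length with h1 | h1
  · exact h _ (vertex_mem s k h1)
  · have : k = s.length := by omega
    rw [this, closed_take s hS]
    have := h _ (vertex_mem s 0 h0)
    simpa using this

lemma glue_x (n m : ℕ) (hn : 1 ≤ n) (hm : 1 ≤ m) (s t : List (Fin 4)) (hs : s ∈ Can n)
    (ht : t ∈ Can m) :
    (∀ k ≤ (cut s).1.length, (ep 0 ((glue s t).take k)).1 ≤ (ep 0 (cut s).1).1) ∧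
    (∀ k, (cut s).1.length + 1 ≤ k → k ≤ (cut s).1.length + 2 * m →
      (ep 0 (cut s).1).1 + 1 ≤ (ep 0 ((glue s t).take k)).1) ∧
    (∀ k, (cut s).1.length + 2 * m + 1 ≤ k → k ≤ 2 * (n + m) →
      (ep 0 ((glue s t).take k)).1 ≤ (ep 0 (cut s).1).1) := by
  obtain ⟨h1, h2, h3⟩ := cut_spec n s hs hn
  have h4 := can_cons m t ht hm
  rw [mem_Can] at hs ht
  obtain ⟨⟨hsl, hsS⟩, hsf, hsx⟩ := hs
  obtain ⟨⟨htl, htS⟩, htf, htx⟩ := ht
  unfold glue
  generalize (cut s).1 = l₁ at *
  generalize (cut s).2 = l₂ at *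
  generalize t.tail = t' at *
  subst h1
  subst h4
  simp only [List.length_append, List.length_cons] at hsl htl
  have hpos : 0 < (l₁ ++ 3 :: l₂).length := by simp
  refine ⟨?_, ?_, ?_⟩
  · intro k hk
    have e1 : (l₁ ++ (0 :: t' ++ 2 :: l₂)).take k = (l₁ ++ 3 :: l₂).take k := by
      rw [List.take_append_of_le_length hk, List.take_append_of_le_length hk]
    rw [e1]
    exact x_le_of_closed _ hsS hpos _ h3 k (by simp; omega)
  · intro k hk hk'
    obtain ⟨j, rfl⟩ : ∃ j, k = l₁.length + 1 + j := ⟨k - (l₁.length + 1), by omega⟩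
    have e1 : (l₁ ++ (0 :: t' ++ 2 :: l₂)).take (l₁.length + 1 + j) =
        l₁ ++ 0 :: t'.take j := by
      have : l₁ ++ (0 :: t' ++ 2 :: l₂) = l₁ ++ 0 :: (t' ++ 2 :: l₂) := by simp
      rw [this, take_right1, List.take_append_of_le_length (by omega)]
    rw [e1, ep_append, ep_cons, shift_eq, ep_add]
    have e2 : ep (0 + dv 1) (t'.take j) = ep 0 ((1 :: t').take (j + 1)) := by simp
    rw [e2]
    have e3 : 0 ≤ (ep 0 ((1 :: t').take (j + 1))).1 := by
      rcases Nat.lt_or_ge (j + 1) (1 :: t').length with h | h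
      · have := htx _ (vertex_mem _ _ h)
        unfold lexNonneg at this
        omega
      · rw [List.take_of_length_le h, htS.1]
        simp
    simp only [Prod.fst_add, Prod.fst_sub]
    have e4 : (dv 0).1 = 1 := rfl
    have e5 : (dv 1).1 = 0 := rfl
    rw [e4, e5]
    linarith
  · intro k hk hk'
    obtain ⟨j, rfl⟩ : ∃ j, k = l₁.length + 2 * m + 1 + j := ⟨k - (l₁.length + 2 * m + 1), by
      omega⟩
    have e1 : (l₁ ++ (0 :: t' ++ 2 :: l₂)).take (l₁.length + 2 * m + 1 + j) =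
        l₁ ++ (0 :: t' ++ 2 :: l₂.take j) := by
      rw [List.take_append, List.take_of_length_le (by omega)]
      congr 1
      rw [List.take_append, List.take_of_length_le (by simp; omega)]
      congr 1
      have : l₁.length + 2 * m + 1 + j - l₁.length - (0 :: t').length = j + 1 := by
        simp only [List.length_cons]
        omega
      rw [this, List.take_succ_cons]
    rw [e1, ep_append, List.cons_append, ep_cons, ep_append, glue_pos l₁ t' htS.1, ep_cons,
      shift_eq2]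
    have e2 : ep (ep 0 l₁ + dv 3) (l₂.take j) = ep 0 ((l₁ ++ 3 :: l₂).take (l₁.length + 1 + j)) := by
      rw [take_right1, ep_append, ep_cons]
    rw [e2]
    exact x_le_of_closed _ hsS hpos _ h3 _ (by simp; omega)

lemma glue_idx (n m : ℕ) (hn : 1 ≤ n) (hm : 1 ≤ m) (s t s' t' : List (Fin 4)) (hs : s ∈ Can n)
    (ht : t ∈ Can m) (hs' : s' ∈ Can n) (ht' : t' ∈ Can m) (h : glue s t = glue s' t') :
    (cut s').1.length ≤ (cut s).1.length := by
  by_contra hlt
  push Not at hlt
  obtain ⟨a1, b1, c1⟩ := glue_x n m hn hm s t hs ht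
  obtain ⟨a2, b2, c2⟩ := glue_x n m hn hm s' t' hs' ht'
  have hl : (cut s').1.length + 1 ≤ 2 * n := by
    obtain ⟨h1, h2, h3⟩ := cut_spec n s' hs' hn
    rw [mem_Can] at hs'
    have := hs'.1.1
    rw [h1] at this
    simp only [List.length_append, List.length_cons] at this
    omega
  rw [← h] at a2 b2 c2
  have e1 := b1 ((cut s).1.length + 1) le_rfl (by omega)
  have e2 := a2 ((cut s).1.length + 1) (by omega)
  have e3 := b2 ((cut s').1.length + 2 * m) (by omega) le_rfl
  have e4 := c1 ((cut s').1.length + 2 * m) (by omega) (by omega)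
  omega

lemma glue_inj (n m : ℕ) (hn : 1 ≤ n) (hm : 1 ≤ m) (s t s' t' : List (Fin 4)) (hs : s ∈ Can n)
    (ht : t ∈ Can m) (hs' : s' ∈ Can n) (ht' : t' ∈ Can m) (h : glue s t = glue s' t') :
    s = s' ∧ t = t' := by
  have h1 : (cut s).1.length = (cut s').1.length :=
    le_antisymm (glue_idx n m hn hm s' t' s t hs' ht' hs ht h.symm)
      (glue_idx n m hn hm s t s' t' hs ht hs' ht' h)
  obtain ⟨c1, _, _⟩ := cut_spec n s hs hn
  obtain ⟨c2, _, _⟩ := cut_spec n s' hs' hn
  have t1 := can_cons m t ht hm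
  have t2 := can_cons m t' ht' hm
  have l1 : t.tail.length = t'.tail.length := by
    rw [mem_Can] at ht ht'
    rw [List.length_tail, List.length_tail, ht.1.1, ht'.1.1]
  unfold glue at h
  obtain ⟨e1, e2⟩ := List.append_inj h h1
  obtain ⟨e3, e4⟩ := List.append_inj e2 (by simpa using l1)
  simp only [List.cons.injEq, true_and] at e3 e4
  constructor
  · rw [c1, c2, e1, e4]
  · rw [t1, t2, e3]

/-- supermultiplicativity -/
lemma can_mul_le (n m : ℕ) (hn : 1 ≤ n) (hm : 1 ≤ m) :
    (Can n).card * (Can m).card ≤ (Can (n + m)).card := by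
  classical
  rw [← card_product]
  refine card_le_card_of_injOn (fun x => glue x.1 x.2) ?_ ?_
  · rintro ⟨s, t⟩ h
    simp only [coe_product, Set.mem_prod, mem_coe] at h
    exact glue_mem n m hn hm s t h.1 h.2
  · rintro ⟨s, t⟩ h ⟨s', t'⟩ h' heq
    simp only [coe_product, Set.mem_prod, mem_coe] at h h'
    obtain ⟨e1, e2⟩ := glue_inj n m hn hm s t s' t' h.1 h.2 h'.1 h'.2 heq
    rw [e1, e2]

lemma can_one : 1 ≤ (Can 1).card := by
  have : ([1, 3] : List (Fin 4)) ∈ Can 1 := by
    rw [mem_Can]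
    refine ⟨⟨rfl, by simp [dv], by simp [dv, Prod.ext_iff]⟩, rfl, ?_⟩
    intro v hv
    simp [dv] at hv
    rcases hv with rfl | rfl <;> simp [lexNonneg]
  exact card_pos.2 ⟨_, this⟩

lemma can_pos (n : ℕ) (hn : 1 ≤ n) : 1 ≤ (Can n).card := by
  induction n, hn using Nat.le_induction with
  | base => exact can_one
  | succ n hn ih =>
    have := can_mul_le n 1 hn le_rfl
    have h1 := can_one
    calc 1 = 1 * 1 := rfl
      _ ≤ _ := Nat.mul_le_mul ih h1
      _ ≤ _ := this

lemma can_le (n : ℕ) : (Can n).card ≤ 4 ^ (2 * n) := by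
  classical
  rw [← card_words]
  exact (card_filter_le _ _).trans (card_filter_le _ _)

end Pool.Agent.Lib27
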