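import Pool.Agent.Lib_helper27.Toggle

set_option autoImplicit false

namespace Pool.Agent.Lib27

open Finset

/-- number of bumps, recursively -/
def cntB : List (Fin 4) → ℕ
  | a :: b :: c :: s => (if perp a b ∧ c = a + 2 then 1 else 0) + cntB (b :: c :: s)
  | _ => 0

open Classical in
lemma Dn_cons (d : Fin 4) (s : List (Fin 4)) :
    (Dn (d :: s)).card = (if isB 0 (d :: s) then 1 else 0) + (Dn s).card := by
  classical
  have h : Dn (d :: s) = (if isB 0 (d :: s) then {0} else ∅) ∪ (Dn s).image (· + 1) := by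
    ext i
    rw [mem_Dn, mem_union, mem_image]
    cases i with
    | zero =>
      by_cases h : isB 0 (d :: s) <;> simp [h]
    | succ i =>
      have h1 : isB (i + 1) (d :: s) ↔ isB i s := by simp [isB]
      rw [h1]
      constructor
      · intro h
        exact Or.inr ⟨i, (mem_Dn s i).2 h, rfl⟩
      · rintro (h | ⟨j, hj, hj'⟩)
        · split_ifs at h <;> simp at h
        · have : j = i := by omega
          subst this
          exact (mem_Dn s j).1 hj
  rw [h, card_union_of_disjoint, card_image_of_injective]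
  · split_ifs <;> simp
  · intro a b hab
    simpa using hab
  · rw [disjoint_left]
    intro i hi hi'
    rw [mem_image] at hi'
    obtain ⟨j, _, rfl⟩ := hi'
    split_ifs at hi <;> simp at hi

lemma card_Dn (s : List (Fin 4)) : (Dn s).card = cntB s := by
  induction s with
  | nil => simp [Dn, cntB]
  | cons d s ih =>
    rw [Dn_cons, ih]
    match s with
    | [] => simp [cntB, isB]
    | [b] => simp [cntB, isB]
    | b :: c :: s =>
      simp only [cntB, isB]
      congr

lemma cntB_cons_le (a : Fin 4) (s : List (Fin 4)) : cntB (a :: s) ≤ 1 + cntB s := by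
  match s with
  | [] => simp [cntB]
  | [b] => simp [cntB]
  | b :: c :: s =>
    simp only [cntB]
    split_ifs <;> omega

lemma cntB_le_cons (a : Fin 4) (s : List (Fin 4)) : cntB s ≤ cntB (a :: s) := by
  match s with
  | [] => simp [cntB]
  | [b] => simp [cntB]
  | b :: c :: s =>
    simp only [cntB]
    omega

lemma cntB_append_le (s t : List (Fin 4)) : cntB (s ++ t) ≤ cntB s + cntB t + 2 := by
  match s with
  | [] => simp [cntB]
  | [a] =>
    have := cntB_cons_le a t
    simp only [List.cons_append, List.nil_append]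
    omega
  | [a, b] =>
    have h1 := cntB_cons_le b t
    have h2 := cntB_cons_le a (b :: t)
    simp only [List.cons_append, List.nil_append]
    omega
  | a :: b :: c :: s =>
    have := cntB_append_le (b :: c :: s) t
    simp only [List.cons_append, cntB] at this ⊢
    omega

lemma cntB_append_ge (s t : List (Fin 4)) : cntB s + cntB t ≤ cntB (s ++ t) := by
  match s with
  | [] => simp [cntB]
  | [a] =>
    have := cntB_le_cons a t
    simp only [List.cons_append, List.nil_append, cntB]
    omega
  | [a, b] =>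
    have h1 := cntB_le_cons b t
    have h2 := cntB_le_cons a (b :: t)
    simp only [List.cons_append, List.nil_append]
    have : cntB [a, b] = 0 := rfl
    omega
  | a :: b :: c :: s =>
    have := cntB_append_ge (b :: c :: s) t
    simp only [List.cons_append, cntB] at this ⊢
    omega

lemma cntB_bump_le (l₁ l₂ : List (Fin 4)) (a b : Fin 4) :
    cntB (l₁ ++ a :: b :: (a + 2) :: l₂) ≤ cntB (l₁ ++ b :: l₂) + 5 := by
  have h1 := cntB_append_le l₁ ([a, b, a + 2] ++ l₂)
  have h2 := cntB_append_le [a, b, a + 2] l₂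
  have h3 := cntB_append_ge l₁ (b :: l₂)
  have h4 := cntB_le_cons b l₂
  have h5 : cntB [a, b, a + 2] ≤ 1 := by
    simp only [cntB]
    split_ifs <;> omega
  have h6 : l₁ ++ a :: b :: (a + 2) :: l₂ = l₁ ++ ([a, b, a + 2] ++ l₂) := by simp
  rw [h6]
  omega

lemma cntB_bump_ge (l₁ l₂ : List (Fin 4)) (a b : Fin 4) :
    cntB (l₁ ++ b :: l₂) ≤ cntB (l₁ ++ a :: b :: (a + 2) :: l₂) + 5 := by
  have h1 := cntB_append_ge l₁ ([a, b, a + 2] ++ l₂)
  have h2 := cntB_append_ge [a, b, a + 2] l₂
  have h3 := cntB_append_le l₁ (b :: l₂)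
  have h4 := cntB_cons_le b l₂
  have h6 : l₁ ++ a :: b :: (a + 2) :: l₂ = l₁ ++ ([a, b, a + 2] ++ l₂) := by simp
  rw [h6]
  omega

/-- `j`-th vertex -/
lemma vs_getElem (p : ℤ × ℤ) (s : List (Fin 4)) (j : ℕ) (h : j < (vs p s).length) :
    (vs p s)[j] = ep p (s.take j) := by
  induction s generalizing p j with
  | nil => simp at h
  | cons d s ih =>
    cases j with
    | zero => simp
    | succ j =>
      simp only [vs_cons, List.getElem_cons_succ, List.take_succ_cons, ep_cons]
      exact ih _ _ _

lemma vertex_mem (s : List (Fin 4)) (j : ℕ) (h : j < s.length) : ep 0 (s.take j) ∈ vs 0 s := by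
  have h' : j < (vs 0 s).length := by simpa using h
  rw [← vs_getElem 0 s j h']
  exact List.getElem_mem h'

lemma vertex_inj (s : List (Fin 4)) (hs : SAPw s) (j k : ℕ) (hj : j < s.length)
    (hk : k < s.length) (h : ep 0 (s.take j) = ep 0 (s.take k)) : j = k := by
  have hj' : j < (vs 0 s).length := by simpa using hj
  have hk' : k < (vs 0 s).length := by simpa using hk
  rw [← vs_getElem 0 s j hj', ← vs_getElem 0 s k hk'] at h
  exact (hs.2.getElem_inj_iff).1 h

lemma vertex_succ (s : List (Fin 4)) (j : ℕ) (hj : j < s.length) :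
    ep 0 (s.take (j + 1)) = ep 0 (s.take j) + dv (s.getD j 0) := by
  rw [List.take_succ_eq_append_getElem hj, ep_append, List.getD_eq_getElem _ _ hj]
  simp

/-- arrival points are distinct -/
lemma arrival_inj (s : List (Fin 4)) (hs : SAPw s) (j k : ℕ) (hj : j < s.length)
    (hk : k < s.length) (h : ep 0 (s.take (j + 1)) = ep 0 (s.take (k + 1))) : j = k := by
  have h0 : ep 0 (s.take s.length) = ep 0 (s.take 0) := by
    simpa using hs.1
  rcases Nat.lt_or_ge (j + 1) s.length with h1 | h1
  · rcases Nat.lt_or_ge (k + 1) s.length with h2 | h2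
    · have := vertex_inj s hs _ _ h1 h2 h
      omega
    · have h3 : k + 1 = s.length := by omega
      rw [h3, h0] at h
      have := vertex_inj s hs _ _ h1 (by omega) h
      omega
  · have h4 : j + 1 = s.length := by omega
    rcases Nat.lt_or_ge (k + 1) s.length with h2 | h2
    · rw [h4, h0] at h
      have := vertex_inj s hs _ _ (by omega) h2 h
      omega
    · omega

/-- characterisation of allowed insertions -/
lemma mem_Up_iff (s : List (Fin 4)) (hs : SAPw s) (j : ℕ) (c : Fin 4) :
    (j, c) ∈ Up s ↔ j < s.length ∧ perp c (s.getD j 0) ∧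
      ep 0 (s.take j) + dv c ∉ vs 0 s ∧ ep 0 (s.take j) + dv c + dv (s.getD j 0) ∉ vs 0 s := by
  rw [mem_Up]
  constructor
  · rintro ⟨h1, h2, h3⟩
    obtain ⟨l₁, b, l₂, rfl, rfl⟩ := exists_split j s h1
    have h4 : (l₁ ++ b :: l₂).getD l₁.length 0 = b := by simp
    have h5 : (l₁ ++ b :: l₂).take l₁.length = l₁ := by simp
    rw [ins_split, SAPw_bump_iff] at h3
    rw [h4] at h2 ⊢
    rw [h5]
    exact ⟨h1, h2, h3.2.1, h3.2.2⟩
  · rintro ⟨h1, h2, h3, h3'⟩
    obtain ⟨l₁, b, l₂, rfl, rfl⟩ := exists_split j s h1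
    have h4 : (l₁ ++ b :: l₂).getD l₁.length 0 = b := by simp
    have h5 : (l₁ ++ b :: l₂).take l₁.length = l₁ := by simp
    rw [h4] at h2 h3'
    rw [h5] at h3 h3'
    dsimp only
    rw [h4, ins_split, SAPw_bump_iff]
    exact ⟨h1, h2, hs, h3, h3'⟩

lemma take_left (l₁ l₂ : List (Fin 4)) (j : ℕ) (h : j < l₁.length) :
    (l₁ ++ l₂).take j = l₁.take j := by
  rw [List.take_append_of_le_length h.le]

lemma getD_left (l₁ l₂ : List (Fin 4)) (j : ℕ) (h : j < l₁.length) :
    (l₁ ++ l₂).getD j 0 = l₁.getD j 0 := by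
  rw [List.getD_append _ _ _ _ h]

lemma take_right1 (l₁ l₂ : List (Fin 4)) (b : Fin 4) (k : ℕ) :
    (l₁ ++ b :: l₂).take (l₁.length + 1 + k) = l₁ ++ b :: l₂.take k := by
  rw [List.take_append, List.take_of_length_le (by omega)]
  have : l₁.length + 1 + k - l₁.length = k + 1 := by omega
  rw [this, List.take_succ_cons]

lemma take_right3 (l₁ l₂ : List (Fin 4)) (a b c : Fin 4) (k : ℕ) :
    (l₁ ++ a :: b :: c :: l₂).take (l₁.length + 1 + k + 2) = l₁ ++ a :: b :: c :: l₂.take k := by
  rw [List.take_append, List.take_of_length_le (by omega)]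
  have : l₁.length + 1 + k + 2 - l₁.length = k + 1 + 1 + 1 := by omega
  rw [this, List.take_succ_cons, List.take_succ_cons, List.take_succ_cons]

lemma getD_right1 (l₁ l₂ : List (Fin 4)) (b : Fin 4) (k : ℕ) :
    (l₁ ++ b :: l₂).getD (l₁.length + 1 + k) 0 = l₂.getD k 0 := by
  rw [List.getD_append_right _ _ _ _ (by omega)]
  have : l₁.length + 1 + k - l₁.length = k + 1 := by omega
  rw [this, List.getD_cons_succ]

lemma getD_right3 (l₁ l₂ : List (Fin 4)) (a b c : Fin 4) (k : ℕ) :
    (l₁ ++ a :: b :: c :: l₂).getD (l₁.length + 1 + k + 2) 0 = l₂.getD k 0 := by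
  rw [List.getD_append_right _ _ _ _ (by omega)]
  have : l₁.length + 1 + k + 2 - l₁.length = k + 1 + 1 + 1 := by omega
  rw [this, List.getD_cons_succ, List.getD_cons_succ, List.getD_cons_succ]

open Classical in
lemma card_coll1 (s : List (Fin 4)) (hs : SAPw s) (p : ℤ × ℤ) :
    ((Up s).filter (fun x => ep 0 (s.take x.1) + dv x.2 = p)).card ≤ 4 := by
  have : ((Up s).filter (fun x => ep 0 (s.take x.1) + dv x.2 = p)).card ≤
      (univ : Finset (Fin 4)).card := by
    refine card_le_card_of_injOn (fun x => x.2) (fun x _ => mem_univ _) ?_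
    rintro ⟨j, c⟩ hj ⟨k, d⟩ hk h
    simp only [coe_filter, Set.mem_ofPred_eq, mem_Up] at hj hk h
    subst h
    have h1 : ep 0 (s.take j) = ep 0 (s.take k) := by
      have := hj.2.trans hk.2.symm
      exact add_right_cancel this
    have := vertex_inj s hs j k hj.1.1 hk.1.1 h1
    subst this
    rfl
  simpa using this

open Classical in
lemma card_coll2 (s : List (Fin 4)) (hs : SAPw s) (p : ℤ × ℤ) :
    ((Up s).filter (fun x => ep 0 (s.take x.1) + dv x.2 + dv (s.getD x.1 0) = p)).card ≤ 4 := by
  have : ((Up s).filter (fun x => ep 0 (s.take x.1) + dv x.2 + dv (s.getD x.1 0) = p)).card ≤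
      (univ : Finset (Fin 4)).card := by
    refine card_le_card_of_injOn (fun x => x.2) (fun x _ => mem_univ _) ?_
    rintro ⟨j, c⟩ hj ⟨k, d⟩ hk h
    simp only [coe_filter, Set.mem_ofPred_eq, mem_Up] at hj hk h
    subst h
    have h1 : ep 0 (s.take (j + 1)) = ep 0 (s.take (k + 1)) := by
      rw [vertex_succ s j hj.1.1, vertex_succ s k hk.1.1]
      have := hj.2.trans hk.2.symm
      rw [add_right_comm, add_right_comm _ (dv c)] at this
      exact add_right_cancel this
    have := arrival_inj s hs j k hj.1.1 hk.1.1 h1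
    subst this
    rfl
  simpa using this

open Classical in
lemma card_coll0 (s : List (Fin 4)) (i : ℕ) :
    ((Up s).filter (fun x => x.1 = i)).card ≤ 4 := by
  have : ((Up s).filter (fun x => x.1 = i)).card ≤ (univ : Finset (Fin 4)).card := by
    refine card_le_card_of_injOn (fun x => x.2) (fun x _ => mem_univ _) ?_
    rintro ⟨j, c⟩ hj ⟨k, d⟩ hk h
    simp only [coe_filter, Set.mem_ofPred_eq] at hj hk h
    rw [Prod.mk.injEq]
    exact ⟨hj.2.trans hk.2.symm, h⟩
  simpa using this

lemma Up_bump_ge (s : List (Fin 4)) (hs : SAPw s) (i : ℕ) (a : Fin 4) (h : (i, a) ∈ Up s) :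
    (Up s).card ≤ (Up (ins i a s)).card + 20 := by
  classical
  have h0 := h
  rw [mem_Up] at h
  obtain ⟨hi, hp, hS⟩ := h
  obtain ⟨l₁, b, l₂, rfl, rfl⟩ := exists_split i s hi
  dsimp only at hS
  rw [ins_split] at hS ⊢
  set s := l₁ ++ b :: l₂ with hsdef
  set s' := l₁ ++ a :: b :: (a + 2) :: l₂ with hs'def
  set p := ep 0 l₁ + dv a with hpdef
  set q := ep 0 l₁ + dv a + dv b with hqdef
  set C := (Up s).filter (fun x => x.1 = l₁.length) ∪
    ((Up s).filter (fun x => ep 0 (s.take x.1) + dv x.2 = p) ∪
    ((Up s).filter (fun x => ep 0 (s.take x.1) + dv x.2 = q) ∪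
    ((Up s).filter (fun x => ep 0 (s.take x.1) + dv x.2 + dv (s.getD x.1 0) = p) ∪
    (Up s).filter (fun x => ep 0 (s.take x.1) + dv x.2 + dv (s.getD x.1 0) = q)))) with hC
  have hCcard : C.card ≤ 20 := by
    have e1 := card_coll0 s l₁.length
    have e2 := card_coll1 s hs p
    have e3 := card_coll1 s hs q
    have e4 := card_coll2 s hs p
    have e5 := card_coll2 s hs q
    rw [hC]
    refine (card_union_le _ _).trans ?_
    refine le_trans (add_le_add e1 ((card_union_le _ _).trans (add_le_add e2
      ((card_union_le _ _).trans (add_le_add e3 ((card_union_le _ _).trans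
        (add_le_add e4 e5))))))) ?_
    norm_num
  have hmain : (Up s \ C).card ≤ (Up s').card := by
    refine card_le_card_of_injOn (fun x => (if x.1 < l₁.length then x.1 else x.1 + 2, x.2)) ?_ ?_
    · rintro ⟨j, c⟩ hj
      simp only [coe_sdiff, Set.mem_sdiff, mem_coe, hC, mem_union, mem_filter, not_or,
        not_and] at hj
      obtain ⟨hj, c0, c1, c2, c3, c4⟩ := hj
      have c0 := c0 hj
      have c1 := c1 hj
      have c2 := c2 hj
      have c3 := c3 hj
      have c4 := c4 hj
      rw [mem_Up_iff s hs] at hj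
      obtain ⟨g1, g2, g3, g4⟩ := hj
      simp only [mem_coe]
      rw [mem_Up_iff s' hS]
      by_cases hlt : j < l₁.length
      · have t1 : s'.take j = s.take j := by
          rw [hs'def, hsdef, take_left _ _ _ hlt, take_left _ _ _ hlt]
        have t2 : s'.getD j 0 = s.getD j 0 := by
          rw [hs'def, hsdef, getD_left _ _ _ hlt, getD_left _ _ _ hlt]
        rw [if_pos hlt, t1, t2]
        refine ⟨?_, g2, ?_, ?_⟩
        · simp only [hs'def, hsdef, List.length_append, List.length_cons] at g1 ⊢
          omega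
        · rw [hs'def, mem_vs_bump]
          push Not
          exact ⟨c1, c2, g3⟩
        · rw [hs'def, mem_vs_bump]
          push Not
          exact ⟨c3, c4, g4⟩
      · obtain ⟨k, rfl⟩ : ∃ k, j = l₁.length + 1 + k := ⟨j - (l₁.length + 1), by
          have : j ≠ l₁.length := c0
          omega⟩
        have t1 : ep 0 (s'.take (l₁.length + 1 + k + 2)) = ep 0 (s.take (l₁.length + 1 + k)) := by
          rw [hs'def, hsdef, take_right1, take_right3, ep_bump]
        have t2 : s'.getD (l₁.length + 1 + k + 2) 0 = s.getD (l₁.length + 1 + k) 0 := by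
          rw [hs'def, hsdef, getD_right1, getD_right3]
        rw [if_neg hlt, t1, t2]
        refine ⟨?_, g2, ?_, ?_⟩
        · simp only [hs'def, hsdef, List.length_append, List.length_cons] at g1 ⊢
          omega
        · rw [hs'def, mem_vs_bump]
          push Not
          exact ⟨c1, c2, g3⟩
        · rw [hs'def, mem_vs_bump]
          push Not
          exact ⟨c3, c4, g4⟩
    · rintro ⟨j, c⟩ hj ⟨k, d⟩ hk hh
      simp only [Prod.mk.injEq] at hh ⊢
      refine ⟨?_, hh.2⟩
      have := hh.1
      split_ifs at this <;> omega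
  have h1 : (Up s).card ≤ (Up s \ C).card + C.card := by
    have := card_le_card_sdiff_add_card (s := Up s) (t := C)
    exact this
  omega

lemma card_Up_le (s : List (Fin 4)) : (Up s).card ≤ 4 * s.length := by
  classical
  refine (card_filter_le _ _).trans ?_
  rw [card_product, card_range, card_univ, Fintype.card_fin, mul_comm]

end Pool.Agent.Lib27
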