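import Pool.Agent.Lib_helper27.Ratio
import Pool.Agent.Lib_helper27.Winding

set_option autoImplicit false

namespace Pool.Agent.Lib27

open Finset Filter Topology

/-- twice the enclosed area -/
noncomputable def T (s : List (Fin 4)) : ℝ := ((|dbl 0 s| : ℤ) : ℝ)

lemma T_nonneg (s : List (Fin 4)) : 0 ≤ T s := by
  unfold T
  exact_mod_cast abs_nonneg _

lemma T_ge (n : ℕ) (hn : 2 ≤ n) (s : List (Fin 4)) (hs : s ∈ W n) : (n : ℝ) ≤ T s := by
  rw [mem_W] at hs
  have := dbl_ge n s hs.2 hs.1 hn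
  unfold T
  exact_mod_cast this

lemma T_ins (n : ℕ) (s : List (Fin 4)) (hs : s ∈ W n) (x : ℕ × Fin 4) (hx : x ∈ Up s) :
    |T (ins x.1 x.2 s) - T s| ≤ 2 := by
  have hx' := hx
  rw [mem_Up] at hx'
  obtain ⟨h1, h2, h3⟩ := hx'
  rw [mem_W] at hs
  obtain ⟨l₁, b, l₂, rfl, hl⟩ := exists_split x.1 s h1
  have h4 : (l₁ ++ b :: l₂).getD l₁.length 0 = b := by simp
  rw [← hl] at h2 h3 ⊢
  rw [h4] at h2
  rw [ins_split] at h3 ⊢
  unfold T
  rw [dbl_bump]
  have h5 := perp_cross _ _ h2
  set c := (dv x.2).1 * (dv b).2 - (dv x.2).2 * (dv b).1 with hc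
  have h6 : |(|dbl 0 (l₁ ++ b :: l₂) + 2 * c| - |dbl 0 (l₁ ++ b :: l₂)|)| ≤ 2 := by
    refine (abs_abs_sub_abs_le_abs_sub _ _).trans ?_
    rw [add_sub_cancel_left]
    rcases h5 with h5 | h5 <;> rw [h5] <;> norm_num
  exact_mod_cast h6

lemma dbl_le (s : List (Fin 4)) (p : ℤ × ℤ) (M : ℕ) (h1 : |p.1| ≤ M) (h2 : |p.2| ≤ M) :
    |dbl p s| ≤ s.length * (M + s.length) := by
  induction s generalizing p M with
  | nil => simp
  | cons d s ih =>
    rw [dbl_cons]
    have h3 := ih (p + dv d) (M + 1) (by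
      have := dv_bound d
      rw [Prod.fst_add, abs_le] at *
      push_cast
      omega) (by
      have := dv_bound d
      rw [Prod.snd_add, abs_le] at *
      push_cast
      omega)
    have h4 : |p.1 * (dv d).2 - p.2 * (dv d).1| ≤ M := by
      fin_cases d <;> simp [dv, h1, h2]
    have h5 := abs_add_le (p.1 * (dv d).2 - p.2 * (dv d).1) (dbl (p + dv d) s)
    have h6 : (List.length (d :: s) : ℤ) = s.length + 1 := by simp
    rw [h6]
    push_cast at h3
    have h7 : (0 : ℤ) ≤ s.length := by positivity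
    nlinarith

lemma T_le (n : ℕ) (s : List (Fin 4)) (hs : s ∈ W n) : T s ≤ 4 * (n : ℝ) ^ 2 := by
  rw [mem_W] at hs
  have := dbl_le s 0 0 (by simp) (by simp)
  rw [hs.1] at this
  unfold T
  have h2 : ((|dbl 0 s| : ℤ) : ℝ) ≤ (((2 * n : ℕ) : ℤ) * ((0 : ℕ) + ((2 * n : ℕ) : ℤ)) : ℤ) := by
    exact_mod_cast this
  refine h2.trans ?_
  push_cast
  nlinarith

lemma pow_lip (k : ℕ) (t t' n : ℝ) (hn : 2 ≤ n) (ht : n ≤ t) (ht' : 0 ≤ t') (h : |t' - t| ≤ 2) :
    |t' ^ k - t ^ k| ≤ 4 ^ (k + 1) / n * t ^ k := by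
  induction k with
  | zero => simp; positivity
  | succ k ih =>
    have e : t' ^ (k + 1) - t ^ (k + 1) = t' * (t' ^ k - t ^ k) + t ^ k * (t' - t) := by ring
    rw [e]
    refine (abs_add_le _ _).trans ?_
    rw [abs_mul, abs_mul, abs_of_nonneg ht', abs_of_nonneg (pow_nonneg (by linarith : 0 ≤ t) k)]
    have h1 : t' ≤ 2 * t := by
      have := (abs_le.1 h).2
      linarith
    have h2 : 0 ≤ t ^ k := pow_nonneg (by linarith) k
    have h3 : 0 ≤ 4 ^ (k + 1) / n * t ^ k := by positivity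
    have h4 : t' * |t' ^ k - t ^ k| ≤ 2 * t * (4 ^ (k + 1) / n * t ^ k) :=
      mul_le_mul h1 ih (abs_nonneg _) (by linarith)
    have h5 : t ^ k * |t' - t| ≤ t ^ k * 2 := mul_le_mul_of_nonneg_left h h2
    have h6 : t ^ k * 2 ≤ 2 / n * t ^ (k + 1) := by
      rw [pow_succ, div_mul_eq_mul_div, le_div_iff₀ (by linarith)]
      nlinarith
    have h7 : 2 * t * (4 ^ (k + 1) / n * t ^ k) + 2 / n * t ^ (k + 1) =
        (2 * 4 ^ (k + 1) + 2) / n * t ^ (k + 1) := by ring
    have h8 : (2 * 4 ^ (k + 1) + 2) / n * t ^ (k + 1) ≤ 4 ^ (k + 1 + 1) / n * t ^ (k + 1) := by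
      apply mul_le_mul_of_nonneg_right _ (pow_nonneg (by linarith) _)
      apply div_le_div_of_nonneg_right _ (by linarith)
      have : (1 : ℝ) ≤ 4 ^ (k + 1) := one_le_pow₀ (by norm_num)
      rw [pow_succ 4 (k + 1)]
      linarith
    linarith

/-- powers of the area are slowly varying weights -/
noncomputable def gw (k : ℕ) : GoodWt (fun _ s => T s ^ k) where
  C := 4 ^ (k + 1)
  K := 2 * k
  hC := one_le_pow₀ (by norm_num)
  one_le := by
    intro n hn s hs
    have h1 := T_ge n hn s hs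
    have h2 : (2 : ℝ) ≤ n := by exact_mod_cast hn
    exact one_le_pow₀ (by linarith)
  le_poly := by
    intro n hn s hs
    have h1 := T_le n s hs
    have h2 := T_nonneg s
    calc T s ^ k ≤ (4 * (n : ℝ) ^ 2) ^ k := pow_le_pow_left₀ h2 h1 k
      _ = 4 ^ k * (n : ℝ) ^ (2 * k) := by rw [mul_pow, pow_mul]
      _ ≤ 4 ^ (k + 1) * (n : ℝ) ^ (2 * k) := by
          apply mul_le_mul_of_nonneg_right _ (by positivity)
          exact pow_le_pow_right₀ (by norm_num) (by omega)
  lip := by
    intro n hn s hs x hx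
    have h2 : (2 : ℝ) ≤ n := by exact_mod_cast hn
    exact pow_lip k (T s) _ n h2 (T_ge n hn s hs) (T_nonneg _) (T_ins n s hs x hx)

/-- the trivial weight -/
noncomputable def g1 : GoodWt (fun _ _ => (1 : ℝ)) where
  C := 1
  K := 0
  hC := le_rfl
  one_le := fun _ _ _ _ => le_rfl
  le_poly := fun _ _ _ _ => by simp
  lip := fun n hn s hs x hx => by simp

lemma aw_one (n : ℕ) : aw (fun _ _ => (1 : ℝ)) n = (W n).card := by
  unfold aw; simp

/-- mean of the `k`-th power of twice the area -/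
noncomputable def mom (k n : ℕ) : ℝ := (∑ s ∈ W n, T s ^ k) / (W n).card

lemma card_pos' (n : ℕ) (hn : 2 ≤ n) : (0 : ℝ) < (W n).card := by
  have := W_pos n (by omega)
  exact_mod_cast this

lemma mom_pos (k n : ℕ) (hn : 2 ≤ n) : 0 < mom k n :=
  div_pos (aw_pos (gw k) n hn) (card_pos' n hn)

theorem card_ratio : Tendsto (fun n => ((W (n + 1)).card : ℝ) / (W n).card) atTop
    (𝓝 (Real.exp Lc)) := by
  have := ratio_limit g1
  simpa only [aw_one] using this

theorem mom_ratio (k : ℕ) : Tendsto (fun n => mom k (n + 1) / mom k n) atTop (𝓝 1) := by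
  have h1 := ratio_limit (gw k)
  have h2 := h1.div card_ratio (Real.exp_pos Lc).ne'
  rw [div_self (Real.exp_pos Lc).ne'] at h2
  refine h2.congr' ?_
  filter_upwards [eventually_ge_atTop 2] with n hn
  have e1 := card_pos' n hn
  have e2 := card_pos' (n + 1) (by omega)
  have e3 := aw_pos (gw k) n hn
  unfold mom aw at *
  simp only [Pi.div_apply]
  field_simp

lemma mom_one_ge (n : ℕ) (hn : 2 ≤ n) : (n : ℝ) ≤ mom 1 n := by
  unfold mom
  rw [le_div_iff₀ (card_pos' n hn)]
  calc (n : ℝ) * (W n).card = ∑ s ∈ W n, (n : ℝ) := by rw [sum_const, nsmul_eq_mul]; ring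
    _ ≤ _ := sum_le_sum (fun s hs => by rw [pow_one]; exact T_ge n hn s hs)

/-- the comparison of sums over successive levels -/
theorem merge_gen (n : ℕ) (hn : 120000 ≤ n) (f f' D : List (Fin 4) → ℝ)
    (hf : ∀ s, 0 ≤ f s ∧ f s ≤ 1) (hf' : ∀ s, 0 ≤ f' s ∧ f' s ≤ 1) (hD0 : ∀ s, 0 ≤ D s)
    (hD : ∀ s ∈ W n, ∀ x ∈ Up s, |f' (ins x.1 x.2 s) - f s| ≤ D s) :
    |∑ s ∈ W (n + 1), f' s - Real.exp Lc * ∑ s ∈ W n, f s| ≤
      (Bad (n + 1)).card + (8 * n + Real.exp Lc) * (Bad n).card +
      192000 * ∑ s ∈ W n, D s + 11520000000 / n * (W n).card +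
      (W n).card * Real.sqrt (VV (fun _ _ => (1 : ℝ)) n) := by
  set κ := Real.exp Lc with hκ
  have hκ0 : 0 < κ := Real.exp_pos _
  have hn' : (0 : ℝ) < n := by
    have : 0 < n := by omega
    exact_mod_cast this
  have hn12 : (120000 : ℝ) ≤ n := by exact_mod_cast hn
  obtain ⟨h1, h2⟩ := sum_over_down n f' (fun s _ => (hf' s).1)
  set X := ∑ s ∈ W n, ∑ x ∈ Up s, f' (ins x.1 x.2 s) / cntB (ins x.1 x.2 s) with hX
  have hbad1 : ∑ s ∈ Bad (n + 1), f' s ≤ (Bad (n + 1)).card := by
    calc ∑ s ∈ Bad (n + 1), f' s ≤ ∑ s ∈ Bad (n + 1), (1 : ℝ) := sum_le_sum fun s _ => (hf' s).2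
      _ = _ := by simp
  -- the part over bad words
  set XB := ∑ s ∈ Bad n, ∑ x ∈ Up s, f' (ins x.1 x.2 s) / cntB (ins x.1 x.2 s) with hXB
  set XG := ∑ s ∈ Gd n, ∑ x ∈ Up s, f' (ins x.1 x.2 s) / cntB (ins x.1 x.2 s) with hXG
  have hsplit : X = XG + XB := sum_split n _
  have hXB0 : 0 ≤ XB := by
    apply sum_nonneg; intro s _
    apply sum_nonneg; intro x _
    exact div_nonneg (hf' _).1 (by positivity)
  have hXB1 : XB ≤ 8 * n * (Bad n).card := by
    calc XB ≤ ∑ s ∈ Bad n, (8 * n : ℝ) := by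
          apply sum_le_sum
          intro s hs
          rw [mem_Bad] at hs
          have hlen := (mem_W n s).1 hs.1
          have hc := card_Up_le s
          rw [hlen.1] at hc
          calc ∑ x ∈ Up s, f' (ins x.1 x.2 s) / cntB (ins x.1 x.2 s)
              ≤ ∑ x ∈ Up s, (1 : ℝ) := by
                apply sum_le_sum
                intro x hx
                obtain ⟨_, g2, _⟩ := ins_facts n s hs.1 x hx
                have g3 : (1 : ℝ) ≤ cntB (ins x.1 x.2 s) := by exact_mod_cast g2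
                rw [div_le_one (by linarith)]
                exact (hf' _).2.trans g3
            _ = (Up s).card := by simp
            _ ≤ 8 * n := by
                have : (Up s).card ≤ 8 * n := by omega
                exact_mod_cast this
      _ = _ := by rw [sum_const, nsmul_eq_mul]; ring
  -- good words
  have hG : |XG - ∑ s ∈ Gd n, rr s * f s| ≤ 192000 * ∑ s ∈ W n, D s +
      11520000000 / n * (W n).card := by
    have hterm : ∀ s ∈ Gd n, |(∑ x ∈ Up s, f' (ins x.1 x.2 s) / cntB (ins x.1 x.2 s)) - rr s * f s| ≤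
        192000 * D s + 11520000000 / n := by
      intro s hs
      have hs' := (mem_Gd n s).1 hs
      have hB : (120000 : ℝ) ≤ 12000 * cntB s := by
        have : 120000 ≤ 12000 * cntB s := le_trans hn hs'.2
        exact_mod_cast this
      have hBn : (n : ℝ) ≤ 12000 * cntB s := by exact_mod_cast hs'.2
      have hB10 : (10 : ℝ) ≤ cntB s := by linarith
      have hlen := (mem_W n s).1 hs'.1
      have hc := card_Up_le s
      rw [hlen.1] at hc
      have hF : ((Up s).card : ℝ) ≤ 96000 * cntB s := by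
        have : (Up s).card ≤ 8 * n := by omega
        have h3 : ((Up s).card : ℝ) ≤ 8 * n := by exact_mod_cast this
        linarith
      have e1 : rr s * f s = ∑ x ∈ Up s, f s / cntB s := by
        rw [sum_const, nsmul_eq_mul]
        unfold rr
        ring
      rw [e1, ← sum_sub_distrib]
      refine (abs_sum_le_sum_abs _ _).trans ?_
      have e2 : ∀ x ∈ Up s, |f' (ins x.1 x.2 s) / cntB (ins x.1 x.2 s) - f s / cntB s| ≤
          2 * D s / cntB s + 10 / (cntB s : ℝ) ^ 2 := by
        intro x hx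
        obtain ⟨_, g2, g3, g4, _⟩ := ins_facts n s hs'.1 x hx
        set b := (cntB s : ℝ) with hb
        set b' := (cntB (ins x.1 x.2 s) : ℝ) with hb'
        have g3' : b' ≤ b + 5 := by
          rw [hb, hb']; exact_mod_cast g3
        have g4' : b ≤ b' + 5 := by
          rw [hb, hb']; exact_mod_cast g4
        have hb0 : 0 < b := by linarith
        have hb'0 : 0 < b' := by linarith
        have hb'1 : b / 2 ≤ b' := by linarith
        have e3 : f' (ins x.1 x.2 s) / b' - f s / b =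
            (f' (ins x.1 x.2 s) - f s) / b' + f s * (b - b') / (b * b') := by
          field_simp
          ring
        rw [e3]
        refine (abs_add_le _ _).trans ?_
        apply add_le_add
        · rw [abs_div, abs_of_pos hb'0, div_le_div_iff₀ hb'0 hb0]
          have := hD s hs'.1 x hx
          calc |f' (ins x.1 x.2 s) - f s| * b ≤ D s * (2 * b') := by
                apply mul_le_mul this (by linarith) hb0.le (hD0 s)
            _ = _ := by ring
        · rw [abs_div, abs_mul, abs_of_nonneg (hf s).1, abs_of_pos (mul_pos hb0 hb'0),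
            div_le_div_iff₀ (mul_pos hb0 hb'0) (by positivity)]
          have h5 : |b - b'| ≤ 5 := by rw [abs_le]; constructor <;> linarith
          have h6 : f s * |b - b'| ≤ 5 := by
            calc f s * |b - b'| ≤ 1 * 5 := mul_le_mul (hf s).2 h5 (abs_nonneg _) (by norm_num)
              _ = 5 := by norm_num
          calc f s * |b - b'| * b ^ 2 ≤ 5 * b ^ 2 := by
                apply mul_le_mul_of_nonneg_right h6 (by positivity)
            _ ≤ 10 * (b * b') := by nlinarith
      refine (sum_le_sum e2).trans ?_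
      rw [sum_const, nsmul_eq_mul, mul_add]
      have hb0 : (0 : ℝ) < cntB s := by linarith
      apply add_le_add
      · rw [← mul_div_assoc, div_le_iff₀ hb0]
        have := hD0 s
        nlinarith
      · rw [← mul_div_assoc, div_le_div_iff₀ (by positivity) hn']
        nlinarith
    rw [hXG, ← sum_sub_distrib]
    refine (abs_sum_le_sum_abs _ _).trans ((sum_le_sum hterm).trans ?_)
    have hpos : ∀ s ∈ Bad n, 0 ≤ 192000 * D s + 11520000000 / (n : ℝ) := fun s _ => by
      have := hD0 s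
      positivity
    have e4 : ∑ s ∈ Gd n, (192000 * D s + 11520000000 / (n : ℝ)) ≤
        ∑ s ∈ W n, (192000 * D s + 11520000000 / (n : ℝ)) := by
      rw [sum_split n (fun s => 192000 * D s + 11520000000 / (n : ℝ))]
      have := sum_nonneg hpos
      linarith
    refine e4.trans (le_of_eq ?_)
    rw [sum_add_distrib, ← mul_sum, sum_const, nsmul_eq_mul]
    ring
  -- concentration
  have hV : |∑ s ∈ Gd n, rr s * f s - κ * ∑ s ∈ Gd n, f s| ≤
      (W n).card * Real.sqrt (VV (fun _ _ => (1 : ℝ)) n) := by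
    have hA := card_pos' n (by omega)
    have e1 : ∑ s ∈ Gd n, rr s * f s - κ * ∑ s ∈ Gd n, f s = ∑ s ∈ Gd n, f s * (rr s - κ) := by
      rw [mul_sum, ← sum_sub_distrib]
      apply sum_congr rfl
      intro s _
      ring
    rw [e1]
    have e2 := sum_mul_sq_le_sq_mul_sq (Gd n) f (fun s => rr s - κ)
    have e3 : ∑ s ∈ Gd n, f s ^ 2 ≤ (W n).card := by
      calc ∑ s ∈ Gd n, f s ^ 2 ≤ ∑ s ∈ Gd n, (1 : ℝ) := by
            apply sum_le_sum
            intro s _
            have := hf s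
            nlinarith
        _ = (Gd n).card := by simp
        _ ≤ (W n).card := by
            classical
            have : Gd n ⊆ W n := fun s hs => ((mem_Gd n s).1 hs).1
            exact_mod_cast card_le_card this
    have e4 : ∑ s ∈ Gd n, (rr s - κ) ^ 2 = (W n).card * VV (fun _ _ => (1 : ℝ)) n := by
      unfold VV
      rw [aw_one, mul_div_cancel₀ _ hA.ne']
      simp [hκ]
    have hVV : 0 ≤ VV (fun _ _ => (1 : ℝ)) n := by
      unfold VV
      apply div_nonneg
      · apply sum_nonneg; intro s _; positivity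
      · rw [aw_one]; positivity
    apply abs_le_of_sq_le_sq _ (by positivity)
    rw [mul_pow, Real.sq_sqrt hVV]
    calc (∑ s ∈ Gd n, f s * (rr s - κ)) ^ 2 ≤ _ := e2
      _ ≤ (W n).card * ((W n).card * VV (fun _ _ => (1 : ℝ)) n) := by
          rw [e4]
          apply mul_le_mul_of_nonneg_right e3 (by positivity)
      _ = _ := by ring
  have hB : |∑ s ∈ Bad n, f s| ≤ (Bad n).card := by
    rw [abs_of_nonneg (sum_nonneg fun s _ => (hf s).1)]
    calc ∑ s ∈ Bad n, f s ≤ ∑ s ∈ Bad n, (1 : ℝ) := sum_le_sum fun s _ => (hf s).2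
      _ = _ := by simp
  have hsf : ∑ s ∈ W n, f s = ∑ s ∈ Gd n, f s + ∑ s ∈ Bad n, f s := sum_split n f
  rw [hsf]
  rw [abs_le] at hG hV hB ⊢
  have hB' : 0 ≤ ∑ s ∈ Bad n, f s := sum_nonneg fun s _ => (hf s).1
  have k1 : κ * ∑ s ∈ Bad n, f s ≤ κ * (Bad n).card := mul_le_mul_of_nonneg_left hB.2 hκ0.le
  have k2 : 0 ≤ κ * ∑ s ∈ Bad n, f s := mul_nonneg hκ0.le hB'
  have k3 : (0 : ℝ) ≤ (Bad (n + 1)).card := by positivity
  have k4 : (8 * n + κ) * (Bad n).card = 8 * n * (Bad n).card + κ * (Bad n).card := by ring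
  have k5 : 0 ≤ κ * (Bad n).card := by positivity
  have k6 : 0 ≤ 8 * (n : ℝ) * (Bad n).card := by positivity
  have k7 : κ * (∑ s ∈ Gd n, f s + ∑ s ∈ Bad n, f s) =
      κ * ∑ s ∈ Gd n, f s + κ * ∑ s ∈ Bad n, f s := by ring
  rw [k4, k7]
  constructor <;> linarith [hG.1, hG.2, hV.1, hV.2]

end Pool.Agent.Lib27
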