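import Pool.Agent.Lib_helper27.Growth

set_option autoImplicit false

namespace Pool.Agent.Lib27

open Finset Filter Topology

/-- set of vertices -/
def vset (s : List (Fin 4)) : Finset (ℤ × ℤ) := (vt 0 s).toFinset

lemma mem_vset (s : List (Fin 4)) (v : ℤ × ℤ) : v ∈ vset s ↔ v ∈ vt 0 s := by
  unfold vset; rw [List.mem_toFinset]

lemma vset_card (s : List (Fin 4)) (hs : SAWs s) : (vset s).card = s.length + 1 := by
  unfold vset
  rw [List.toFinset_card_of_nodup hs, vt_length]

/-- an event depending on the set of vertices seen from a centre -/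
structure Event where
  E : Finset (ℤ × ℤ) → ℤ × ℤ → Prop
  mono : ∀ A B c, A ⊆ B → E A c → E B c
  trans : ∀ A c v, E A c → E (A.image (· + v)) (c + v)

/-- the event occurs somewhere along the word -/
def occ (e : Event) (t : List (Fin 4)) : Prop :=
  ∃ l₁ l₂, t = l₁ ++ l₂ ∧ l₂ ≠ [] ∧ e.E (vset t) (ep 0 l₁)

open Classical in
/-- words avoiding the event -/
noncomputable def Av (e : Event) (M : ℕ) : Finset (List (Fin 4)) := (Cs M).filter (fun s => ¬ occ e s)

open Classical in
/-- number of blocks in which the event occurs -/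
noncomputable def gb (e : Event) (M k : ℕ) (s : List (Fin 4)) : ℕ :=
  ((range k).filter (fun b => occ e ((s.drop (b * M)).take M))).card

lemma gb_succ (e : Event) (M k : ℕ) (s : List (Fin 4)) (hl : s.length = (k + 1) * M) :
    gb e M (k + 1) s = gb e M k (s.take (k * M)) +
      (open Classical in if occ e (s.drop (k * M)) then 1 else 0) := by
  classical
  unfold gb
  rw [range_add_one, filter_insert]
  have h1 : (s.drop (k * M)).take M = s.drop (k * M) := by
    apply List.take_of_length_le
    rw [List.length_drop, hl, add_mul, one_mul]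
    omega
  have h2 : (range k).filter (fun b => occ e (((s.take (k * M)).drop (b * M)).take M)) =
      (range k).filter (fun b => occ e ((s.drop (b * M)).take M)) := by
    apply filter_congr
    intro b hb
    rw [mem_range] at hb
    have h3 : ((s.take (k * M)).drop (b * M)).take M = (s.drop (b * M)).take M := by
      rw [List.drop_take, List.take_take]
      congr 1
      apply min_eq_left
      have : (b + 1) * M ≤ k * M := Nat.mul_le_mul_right _ hb
      rw [add_mul, one_mul] at this
      omega
    rw [h3]
  rw [h1, h2]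
  split_ifs with h
  · rw [card_insert_of_notMem]
    simp
  · simp

lemma Av_sub (e : Event) (M : ℕ) : (Av e M).card ≤ (Cs M).card := by
  classical
  exact card_filter_le _ _

lemma gb_sum (e : Event) (M : ℕ) (y : ℝ) (hy : 0 ≤ y) (k : ℕ) :
    ∑ s ∈ Cs (k * M), y ^ gb e M k s ≤ ((Av e M).card + y * (Cs M).card) ^ k := by
  classical
  induction k with
  | zero =>
    rw [zero_mul, pow_zero]
    have h1 : Cs 0 ⊆ {[]} := by
      intro s hs
      rw [mem_Cs] at hs
      rw [mem_singleton]
      exact List.length_eq_zero_iff.1 hs.1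
    calc ∑ s ∈ Cs 0, y ^ gb e M 0 s ≤ ∑ s ∈ Cs 0, (1 : ℝ) := by
          apply sum_le_sum
          intro s _
          simp [gb]
      _ = (Cs 0).card := by simp
      _ ≤ 1 := by
          have := card_le_card h1
          rw [card_singleton] at this
          exact_mod_cast this
  | succ k ih =>
    have hstep : ∑ t ∈ Cs M, y ^ (if occ e t then 1 else 0) ≤
        ((Av e M).card + y * (Cs M).card : ℝ) := by
      rw [← sum_filter_add_sum_filter_not (Cs M) (fun t => occ e t), add_comm]
      apply add_le_add
      · calc ∑ t ∈ (Cs M).filter (fun t => ¬ occ e t), y ^ (if occ e t then 1 else 0)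
            = ∑ t ∈ (Cs M).filter (fun t => ¬ occ e t), (1 : ℝ) := by
              apply sum_congr rfl
              intro t ht
              rw [mem_filter] at ht
              rw [if_neg ht.2, pow_zero]
          _ = (Av e M).card := by simp [Av]
          _ ≤ _ := le_rfl
      · calc ∑ t ∈ (Cs M).filter (fun t => occ e t), y ^ (if occ e t then 1 else 0)
            = ∑ t ∈ (Cs M).filter (fun t => occ e t), y := by
              apply sum_congr rfl
              intro t ht
              rw [mem_filter] at ht
              rw [if_pos ht.2, pow_one]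
          _ = ((Cs M).filter (fun t => occ e t)).card * y := by rw [sum_const, nsmul_eq_mul]
          _ ≤ (Cs M).card * y := by
              apply mul_le_mul_of_nonneg_right _ hy
              exact_mod_cast card_filter_le _ _
          _ = _ := mul_comm _ _
    have h1 : ∑ s ∈ Cs ((k + 1) * M), y ^ gb e M (k + 1) s ≤
        ∑ x ∈ Cs (k * M) ×ˢ Cs M, y ^ gb e M k x.1 * y ^ (if occ e x.2 then 1 else 0) := by
      have h2 : ∑ s ∈ Cs ((k + 1) * M), y ^ gb e M (k + 1) s =
          ∑ x ∈ (Cs ((k + 1) * M)).image (fun s => (s.take (k * M), s.drop (k * M))),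
            y ^ gb e M k x.1 * y ^ (if occ e x.2 then 1 else 0) := by
        rw [sum_image]
        · apply sum_congr rfl
          intro s hs
          rw [mem_Cs] at hs
          rw [gb_succ e M k s hs.1, pow_add]
        · intro s _ t _ h
          simp only [Prod.mk.injEq] at h
          rw [← List.take_append_drop (k * M) s, ← List.take_append_drop (k * M) t, h.1, h.2]
      rw [h2]
      apply sum_le_sum_of_subset_of_nonneg
      · intro x hx
        rw [mem_image] at hx
        obtain ⟨s, hs, rfl⟩ := hx
        rw [mem_Cs] at hs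
        have h3 : s = s.take (k * M) ++ s.drop (k * M) := (List.take_append_drop _ s).symm
        have h4 := hs.2
        rw [h3] at h4
        obtain ⟨h5, h6⟩ := SAWs_append _ _ h4
        rw [mem_product, mem_Cs, mem_Cs]
        refine ⟨⟨?_, h5⟩, ⟨?_, h6⟩⟩
        · simp only [List.length_take, hs.1]
          apply min_eq_left
          exact Nat.mul_le_mul_right _ (by omega)
        · simp only [List.length_drop, hs.1]
          rw [add_mul, one_mul]
          omega
      · intro x _ _
        positivity
    refine h1.trans ?_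
    rw [sum_product]
    simp only
    have h3 : ∑ x ∈ Cs (k * M), ∑ t ∈ Cs M, y ^ gb e M k x * y ^ (if occ e t then 1 else 0) =
        (∑ x ∈ Cs (k * M), y ^ gb e M k x) * ∑ t ∈ Cs M, y ^ (if occ e t then 1 else 0) := by
      rw [sum_mul]
      apply sum_congr rfl
      intro x _
      rw [mul_sum]
    rw [h3, pow_succ]
    apply mul_le_mul ih hstep
    · apply sum_nonneg; intro t _; positivity
    · positivity

/-- words with few good blocks -/
lemma few_blocks (e : Event) (M : ℕ) (y : ℝ) (hy : 0 < y) (hy1 : y ≤ 1) (k r m : ℕ) :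
    (((open Classical in (Cs (k * M + r)).filter (fun s => gb e M k (s.take (k * M)) ≤ m)).card : ℕ) : ℝ)
      * y ^ m ≤ 4 ^ r * ((Av e M).card + y * (Cs M).card) ^ k := by
  classical
  have h1 : ((Cs (k * M + r)).filter (fun s => gb e M k (s.take (k * M)) ≤ m)).card ≤
      ((Cs (k * M)).filter (fun s => gb e M k s ≤ m)).card * (Cs r).card := by
    rw [← card_product]
    apply card_le_card_of_injOn (fun s => (s.take (k * M), s.drop (k * M)))
    · intro s hs
      simp only [coe_filter, Set.mem_ofPred_eq] at hs
      obtain ⟨hs, hg⟩ := hs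
      rw [mem_Cs] at hs
      have h3 : s = s.take (k * M) ++ s.drop (k * M) := (List.take_append_drop _ s).symm
      have h4 := hs.2
      rw [h3] at h4
      obtain ⟨h5, h6⟩ := SAWs_append _ _ h4
      rw [mem_coe, mem_product, mem_filter, mem_Cs, mem_Cs]
      refine ⟨⟨⟨?_, h5⟩, hg⟩, ⟨?_, h6⟩⟩
      · simp [hs.1]
      · simp [hs.1]
    · intro s _ t _ h
      simp only [Prod.mk.injEq] at h
      rw [← List.take_append_drop (k * M) s, ← List.take_append_drop (k * M) t, h.1, h.2]
  have h2 : (((Cs (k * M)).filter (fun s => gb e M k s ≤ m)).card : ℝ) * y ^ m ≤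
      ((Av e M).card + y * (Cs M).card) ^ k := by
    refine le_trans ?_ (gb_sum e M y hy.le k)
    calc (((Cs (k * M)).filter (fun s => gb e M k s ≤ m)).card : ℝ) * y ^ m
        = ∑ s ∈ (Cs (k * M)).filter (fun s => gb e M k s ≤ m), y ^ m := by
          rw [sum_const, nsmul_eq_mul]
      _ ≤ ∑ s ∈ (Cs (k * M)).filter (fun s => gb e M k s ≤ m), y ^ gb e M k s := by
          apply sum_le_sum
          intro s hs
          rw [mem_filter] at hs
          exact pow_le_pow_of_le_one hy.le hy1 hs.2
      _ ≤ _ := by
          apply sum_le_sum_of_subset_of_nonneg (filter_subset _ _)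
          intro s _ _
          positivity
  have h3 : ((Cs r).card : ℝ) ≤ 4 ^ r := by exact_mod_cast Cs_le r
  calc (((Cs (k * M + r)).filter (fun s => gb e M k (s.take (k * M)) ≤ m)).card : ℝ) * y ^ m
      ≤ (((Cs (k * M)).filter (fun s => gb e M k s ≤ m)).card * (Cs r).card) * y ^ m := by
        apply mul_le_mul_of_nonneg_right _ (by positivity)
        exact_mod_cast h1
    _ = (Cs r).card * ((((Cs (k * M)).filter (fun s => gb e M k s ≤ m)).card : ℝ) * y ^ m) := by ring
    _ ≤ 4 ^ r * ((Av e M).card + y * (Cs M).card) ^ k :=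
        mul_le_mul h3 h2 (by positivity) (by positivity)

open Classical in
/-- words of length `N` with few good blocks -/
noncomputable def FewB (e : Event) (M N m : ℕ) : Finset (List (Fin 4)) :=
  (Cs N).filter (fun s => gb e M (N / M) (s.take ((N / M) * M)) ≤ m)

/-- if the event is avoided by exponentially fewer words then it occurs in a positive fraction of
the blocks for all but exponentially few words -/
theorem block_theorem (e : Event) (M : ℕ) (hM : 1 ≤ M)
    (h : ((Av e M).card : ℝ) < Real.exp (M * Lm)) :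
    ∃ a : ℝ, 0 < a ∧ ∃ η : ℝ, 0 < η ∧ ∀ᶠ N : ℕ in atTop,
      ((FewB e M N ⌊a * N⌋₊).card : ℝ) ≤ Real.exp (N * (Lm - η)) := by
  classical
  have hM' : (1 : ℝ) ≤ M := by exact_mod_cast hM
  set z : ℝ := ((Av e M).card : ℝ) with hz
  set c : ℝ := ((Cs M).card : ℝ) with hc
  set X : ℝ := Real.exp (M * Lm) with hX
  have hXc : X ≤ c := cs_ge M
  have hX0 : 0 < X := Real.exp_pos _
  have hc0 : 0 < c := hX0.trans_le hXc
  have hz0 : 0 ≤ z := by positivity
  set y : ℝ := (X - z) / (2 * c) with hy
  have hy0 : 0 < y := by rw [hy]; apply div_pos (by linarith) (by linarith)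
  have hy1 : y < 1 := by rw [hy, div_lt_one (by linarith)]; linarith
  set θ : ℝ := (z + X) / (2 * X) with hθ
  have hθ0 : 0 < θ := by rw [hθ]; positivity
  have hθ1 : θ < 1 := by rw [hθ, div_lt_one (by linarith)]; linarith
  have hzy : z + y * c = X * θ := by rw [hy, hθ]; field_simp; ring
  set h0 : ℝ := -Real.log θ with hh0
  have hh : 0 < h0 := by rw [hh0]; have := Real.log_neg hθ0 hθ1; linarith
  set ly : ℝ := -Real.log y with hly
  have hly0 : 0 < ly := by rw [hly]; have := Real.log_neg hy0 hy1; linarith
  set a : ℝ := h0 / (4 * M * ly) with ha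
  have ha0 : 0 < a := by rw [ha]; positivity
  refine ⟨a, ha0, h0 / (4 * M), by positivity, ?_⟩
  have hbig : ∀ᶠ N : ℕ in atTop, M * Real.log 4 + h0 ≤ h0 / (2 * M) * N := by
    have : Tendsto (fun N : ℕ => h0 / (2 * M) * (N : ℝ)) atTop atTop :=
      tendsto_natCast_atTop_atTop.const_mul_atTop (by positivity)
    exact this.eventually_ge_atTop _
  filter_upwards [hbig] with N hN
  set k := N / M with hk
  set r := N % M with hr
  have hdec : k * M + r = N := by rw [hk, hr]; exact Nat.div_add_mod' N M
  have hrM : r < M := Nat.mod_lt _ (by omega)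
  set m := ⌊a * N⌋₊ with hm
  have hmle : (m : ℝ) ≤ a * N := Nat.floor_le (by positivity)
  have h1 := few_blocks e M y hy0 hy1.le k r m
  rw [hdec, ← hz, ← hc, hzy] at h1
  have h2 : ((FewB e M N m).card : ℝ) * y ^ m ≤ 4 ^ r * (X * θ) ^ k := h1
  -- logarithms
  have hkN : (k : ℝ) * M ≤ N := by
    have : k * M ≤ N := by omega
    exact_mod_cast this
  have hkN2 : (N : ℝ) ≤ k * M + M := by
    have : N ≤ k * M + M := by omega
    exact_mod_cast this
  have h3 : ((FewB e M N m).card : ℝ) ≤ 4 ^ r * (X * θ) ^ k * (y ^ m)⁻¹ := by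
    have hym : 0 < y ^ m := by positivity
    rw [← div_eq_mul_inv, le_div_iff₀ hym]
    exact h2
  refine h3.trans ?_
  have h4 : (4 : ℝ) ^ r = Real.exp (r * Real.log 4) := by
    rw [mul_comm, Real.exp_mul, Real.exp_log (by norm_num), Real.rpow_natCast]
  have h5 : (X * θ) ^ k = Real.exp (k * (M * Lm) - k * h0) := by
    have : X * θ = Real.exp (M * Lm - h0) := by
      rw [hX, hh0, sub_neg_eq_add, Real.exp_add, Real.exp_log hθ0]
    rw [this, ← Real.exp_nat_mul]
    congr 1
    ring
  have h6 : (y ^ m)⁻¹ = Real.exp (m * ly) := by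
    have : y = Real.exp (-ly) := by rw [hly, neg_neg, Real.exp_log hy0]
    rw [this, ← Real.exp_nat_mul, ← Real.exp_neg]
    congr 1
    ring
  rw [h4, h5, h6, ← Real.exp_add, ← Real.exp_add]
  apply Real.exp_le_exp.2
  have hL := Lm_nonneg
  have hl4 : 0 ≤ Real.log 4 := Real.log_nonneg (by norm_num)
  have e1 : (r : ℝ) * Real.log 4 ≤ M * Real.log 4 := by
    apply mul_le_mul_of_nonneg_right _ hl4
    exact_mod_cast hrM.le
  have e2 : (m : ℝ) * ly ≤ h0 / (4 * M) * N := by
    calc (m : ℝ) * ly ≤ a * N * ly := mul_le_mul_of_nonneg_right hmle hly0.le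
      _ = _ := by rw [ha]; field_simp
  have e3 : (k : ℝ) * (M * Lm) ≤ N * Lm := by
    calc (k : ℝ) * (M * Lm) = (k * M) * Lm := by ring
      _ ≤ N * Lm := mul_le_mul_of_nonneg_right hkN hL
  have e4 : h0 / M * N - h0 ≤ k * h0 := by
    have : h0 / M * N ≤ h0 / M * (k * M + M) := mul_le_mul_of_nonneg_left hkN2 (by positivity)
    have e5 : h0 / M * (k * M + M) = k * h0 + h0 := by field_simp
    linarith
  have e6 : h0 / M * N = h0 / (2 * M) * N + h0 / (4 * M) * N + h0 / (4 * M) * N := by
    field_simp; ring
  have e7 : (N : ℝ) * (Lm - h0 / (4 * M)) = N * Lm - h0 / (4 * M) * N := by ring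
  rw [e7]
  linarith

end Pool.Agent.Lib27
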