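import Pool.Agent.Lib_helper27.HW

set_option autoImplicit false

namespace Pool.Agent.Lib27

open Finset

/-- cross product -/
def cr (x v : ℤ × ℤ) : ℤ := x.1 * v.2 - x.2 * v.1

lemma cr_add (x v w : ℤ × ℤ) : cr x (v + w) = cr x v + cr x w := by
  unfold cr; simp; ring
lemma cr_sub (x v w : ℤ × ℤ) : cr x (v - w) = cr x v - cr x w := by
  unfold cr; simp; ring
lemma cr_self (x : ℤ × ℤ) : cr x x = 0 := by unfold cr; ring

/-- walks to `x` above the line through `0` and `x` -/
def UX (x : ℤ × ℤ) (s : List (Fin 4)) : Prop :=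
  SAWs s ∧ ep 0 s = x ∧ ∀ v ∈ vt 0 s, 0 ≤ cr x v

open Classical in
noncomputable def Ux (N : ℕ) (x : ℤ × ℤ) : Finset (List (Fin 4)) := (words N).filter (UX x)
open Classical in
noncomputable def Brx (N : ℕ) (x : ℤ × ℤ) : Finset (List (Fin 4)) :=
  (words N).filter (fun s => BRw s ∧ ep 0 s = x)

lemma mem_Ux (N : ℕ) (x : ℤ × ℤ) (s : List (Fin 4)) : s ∈ Ux N x ↔ s.length = N ∧ UX x s := by
  classical
  rw [Ux, mem_filter, mem_words]
lemma mem_Brx (N : ℕ) (x : ℤ × ℤ) (s : List (Fin 4)) :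
    s ∈ Brx N x ↔ s.length = N ∧ BRw s ∧ ep 0 s = x := by
  classical
  rw [Brx, mem_filter, mem_words]

lemma exists_cr_min (x : ℤ × ℤ) (s : List (Fin 4)) :
    ∃ v ∈ vt 0 s, ∀ w ∈ vt 0 s, cr x v ≤ cr x w := by
  classical
  obtain ⟨v, hv, hmin⟩ := Finset.exists_min_image (vt 0 s).toFinset (fun v => cr x v)
    ⟨0, by rw [List.mem_toFinset]; exact mem_vt_self 0 s⟩
  exact ⟨v, List.mem_toFinset.1 hv, fun w hw => hmin w (List.mem_toFinset.2 hw)⟩

/-- rotating a bridge at its lowest vertex -/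
lemma rotate_bridge (x : ℤ × ℤ) (l₁ l₂ : List (Fin 4)) (h : BRw (l₁ ++ l₂))
    (hx : ep 0 (l₁ ++ l₂) = x) (hmin : ∀ w ∈ vt 0 (l₁ ++ l₂), cr x (ep 0 l₁) ≤ cr x w) :
    UX x (l₂ ++ l₁) := by
  set Q := ep 0 l₁ with hQ
  have hR : ep Q l₂ = x := by rw [← hx, ep_append]
  have he : ep 0 l₂ = x - Q := by
    rw [ep_eq] at hR
    exact eq_sub_of_add_eq hR
  have hQmem : Q ∈ vt 0 (l₁ ++ l₂) := by
    rw [vt_append', List.mem_append]; left; exact ep_mem_vt 0 l₁
  -- vertices of the second part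
  have hv2 : ∀ v ∈ vt 0 l₂, v + Q ∈ vt 0 (l₁ ++ l₂) := by
    intro v hv
    rw [vt_append, List.mem_append, vt_eq]
    right
    exact List.mem_map.2 ⟨v, hv, rfl⟩
  have hv1 : ∀ v ∈ vt 0 l₁, v ∈ vt 0 (l₁ ++ l₂) := by
    intro v hv
    rw [vt_append', List.mem_append]; left; exact hv
  refine ⟨?_, ?_, ?_⟩
  · unfold SAWs
    rw [vt_append', List.nodup_append']
    obtain ⟨hs1, hs2⟩ := SAWs_append _ _ h.1
    refine ⟨hs2, ?_, ?_⟩
    · have := hs1
      unfold SAWs at this
      rw [← nodup_vt (ep 0 l₂), vt_head] at this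
      exact (List.nodup_cons.1 this).2
    · intro v hv hv'
      have h1 := BR_le _ h _ (hv2 v hv)
      rw [hx, Prod.fst_add] at h1
      have h2 := mem_tail_shift _ _ _ hv'
      have h3 := (h.2 (v - ep 0 l₂) (by
        rw [vt_tail_append, List.mem_append]; left; exact h2)).1
      rw [he] at h3
      simp only [Prod.fst_sub] at h3
      omega
  · rw [ep_append, ep_eq, he, ← hQ]
    abel
  · intro v hv
    rw [vt_append', List.mem_append] at hv
    rcases hv with hv | hv
    · have h1 := hmin _ (hv2 v hv)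
      rw [cr_add] at h1
      omega
    · have h2 := mem_tail_shift _ _ _ hv
      have h3 := hmin _ (hv1 _ (List.mem_of_mem_tail h2))
      rw [he, cr_sub, cr_sub, cr_self] at h3
      omega

lemma Brx_le_Ux (N : ℕ) (x : ℤ × ℤ) : (Brx N x).card ≤ (N + 1) * (Ux N x).card := by
  classical
  have hsub : Brx N x ⊆ (range (N + 1)).biUnion (fun k =>
      (Ux N x).image (fun s => s.drop k ++ s.take k)) := by
    intro s hs
    rw [mem_Brx] at hs
    obtain ⟨hl, hb, hx⟩ := hs
    obtain ⟨l₁, l₂, heq, hP, -⟩ := split_last (fun v => ∀ w ∈ vt 0 s, cr x v ≤ cr x w) s 0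
      (exists_cr_min x s)
    subst heq
    rw [mem_biUnion]
    refine ⟨l₂.length, ?_, ?_⟩
    · rw [List.length_append] at hl
      rw [mem_range]; omega
    · rw [mem_image]
      refine ⟨l₂ ++ l₁, ?_, ?_⟩
      · rw [mem_Ux]
        refine ⟨?_, rotate_bridge x l₁ l₂ hb hx hP⟩
        rw [List.length_append] at hl ⊢
        omega
      · simp
  refine (card_le_card hsub).trans (card_biUnion_le.trans ?_)
  calc ∑ k ∈ range (N + 1), ((Ux N x).image (fun s => s.drop k ++ s.take k)).card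
      ≤ ∑ k ∈ range (N + 1), (Ux N x).card := sum_le_sum fun k _ => card_image_le
    _ = _ := by rw [sum_const, card_range, smul_eq_mul]

/-- reading the steps backwards -/
lemma ep_reverse (s : List (Fin 4)) (p : ℤ × ℤ) : ep p s.reverse = ep p s := by
  induction s generalizing p with
  | nil => rfl
  | cons d s ih =>
    rw [List.reverse_cons, ep_append, ih, ep_cons, ep_nil, ep_cons, ep_eq p s,
      ep_eq (p + dv d) s]
    abel

/-- closing up two walks to a polygon -/
lemma close_up (N : ℕ) (x : ℤ × ℤ) (hx : 0 < x.1) (u d : List (Fin 4)) (hu : u ∈ Ux N x)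
    (hd : d ∈ Ux N x) : u ++ 3 :: (d.map (· + 2)) ++ [1] ∈ W (N + 1) := by
  rw [mem_Ux] at hu hd
  obtain ⟨hul, hu1, hu2, hu3⟩ := hu
  obtain ⟨hdl, hd1, hd2, hd3⟩ := hd
  -- points of the second half: `x - (0,1) - v`
  have hmap : ∀ (s : List (Fin 4)) (p : ℤ × ℤ), vt p (s.map (· + 2)) =
      (vt 0 s).map (fun v => p - v) := by
    intro s
    induction s with
    | nil => intro p; simp
    | cons a s ih =>
      intro p
      rw [List.map_cons, vt_cons, vt_cons, List.map_cons, ih, vt_eq (0 + dv a) s, List.map_map]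
      congr 1
      · abel
      · apply List.map_congr_left
        intro v _
        simp only [Function.comp_apply, dv_add_two]
        abel
  have hmape : ∀ (s : List (Fin 4)) (p : ℤ × ℤ), ep p (s.map (· + 2)) = p - ep 0 s := by
    intro s
    induction s with
    | nil => intro p; simp
    | cons a s ih =>
      intro p
      rw [List.map_cons, ep_cons, ep_cons, ih, ep_eq (0 + dv a) s, dv_add_two]
      abel
  have he : ep 0 (u ++ 3 :: (d.map (· + 2))) = (0, -1) := by
    rw [ep_append, hu2, ep_cons, hmape, hd2]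
    show x + (0, -1) - x = _
    abel
  rw [mem_W]
  refine ⟨?_, ?_, ?_⟩
  · simp only [List.length_append, List.length_cons, List.length_map, List.length_nil, hul, hdl]
    ring
  · rw [ep_append, he]
    rfl
  · have hvs : vs 0 (u ++ 3 :: (d.map (· + 2)) ++ [1]) =
        vt 0 (u ++ 3 :: (d.map (· + 2))) := by
      rw [vs_append]
      rfl
    rw [hvs, vt_append', vt_cons, List.tail_cons, hu2, hmap, List.nodup_append']
    refine ⟨hu1, ?_, ?_⟩
    · apply hd1.map
      intro a b hab
      simpa using hab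
    · intro v hv hv'
      rw [List.mem_map] at hv'
      obtain ⟨w, hw, rfl⟩ := hv'
      have h1 := hu3 _ hv
      have h2 := hd3 w hw
      rw [cr_sub, cr_add, cr_self] at h1
      have h3 : cr x (dv 3) = - x.1 := by
        unfold cr
        simp [dv]
      rw [h3] at h1
      omega

lemma Ux_sq_le (N : ℕ) (x : ℤ × ℤ) (hx : 0 < x.1) : (Ux N x).card ^ 2 ≤ (W (N + 1)).card := by
  rw [pow_two, ← card_product]
  apply card_le_card_of_injOn (fun y => y.1 ++ 3 :: (y.2.map (· + 2)) ++ [1])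
  · rintro ⟨u, d⟩ h
    simp only [coe_product, Set.mem_prod, mem_coe] at h ⊢
    exact close_up N x hx u d h.1 h.2
  · rintro ⟨u, d⟩ h ⟨u', d'⟩ h' heq
    simp only [coe_product, Set.mem_prod, mem_coe, mem_Ux] at h h' heq
    have h1 := List.append_inj_left' heq rfl
    have h2 := List.append_inj h1 (by rw [h.1.1, h'.1.1])
    have h3 : d.map (· + 2) = d'.map (· + 2) := by
      have := h2.2
      rw [List.cons_inj_right] at this
      exact this
    have h4 : d = d' := List.map_injective_iff.2 (add_left_injective _) h3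
    rw [h2.1, h4]

/-- the possible end points -/
lemma Br_le_sum (N : ℕ) : (Br N).card ≤
    ∑ x ∈ (Icc (-(N : ℤ)) N ×ˢ Icc (-(N : ℤ)) N), (Brx N x).card := by
  classical
  have hsub : Br N ⊆ (Icc (-(N : ℤ)) N ×ˢ Icc (-(N : ℤ)) N).biUnion (fun x => Brx N x) := by
    intro s hs
    rw [mem_Br] at hs
    rw [mem_biUnion]
    refine ⟨ep 0 s, ?_, ?_⟩
    · have := ep_bound 0 s
      rw [hs.1] at this
      simp only [Prod.fst_zero, Prod.snd_zero] at this
      rw [mem_product, mem_Icc, mem_Icc]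
      omega
    · rw [mem_Brx]
      exact ⟨hs.1, hs.2, rfl⟩
  exact (card_le_card hsub).trans card_biUnion_le

/-- polygons are at least as numerous as pairs of bridges, up to a polynomial factor -/
theorem Br_sq_le (N : ℕ) (hN : 1 ≤ N) :
    (Br N).card ^ 2 ≤ ((2 * N + 1) ^ 2 * (N + 1)) ^ 2 * (W (N + 1)).card := by
  have h1 := Br_le_sum N
  have hne : (Icc (-(N : ℤ)) N ×ˢ Icc (-(N : ℤ)) N : Finset (ℤ × ℤ)).Nonempty :=
    ⟨(0, 0), by simp⟩
  obtain ⟨x, _, hmax⟩ := exists_max_image (Icc (-(N : ℤ)) N ×ˢ Icc (-(N : ℤ)) N)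
    (fun x => (Brx N x).card) hne
  have h2 : (Br N).card ≤ (2 * N + 1) ^ 2 * (Brx N x).card := by
    refine h1.trans ((sum_le_card_nsmul _ _ _ hmax).trans (le_of_eq ?_))
    rw [card_product, Int.card_Icc, smul_eq_mul]
    have : ((N : ℤ) + 1 - -(N : ℤ)).toNat = 2 * N + 1 := by omega
    rw [this]
    ring
  rcases le_or_gt x.1 0 with hx | hx
  · -- no bridges end there
    have h3 : (Brx N x).card = 0 := by
      rw [card_eq_zero, eq_empty_iff_forall_notMem]
      intro s hs
      rw [mem_Brx] at hs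
      have hs0 : s ≠ [] := by
        rintro rfl
        simp at hs
        omega
      have := (hs.2.1.2 _ (ep_mem_tail 0 s hs0)).1
      rw [hs.2.2] at this
      omega
    rw [h3, mul_zero] at h2
    have h4 : (Br N).card = 0 := by omega
    rw [h4]
    simp
  · have h3 := Brx_le_Ux N x
    have h4 := Ux_sq_le N x hx
    calc (Br N).card ^ 2 ≤ ((2 * N + 1) ^ 2 * ((N + 1) * (Ux N x).card)) ^ 2 := by
          apply Nat.pow_le_pow_left
          exact h2.trans (Nat.mul_le_mul_left _ h3)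
      _ = ((2 * N + 1) ^ 2 * (N + 1)) ^ 2 * (Ux N x).card ^ 2 := by ring
      _ ≤ _ := Nat.mul_le_mul_left _ h4

end Pool.Agent.Lib27
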