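import Pool.Agent.Lib_helper27.FlipW
import Pool.Agent.Lib_helper27.Area

set_option autoImplicit false

namespace Pool.Agent.Lib27

open Finset Filter Topology

lemma fspec0 : FSpec fill0 := ⟨fill0_spec⟩
lemma fspec2 : FSpec fill2 := ⟨fill2_spec⟩

lemma lenLoHi (n : ℕ) : LenDiff fillLo fillHi (2 * n) (2 * n) := by
  intro p hp q hq h
  rw [(fill_states p hp q hq h).1]

lemma len02 (n : ℕ) : LenDiff fill0 fill2 (2 * n) (2 * (n + 1)) := by
  intro p hp q hq h
  have := (fill_types p hp q hq h).1
  omega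

/-- number of short slots -/
noncomputable def nA (s : List (Fin 4)) : ℝ := ((SlW fill0 TT s).card : ℝ)
/-- number of long slots -/
noncomputable def nB (s : List (Fin 4)) : ℝ := ((SlW fill2 TT s).card : ℝ)

lemma nA_nonneg (s : List (Fin 4)) : 0 ≤ nA s := by unfold nA; positivity
lemma nB_nonneg (s : List (Fin 4)) : 0 ≤ nB s := by unfold nB; positivity

/-- moves from perimeter `2n` to perimeter `2n+2` -/
noncomputable def sysU (n : ℕ) (hn : 1 ≤ n) :
    FlipSys (List (Fin 4)) (List (Fin 4) × List (Fin 4) × (ℤ × ℤ)) :=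
  flipW fspec0 fspec2 TT (len02 n) hn (by omega)

lemma sysU_mem (n : ℕ) (hn : 1 ≤ n) (z : List (Fin 4) × List (Fin 4) × (ℤ × ℤ))
    (hz : z ∈ (sysU n hn).Z) : FR fill0 fill2 TT z.1 z.2.1 z.2.2 :=
  flipW_mem fspec0 fspec2 TT (len02 n) hn (by omega) z hz

lemma sysU_fst (n : ℕ) (hn : 1 ≤ n) (z : List (Fin 4) × List (Fin 4) × (ℤ × ℤ))
    (hz : z ∈ (sysU n hn).Z) : z.1 ∈ W n := (sysU n hn).ha z hz

lemma sysU_snd (n : ℕ) (hn : 1 ≤ n) (z : List (Fin 4) × List (Fin 4) × (ℤ × ℤ))
    (hz : z ∈ (sysU n hn).Z) : z.2.1 ∈ W (n + 1) := (sysU n hn).hb z hz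

lemma iter_up (g K : ℝ) (hg : 1250 ≤ g) (hK0 : 0 ≤ K) (Nmax : ℕ) (hK : 50 * (Nmax : ℝ) ≤ K * g) :
    ∀ j n : ℕ, 1 ≤ n → n + j ≤ Nmax →
      ∑ s ∈ W n, (max (nA s / max (nB s) g - j * (((1 + K) * 1250 + K * 1250) / g)) 0) ^ j ≤
        (W (n + j)).card := by
  intro j
  induction j with
  | zero =>
    intro n _ _
    simp
  | succ j ih =>
    intro n hn hj
    have hg0 : (0 : ℝ) < g := by linarith
    have h1 := ih (n + 1) (by omega) (by omega)
    have e : n + 1 + j = n + (j + 1) := by ring
    rw [e] at h1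
    refine le_trans ?_ h1
    have hbd : ∀ n', 1 ≤ n' → n' ≤ Nmax → ∀ s ∈ W n', nA s ≤ K * max (nB s) g := by
      intro n' hn' hN s hs
      have e1 := SlW_le fill0 TT n' hn' s hs
      have e2 : (n' : ℝ) ≤ Nmax := by exact_mod_cast hN
      calc nA s ≤ 50 * n' := e1
        _ ≤ 50 * Nmax := by linarith
        _ ≤ K * g := hK
        _ ≤ K * max (nB s) g := mul_le_mul_of_nonneg_left (le_max_right _ _) hK0
    have hstep := (sysU n hn).step (fun s => max (nB s) g) g K 1250 ((1 + K) * 1250) hg0
      (by positivity) (by norm_num) hg (fun s => le_max_right _ _)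
      (by
        intro z hz
        have hR := sysU_mem n hn z hz
        have hl := FR_lip (H := fill2) (τ' := TT) fspec0 fspec2 fspec2 hR
        have hl' := (abs_max_sub_max_le_abs (nB z.1) (nB z.2.1) g).trans hl
        rw [abs_le] at hl'
        change max (nB z.2.1) g ≤ max (nB z.1) g + 1250
        linarith [hl'.1])
      (fun t _ => le_max_left _ _)
      (fun s hs => hbd n hn (by omega) s hs)
      (fun s => nA s / max (nB s) g) (fun s _ => rfl)
      (by
        intro z hz
        have hR := sysU_mem n hn z hz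
        have hl := FR_lip (H := fill2) (τ' := TT) fspec0 fspec2 fspec2 hR
        have hl2 := FR_lip (H := fill0) (τ' := TT) fspec0 fspec2 fspec0 hR
        have hl' := (abs_max_sub_max_le_abs (nB z.1) (nB z.2.1) g).trans hl
        have hzY : z.2.1 ∈ W (n + 1) := sysU_snd n hn z hz
        have := ratio_lip (nA z.1) (nA z.2.1) (max (nB z.1) g) (max (nB z.2.1) g) g K 1250 hg0
          (le_max_right _ _) (le_max_right _ _) hl2 hl' (nA_nonneg _)
          (hbd (n + 1) (by omega) (by omega) _ hzY)
        rw [abs_le] at this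
        change nA z.1 / max (nB z.1) g - (1 + K) * 1250 / g ≤ nA z.2.1 / max (nB z.2.1) g
        linarith [this.2])
      (j * (((1 + K) * 1250 + K * 1250) / g)) (by positivity) j
    refine le_trans (le_of_eq ?_) hstep
    apply sum_congr rfl
    intro s _
    congr 3
    push_cast
    ring

lemma iter_down (g K : ℝ) (hg : 1250 ≤ g) (hK0 : 0 ≤ K) (Nmax : ℕ) (hK : 50 * (Nmax : ℝ) ≤ K * g) :
    ∀ j n : ℕ, 1 ≤ n → n + j ≤ Nmax →
      ∑ s ∈ W (n + j), (max (nB s / max (nA s) g - j * (((1 + K) * 1250 + K * 1250) / g)) 0) ^ j ≤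
        (W n).card := by
  intro j
  induction j with
  | zero =>
    intro n _ _
    simp
  | succ j ih =>
    intro n hn hj
    have hg0 : (0 : ℝ) < g := by linarith
    have h1 := ih n hn (by omega)
    refine le_trans ?_ h1
    have hbd : ∀ n', 1 ≤ n' → n' ≤ Nmax → ∀ s ∈ W n', nB s ≤ K * max (nA s) g := by
      intro n' hn' hN s hs
      have e1 := SlW_le fill2 TT n' hn' s hs
      have e2 : (n' : ℝ) ≤ Nmax := by exact_mod_cast hN
      calc nB s ≤ 50 * n' := e1
        _ ≤ 50 * Nmax := by linarith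
        _ ≤ K * g := hK
        _ ≤ K * max (nA s) g := mul_le_mul_of_nonneg_left (le_max_right _ _) hK0
    have hstep := (sysU (n + j) (by omega)).swap.step (fun s => max (nA s) g) g K 1250
      ((1 + K) * 1250) hg0 (by positivity) (by norm_num) hg (fun s => le_max_right _ _)
      (by
        intro z hz
        have hR := sysU_mem (n + j) (by omega) z hz
        have hl := FR_lip (H := fill0) (τ' := TT) fspec0 fspec2 fspec0 hR
        have hl' := (abs_max_sub_max_le_abs (nA z.1) (nA z.2.1) g).trans hl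
        rw [abs_le] at hl'
        change max (nA z.1) g ≤ max (nA z.2.1) g + 1250
        linarith [hl'.2])
      (fun t _ => le_max_left _ _)
      (fun s hs => hbd (n + j + 1) (by omega) (by omega) s hs)
      (fun s => nB s / max (nA s) g) (fun s _ => rfl)
      (by
        intro z hz
        have hR := sysU_mem (n + j) (by omega) z hz
        have hl := FR_lip (H := fill0) (τ' := TT) fspec0 fspec2 fspec0 hR
        have hl2 := FR_lip (H := fill2) (τ' := TT) fspec0 fspec2 fspec2 hR
        rw [abs_sub_comm] at hl hl2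
        have hl' := (abs_max_sub_max_le_abs (nA z.2.1) (nA z.1) g).trans hl
        have hzX : z.1 ∈ W (n + j) := sysU_fst (n + j) (by omega) z hz
        have := ratio_lip (nB z.2.1) (nB z.1) (max (nA z.2.1) g) (max (nA z.1) g) g K 1250 hg0
          (le_max_right _ _) (le_max_right _ _) hl2 hl' (nB_nonneg _)
          (hbd (n + j) (by omega) (by omega) _ hzX)
        rw [abs_le] at this
        change nB z.2.1 / max (nA z.2.1) g - (1 + K) * 1250 / g ≤ nB z.1 / max (nA z.1) g
        linarith [this.2])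
      (j * (((1 + K) * 1250 + K * 1250) / g)) (by positivity) j
    refine le_trans (le_of_eq ?_) hstep
    change ∑ s ∈ W (n + (j + 1)), _ = ∑ s ∈ W (n + j + 1), _
    rw [← add_assoc]
    apply sum_congr rfl
    intro s _
    congr 3
    push_cast
    ring

/-- counting from a bound on powers -/
lemma tail_gen {α : Type*} [DecidableEq α] (S : Finset α) (r : α → ℝ) (θ b h U : ℝ) (k : ℕ)
    (hθ : 0 < θ) (hb : 0 < b) (hk : k * h ≤ b) (H : ∑ s ∈ S, (max (r s - k * h) 0) ^ k ≤ U) :
    ((S.filter (fun s => θ + 2 * b ≤ r s)).card : ℝ) * (θ + b) ^ k ≤ U := by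
  refine le_trans ?_ H
  rw [← nsmul_eq_mul, ← sum_const]
  calc ∑ s ∈ S.filter (fun s => θ + 2 * b ≤ r s), (θ + b) ^ k
      ≤ ∑ s ∈ S.filter (fun s => θ + 2 * b ≤ r s), (max (r s - k * h) 0) ^ k := by
        apply sum_le_sum
        intro s hs
        rw [mem_filter] at hs
        apply pow_le_pow_left₀ (by positivity)
        apply le_max_of_le_left
        linarith [hs.2]
    _ ≤ _ := sum_le_sum_of_subset_of_nonneg (filter_subset _ _) fun s _ _ => by positivity

end Pool.Agent.Lib27
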