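import Pool.Agent.Lib_helper27.Conc

set_option autoImplicit false

namespace Pool.Agent.Lib27

open Finset Filter Topology

/-- number of lower slots -/
noncomputable def nL (s : List (Fin 4)) : ℝ := ((SlW fillLo TT s).card : ℝ)

/-- common density of slots -/
def GoodEps (ε : ℝ) : Prop := 0 < ε ∧ ε ≤ 1 ∧ ∃ η : ℝ, 0 < η ∧ ∀ᶠ n : ℕ in atTop,
  (((W n).filter (fun s => nA s < ε * n)).card : ℝ) ≤ (W n).card * Real.exp (-(η * n)) ∧
  (((W n).filter (fun s => nB s < ε * n)).card : ℝ) ≤ (W n).card * Real.exp (-(η * n)) ∧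
  (((W n).filter (fun s => nL s < ε * n)).card : ℝ) ≤ (W n).card * Real.exp (-(η * n))

lemma few_mono (F : ℤ × ℤ → ℤ × ℤ → List (Fin 4)) (ε₀ η₀ ε η : ℝ) (hε : ε ≤ ε₀) (hη : η ≤ η₀)
    (n : ℕ) (h : (((W n).filter (fun s => ((SlW F TT s).card : ℝ) ≤ ε₀ * n)).card : ℝ) ≤
        (W n).card * Real.exp (-(η₀ * n))) :
    (((W n).filter (fun s => ((SlW F TT s).card : ℝ) < ε * n)).card : ℝ) ≤
        (W n).card * Real.exp (-(η * n)) := by
  have hn : (0 : ℝ) ≤ n := by positivity
  calc (((W n).filter (fun s => ((SlW F TT s).card : ℝ) < ε * n)).card : ℝ)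
      ≤ (((W n).filter (fun s => ((SlW F TT s).card : ℝ) ≤ ε₀ * n)).card : ℝ) := by
        have : (W n).filter (fun s => ((SlW F TT s).card : ℝ) < ε * n) ⊆
            (W n).filter (fun s => ((SlW F TT s).card : ℝ) ≤ ε₀ * n) := by
          intro s hs
          rw [mem_filter] at hs ⊢
          exact ⟨hs.1, hs.2.le.trans (mul_le_mul_of_nonneg_right hε hn)⟩
        exact_mod_cast card_le_card this
    _ ≤ _ := h
    _ ≤ _ := by
        apply mul_le_mul_of_nonneg_left _ (by positivity)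
        apply Real.exp_le_exp.2
        nlinarith

theorem goodEps_exists : ∃ ε : ℝ, GoodEps ε := by
  obtain ⟨ε₁, h1, η₁, k1, H1⟩ := few_slots fill0 fspec0
  obtain ⟨ε₂, h2, η₂, k2, H2⟩ := few_slots fill2 fspec2
  obtain ⟨ε₃, h3, η₃, k3, H3⟩ := few_slots fillLo fspecLo
  refine ⟨min 1 (min ε₁ (min ε₂ ε₃)), by positivity, min_le_left _ _,
    min η₁ (min η₂ η₃), by positivity, ?_⟩
  have a1 : min 1 (min ε₁ (min ε₂ ε₃)) ≤ ε₁ := (min_le_right _ _).trans (min_le_left _ _)
  have a2 : min 1 (min ε₁ (min ε₂ ε₃)) ≤ ε₂ :=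
    (min_le_right _ _).trans ((min_le_right _ _).trans (min_le_left _ _))
  have a3 : min 1 (min ε₁ (min ε₂ ε₃)) ≤ ε₃ :=
    (min_le_right _ _).trans ((min_le_right _ _).trans (min_le_right _ _))
  have b1 : min η₁ (min η₂ η₃) ≤ η₁ := min_le_left _ _
  have b2 : min η₁ (min η₂ η₃) ≤ η₂ := (min_le_right _ _).trans (min_le_left _ _)
  have b3 : min η₁ (min η₂ η₃) ≤ η₃ := (min_le_right _ _).trans (min_le_right _ _)
  filter_upwards [H1, H2, H3] with n e1 e2 e3
  exact ⟨few_mono fill0 _ _ _ _ a1 b1 n e1, few_mono fill2 _ _ _ _ a2 b2 n e2,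
    few_mono fillLo _ _ _ _ a3 b3 n e3⟩

lemma Lc_nonneg : 0 ≤ Lc := by
  rw [Lc_eq]
  have := Lm_nonneg
  linarith

lemma W_exp_lower : ∃ C : ℝ, 0 ≤ C ∧ ∀ n : ℕ, 1 ≤ n →
    Real.exp (n * Lc - C * Real.sqrt n) ≤ (W n).card := by
  obtain ⟨C, hC, h⟩ := W_rate_lower
  refine ⟨C, hC, fun n hn => ?_⟩
  have hWp : (0 : ℝ) < (W n).card := by
    have := W_pos n hn
    exact_mod_cast this
  rw [← Real.exp_log hWp]
  exact Real.exp_le_exp.2 (h n hn)

/-- the two one-sided estimates -/
lemma tail_log (Nb κ' b Lk : ℝ) (k : ℕ) (U V w : ℝ) (hκ' : 0 < κ') (hb : 0 < b)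
    (hlog : Lk = Real.log κ') (hN : Nb * (κ' + b) ^ k ≤ Real.exp U)
    (hw : w ≤ b / (κ' + b)) (hV : U - k * Lk - k * w ≤ V) : Nb ≤ Real.exp V := by
  have h1 : 0 < κ' + b := by linarith
  have h2 : Lk + w ≤ Real.log (κ' + b) := by
    have h3 := Real.one_sub_inv_le_log_of_pos (x := (κ' + b) / κ') (by positivity)
    rw [Real.log_div h1.ne' hκ'.ne', ← hlog] at h3
    have h4 : 1 - ((κ' + b) / κ')⁻¹ = b / (κ' + b) := by
      field_simp
      ring
    rw [h4] at h3
    linarith
  have h5 : Real.exp (k * (Lk + w)) ≤ (κ' + b) ^ k := by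
    rw [← Real.exp_log h1, ← Real.exp_nat_mul]
    apply Real.exp_le_exp.2
    exact mul_le_mul_of_nonneg_left h2 (by positivity)
  by_cases hNb : 0 ≤ Nb
  · have h6 : Nb * Real.exp (k * (Lk + w)) ≤ Real.exp U :=
      (mul_le_mul_of_nonneg_left h5 hNb).trans hN
    calc Nb = Nb * Real.exp (k * (Lk + w)) * Real.exp (-(k * (Lk + w))) := by
          rw [mul_assoc, ← Real.exp_add]; simp
      _ ≤ Real.exp U * Real.exp (-(k * (Lk + w))) :=
          mul_le_mul_of_nonneg_right h6 (Real.exp_pos _).le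
      _ = Real.exp (U + -(k * (Lk + w))) := by rw [Real.exp_add]
      _ ≤ Real.exp V := by
          apply Real.exp_le_exp.2
          linarith
  · push Not at hNb
    exact hNb.le.trans (Real.exp_pos _).le

/-- **Concentration** of the ratio of the numbers of short and long slots. -/
theorem conc (ε : ℝ) (hε : GoodEps ε) : ∃ C : ℝ, 0 < C ∧ ∀ᶠ n : ℕ in atTop,
    (((W n).filter (fun s => C / Real.sqrt (Real.sqrt n) <
      |nA s / max (nB s) (ε * n) - Real.exp Lc|)).card : ℝ) ≤
        (W n).card * Real.exp (-(Real.sqrt n)) := by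
  classical
  obtain ⟨hε0, hε1, η, hη, hfew⟩ := hε
  obtain ⟨C₀, hC₀, hlow⟩ := W_exp_lower
  set κ := Real.exp Lc with hκ
  have hκ1 : 1 ≤ κ := by
    rw [hκ]
    exact Real.one_le_exp Lc_nonneg
  have hκ0 : 0 < κ := by linarith
  set K : ℝ := 100 / ε with hKdef
  have hK0 : 0 ≤ K := by rw [hKdef]; positivity
  set L' : ℝ := (1 + K) * 1250 + K * 1250 with hL'
  have hL1 : 1250 ≤ L' := by rw [hL']; nlinarith
  have hL0 : 0 < L' := by linarith
  set Bc : ℝ := Real.sqrt ((C₀ + 9) * L' * (κ + 1) / ε) with hBc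
  have hBc2 : Bc ^ 2 = (C₀ + 9) * L' * (κ + 1) / ε := by
    rw [hBc, Real.sq_sqrt (by positivity)]
  have hBc0 : 0 < Bc := by rw [hBc]; apply Real.sqrt_pos.2; positivity
  refine ⟨2 * κ ^ 2 * Bc, by positivity, ?_⟩
  have hsq : Tendsto (fun n : ℕ => Real.sqrt (n : ℝ)) atTop atTop :=
    Real.tendsto_sqrt_atTop.comp tendsto_natCast_atTop_atTop
  have hq : Tendsto (fun n : ℕ => Real.sqrt (Real.sqrt (n : ℝ))) atTop atTop :=
    Real.tendsto_sqrt_atTop.comp hsq
  have ev1 : ∀ᶠ n : ℕ in atTop, Bc ≤ Real.sqrt (Real.sqrt n) := hq.eventually_ge_atTop _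
  have ev2 : ∀ᶠ n : ℕ in atTop, 1250 ≤ ε * n :=
    (tendsto_natCast_atTop_atTop.const_mul_atTop hε0).eventually_ge_atTop _
  have ev3 : ∀ᶠ n : ℕ in atTop, (2 : ℝ) ≤ Real.sqrt n := hsq.eventually_ge_atTop _
  have ev4 : ∀ᶠ n : ℕ in atTop, 2 / η ≤ Real.sqrt n := hsq.eventually_ge_atTop _
  filter_upwards [hfew, ev1, ev2, ev3, ev4, eventually_ge_atTop 4] with n hf e1 e2 e3 e4 hn4
  set x := Real.sqrt (n : ℝ) with hx
  set q := Real.sqrt x with hqd
  have hn' : (4 : ℝ) ≤ n := by exact_mod_cast hn4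
  have hxx : x * x = n := Real.mul_self_sqrt (by positivity)
  have hqq : q * q = x := Real.mul_self_sqrt (by positivity)
  have hq0 : 0 < q := hBc0.trans_le e1
  set g : ℝ := ε * n with hg
  have hg0 : 0 < g := by linarith
  set b := Bc / q with hb
  have hb0 : 0 < b := by rw [hb]; positivity
  have hb1 : b ≤ 1 := by rw [hb, div_le_one hq0]; exact e1
  set k := ⌊b * g / L'⌋₊ with hk
  have hk1 : (k : ℝ) ≤ b * g / L' := Nat.floor_le (by positivity)
  have hk2 : b * g / L' < k + 1 := Nat.lt_floor_add_one _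
  have hkn : (k : ℝ) ≤ n / 2 := by
    refine hk1.trans ?_
    rw [div_le_div_iff₀ hL0 (by norm_num)]
    have : b * g ≤ n := by
      calc b * g ≤ 1 * g := mul_le_mul_of_nonneg_right hb1 hg0.le
        _ = ε * n := by rw [hg, one_mul]
        _ ≤ n := by nlinarith
    nlinarith
  have hkn' : 2 * k ≤ n := by
    have : (2 : ℝ) * k ≤ n := by linarith
    exact_mod_cast this
  have hKg : 50 * ((2 * n : ℕ) : ℝ) ≤ K * g := by
    rw [hKdef, hg]
    push_cast
    have : 100 / ε * (ε * n) = 100 * (n : ℝ) := by field_simp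
    rw [this]
    linarith
  have hkh : (k : ℝ) * (L' / g) ≤ b := by
    calc (k : ℝ) * (L' / g) ≤ (b * g / L') * (L' / g) :=
          mul_le_mul_of_nonneg_right hk1 (by positivity)
      _ = b := by field_simp
  -- the gain
  have hgain : (C₀ + 9) * x - 1 ≤ k * (b / (κ + 1)) := by
    have h1 : b * g / L' - 1 ≤ k := by linarith
    have h2 : (b * g / L' - 1) * (b / (κ + 1)) ≤ k * (b / (κ + 1)) :=
      mul_le_mul_of_nonneg_right h1 (by positivity)
    have h3 : (b * g / L') * (b / (κ + 1)) = (C₀ + 9) * x := by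
      have h4 : b * b * g = Bc ^ 2 * ε * x := by
        rw [hb, hg, ← hxx, ← hqq]
        field_simp
      calc (b * g / L') * (b / (κ + 1)) = (b * b * g) / (L' * (κ + 1)) := by
            field_simp
        _ = _ := by
            rw [h4, hBc2]
            field_simp
    have h5 : b / (κ + 1) ≤ 1 := by rw [div_le_one (by linarith)]; linarith
    have h6 : (b * g / L' - 1) * (b / (κ + 1)) = (C₀ + 9) * x - b / (κ + 1) := by
      rw [sub_mul, h3, one_mul]
    linarith
  have hsq2 : Real.sqrt ((n + k : ℕ) : ℝ) ≤ 3 / 2 * x := by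
    rw [Real.sqrt_le_left (by positivity)]
    push_cast
    nlinarith
  have hsq3 : Real.sqrt ((n - k : ℕ) : ℝ) ≤ 3 / 2 * x := by
    rw [Real.sqrt_le_left (by positivity)]
    have : ((n - k : ℕ) : ℝ) ≤ n := by exact_mod_cast Nat.sub_le n k
    nlinarith
  have hlown := hlow n (by omega)
  -- upper tail
  have hup : (((W n).filter (fun s => κ + 2 * b ≤ nA s / max (nB s) g)).card : ℝ) ≤
      (W n).card * Real.exp (-(2 * x)) := by
    have h1 := iter_up g K e2 hK0 (2 * n) hKg k n (by omega) (by omega)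
    have h2 := tail_gen (W n) (fun s => nA s / max (nB s) g) κ b (L' / g) _ k hκ0 hb0 hkh h1
    have h3 : ((W (n + k)).card : ℝ) ≤ Real.exp ((n + k) * Lc + 4 * (3 / 2 * x)) := by
      have hWp : (0 : ℝ) < (W (n + k)).card := by
        have := W_pos (n + k) (by omega)
        exact_mod_cast this
      rw [← Real.exp_log hWp]
      apply Real.exp_le_exp.2
      have := W_rate_upper (n + k) (by omega)
      push_cast at this hsq2
      linarith
    have h4 := tail_log _ κ b Lc k ((n + k) * Lc + 4 * (3 / 2 * x))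
      (n * Lc - C₀ * x + -(2 * x)) (b / (κ + 1)) hκ0 hb0 (by rw [hκ, Real.log_exp])
      (h2.trans h3) (by
        apply div_le_div_of_nonneg_left hb0.le (by linarith)
        linarith)
      (by linarith)
    refine h4.trans ?_
    rw [Real.exp_add]
    exact mul_le_mul_of_nonneg_right hlown (Real.exp_pos _).le
  -- lower tail
  have hdn : (((W n).filter (fun s => κ⁻¹ + 2 * b ≤ nB s / max (nA s) g)).card : ℝ) ≤
      (W n).card * Real.exp (-(2 * x)) := by
    have h1 := iter_down g K e2 hK0 (2 * n) hKg k (n - k) (by omega) (by omega)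
    have hnk : n - k + k = n := by omega
    rw [hnk] at h1
    have h2 := tail_gen (W n) (fun s => nB s / max (nA s) g) κ⁻¹ b (L' / g) _ k
      (inv_pos.2 hκ0) hb0 hkh h1
    have h3 : ((W (n - k)).card : ℝ) ≤ Real.exp ((n - k) * Lc + 4 * (3 / 2 * x)) := by
      have hWp : (0 : ℝ) < (W (n - k)).card := by
        have := W_pos (n - k) (by omega)
        exact_mod_cast this
      rw [← Real.exp_log hWp]
      apply Real.exp_le_exp.2
      have h := W_rate_upper (n - k) (by omega)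
      have hc : ((n - k : ℕ) : ℝ) = n - k := by
        rw [Nat.cast_sub (by omega)]
      rw [hc] at h hsq3
      linarith
    have hb2 : b / (κ + 1) ≤ b / (κ⁻¹ + b) := by
      apply div_le_div_of_nonneg_left hb0.le (by positivity)
      have : κ⁻¹ ≤ 1 := inv_le_one_of_one_le₀ hκ1
      linarith
    have h4 := tail_log _ κ⁻¹ b (-Lc) k ((n - k) * Lc + 4 * (3 / 2 * x))
      (n * Lc - C₀ * x + -(2 * x)) (b / (κ + 1)) (inv_pos.2 hκ0) hb0
      (by rw [hκ, Real.log_inv, Real.log_exp])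
      (h2.trans h3) hb2
      (by linarith)
    refine h4.trans ?_
    rw [Real.exp_add]
    exact mul_le_mul_of_nonneg_right hlown (Real.exp_pos _).le
  -- inclusion
  have hsub : (W n).filter (fun s => 2 * κ ^ 2 * Bc / q < |nA s / max (nB s) g - κ|) ⊆
      (((W n).filter (fun s => nA s < g)) ∪ ((W n).filter (fun s => nB s < g))) ∪
      (((W n).filter (fun s => κ + 2 * b ≤ nA s / max (nB s) g)) ∪
      ((W n).filter (fun s => κ⁻¹ + 2 * b ≤ nB s / max (nA s) g))) := by
    intro s hs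
    rw [mem_filter] at hs
    obtain ⟨hsW, hs⟩ := hs
    by_contra hcon
    simp only [mem_union, mem_filter, not_or, not_and, not_lt, not_le] at hcon
    obtain ⟨⟨c1, c2⟩, c3, c4⟩ := hcon
    have c1 := c1 hsW
    have c2 := c2 hsW
    have c3 := c3 hsW
    have c4 := c4 hsW
    have hB : 0 < nB s := hg0.trans_le c2
    have hA : 0 < nA s := hg0.trans_le c1
    rw [max_eq_left c2] at c3 hs
    rw [max_eq_left c1] at c4
    have hC : 2 * κ ^ 2 * Bc / q = 2 * κ ^ 2 * b := by rw [hb]; ring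
    rw [hC] at hs
    have h1 : κ - 2 * κ ^ 2 * b ≤ nA s / nB s := by
      rw [div_lt_iff₀ hA] at c4
      rw [le_div_iff₀ hB]
      have h5 : nB s * κ < nA s * (1 + 2 * κ * b) := by
        have := mul_lt_mul_of_pos_right c4 hκ0
        have e : (κ⁻¹ + 2 * b) * nA s * κ = nA s * (1 + 2 * κ * b) := by
          field_simp
        linarith
      by_cases h6 : 2 * κ * b ≤ 1
      · have h7 : (1 - 2 * κ * b) * (1 + 2 * κ * b) ≤ 1 := by nlinarith [sq_nonneg (κ * b)]
        have h8 : (1 - 2 * κ * b) * (nB s * κ) ≤ (1 - 2 * κ * b) * (nA s * (1 + 2 * κ * b)) :=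
          mul_le_mul_of_nonneg_left h5.le (by linarith)
        have h9 : (1 - 2 * κ * b) * (nA s * (1 + 2 * κ * b)) ≤ nA s := by
          have := mul_le_mul_of_nonneg_left h7 hA.le
          linarith
        have e : (κ - 2 * κ ^ 2 * b) * nB s = (1 - 2 * κ * b) * (nB s * κ) := by ring
        linarith
      · push Not at h6
        have h7 : κ - 2 * κ ^ 2 * b ≤ 0 := by nlinarith
        have h8 : (κ - 2 * κ ^ 2 * b) * nB s ≤ 0 := mul_nonpos_of_nonpos_of_nonneg h7 hB.le
        linarith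
    have h2 : nA s / nB s ≤ κ + 2 * κ ^ 2 * b := by
      have h3 : 1 ≤ κ ^ 2 := one_le_pow₀ hκ1
      have h4 : 2 * b ≤ 2 * κ ^ 2 * b := by
        have := mul_le_mul_of_nonneg_right h3 hb0.le
        linarith
      linarith
    have h3 : |nA s / nB s - κ| ≤ 2 * κ ^ 2 * b := by
      rw [abs_le]; constructor <;> linarith
    linarith
  have hcard := card_le_card hsub
  have u1 := card_union_le (((W n).filter (fun s => nA s < g)) ∪ ((W n).filter (fun s => nB s < g)))
    (((W n).filter (fun s => κ + 2 * b ≤ nA s / max (nB s) g)) ∪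
      ((W n).filter (fun s => κ⁻¹ + 2 * b ≤ nB s / max (nA s) g)))
  have u2 := card_union_le ((W n).filter (fun s => nA s < g)) ((W n).filter (fun s => nB s < g))
  have u3 := card_union_le ((W n).filter (fun s => κ + 2 * b ≤ nA s / max (nB s) g))
      ((W n).filter (fun s => κ⁻¹ + 2 * b ≤ nB s / max (nA s) g))
  have hall : (((W n).filter (fun s => 2 * κ ^ 2 * Bc / q <
      |nA s / max (nB s) g - κ|)).card : ℝ) ≤
      (((W n).filter (fun s => nA s < g)).card : ℝ) + ((W n).filter (fun s => nB s < g)).card +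
      (((W n).filter (fun s => κ + 2 * b ≤ nA s / max (nB s) g)).card +
      ((W n).filter (fun s => κ⁻¹ + 2 * b ≤ nB s / max (nA s) g)).card) := by
    exact_mod_cast (by omega : _ ≤ _)
  refine hall.trans ?_
  have hexp1 : Real.exp (-(2 * x)) ≤ 1 / 4 * Real.exp (-x) := by
    have h1 : Real.exp (-(2 * x)) = Real.exp (-x) * Real.exp (-x) := by
      rw [← Real.exp_add]; ring_nf
    have h2 : Real.exp (-x) ≤ 1 / 4 := by
      rw [Real.exp_neg, inv_le_comm₀ (Real.exp_pos _) (by norm_num)]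
      have h3 : Real.exp 2 ≤ Real.exp x := Real.exp_le_exp.2 e3
      have h4 : (4 : ℝ) ≤ Real.exp 2 := by
        have := Real.add_one_le_exp (1 : ℝ)
        have h8 : Real.exp 2 = Real.exp 1 * Real.exp 1 := by rw [← Real.exp_add]; norm_num
        rw [h8]
        nlinarith
      norm_num
      linarith
    rw [h1]
    exact mul_le_mul_of_nonneg_right h2 (Real.exp_pos _).le
  have hexp2 : Real.exp (-(η * n)) ≤ Real.exp (-(2 * x)) := by
    apply Real.exp_le_exp.2
    rw [div_le_iff₀ hη] at e4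
    nlinarith
  have hWn : (0 : ℝ) ≤ (W n).card := by positivity
  have v1 := mul_le_mul_of_nonneg_left hexp1 hWn
  have v2 := mul_le_mul_of_nonneg_left hexp2 hWn
  have f1 := hf.1
  have f2 := hf.2.1
  linarith

end Pool.Agent.Lib27
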