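import Pool.Agent.Lib_helper27.Count

set_option autoImplicit false

namespace Pool.Agent.Lib27

open Finset Filter Topology

noncomputable def canU (n : ℕ) : ℝ := if n = 0 then 0 else - Real.log (Can n).card

lemma canU_sub : Subadditive canU := by
  intro m n
  unfold canU
  rcases Nat.eq_zero_or_pos m with rfl | hm
  · simp
  rcases Nat.eq_zero_or_pos n with rfl | hn
  · simp
  rw [if_neg (by omega), if_neg (by omega), if_neg (by omega)]
  have h1 := can_mul_le m n hm hn
  have h2 := can_pos m hm
  have h3 := can_pos n hn
  have h4 : Real.log ((Can m).card * (Can n).card) ≤ Real.log (Can (m + n)).card := by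
    apply Real.log_le_log
    · positivity
    · exact_mod_cast h1
  rw [Real.log_mul (by positivity) (by positivity)] at h4
  linarith

lemma canU_bdd : BddBelow (Set.range fun n : ℕ => canU n / n) := by
  refine ⟨-(2 * Real.log 4), ?_⟩
  rintro x ⟨n, rfl⟩
  simp only [canU]
  split_ifs with h
  · have : 0 ≤ Real.log 4 := Real.log_nonneg (by norm_num)
    simp
    linarith
  · have h1 := can_le n
    have h2 := can_pos n (by omega)
    have hn : (0 : ℝ) < n := by exact_mod_cast Nat.pos_of_ne_zero h
    rw [le_div_iff₀ hn]
    have h3 : Real.log (Can n).card ≤ Real.log ((4 : ℝ) ^ (2 * n)) := by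
      apply Real.log_le_log
      · exact_mod_cast h2
      · exact_mod_cast h1
    rw [Real.log_pow] at h3
    push_cast at h3
    linarith

/-- logarithm of the growth rate -/
noncomputable def Lc : ℝ := - canU_sub.lim

lemma tendsto_can : Tendsto (fun n : ℕ => Real.log (Can n).card / n) atTop (𝓝 Lc) := by
  have h := (canU_sub.tendsto_lim canU_bdd).neg
  refine h.congr' ?_
  filter_upwards [eventually_ge_atTop 1] with n hn
  rw [canU, if_neg (by omega)]
  ring

lemma can_log_le (n : ℕ) (hn : 1 ≤ n) : Real.log (Can n).card ≤ n * Lc := by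
  have h := canU_sub.lim_le_div canU_bdd (n := n) (by omega)
  rw [canU, if_neg (by omega)] at h
  have hn' : (0 : ℝ) < n := by exact_mod_cast hn
  rw [le_div_iff₀ hn'] at h
  unfold Lc
  linarith

lemma tendsto_W : Tendsto (fun n : ℕ => Real.log (W n).card / n) atTop (𝓝 Lc) := by
  have h1 : Tendsto (fun n : ℕ => Real.log (4 * n) / n + Real.log (Can n).card / n) atTop
      (𝓝 (0 + Lc)) := by
    apply Tendsto.add _ tendsto_can
    have h2 : Tendsto (fun x : ℝ => Real.log x / x) atTop (𝓝 0) := by
      have := Real.isLittleO_log_id_atTop.tendsto_div_nhds_zero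
      simpa using this
    have h3 : Tendsto (fun n : ℕ => (4 : ℝ) * (n : ℝ)) atTop atTop :=
      tendsto_natCast_atTop_atTop.const_mul_atTop (by norm_num)
    have h4 := (h2.comp h3).const_mul 4
    rw [mul_zero] at h4
    refine h4.congr' ?_
    filter_upwards [eventually_ge_atTop 1] with n hn
    have : (n : ℝ) ≠ 0 := by positivity
    simp only [Function.comp_apply]
    field_simp
  rw [zero_add] at h1
  refine tendsto_of_tendsto_of_tendsto_of_le_of_le' tendsto_can h1 ?_ ?_
  · filter_upwards [eventually_ge_atTop 1] with n hn
    have h2 := can_pos n hn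
    have h3 := can_le_W n
    apply div_le_div_of_nonneg_right _ (by positivity)
    apply Real.log_le_log
    · exact_mod_cast h2
    · exact_mod_cast h3
  · filter_upwards [eventually_ge_atTop 2] with n hn
    have h2 := can_pos n (by omega)
    have h3 := W_le_can n hn
    have h4 := can_le_W n
    rw [← add_div]
    apply div_le_div_of_nonneg_right _ (by positivity)
    rw [← Real.log_mul (by positivity) (by positivity)]
    apply Real.log_le_log
    · have : 1 ≤ (W n).card := h2.trans h4
      exact_mod_cast this
    · exact_mod_cast h3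

lemma W_pos (n : ℕ) (hn : 1 ≤ n) : 1 ≤ (W n).card := (can_pos n hn).trans (can_le_W n)

end Pool.Agent.Lib27
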