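import Mathlib

/-!
Definitions for problem MP_f6626d_co: self-avoiding polygons of perimeter `2n` on the square
lattice, their area, and the law of the area divided by its mean.
-/

set_option autoImplicit false

namespace Pool.Agent.AreaLaw

open Finset MeasureTheory

/-- The four unit steps East, North, West, South. -/
def step : Fin 4 → ℤ × ℤ := ![((1:ℤ), (0:ℤ)), ((0:ℤ), (1:ℤ)), ((-1:ℤ), (0:ℤ)), ((0:ℤ), (-1:ℤ))]

/-- The vertex reached from the origin after the first `k` steps of the word `s`. -/
def pos (n : ℕ) (s : Fin (2 * n) → Fin 4) (k : ℕ) : ℤ × ℤ :=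
  ∑ i ∈ Finset.univ.filter (fun i : Fin (2 * n) => i.val < k), step (s i)

open Classical in
/-- The self-avoiding polygons of perimeter `2n`, each given with a starting vertex (translated
to the origin) and a direction of traversal: closed walks of `2n` unit steps whose vertices at
times `0, ..., 2n - 1` are distinct. For `n ≥ 2` every polygon (up to translation) is
represented by exactly `4n` words, so that the uniform law on words is the uniform law on
polygons. -/
noncomputable def SAP (n : ℕ) : Finset (Fin (2 * n) → Fin 4) :=
  Finset.univ.filter (fun s => pos n s (2 * n) = 0 ∧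
    ∀ j k : Fin (2 * n), j ≠ k → pos n s j.val ≠ pos n s k.val)

/-- The area enclosed by a polygon (shoelace formula). -/
noncomputable def area (n : ℕ) (s : Fin (2 * n) → Fin 4) : ℝ :=
  ((|∑ k ∈ Finset.range (2 * n), ((pos n s k).1 * (pos n s (k + 1)).2 -
    (pos n s (k + 1)).1 * (pos n s k).2)| : ℤ) : ℝ) / 2

/-- The mean `E[A_n ^ k]` of the `k`-th power of the area. -/
noncomputable def moment (k n : ℕ) : ℝ := (∑ s ∈ SAP n, area n s ^ k) / (SAP n).card

/-- The mean area `E[A_n]`. -/
noncomputable def meanArea (n : ℕ) : ℝ := (∑ s ∈ SAP n, area n s) / (SAP n).card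

/-- The law of `A_n / E[A_n]`. -/
noncomputable def law (n : ℕ) : Measure ℝ :=
  ((SAP n).card : ENNReal)⁻¹ • ∑ s ∈ SAP n, Measure.dirac (area n s / meanArea n)

end Pool.Agent.AreaLaw
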