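import Pool.Agent.Lib_helper27.Defs

set_option autoImplicit false

namespace Pool.Agent.AreaLaw

open Classical in
/-- The probability `P(A_n ∈ B)` that the area of a uniformly random self-avoiding polygon of
perimeter `2n` lies in `B`. -/
noncomputable def prob (n : ℕ) (B : Set ℝ) : ℝ :=
  (((SAP n).filter (fun s => area n s ∈ B)).card : ℝ) / (SAP n).card

end Pool.Agent.AreaLaw
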