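import Pool.Agent.Lib_helper27.Iter

set_option autoImplicit false

namespace Pool.Agent.Lib27

open Finset

/-- boundary vertices of the 5 x 5 box -/
def ringA : List (ℤ × ℤ) := [(-2, -2), (-2, -1), (-2, 0), (-2, 1), (-2, 2), (-1, -2), (-1, 2), (0, -2), (0, 2), (1, -2), (1, 2), (2, -2), (2, -1), (2, 0), (2, 1), (2, 2)]

/-- table of fillings -/
def tabA : List (List (List (Fin 4))) := [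
  [[],
   [0, 0, 0, 1, 1, 1, 2, 2, 3, 0, 3, 2, 2],
   [0, 1, 0, 0, 1, 1, 2, 3, 2, 1, 2, 3],
   [0, 1, 0, 0, 1, 1, 2, 3, 2, 1, 2],
   [0, 1, 0, 0, 1, 1, 2, 3, 2, 1, 1, 2],
   [1, 0, 0, 1, 2, 1, 0, 0, 3, 3, 3, 2, 2],
   [0, 1, 0, 0, 1, 1, 2, 3, 2, 1, 1],
   [0, 1, 0, 1, 2, 1, 0, 0, 3, 3, 3, 2],
   [0, 1, 0, 0, 1, 1, 2, 3, 2, 1, 1, 0],
   [0, 1, 0, 1, 2, 1, 0, 0, 3, 3, 3],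
   [0, 1, 0, 0, 1, 2, 2, 1, 0, 0, 1],
   [0, 1, 0, 1, 2, 1, 0, 0, 3, 3, 0, 3],
   [0, 1, 0, 1, 2, 1, 0, 0, 3, 3, 0],
   [0, 1, 0, 0, 1, 2, 2, 1, 0, 0, 0, 3],
   [0, 1, 0, 0, 1, 2, 2, 1, 0, 0, 0],
   [0, 1, 0, 0, 1, 2, 2, 1, 0, 0, 0, 1]],
  [[0, 0, 1, 2, 1, 0, 0, 3, 3, 3, 2, 2, 2],
   [],
   [0, 0, 0, 1, 1, 2, 3, 2, 1, 2, 3],
   [0, 0, 0, 1, 1, 2, 3, 2, 1, 2],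
   [0, 0, 0, 1, 1, 2, 3, 2, 1, 1, 2],
   [0, 0, 1, 2, 1, 0, 0, 3, 3, 3, 2, 2],
   [0, 0, 0, 1, 1, 2, 3, 2, 1, 1],
   [0, 0, 1, 2, 1, 0, 0, 3, 3, 3, 2],
   [0, 0, 0, 1, 1, 2, 3, 2, 1, 1, 0],
   [0, 0, 1, 2, 1, 0, 0, 3, 3, 3],
   [0, 0, 0, 1, 2, 2, 1, 0, 0, 1],
   [0, 0, 1, 2, 1, 0, 0, 3, 3, 0, 3],
   [0, 0, 1, 2, 1, 0, 0, 3, 3, 0],
   [0, 0, 0, 1, 2, 2, 1, 0, 0, 0, 3],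
   [0, 0, 0, 1, 2, 2, 1, 0, 0, 0],
   [0, 0, 0, 1, 2, 2, 1, 0, 0, 0, 1]],
  [[1, 0, 0, 0, 3, 3, 2, 1, 2, 3, 2, 3],
   [1, 0, 0, 0, 3, 3, 2, 1, 2, 3, 2],
   [],
   [3, 0, 0, 0, 1, 1, 2, 3, 2, 1, 2],
   [3, 0, 0, 0, 1, 1, 2, 3, 2, 1, 1, 2],
   [1, 0, 0, 0, 3, 3, 2, 1, 2, 3, 3],
   [3, 0, 0, 0, 1, 1, 2, 3, 2, 1, 1],
   [1, 0, 0, 0, 3, 2, 2, 3, 0, 0, 3, 2],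
   [1, 0, 0, 3, 2, 3, 0, 0, 1, 1, 1, 2],
   [1, 0, 0, 0, 3, 2, 2, 3, 0, 0, 3],
   [1, 0, 0, 3, 2, 3, 0, 0, 1, 1, 1],
   [1, 0, 0, 0, 3, 2, 2, 3, 0, 0, 0, 3],
   [1, 0, 0, 0, 3, 2, 2, 3, 0, 0, 0],
   [1, 0, 0, 0, 3, 2, 2, 3, 0, 0, 0, 1],
   [1, 0, 0, 3, 2, 3, 0, 0, 1, 1, 0],
   [1, 0, 0, 3, 2, 3, 0, 0, 1, 1, 0, 1]],
  [[0, 0, 0, 3, 3, 2, 1, 2, 3, 2, 3],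
   [0, 0, 0, 3, 3, 2, 1, 2, 3, 2],
   [0, 0, 0, 3, 3, 2, 1, 2, 3, 2, 1],
   [],
   [0, 0, 3, 2, 3, 0, 0, 1, 1, 1, 2, 2, 2],
   [0, 0, 0, 3, 3, 2, 1, 2, 3, 3],
   [0, 0, 3, 2, 3, 0, 0, 1, 1, 1, 2, 2],
   [0, 0, 0, 3, 2, 2, 3, 0, 0, 3, 2],
   [0, 0, 3, 2, 3, 0, 0, 1, 1, 1, 2],
   [0, 0, 0, 3, 2, 2, 3, 0, 0, 3],
   [0, 0, 3, 2, 3, 0, 0, 1, 1, 1],
   [0, 0, 0, 3, 2, 2, 3, 0, 0, 0, 3],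
   [0, 0, 0, 3, 2, 2, 3, 0, 0, 0],
   [0, 0, 0, 3, 2, 2, 3, 0, 0, 0, 1],
   [0, 0, 3, 2, 3, 0, 0, 1, 1, 0],
   [0, 0, 3, 2, 3, 0, 0, 1, 1, 0, 1]],
  [[0, 3, 0, 0, 3, 3, 2, 1, 2, 3, 2, 3],
   [0, 3, 0, 0, 3, 3, 2, 1, 2, 3, 2],
   [0, 3, 0, 0, 3, 3, 2, 1, 2, 3, 2, 1],
   [0, 0, 0, 3, 2, 3, 0, 3, 2, 2, 1, 1, 2],
   [],
   [0, 3, 0, 0, 3, 3, 2, 1, 2, 3, 3],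
   [3, 0, 0, 3, 2, 3, 0, 0, 1, 1, 1, 2, 2],
   [0, 3, 0, 0, 3, 2, 2, 3, 0, 0, 3, 2],
   [0, 3, 0, 3, 2, 3, 0, 0, 1, 1, 1, 2],
   [0, 3, 0, 0, 3, 2, 2, 3, 0, 0, 3],
   [0, 3, 0, 3, 2, 3, 0, 0, 1, 1, 1],
   [0, 3, 0, 0, 3, 2, 2, 3, 0, 0, 0, 3],
   [0, 3, 0, 0, 3, 2, 2, 3, 0, 0, 0],
   [0, 3, 0, 0, 3, 2, 2, 3, 0, 0, 0, 1],
   [0, 3, 0, 3, 2, 3, 0, 0, 1, 1, 0],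
   [0, 3, 0, 3, 2, 3, 0, 0, 1, 1, 0, 1]],
  [[0, 0, 1, 1, 1, 2, 2, 3, 0, 3, 2, 2, 3],
   [0, 0, 1, 1, 1, 2, 2, 3, 0, 3, 2, 2],
   [1, 0, 0, 1, 1, 2, 3, 2, 1, 2, 3],
   [1, 0, 0, 1, 1, 2, 3, 2, 1, 2],
   [1, 0, 0, 1, 1, 2, 3, 2, 1, 1, 2],
   [],
   [1, 0, 0, 1, 1, 2, 3, 2, 1, 1],
   [1, 0, 1, 2, 1, 0, 0, 3, 3, 3, 2],
   [1, 0, 0, 1, 1, 2, 3, 2, 1, 1, 0],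
   [1, 0, 1, 2, 1, 0, 0, 3, 3, 3],
   [1, 0, 0, 1, 2, 2, 1, 0, 0, 1],
   [1, 0, 1, 2, 1, 0, 0, 3, 3, 0, 3],
   [1, 0, 1, 2, 1, 0, 0, 3, 3, 0],
   [1, 0, 0, 1, 2, 2, 1, 0, 0, 0, 3],
   [1, 0, 0, 1, 2, 2, 1, 0, 0, 0],
   [1, 0, 0, 1, 2, 2, 1, 0, 0, 0, 1]],
  [[3, 0, 0, 3, 3, 2, 1, 2, 3, 2, 3],
   [3, 0, 0, 3, 3, 2, 1, 2, 3, 2],
   [3, 0, 0, 3, 3, 2, 1, 2, 3, 2, 1],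
   [0, 0, 3, 2, 3, 0, 3, 2, 2, 1, 1, 2],
   [0, 0, 3, 2, 3, 0, 3, 2, 2, 1, 1, 2, 1],
   [3, 0, 0, 3, 3, 2, 1, 2, 3, 3],
   [],
   [3, 0, 0, 3, 2, 2, 3, 0, 0, 3, 2],
   [3, 0, 3, 2, 3, 0, 0, 1, 1, 1, 2],
   [3, 0, 0, 3, 2, 2, 3, 0, 0, 3],
   [3, 0, 3, 2, 3, 0, 0, 1, 1, 1],
   [3, 0, 0, 3, 2, 2, 3, 0, 0, 0, 3],
   [3, 0, 0, 3, 2, 2, 3, 0, 0, 0],
   [3, 0, 0, 3, 2, 2, 3, 0, 0, 0, 1],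
   [3, 0, 3, 2, 3, 0, 0, 1, 1, 0],
   [3, 0, 3, 2, 3, 0, 0, 1, 1, 0, 1]],
  [[0, 1, 1, 1, 2, 2, 3, 0, 3, 2, 2, 3],
   [0, 1, 1, 1, 2, 2, 3, 0, 3, 2, 2],
   [0, 1, 1, 1, 2, 2, 3, 0, 3, 2, 2, 1],
   [0, 1, 1, 1, 2, 3, 3, 2, 1, 1, 2],
   [0, 1, 1, 1, 2, 3, 3, 2, 1, 1, 1, 2],
   [0, 1, 1, 1, 2, 2, 3, 0, 3, 2, 3],
   [0, 1, 1, 1, 2, 3, 3, 2, 1, 1, 1],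
   [],
   [0, 1, 1, 1, 2, 3, 3, 2, 1, 1, 1, 0],
   [2, 1, 0, 1, 2, 1, 0, 0, 3, 3, 3],
   [0, 1, 1, 2, 3, 2, 1, 1, 0, 0, 1],
   [2, 1, 0, 1, 2, 1, 0, 0, 3, 3, 0, 3],
   [2, 1, 0, 1, 2, 1, 0, 0, 3, 3, 0],
   [0, 1, 1, 2, 3, 2, 1, 1, 0, 0, 0, 3],
   [0, 1, 1, 2, 3, 2, 1, 1, 0, 0, 0],
   [0, 1, 1, 2, 3, 2, 1, 1, 0, 0, 0, 1]],
  [[0, 3, 2, 2, 3, 0, 0, 3, 2, 2, 2, 3],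
   [0, 3, 2, 2, 3, 0, 0, 3, 2, 2, 2],
   [0, 3, 2, 2, 3, 0, 0, 3, 2, 2, 2, 1],
   [0, 3, 2, 3, 0, 3, 2, 2, 1, 1, 2],
   [0, 3, 2, 3, 0, 3, 2, 2, 1, 1, 1, 2],
   [0, 3, 2, 2, 3, 0, 0, 3, 2, 2, 3],
   [0, 3, 2, 3, 0, 3, 2, 2, 1, 1, 1],
   [0, 3, 2, 2, 3, 0, 0, 3, 2, 2, 3, 0],
   [],
   [0, 3, 2, 2, 3, 3, 0, 1, 0, 3, 3],
   [2, 3, 0, 3, 2, 3, 0, 0, 1, 1, 1],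
   [0, 3, 2, 2, 3, 3, 0, 1, 0, 3, 0, 3],
   [0, 3, 2, 2, 3, 3, 0, 1, 0, 3, 0],
   [0, 3, 2, 2, 3, 3, 0, 1, 0, 3, 0, 1],
   [2, 3, 0, 3, 2, 3, 0, 0, 1, 1, 0],
   [2, 3, 0, 3, 2, 3, 0, 0, 1, 1, 0, 1]],
  [[1, 1, 1, 2, 2, 3, 0, 3, 2, 2, 3],
   [1, 1, 1, 2, 2, 3, 0, 3, 2, 2],
   [1, 1, 1, 2, 2, 3, 0, 3, 2, 2, 1],
   [1, 1, 1, 2, 3, 3, 2, 1, 1, 2],
   [1, 1, 1, 2, 3, 3, 2, 1, 1, 1, 2],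
   [1, 1, 1, 2, 2, 3, 0, 3, 2, 3],
   [1, 1, 1, 2, 3, 3, 2, 1, 1, 1],
   [1, 1, 1, 2, 2, 3, 0, 3, 2, 3, 0],
   [1, 1, 1, 2, 3, 3, 2, 1, 1, 1, 0],
   [],
   [1, 1, 2, 3, 2, 1, 1, 0, 0, 1],
   [1, 1, 2, 3, 2, 1, 1, 0, 0, 0, 3, 3, 3],
   [1, 1, 2, 3, 2, 1, 1, 0, 0, 0, 3, 3],
   [1, 1, 2, 3, 2, 1, 1, 0, 0, 0, 3],
   [1, 1, 2, 3, 2, 1, 1, 0, 0, 0],
   [1, 1, 2, 3, 2, 1, 1, 0, 0, 0, 1]],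
  [[3, 2, 2, 3, 0, 0, 3, 2, 2, 2, 3],
   [3, 2, 2, 3, 0, 0, 3, 2, 2, 2],
   [3, 2, 2, 3, 0, 0, 3, 2, 2, 2, 1],
   [3, 2, 3, 0, 3, 2, 2, 1, 1, 2],
   [3, 2, 3, 0, 3, 2, 2, 1, 1, 1, 2],
   [3, 2, 2, 3, 0, 0, 3, 2, 2, 3],
   [3, 2, 3, 0, 3, 2, 2, 1, 1, 1],
   [3, 2, 2, 3, 0, 0, 3, 2, 2, 3, 0],
   [3, 2, 3, 0, 3, 2, 2, 1, 1, 1, 0],
   [3, 2, 2, 3, 3, 0, 1, 0, 3, 3],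
   [],
   [3, 2, 2, 3, 3, 0, 1, 0, 3, 0, 3],
   [3, 2, 2, 3, 3, 0, 1, 0, 3, 0],
   [3, 2, 2, 3, 3, 0, 1, 0, 3, 0, 1],
   [2, 2, 3, 0, 3, 2, 3, 0, 0, 1, 1, 0],
   [2, 2, 3, 0, 3, 2, 3, 0, 0, 1, 1, 0, 1]],
  [[1, 2, 1, 1, 2, 2, 3, 0, 3, 2, 2, 3],
   [1, 2, 1, 1, 2, 2, 3, 0, 3, 2, 2],
   [1, 2, 1, 1, 2, 2, 3, 0, 3, 2, 2, 1],
   [1, 2, 1, 1, 2, 3, 3, 2, 1, 1, 2],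
   [1, 2, 1, 1, 2, 3, 3, 2, 1, 1, 1, 2],
   [1, 2, 1, 1, 2, 2, 3, 0, 3, 2, 3],
   [1, 2, 1, 1, 2, 3, 3, 2, 1, 1, 1],
   [1, 2, 1, 1, 2, 2, 3, 0, 3, 2, 3, 0],
   [1, 2, 1, 1, 2, 3, 3, 2, 1, 1, 1, 0],
   [1, 1, 1, 2, 2, 2, 3, 3, 0, 1, 0, 3, 3],
   [1, 2, 1, 2, 3, 2, 1, 1, 0, 0, 1],
   [],
   [2, 1, 1, 2, 3, 2, 1, 1, 0, 0, 0, 3, 3],
   [1, 2, 1, 2, 3, 2, 1, 1, 0, 0, 0, 3],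
   [1, 2, 1, 2, 3, 2, 1, 1, 0, 0, 0],
   [1, 2, 1, 2, 3, 2, 1, 1, 0, 0, 0, 1]],
  [[2, 1, 1, 2, 2, 3, 0, 3, 2, 2, 3],
   [2, 1, 1, 2, 2, 3, 0, 3, 2, 2],
   [2, 1, 1, 2, 2, 3, 0, 3, 2, 2, 1],
   [2, 1, 1, 2, 3, 3, 2, 1, 1, 2],
   [2, 1, 1, 2, 3, 3, 2, 1, 1, 1, 2],
   [2, 1, 1, 2, 2, 3, 0, 3, 2, 3],
   [2, 1, 1, 2, 3, 3, 2, 1, 1, 1],
   [2, 1, 1, 2, 2, 3, 0, 3, 2, 3, 0],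
   [2, 1, 1, 2, 3, 3, 2, 1, 1, 1, 0],
   [1, 1, 2, 2, 2, 3, 3, 0, 1, 0, 3, 3],
   [2, 1, 2, 3, 2, 1, 1, 0, 0, 1],
   [1, 1, 2, 2, 2, 3, 3, 0, 1, 0, 3, 3, 0],
   [],
   [2, 1, 2, 3, 2, 1, 1, 0, 0, 0, 3],
   [2, 1, 2, 3, 2, 1, 1, 0, 0, 0],
   [2, 1, 2, 3, 2, 1, 1, 0, 0, 0, 1]],
  [[1, 2, 2, 2, 3, 0, 0, 3, 2, 2, 2, 3],
   [1, 2, 2, 2, 3, 0, 0, 3, 2, 2, 2],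
   [1, 2, 2, 2, 3, 0, 0, 3, 2, 2, 2, 1],
   [1, 2, 2, 3, 0, 3, 2, 2, 1, 1, 2],
   [1, 2, 2, 3, 0, 3, 2, 2, 1, 1, 1, 2],
   [1, 2, 2, 2, 3, 0, 0, 3, 2, 2, 3],
   [1, 2, 2, 3, 0, 3, 2, 2, 1, 1, 1],
   [1, 2, 2, 2, 3, 0, 0, 3, 2, 2, 3, 0],
   [1, 2, 2, 3, 0, 3, 2, 2, 1, 1, 1, 0],
   [1, 2, 2, 2, 3, 3, 0, 1, 0, 3, 3],
   [3, 2, 1, 2, 3, 2, 1, 1, 0, 0, 1],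
   [1, 2, 2, 2, 3, 3, 0, 1, 0, 3, 0, 3],
   [1, 2, 2, 2, 3, 3, 0, 1, 0, 3, 0],
   [],
   [3, 2, 1, 2, 3, 2, 1, 1, 0, 0, 0],
   [3, 2, 1, 2, 3, 2, 1, 1, 0, 0, 0, 1]],
  [[2, 2, 2, 3, 0, 0, 3, 2, 2, 2, 3],
   [2, 2, 2, 3, 0, 0, 3, 2, 2, 2],
   [2, 2, 2, 3, 0, 0, 3, 2, 2, 2, 1],
   [2, 2, 3, 0, 3, 2, 2, 1, 1, 2],
   [2, 2, 3, 0, 3, 2, 2, 1, 1, 1, 2],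
   [2, 2, 2, 3, 0, 0, 3, 2, 2, 3],
   [2, 2, 3, 0, 3, 2, 2, 1, 1, 1],
   [2, 2, 2, 3, 0, 0, 3, 2, 2, 3, 0],
   [2, 2, 3, 0, 3, 2, 2, 1, 1, 1, 0],
   [2, 2, 2, 3, 3, 0, 1, 0, 3, 3],
   [2, 2, 3, 0, 3, 2, 2, 1, 1, 1, 0, 0],
   [2, 2, 2, 3, 3, 0, 1, 0, 3, 0, 3],
   [2, 2, 2, 3, 3, 0, 1, 0, 3, 0],
   [2, 2, 2, 3, 3, 0, 1, 0, 3, 0, 1],
   [],
   [2, 2, 3, 0, 3, 2, 2, 1, 1, 1, 0, 0, 0]],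
  [[2, 3, 2, 2, 3, 0, 0, 3, 2, 2, 2, 3],
   [2, 3, 2, 2, 3, 0, 0, 3, 2, 2, 2],
   [2, 3, 2, 2, 3, 0, 0, 3, 2, 2, 2, 1],
   [2, 3, 2, 3, 0, 3, 2, 2, 1, 1, 2],
   [2, 3, 2, 3, 0, 3, 2, 2, 1, 1, 1, 2],
   [2, 3, 2, 2, 3, 0, 0, 3, 2, 2, 3],
   [2, 3, 2, 3, 0, 3, 2, 2, 1, 1, 1],
   [2, 3, 2, 2, 3, 0, 0, 3, 2, 2, 3, 0],
   [2, 3, 2, 3, 0, 3, 2, 2, 1, 1, 1, 0],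
   [2, 3, 2, 2, 3, 3, 0, 1, 0, 3, 3],
   [3, 2, 2, 3, 0, 3, 2, 2, 1, 1, 1, 0, 0],
   [2, 3, 2, 2, 3, 3, 0, 1, 0, 3, 0, 3],
   [2, 3, 2, 2, 3, 3, 0, 1, 0, 3, 0],
   [2, 3, 2, 2, 3, 3, 0, 1, 0, 3, 0, 1],
   [2, 2, 2, 3, 0, 3, 2, 3, 0, 0, 1, 1, 0],
   []]]

/-- boundary vertices of the 3 x 3 box -/
def ringB : List (ℤ × ℤ) := [(1, 0), (1, 1), (0, 1), (-1, 1), (-1, 0), (-1, -1), (0, -1), (1, -1)]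

/-- paths around the box, lower state -/
def tabLo : List (List (List (Fin 4))) := [
  [[], [3, 2, 2, 1, 1, 0, 0], [3, 2, 2, 1, 1, 0], [3, 2, 2, 1, 1], [2, 1, 2, 3], [2, 1, 2, 3, 3], [2, 1, 2, 3, 3, 0], [2, 1, 2, 3, 3, 0, 0]],
  [[2, 3, 2, 3, 0, 0, 1], [], [3, 3, 2, 2, 1, 1, 0], [3, 3, 2, 2, 1, 1], [3, 3, 2, 2, 1], [2, 3, 2, 3], [2, 3, 2, 3, 0], [2, 3, 2, 3, 0, 0]],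
  [[3, 2, 3, 0, 0, 1], [3, 2, 3, 0, 0, 1, 1], [], [0, 3, 3, 2, 2, 1, 1], [0, 3, 3, 2, 2, 1], [0, 3, 3, 2, 2], [3, 2, 3, 0], [3, 2, 3, 0, 0]],
  [[3, 0, 3, 0, 1], [3, 0, 3, 0, 1, 1], [3, 0, 3, 0, 1, 1, 2], [], [0, 0, 3, 3, 2, 2, 1], [0, 0, 3, 3, 2, 2], [0, 0, 3, 3, 2], [3, 0, 3, 0]],
  [[0, 3, 0, 1], [0, 3, 0, 1, 1], [0, 3, 0, 1, 1, 2], [0, 3, 0, 1, 1, 2, 2], [], [1, 0, 0, 3, 3, 2, 2], [1, 0, 0, 3, 3, 2], [1, 0, 0, 3, 3]],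
  [[1, 1, 0, 0, 3], [0, 1, 0, 1], [0, 1, 0, 1, 2], [0, 1, 0, 1, 2, 2], [0, 1, 0, 1, 2, 2, 3], [], [1, 1, 0, 0, 3, 3, 2], [1, 1, 0, 0, 3, 3]],
  [[2, 1, 1, 0, 0, 3], [2, 1, 1, 0, 0], [1, 0, 1, 2], [1, 0, 1, 2, 2], [1, 0, 1, 2, 2, 3], [1, 0, 1, 2, 2, 3, 3], [], [2, 1, 1, 0, 0, 3, 3]],
  [[2, 2, 1, 1, 0, 0, 3], [2, 2, 1, 1, 0, 0], [2, 2, 1, 1, 0], [1, 2, 1, 2], [1, 2, 1, 2, 3], [1, 2, 1, 2, 3, 3], [1, 2, 1, 2, 3, 3, 0], []]]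

/-- paths around the box, upper state -/
def tabHi : List (List (List (Fin 4))) := [
  [[], [2, 3, 2, 1, 1, 0, 0], [2, 3, 2, 1, 1, 0], [2, 3, 2, 1, 1], [1, 2, 2, 3], [1, 2, 2, 3, 3], [1, 2, 2, 3, 3, 0], [1, 2, 2, 3, 3, 0, 0]],
  [[2, 2, 3, 3, 0, 0, 1], [], [3, 2, 3, 2, 1, 1, 0], [3, 2, 3, 2, 1, 1], [3, 2, 3, 2, 1], [2, 2, 3, 3], [2, 2, 3, 3, 0], [2, 2, 3, 3, 0, 0]],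
  [[2, 3, 3, 0, 0, 1], [2, 3, 3, 0, 0, 1, 1], [], [3, 0, 3, 2, 2, 1, 1], [3, 0, 3, 2, 2, 1], [3, 0, 3, 2, 2], [2, 3, 3, 0], [2, 3, 3, 0, 0]],
  [[3, 3, 0, 0, 1], [3, 3, 0, 0, 1, 1], [3, 3, 0, 0, 1, 1, 2], [], [0, 3, 0, 3, 2, 2, 1], [0, 3, 0, 3, 2, 2], [0, 3, 0, 3, 2], [3, 3, 0, 0]],
  [[3, 0, 0, 1], [3, 0, 0, 1, 1], [3, 0, 0, 1, 1, 2], [3, 0, 0, 1, 1, 2, 2], [], [0, 1, 0, 3, 3, 2, 2], [0, 1, 0, 3, 3, 2], [0, 1, 0, 3, 3]],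
  [[1, 0, 1, 0, 3], [0, 0, 1, 1], [0, 0, 1, 1, 2], [0, 0, 1, 1, 2, 2], [0, 0, 1, 1, 2, 2, 3], [], [1, 0, 1, 0, 3, 3, 2], [1, 0, 1, 0, 3, 3]],
  [[1, 2, 1, 0, 0, 3], [1, 2, 1, 0, 0], [0, 1, 1, 2], [0, 1, 1, 2, 2], [0, 1, 1, 2, 2, 3], [0, 1, 1, 2, 2, 3, 3], [], [1, 2, 1, 0, 0, 3, 3]],
  [[2, 1, 2, 1, 0, 0, 3], [2, 1, 2, 1, 0, 0], [2, 1, 2, 1, 0], [1, 1, 2, 2], [1, 1, 2, 2, 3], [1, 1, 2, 2, 3, 3], [1, 1, 2, 2, 3, 3, 0], []]]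


/-- filling of the 5 x 5 box -/
def fillA (p q : ℤ × ℤ) : List (Fin 4) := (tabA.getD (ringA.idxOf p) []).getD (ringA.idxOf q) []

/-- lower state -/
def fillLo (p q : ℤ × ℤ) : List (Fin 4) := (tabLo.getD (ringB.idxOf p) []).getD (ringB.idxOf q) []

/-- upper state -/
def fillHi (p q : ℤ × ℤ) : List (Fin 4) := (tabHi.getD (ringB.idxOf p) []).getD (ringB.idxOf q) []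

lemma ringA_spec (v : ℤ × ℤ) (h : ring 2 v) : v ∈ ringA := by
  obtain ⟨h1, h2⟩ := h
  rw [mem_box] at h1 h2
  obtain ⟨x, y⟩ := v
  simp only [Prod.fst_zero, Prod.snd_zero] at h1 h2
  obtain ⟨⟨a, b⟩, c, d⟩ := h1
  have hx : x = -2 ∨ x = -1 ∨ x = 0 ∨ x = 1 ∨ x = 2 := by omega
  have hy : y = -2 ∨ y = -1 ∨ y = 0 ∨ y = 1 ∨ y = 2 := by omega
  rcases hx with rfl | rfl | rfl | rfl | rfl <;> rcases hy with rfl | rfl | rfl | rfl | rfl <;>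
    first
    | decide
    | (exfalso; apply h2; norm_num)

lemma ringB_spec (v : ℤ × ℤ) (h : ring 1 v) : v ∈ ringB := by
  obtain ⟨h1, h2⟩ := h
  rw [mem_box] at h1 h2
  obtain ⟨x, y⟩ := v
  simp only [Prod.fst_zero, Prod.snd_zero] at h1 h2
  obtain ⟨⟨a, b⟩, c, d⟩ := h1
  have hx : x = -1 ∨ x = 0 ∨ x = 1 := by omega
  have hy : y = -1 ∨ y = 0 ∨ y = 1 := by omega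
  rcases hx with rfl | rfl | rfl <;> rcases hy with rfl | rfl | rfl <;>
    first
    | decide
    | (exfalso; apply h2; norm_num)

/-- the nine vertices of the 3 x 3 box -/
def nine : List (ℤ × ℤ) := (0, 0) :: ringB

lemma nine_spec (v : ℤ × ℤ) (h : v ∈ box 1 0) : v ∈ nine := by
  rw [mem_box] at h
  obtain ⟨x, y⟩ := v
  simp only [Prod.fst_zero, Prod.snd_zero] at h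
  obtain ⟨⟨a, b⟩, c, d⟩ := h
  have hx : x = -1 ∨ x = 0 ∨ x = 1 := by omega
  have hy : y = -1 ∨ y = 0 ∨ y = 1 := by omega
  rcases hx with rfl | rfl | rfl <;> rcases hy with rfl | rfl | rfl <;> decide

lemma fillA_spec : ∀ p ∈ ringA, ∀ q ∈ ringA, p ≠ q → ep p (fillA p q) = q ∧
    (vt p (fillA p q)).Nodup ∧
    (∀ v ∈ vt p (fillA p q), (-2 ≤ v.1 ∧ v.1 ≤ 2) ∧ (-2 ≤ v.2 ∧ v.2 ≤ 2)) ∧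
    (fillA p q).length ≤ 24 ∧ ∀ v ∈ nine, v ∈ vt p (fillA p q) := by
  decide +kernel

lemma fillLo_spec : ∀ p ∈ ringB, ∀ q ∈ ringB, p ≠ q → ep p (fillLo p q) = q ∧
    (vt p (fillLo p q)).Nodup ∧
    (∀ v ∈ vt p (fillLo p q), (-1 ≤ v.1 ∧ v.1 ≤ 1) ∧ (-1 ≤ v.2 ∧ v.2 ≤ 1)) ∧
    (fillLo p q).length ≤ 24 := by
  decide +kernel

lemma fillHi_spec : ∀ p ∈ ringB, ∀ q ∈ ringB, p ≠ q → ep p (fillHi p q) = q ∧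
    (vt p (fillHi p q)).Nodup ∧
    (∀ v ∈ vt p (fillHi p q), (-1 ≤ v.1 ∧ v.1 ≤ 1) ∧ (-1 ≤ v.2 ∧ v.2 ≤ 1)) ∧
    (fillHi p q).length ≤ 24 := by
  decide +kernel

lemma fill_states : ∀ p ∈ ringB, ∀ q ∈ ringB, p ≠ q →
    (fillHi p q).length = (fillLo p q).length ∧ dbl p (fillHi p q) = dbl p (fillLo p q) + 2 := by
  decide +kernel

end Pool.Agent.Lib27
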