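import Pool.Agent.Lib_helper27.Fill

set_option autoImplicit false

namespace Pool.Agent.Lib27

open Finset

/-- short paths in the 3 x 3 box -/
def tab0 : List (List (List (Fin 4))) := [
  [[], [1], [2, 1], [2, 2, 1], [2, 2], [2, 2, 3], [2, 3], [3]],
  [[3], [], [2], [3, 3, 2, 2, 1, 1], [3, 2, 2], [2, 3, 3, 2], [2, 3, 3], [3, 3]],
  [[3, 0], [0], [], [2], [3, 2], [3, 3, 2], [3, 3], [0, 3, 3]],
  [[0, 0, 3], [0, 0], [0], [], [3], [0, 0, 3, 3, 2, 2], [0, 3, 3], [0, 0, 3, 3]],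
  [[0, 0], [0, 0, 1], [0, 1], [1], [], [3], [0, 3], [0, 0, 3]],
  [[1, 0, 0], [0, 1, 1, 0], [0, 1, 1], [1, 1], [1], [], [0], [1, 1, 0, 0, 3, 3]],
  [[1, 0], [1, 1, 0], [1, 1], [1, 1, 2], [1, 2], [2], [], [0]],
  [[1], [2, 2, 1, 1, 0, 0], [2, 1, 1], [1, 2, 2, 1], [1, 2, 2], [2, 2], [2], []]]

/-- paths longer by two steps -/
def tab2 : List (List (List (Fin 4))) := [
  [[], [2, 1, 0], [2, 2, 1, 0], [1, 2, 3, 2, 1], [1, 2, 3, 2], [1, 2, 3, 2, 3], [1, 2, 3, 3], [2, 3, 0]],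
  [[2, 3, 0], [], [3, 2, 1], [2, 3, 0, 3, 2, 2, 1, 1], [3, 2, 1, 2, 3], [2, 2, 3, 0, 3, 2], [2, 2, 3, 0, 3], [2, 3, 0, 3]],
  [[2, 3, 0, 0], [3, 0, 1], [], [3, 2, 1], [0, 3, 2, 2], [2, 3, 0, 3, 2], [2, 3, 0, 3], [0, 3, 2, 3, 0]],
  [[3, 0, 1, 0, 3], [0, 3, 0, 1], [3, 0, 1], [], [0, 3, 2], [0, 0, 3, 3, 2, 1, 2, 3], [0, 3, 2, 3, 0], [0, 0, 3, 2, 3, 0]],
  [[0, 3, 0, 1], [0, 3, 0, 1, 1], [0, 0, 1, 2], [0, 1, 2], [], [0, 3, 2], [0, 0, 3, 2], [3, 0, 1, 0, 3]],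
  [[1, 0, 3, 0, 1], [0, 0, 1, 2, 1, 0], [0, 0, 1, 2, 1], [0, 1, 2, 1], [0, 1, 2], [], [1, 0, 3], [0, 1, 2, 1, 0, 0, 3, 3]],
  [[1, 1, 0, 3], [0, 1, 2, 1, 0], [0, 1, 2, 1], [0, 1, 2, 1, 2], [0, 1, 2, 2], [1, 2, 3], [], [1, 0, 3]],
  [[2, 1, 0], [1, 2, 3, 2, 1, 1, 0, 0], [2, 1, 0, 1, 2], [1, 1, 2, 3, 2, 1], [1, 1, 2, 3, 2], [1, 2, 3, 2], [1, 2, 3], []]]


/-- short state -/
def fill0 (p q : ℤ × ℤ) : List (Fin 4) := (tab0.getD (ringB.idxOf p) []).getD (ringB.idxOf q) []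

/-- long state -/
def fill2 (p q : ℤ × ℤ) : List (Fin 4) := (tab2.getD (ringB.idxOf p) []).getD (ringB.idxOf q) []

/-- types of slots: the long state has more area -/
def tP (p q : ℤ × ℤ) : Prop := dbl p (fill2 p q) = dbl p (fill0 p q) + 2

/-- types of slots: the long state has less area -/
def tM (p q : ℤ × ℤ) : Prop := ¬ tP p q

instance (p q : ℤ × ℤ) : Decidable (tP p q) := by unfold tP; infer_instance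

lemma fill0_spec : ∀ p ∈ ringB, ∀ q ∈ ringB, p ≠ q → ep p (fill0 p q) = q ∧
    (vt p (fill0 p q)).Nodup ∧
    (∀ v ∈ vt p (fill0 p q), (-1 ≤ v.1 ∧ v.1 ≤ 1) ∧ (-1 ≤ v.2 ∧ v.2 ≤ 1)) ∧
    (fill0 p q).length ≤ 24 := by
  decide +kernel

lemma fill2_spec : ∀ p ∈ ringB, ∀ q ∈ ringB, p ≠ q → ep p (fill2 p q) = q ∧
    (vt p (fill2 p q)).Nodup ∧
    (∀ v ∈ vt p (fill2 p q), (-1 ≤ v.1 ∧ v.1 ≤ 1) ∧ (-1 ≤ v.2 ∧ v.2 ≤ 1)) ∧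
    (fill2 p q).length ≤ 24 := by
  decide +kernel

lemma fill_types : ∀ p ∈ ringB, ∀ q ∈ ringB, p ≠ q →
    (fill2 p q).length = (fill0 p q).length + 2 ∧
    (¬ tP p q → dbl p (fill2 p q) = dbl p (fill0 p q) - 2) := by
  decide +kernel

end Pool.Agent.Lib27
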