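import Pool.Agent.Lib_helper27.Gaps

set_option autoImplicit false

namespace Pool.Agent.AreaLaw

open Finset MeasureTheory Pool.Agent.Lib27 Filter Topology Metric

/-- moment ratios with a uniform constant -/
theorem moment_rate_all (k : ℕ) : ∃ C : ℝ, ∀ n : ℕ, 1 ≤ n →
    |moment k (n + 1) / moment k n - 1| ≤ C * (n : ℝ) ^ (-(1 / 4) : ℝ) := by
  obtain ⟨C, hC, h⟩ := moment_rate k
  obtain ⟨N, hN⟩ := eventually_atTop.1 h
  set D : ℝ := ∑ j ∈ range N, |moment k (j + 1) / moment k j - 1| with hD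
  have hD0 : 0 ≤ D := sum_nonneg fun _ _ => abs_nonneg _
  refine ⟨C + D * N, fun n hn => ?_⟩
  have hn' : (1 : ℝ) ≤ n := by exact_mod_cast hn
  have hpos : (0 : ℝ) < (n : ℝ) ^ (1 / 4 : ℝ) := Real.rpow_pos_of_pos (by linarith) _
  have hNn : (0 : ℝ) ≤ N := by positivity
  rw [Real.rpow_neg (by linarith), ← div_eq_mul_inv]
  rcases Nat.lt_or_ge n N with hlt | hge
  · have h1 : |moment k (n + 1) / moment k n - 1| ≤ D :=
      single_le_sum (f := fun j => |moment k (j + 1) / moment k j - 1|)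
        (fun _ _ => abs_nonneg _) (mem_range.2 hlt)
    rw [le_div_iff₀ hpos]
    have h4 : (n : ℝ) ^ (1 / 4 : ℝ) ≤ n := by
      calc (n : ℝ) ^ (1 / 4 : ℝ) ≤ (n : ℝ) ^ (1 : ℝ) :=
            Real.rpow_le_rpow_of_exponent_le hn' (by norm_num)
        _ = n := Real.rpow_one _
    have h5 : (n : ℝ) ≤ N := by exact_mod_cast hlt.le
    have h6 := mul_le_mul h1 (h4.trans h5) hpos.le hD0
    linarith
  · have h1 := hN n hge
    rw [qroot] at h1
    refine h1.trans ?_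
    apply div_le_div_of_nonneg_right _ hpos.le
    have := mul_nonneg hD0 hNn
    linarith

/-- the alternative for the convergence of the area laws -/
theorem alternative : (∃ μ, Tendsto areaLaw atTop (𝓝 μ)) ∨
    (IsCompact LimitLaws ∧ IsConnected LimitLaws ∧ ¬ LimitLaws.Countable ∧
      ∀ (I : Set ℕ) (γ : ℕ → ℕ),
        Tendsto (fun n : ℕ => (γ n : ℝ) / (n : ℝ) ^ (1 / 4 : ℝ)) atTop (𝓝 0) →
        (∀ᶠ n in atTop, ∃ i ∈ I, n ≤ i ∧ i ≤ n + γ n) →
        ¬ ∃ μ, Tendsto areaLaw (atTop ⊓ 𝓟 I) (𝓝 μ)) := by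
  by_cases hc : ∃ μ, Tendsto areaLaw atTop (𝓝 μ)
  · exact Or.inl hc
  · right
    refine ⟨limitLaws_compact, limitLaws_connected, dichotomy.resolve_left hc, ?_⟩
    rintro I γ hγ hI ⟨μ, hμ⟩
    exact hc ⟨μ, sparse I γ hγ hI μ hμ⟩

end Pool.Agent.AreaLaw
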