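import Mathlib

/-!
Sequences in a metric space whose consecutive terms become close: the set of subsequential
limits is connected.
-/

set_option autoImplicit false

namespace Pool.Agent.Lib27

open Filter Topology Metric Set

/-- subsequential limits -/
def Sub {Y : Type*} [TopologicalSpace Y] (x : ℕ → Y) : Set Y :=
  {y | ∃ φ : ℕ → ℕ, StrictMono φ ∧ Tendsto (fun k => x (φ k)) atTop (𝓝 y)}

variable {Y : Type*} [MetricSpace Y]

lemma Sub_iff (x : ℕ → Y) (y : Y) : y ∈ Sub x ↔ MapClusterPt y atTop x := by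
  constructor
  · rintro ⟨φ, hφ, h⟩
    exact (h.mapClusterPt).of_comp hφ.tendsto_atTop
  · intro h
    obtain ⟨φ, hφ, h⟩ := h.tendsto_subseq
    exact ⟨φ, hφ, h⟩

lemma Sub_closed (x : ℕ → Y) : IsClosed (Sub x) := by
  have : Sub x = {y | MapClusterPt y atTop x} := by
    ext y; exact Sub_iff x y
  rw [this]
  exact isClosed_setOfPred_clusterPt

lemma Sub_subset (x : ℕ → Y) (K : Set Y) (hK : IsCompact K) (hx : ∀ n, x n ∈ K) : Sub x ⊆ K := by
  rintro y ⟨φ, _, h⟩
  exact hK.isClosed.mem_of_tendsto h (Eventually.of_forall fun k => hx _)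

lemma Sub_compact (x : ℕ → Y) (K : Set Y) (hK : IsCompact K) (hx : ∀ n, x n ∈ K) :
    IsCompact (Sub x) := hK.of_isClosed_subset (Sub_closed x) (Sub_subset x K hK hx)

lemma Sub_nonempty (x : ℕ → Y) (K : Set Y) (hK : IsCompact K) (hx : ∀ n, x n ∈ K) :
    (Sub x).Nonempty := by
  obtain ⟨y, _, φ, hφ, h⟩ := hK.tendsto_subseq hx
  exact ⟨y, φ, hφ, h⟩

/-- the sequence is eventually in every open neighbourhood of its set of limit points -/
lemma Sub_eventually (x : ℕ → Y) (K : Set Y) (hK : IsCompact K) (hx : ∀ n, x n ∈ K)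
    (U : Set Y) (hU : IsOpen U) (h : Sub x ⊆ U) : ∀ᶠ n in atTop, x n ∈ U := by
  by_contra hcon
  rw [not_eventually] at hcon
  obtain ⟨φ, hφ, hφ'⟩ := extraction_of_frequently_atTop hcon
  have hK' : IsCompact (K \ U) := hK.diff hU
  obtain ⟨y, hy, ψ, hψ, h2⟩ := hK'.tendsto_subseq (x := fun k => x (φ k))
    (fun k => ⟨hx _, hφ' k⟩)
  exact hy.2 (h ⟨φ ∘ ψ, hφ.comp hψ, h2⟩)

theorem Sub_connected (x : ℕ → Y) (K : Set Y) (hK : IsCompact K) (hx : ∀ n, x n ∈ K)
    (hd : Tendsto (fun n => dist (x n) (x (n + 1))) atTop (𝓝 0)) : IsConnected (Sub x) := by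
  refine ⟨Sub_nonempty x K hK hx, ?_⟩
  rw [isPreconnected_closed_iff]
  intro t t' ht ht' hsub hA hB
  by_contra hcon
  rw [not_nonempty_iff_eq_empty] at hcon
  set A := Sub x ∩ t with hAdef
  set B := Sub x ∩ t' with hBdef
  have hcomp := Sub_compact x K hK hx
  have hAc : IsCompact A := hcomp.inter_right ht
  have hBc : IsCompact B := hcomp.inter_right ht'
  have hdisj : Disjoint A B := by
    rw [Set.disjoint_iff_inter_eq_empty, ← hcon]
    ext y
    simp only [hAdef, hBdef, mem_inter_iff]
    tauto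
  obtain ⟨δ, hδ, hth⟩ := hdisj.exists_thickenings hAc hBc.isClosed
  have hunion : Sub x ⊆ thickening (δ / 2) A ∪ thickening (δ / 2) B := by
    intro y hy
    rcases hsub hy with h | h
    · left; exact self_subset_thickening (by positivity) _ ⟨hy, h⟩
    · right; exact self_subset_thickening (by positivity) _ ⟨hy, h⟩
  have hev := Sub_eventually x K hK hx _ (isOpen_thickening.union isOpen_thickening) hunion
  have hd' : ∀ᶠ n in atTop, dist (x n) (x (n + 1)) < δ / 2 :=
    hd.eventually (gt_mem_nhds (by positivity))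
  obtain ⟨N, hN⟩ := eventually_atTop.1 (hev.and hd')
  -- a point near `A` is not near `B`
  have hsep : ∀ C D : Set Y, Disjoint (thickening δ C) (thickening δ D) → ∀ u v : Y,
      u ∈ thickening (δ / 2) C → dist u v < δ / 2 → v ∉ thickening (δ / 2) D := by
    intro C D hCD u v hu huv hv
    rw [mem_thickening_iff] at hu
    obtain ⟨c, hc, hcu⟩ := hu
    have h1 : v ∈ thickening δ C := by
      rw [mem_thickening_iff]
      refine ⟨c, hc, ?_⟩
      calc dist v c ≤ dist v u + dist u c := dist_triangle _ _ _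
        _ < δ / 2 + δ / 2 := by rw [dist_comm v u]; linarith
        _ = δ := by ring
    have h2 : v ∈ thickening δ D := thickening_mono (by linarith) _ hv
    exact Set.disjoint_left.1 hCD h1 h2
  -- all terms stay near the same piece
  have hstay : ∀ C D : Set Y, Disjoint (thickening δ C) (thickening δ D) →
      (∀ n ≥ N, x n ∈ thickening (δ / 2) C ∪ thickening (δ / 2) D) →
      x N ∈ thickening (δ / 2) C → D ⊆ Sub x → ¬ D.Nonempty := by
    intro C D hCD hcov hstart hDsub hDne
    have hall : ∀ n ≥ N, x n ∈ thickening (δ / 2) C := by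
      intro n hn
      induction n, hn using Nat.le_induction with
      | base => exact hstart
      | succ n hn ih =>
        have h1 := hsep C D hCD (x n) (x (n + 1)) ih (hN n hn).2
        rcases hcov (n + 1) (by omega) with h | h
        · exact h
        · exact absurd h h1
    obtain ⟨b, hb⟩ := hDne
    obtain ⟨φ, hφ, hlim⟩ := hDsub hb
    have h2 : ∀ᶠ k in atTop, x (φ k) ∈ thickening (δ / 2) D :=
      hlim.eventually (isOpen_thickening.mem_nhds (self_subset_thickening (by positivity) _ hb))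
    obtain ⟨k, hk1, hk2⟩ := (h2.and (hφ.tendsto_atTop.eventually_ge_atTop N)).exists
    have h3 := hsep C D hCD (x (φ k)) (x (φ k)) (hall _ hk2) (by simpa using by positivity)
    exact h3 hk1
  rcases (hN N le_rfl).1 with h | h
  · exact hstay A B hth (fun n hn => (hN n hn).1) h inter_subset_left
      (by obtain ⟨y, hy1, hy2⟩ := hB; exact ⟨y, hy1, hy2⟩)
  · exact hstay B A hth.symm (fun n hn => (hN n hn).1.symm) h inter_subset_left
      (by obtain ⟨y, hy1, hy2⟩ := hA; exact ⟨y, hy1, hy2⟩)

/-- either the sequence converges or it has uncountably many subsequential limits -/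
theorem Sub_dichotomy (x : ℕ → Y) (K : Set Y) (hK : IsCompact K) (hx : ∀ n, x n ∈ K)
    (hd : Tendsto (fun n => dist (x n) (x (n + 1))) atTop (𝓝 0)) :
    (∃ y, Tendsto x atTop (𝓝 y)) ∨ ¬ (Sub x).Countable := by
  by_cases hc : (Sub x).Countable
  · left
    have h1 := hc.isTotallyDisconnected
    have h2 := Sub_connected x K hK hx hd
    have h3 := h1 (Sub x) Subset.rfl h2.isPreconnected
    obtain ⟨y, hy⟩ := h2.nonempty
    refine ⟨y, ?_⟩
    rw [_root_.tendsto_nhds]
    intro U hU hyU
    exact Sub_eventually x K hK hx U hU (fun z hz => by rw [h3 hz hy]; exact hyU)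
  · right; exact hc

/-- convergence along an index set with bounded gaps is convergence -/
theorem bounded_gap (x : ℕ → Y)
    (hd : Tendsto (fun n => dist (x n) (x (n + 1))) atTop (𝓝 0)) (I : Set ℕ) (g : ℕ)
    (hI : ∀ N, ∃ n ∈ I, N ≤ n ∧ n ≤ N + g) (y : Y) (hy : Tendsto x (atTop ⊓ 𝓟 I) (𝓝 y)) :
    Tendsto x atTop (𝓝 y) := by
  rw [Metric.tendsto_atTop]
  intro ε hε
  rw [Metric.tendsto_nhds] at hy
  have h1 := hy (ε / 2) (by positivity)
  rw [eventually_inf_principal] at h1
  have h2 : ∀ᶠ n in atTop, dist (x n) (x (n + 1)) < ε / (2 * (g + 1)) :=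
    hd.eventually (gt_mem_nhds (by positivity))
  obtain ⟨N, hN⟩ := eventually_atTop.1 (h1.and h2)
  refine ⟨N, fun n hn => ?_⟩
  obtain ⟨m, hmI, hm1, hm2⟩ := hI n
  have h3 : ∀ j : ℕ, dist (x n) (x (n + j)) ≤ j * (ε / (2 * (g + 1))) := by
    intro j
    induction j with
    | zero => simp
    | succ j ih =>
      have := (hN (n + j) (by omega)).2
      calc dist (x n) (x (n + (j + 1))) ≤ dist (x n) (x (n + j)) + dist (x (n + j)) (x (n + j + 1)) :=
            dist_triangle _ _ _
        _ ≤ j * (ε / (2 * (g + 1))) + ε / (2 * (g + 1)) := add_le_add ih this.le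
        _ = _ := by push_cast; ring
  have h4 := h3 (m - n)
  rw [Nat.add_sub_cancel' hm1] at h4
  have h5 : ((m - n : ℕ) : ℝ) ≤ g := by
    have : m - n ≤ g := by omega
    exact_mod_cast this
  have h6 : ((m - n : ℕ) : ℝ) * (ε / (2 * (g + 1))) ≤ g * (ε / (2 * (g + 1))) :=
    mul_le_mul_of_nonneg_right h5 (by positivity)
  have h7 : (g : ℝ) * (ε / (2 * (g + 1))) < ε / 2 := by
    rw [← mul_div_assoc, div_lt_div_iff₀ (by positivity) (by positivity)]
    nlinarith
  have h8 := (hN m (by omega)).1 hmI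
  calc dist (x n) y ≤ dist (x n) (x m) + dist (x m) y := dist_triangle _ _ _
    _ < ε / 2 + ε / 2 := by linarith
    _ = ε := by ring

end Pool.Agent.Lib27
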