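import Pool.Agent.Lib_helper27.Transl
import Pool.Agent.Lib_helper27.Slow

set_option autoImplicit false

namespace Pool.Agent.AreaLaw

open Finset MeasureTheory Pool.Agent.Lib27 Filter Topology Metric

lemma SAP_card_pos (n : ℕ) : 0 < (SAP n).card := by
  rw [card_SAP]
  rcases Nat.eq_zero_or_pos n with h | h
  · subst h
    rw [Finset.card_pos]
    refine ⟨[], ?_⟩
    rw [mem_W]
    exact ⟨rfl, rfl, List.nodup_nil⟩
  · exact W_pos n h

instance law_prob (n : ℕ) : IsProbabilityMeasure (law n) := by
  constructor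
  unfold law
  have h := SAP_card_pos n
  rw [Measure.smul_apply, Measure.finsetSum_apply]
  simp only [measure_univ, sum_const, nsmul_eq_mul, mul_one, smul_eq_mul]
  exact ENNReal.inv_mul_cancel (by exact_mod_cast h.ne') (ENNReal.natCast_ne_top _)

/-- mean of a function of `A_n / E[A_n]` -/
noncomputable def EF (f : ℝ → ℝ) (n : ℕ) : ℝ :=
  (∑ s ∈ SAP n, f (area n s / meanArea n)) / (SAP n).card

lemma EF_eq (f : ℝ → ℝ) (n : ℕ) : EF f n = EL f n := by
  unfold EF EL
  rw [card_SAP, ← sum_SAP]
  congr 1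
  apply sum_congr rfl
  intro s _
  rw [ratio_eq]

lemma law_apply (n : ℕ) (B : Set ℝ) (hB : MeasurableSet B) :
    law n B = ENNReal.ofReal (EF (B.indicator (fun _ => (1 : ℝ))) n) := by
  unfold law EF
  have h := SAP_card_pos n
  have h' : (0 : ℝ) < (SAP n).card := by exact_mod_cast h
  rw [Measure.smul_apply, Measure.finsetSum_apply, smul_eq_mul]
  rw [ENNReal.ofReal_div_of_pos h', ENNReal.ofReal_natCast, ENNReal.div_eq_inv_mul]
  congr 1
  rw [ENNReal.ofReal_sum_of_nonneg]
  · apply sum_congr rfl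
    intro s _
    rw [Measure.dirac_apply' _ hB]
    by_cases hs : area n s / meanArea n ∈ B
    · simp [hs]
    · simp [hs]
  · intro s _
    exact Set.indicator_nonneg (fun _ _ => zero_le_one) _

lemma EF_mono (f g : ℝ → ℝ) (n : ℕ) (h : ∀ x, f x ≤ g x) : EF f n ≤ EF g n := by
  unfold EF
  apply div_le_div_of_nonneg_right _ (by positivity)
  exact sum_le_sum fun s _ => h _

lemma EF_nonneg (f : ℝ → ℝ) (n : ℕ) (h : ∀ x, 0 ≤ f x) : 0 ≤ EF f n := by
  unfold EF
  exact div_nonneg (sum_nonneg fun s _ => h _) (by positivity)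

/-- the tent function of a set -/
noncomputable def tent (δ : ℝ) (B : Set ℝ) (x : ℝ) : ℝ := max 0 (1 - infDist x B / δ)

lemma tent_bounds (δ : ℝ) (hδ : 0 < δ) (B : Set ℝ) (x : ℝ) : 0 ≤ tent δ B x ∧ tent δ B x ≤ 1 := by
  unfold tent
  refine ⟨le_max_left _ _, max_le zero_le_one ?_⟩
  have : 0 ≤ infDist x B / δ := div_nonneg infDist_nonneg hδ.le
  linarith

lemma tent_lip (δ : ℝ) (hδ : 0 < δ) (B : Set ℝ) (x y : ℝ) :
    |tent δ B x - tent δ B y| ≤ 1 / δ * |x - y| := by
  unfold tent
  have h1 : |infDist x B - infDist y B| ≤ |x - y| := by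
    have h := (lipschitz_infDist_pt B).dist_le_mul x y
    rw [Real.dist_eq, Real.dist_eq, NNReal.coe_one, one_mul] at h
    exact h
  have h2 : |max 0 (1 - infDist x B / δ) - max 0 (1 - infDist y B / δ)| ≤
      |(1 - infDist x B / δ) - (1 - infDist y B / δ)| := by
    have := abs_max_sub_max_le_max (0 : ℝ) (1 - infDist x B / δ) 0 (1 - infDist y B / δ)
    rw [sub_self, abs_zero,
      max_eq_right (abs_nonneg ((1 - infDist x B / δ) - (1 - infDist y B / δ)))] at this
    exact this
  refine h2.trans ?_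
  have h3 : (1 - infDist x B / δ) - (1 - infDist y B / δ) = -(infDist x B - infDist y B) / δ := by
    ring
  rw [h3, abs_div, abs_neg, abs_of_pos hδ, one_div, div_eq_inv_mul]
  exact mul_le_mul_of_nonneg_left h1 (by positivity)

lemma indicator_le_tent (δ : ℝ) (hδ : 0 < δ) (B : Set ℝ) (x : ℝ) :
    B.indicator (fun _ => (1 : ℝ)) x ≤ tent δ B x := by
  by_cases hx : x ∈ B
  · rw [Set.indicator_of_mem hx]
    unfold tent
    rw [infDist_zero_of_mem hx]
    simp
  · rw [Set.indicator_of_notMem hx]
    exact (tent_bounds δ hδ B x).1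

lemma tent_le_indicator (δ : ℝ) (hδ : 0 < δ) (B : Set ℝ) (hB : B.Nonempty) (x : ℝ) :
    tent δ B x ≤ (thickening δ B).indicator (fun _ => (1 : ℝ)) x := by
  by_cases hx : x ∈ thickening δ B
  · rw [Set.indicator_of_mem hx]
    exact (tent_bounds δ hδ B x).2
  · rw [Set.indicator_of_notMem hx]
    unfold tent
    have h1 : δ ≤ infDist x B := by
      by_contra h
      rw [not_le, infDist_lt_iff hB] at h
      obtain ⟨y, hy, hxy⟩ := h
      exact hx (mem_thickening_iff.2 ⟨y, hy, hxy⟩)
    apply max_le le_rfl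
    have : 1 ≤ infDist x B / δ := (one_le_div hδ).2 h1
    linarith

/-- the laws of `A_n / E[A_n]` and of `A_{n+1} / E[A_{n+1}]` merge -/
theorem lp_tendsto : Tendsto (fun n => levyProkhorovDist (law n) (law (n + 1))) atTop (𝓝 0) := by
  rw [Metric.tendsto_atTop]
  intro ε hε
  set δ := ε / 2 with hδdef
  have hδ : 0 < δ := by positivity
  have h1 := merge (1 / δ) (by positivity)
  have h2 : ∀ᶠ n in atTop, er (1 / δ) n < δ := (er_tendsto (1 / δ)).eventually (gt_mem_nhds hδ)
  obtain ⟨N, hN⟩ := eventually_atTop.1 (h1.and h2)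
  refine ⟨N, fun n hn => ?_⟩
  obtain ⟨h3, h4⟩ := hN n hn
  have h5 : levyProkhorovDist (law n) (law (n + 1)) ≤ δ := by
    apply levyProkhorovDist_le_of_forall_le _ _ hδ.le
    intro η B hη hB
    rcases B.eq_empty_or_nonempty with h | h
    · rw [h]; simp
    · rw [law_apply n B hB]
      have hmono : law (n + 1) (thickening δ B) ≤ law (n + 1) (thickening η B) :=
        measure_mono (thickening_mono hη.le B)
      have hop : MeasurableSet (thickening δ B) := isOpen_thickening.measurableSet
      have h6 : EF (B.indicator (fun _ => (1 : ℝ))) n ≤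
          EF ((thickening δ B).indicator (fun _ => (1 : ℝ))) (n + 1) + δ := by
        have k1 := EF_mono _ _ n (indicator_le_tent δ hδ B)
        have k2 := EF_mono _ _ (n + 1) (tent_le_indicator δ hδ B h)
        have k3 := h3 (tent δ B) (tent_bounds δ hδ B) (tent_lip δ hδ B)
        rw [← EF_eq, ← EF_eq, abs_le] at k3
        linarith [k3.1, k3.2]
      calc ENNReal.ofReal (EF (B.indicator (fun _ => (1 : ℝ))) n)
          ≤ ENNReal.ofReal (EF ((thickening δ B).indicator (fun _ => (1 : ℝ))) (n + 1) + δ) :=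
            ENNReal.ofReal_le_ofReal h6
        _ = ENNReal.ofReal (EF ((thickening δ B).indicator (fun _ => (1 : ℝ))) (n + 1)) +
            ENNReal.ofReal δ := by
            rw [ENNReal.ofReal_add _ hδ.le]
            exact EF_nonneg _ _ (fun x => Set.indicator_nonneg (fun _ _ => zero_le_one) _)
        _ ≤ law (n + 1) (thickening η B) + ENNReal.ofReal η := by
            rw [← law_apply (n + 1) _ hop]
            exact add_le_add hmono (ENNReal.ofReal_le_ofReal hη.le)
  have h6 : 0 ≤ levyProkhorovDist (law n) (law (n + 1)) := ENNReal.toReal_nonneg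
  rw [Real.dist_eq, sub_zero, abs_of_nonneg h6]
  linarith

/-- moments of successive perimeters are asymptotically equal -/
theorem moment_ratio (k : ℕ) : Tendsto (fun n => moment k (n + 1) / moment k n) atTop (𝓝 1) := by
  refine (mom_ratio k).congr' ?_
  filter_upwards with n
  rw [moment_eq, moment_eq, div_div_div_cancel_right₀ (by positivity)]

end Pool.Agent.AreaLaw
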