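import Pool.Agent.Lib_helper27.MergeTV
import Pool.Agent.Lib_helper27.Law
import Pool.Agent.Lib_helper27.Defs2

set_option autoImplicit false

namespace Pool.Agent.AreaLaw

open Finset Filter Topology Pool.Agent.Lib27

open Classical in
/-- the indicator of a set of areas as a function of the signed doubled area -/
noncomputable def uB (B : Set ℝ) (d : ℤ) : ℝ := if ((|d| : ℤ) : ℝ) / 2 ∈ B then 1 else 0

lemma uB_le (B : Set ℝ) (d : ℤ) : |uB B d| ≤ 1 := by
  unfold uB
  split_ifs <;> simp

lemma prob_eq (n : ℕ) (B : Set ℝ) : prob n B = EU (uB B) n := by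
  classical
  unfold prob EU
  rw [card_SAP, ← sum_SAP, card_filter]
  push_cast
  congr 1
  apply sum_congr rfl
  intro s _
  rw [area_eq]
  rfl

lemma qroot (n : ℕ) : Real.sqrt (Real.sqrt (n : ℝ)) = (n : ℝ) ^ (1 / 4 : ℝ) := by
  rw [Real.sqrt_eq_rpow, Real.sqrt_eq_rpow, ← Real.rpow_mul (by positivity)]
  norm_num

lemma prob_mem (n : ℕ) (B : Set ℝ) : 0 ≤ prob n B ∧ prob n B ≤ 1 := by
  classical
  unfold prob
  constructor
  · positivity
  · apply div_le_one_of_le₀ _ (by positivity)
    exact_mod_cast card_filter_le _ _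

/-- **Merging in total variation.** -/
theorem tv_merge : ∃ C : ℝ, ∀ n : ℕ, 1 ≤ n → ∀ B : Set ℝ,
    |prob (n + 1) B - prob n B| ≤ C * (n : ℝ) ^ (-(1 / 4) : ℝ) := by
  obtain ⟨C, hC, h⟩ := merge_EU
  obtain ⟨N, hN⟩ := eventually_atTop.1 h
  refine ⟨C + N, fun n hn B => ?_⟩
  have hn' : (1 : ℝ) ≤ n := by exact_mod_cast hn
  have hpos : (0 : ℝ) < (n : ℝ) ^ (1 / 4 : ℝ) := Real.rpow_pos_of_pos (by linarith) _
  rw [Real.rpow_neg (by linarith), ← div_eq_mul_inv]
  rcases Nat.lt_or_ge n N with hlt | hge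
  · have h1 := prob_mem n B
    have h2 := prob_mem (n + 1) B
    have h3 : |prob (n + 1) B - prob n B| ≤ 1 := by
      rw [abs_le]; constructor <;> linarith [h1.1, h1.2, h2.1, h2.2]
    refine h3.trans ?_
    rw [le_div_iff₀ hpos, one_mul]
    have h4 : (n : ℝ) ^ (1 / 4 : ℝ) ≤ n := by
      calc (n : ℝ) ^ (1 / 4 : ℝ) ≤ (n : ℝ) ^ (1 : ℝ) :=
            Real.rpow_le_rpow_of_exponent_le hn' (by norm_num)
        _ = n := Real.rpow_one _
    have h5 : (n : ℝ) ≤ N := by exact_mod_cast hlt.le
    linarith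
  · have h1 := hN n hge (uB B) (uB_le B)
    rw [prob_eq, prob_eq, ← qroot]
    rw [← qroot] at hpos
    refine h1.trans ?_
    apply div_le_div_of_nonneg_right _ hpos.le
    have : (0 : ℝ) ≤ N := by positivity
    linarith

open Classical in
/-- restriction of an indicator to positive orientation -/
noncomputable def uP (B : Set ℝ) (d : ℤ) : ℝ := if 0 < d then uB B d else 0
open Classical in
/-- restriction of an indicator to negative orientation -/
noncomputable def uN (B : Set ℝ) (d : ℤ) : ℝ := if d < 0 then uB B d else 0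

lemma uP_le (B : Set ℝ) (d : ℤ) : |uP B d| ≤ 1 := by
  unfold uP
  split_ifs
  · exact uB_le B d
  · simp

lemma uN_le (B : Set ℝ) (d : ℤ) : |uN B d| ≤ 1 := by
  unfold uN
  split_ifs
  · exact uB_le B d
  · simp

lemma shift_pointwise (B : Set ℝ) (d : ℤ) (hd : 3 ≤ |d|) :
    uB {x | x + 1 ∈ B} d = uP B (d + 2) + uN B (d - 2) ∧ uB B d = uP B d + uN B d := by
  rcases le_or_gt 0 d with h | h
  · rw [abs_of_nonneg h] at hd
    have e1 : uP B (d + 2) = uB B (d + 2) := by unfold uP; rw [if_pos (by omega)]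
    have e2 : uN B (d - 2) = 0 := by unfold uN; rw [if_neg (by omega)]
    have e3 : uP B d = uB B d := by unfold uP; rw [if_pos (by omega)]
    have e4 : uN B d = 0 := by unfold uN; rw [if_neg (by omega)]
    rw [e1, e2, e3, e4, add_zero, add_zero]
    refine ⟨?_, rfl⟩
    unfold uB
    rw [abs_of_nonneg h, abs_of_nonneg (by omega : (0 : ℤ) ≤ d + 2)]
    have : ((d + 2 : ℤ) : ℝ) / 2 = (d : ℝ) / 2 + 1 := by push_cast; ring
    rw [this]
    rfl
  · rw [abs_of_neg h] at hd
    have e1 : uP B (d + 2) = 0 := by unfold uP; rw [if_neg (by omega)]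
    have e2 : uN B (d - 2) = uB B (d - 2) := by unfold uN; rw [if_pos (by omega)]
    have e3 : uP B d = 0 := by unfold uP; rw [if_neg (by omega)]
    have e4 : uN B d = uB B d := by unfold uN; rw [if_pos (by omega)]
    rw [e1, e2, e3, e4, zero_add, zero_add]
    refine ⟨?_, rfl⟩
    unfold uB
    rw [abs_of_neg h, abs_of_neg (by omega : d - 2 < 0)]
    have : ((-(d - 2) : ℤ) : ℝ) / 2 = ((-d : ℤ) : ℝ) / 2 + 1 := by push_cast; ring
    rw [this]
    rfl

/-- **Smoothness of the area law.** -/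
theorem tv_shift : ∃ C : ℝ, ∀ n : ℕ, 1 ≤ n → ∀ B : Set ℝ,
    |prob n {x | x + 1 ∈ B} - prob n B| ≤ C / Real.sqrt n := by
  obtain ⟨C, hC, h⟩ := shift_dbl
  obtain ⟨N, hN⟩ := eventually_atTop.1 h
  refine ⟨2 * C + (N + 3), fun n hn B => ?_⟩
  have hn' : (1 : ℝ) ≤ n := by exact_mod_cast hn
  have hpos : (0 : ℝ) < Real.sqrt n := Real.sqrt_pos.2 (by linarith)
  rcases Nat.lt_or_ge n (N + 3) with hlt | hge
  · have h1 := prob_mem n B
    have h2 := prob_mem n {x | x + 1 ∈ B}
    have h3 : |prob n {x | x + 1 ∈ B} - prob n B| ≤ 1 := by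
      rw [abs_le]; constructor <;> linarith [h1.1, h1.2, h2.1, h2.2]
    refine h3.trans ?_
    rw [le_div_iff₀ hpos, one_mul]
    have h4 : Real.sqrt n ≤ n := by
      rw [Real.sqrt_le_left (by linarith)]
      nlinarith
    have h5 : (n : ℝ) ≤ N + 3 := by exact_mod_cast hlt.le
    linarith
  · have h1 := hN n (by omega) (uP B) (uP_le B)
    have h2 := hN n (by omega) (fun d => uN B (d - 2)) (fun d => uN_le B _)
    simp only [add_sub_cancel_right] at h2
    have e1 : EU (uB {x | x + 1 ∈ B}) n = EU (fun d => uP B (d + 2)) n +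
        EU (fun d => uN B (d - 2)) n := by
      unfold EU
      rw [← add_div, ← sum_add_distrib]
      congr 1
      apply sum_congr rfl
      intro s hs
      rw [mem_W] at hs
      have := dbl_ge n s hs.2 hs.1 (by omega)
      exact (shift_pointwise B _ (by omega)).1
    have e2 : EU (uB B) n = EU (uP B) n + EU (uN B) n := by
      unfold EU
      rw [← add_div, ← sum_add_distrib]
      congr 1
      apply sum_congr rfl
      intro s hs
      rw [mem_W] at hs
      have := dbl_ge n s hs.2 hs.1 (by omega)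
      exact (shift_pointwise B _ (by omega)).2
    rw [prob_eq, prob_eq, e1, e2]
    have e3 : EU (fun d => uP B (d + 2)) n + EU (fun d => uN B (d - 2)) n -
        (EU (uP B) n + EU (uN B) n) = (EU (fun d => uP B (d + 2)) n - EU (uP B) n) -
        (EU (fun d => uN B d) n - EU (fun d => uN B (d - 2)) n) := by
      ring
    rw [e3]
    have h3 : |EU (fun d => uP B (d + 2)) n - EU (uP B) n -
        (EU (fun d => uN B d) n - EU (fun d => uN B (d - 2)) n)| ≤
        C / Real.sqrt n + C / Real.sqrt n := (abs_sub _ _).trans (add_le_add h1 h2)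
    refine h3.trans ?_
    rw [← add_div]
    apply div_le_div_of_nonneg_right _ hpos.le
    have : (0 : ℝ) ≤ N := by positivity
    linarith

end Pool.Agent.AreaLaw
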