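import Mathlib

set_option autoImplicit false

namespace Pool.Agent.Lib27

open Finset

/-- a finite system of moves between two finite sets -/
structure FlipSys (α ι : Type*) [DecidableEq α] where
  X : Finset α
  Y : Finset α
  Z : Finset ι
  a : ι → α
  b : ι → α
  ha : ∀ z ∈ Z, a z ∈ X
  hb : ∀ z ∈ Z, b z ∈ Y
  x : α → ℕ
  y : α → ℕ
  hx : ∀ s ∈ X, (Z.filter (fun z => a z = s)).card = x s
  hy : ∀ t ∈ Y, (Z.filter (fun z => b z = t)).card = y t

variable {α ι : Type*} [DecidableEq α]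

/-- the reversed system -/
def FlipSys.swap (S : FlipSys α ι) : FlipSys α ι :=
  ⟨S.Y, S.X, S.Z, S.b, S.a, S.hb, S.ha, S.y, S.x, S.hy, S.hx⟩

lemma FlipSys.sum_a (S : FlipSys α ι) (φ : α → ℝ) :
    ∑ z ∈ S.Z, φ (S.a z) = ∑ s ∈ S.X, (S.x s : ℝ) * φ s := by
  rw [← sum_fiberwise_of_maps_to S.ha]
  apply sum_congr rfl
  intro s hs
  have h : ∀ z ∈ S.Z.filter (fun z => S.a z = s), φ (S.a z) = φ s := fun z hz => by
    rw [(mem_filter.1 hz).2]
  rw [sum_congr rfl h, sum_const, S.hx s hs, nsmul_eq_mul]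

lemma FlipSys.sum_b (S : FlipSys α ι) (φ : α → ℝ) :
    ∑ z ∈ S.Z, φ (S.b z) = ∑ t ∈ S.Y, (S.y t : ℝ) * φ t := S.swap.sum_a φ

lemma ratio_lip (y y' m m' g K D : ℝ) (hg : 0 < g) (hm : g ≤ m) (hm' : g ≤ m')
    (hy : |y - y'| ≤ D) (hmm : |m - m'| ≤ D) (h0 : 0 ≤ y') (hK : y' ≤ K * m') :
    |y / m - y' / m'| ≤ (1 + K) * D / g := by
  have hm0 : 0 < m := hg.trans_le hm
  have hm0' : 0 < m' := hg.trans_le hm'
  have hD : 0 ≤ D := (abs_nonneg _).trans hy
  have hK0 : 0 ≤ K := by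
    by_contra h
    push Not at h
    nlinarith
  have e : y / m - y' / m' = (y - y') / m + y' * (m' - m) / (m * m') := by
    field_simp
    ring
  rw [e]
  refine (abs_add_le _ _).trans ?_
  have h1 : |(y - y') / m| ≤ D / g := by
    rw [abs_div, abs_of_pos hm0]
    exact div_le_div₀ hD hy hg hm
  have h2 : |y' * (m' - m) / (m * m')| ≤ K * D / g := by
    rw [abs_div, abs_mul, abs_of_nonneg h0, abs_of_pos (mul_pos hm0 hm0'), div_le_div_iff₀
      (mul_pos hm0 hm0') hg, abs_sub_comm]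
    calc y' * |m - m'| * g ≤ (K * m') * D * m := by
          apply mul_le_mul (mul_le_mul hK hmm (abs_nonneg _) (by positivity)) hm hg.le
          positivity
      _ = _ := by ring
  calc _ ≤ D / g + K * D / g := add_le_add h1 h2
    _ = _ := by ring

/-- the basic comparison -/
lemma FlipSys.basic (S : FlipSys α ι) (m : α → ℝ) (g K D K' E : ℝ) (hg : 0 < g)
    (hm : ∀ s, g ≤ m s) (hD : ∀ z ∈ S.Z, |m (S.a z) - m (S.b z)| ≤ D)
    (hK : ∀ s ∈ S.X, (S.x s : ℝ) ≤ K * m s) (hE0 : 0 ≤ E) (hK0 : 0 ≤ K') (hD0 : 0 ≤ D)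
    (ψ w w' : α → ℝ) (hψ : ∀ z ∈ S.Z, |ψ (S.b z)| ≤ K')
    (hE : ∀ z ∈ S.Z, |ψ (S.a z) - ψ (S.b z)| ≤ E / g) (hw : ∀ z ∈ S.Z, |w (S.b z)| ≤ 1)
    (hww : ∀ z ∈ S.Z, w' (S.a z) = w (S.b z)) :
    |∑ s ∈ S.X, ψ s * w' s * (S.x s / m s) - ∑ t ∈ S.Y, ψ t * w t * (S.y t / m t)| ≤
      K * (E + K' * D) / g * S.X.card := by
  have h1 : ∑ s ∈ S.X, ψ s * w' s * (S.x s / m s) =
      ∑ z ∈ S.Z, ψ (S.a z) * w' (S.a z) / m (S.a z) := by
    rw [S.sum_a (fun s => ψ s * w' s / m s)]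
    apply sum_congr rfl
    intro s _
    ring
  have h2 : ∑ t ∈ S.Y, ψ t * w t * (S.y t / m t) =
      ∑ z ∈ S.Z, ψ (S.b z) * w (S.b z) / m (S.b z) := by
    rw [S.sum_b (fun s => ψ s * w s / m s)]
    apply sum_congr rfl
    intro s _
    ring
  rw [h1, h2, ← sum_sub_distrib]
  refine (abs_sum_le_sum_abs _ _).trans ?_
  have hterm : ∀ z ∈ S.Z, |ψ (S.a z) * w' (S.a z) / m (S.a z) - ψ (S.b z) * w (S.b z) / m (S.b z)| ≤
      (E + K' * D) / g * (1 / m (S.a z)) := by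
    intro z hz
    have ma := hm (S.a z)
    have mb := hm (S.b z)
    have ma0 : 0 < m (S.a z) := hg.trans_le ma
    have mb0 : 0 < m (S.b z) := hg.trans_le mb
    rw [hww z hz]
    have e : ψ (S.a z) * w (S.b z) / m (S.a z) - ψ (S.b z) * w (S.b z) / m (S.b z) =
        w (S.b z) * ((ψ (S.a z) - ψ (S.b z)) / m (S.a z) +
          ψ (S.b z) * (m (S.b z) - m (S.a z)) / (m (S.a z) * m (S.b z))) := by
      field_simp
      ring
    rw [e, abs_mul]
    have h3 : |(ψ (S.a z) - ψ (S.b z)) / m (S.a z)| ≤ E / g / m (S.a z) := by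
      rw [abs_div, abs_of_pos ma0]
      exact div_le_div_of_nonneg_right (hE z hz) ma0.le
    have h4 : |ψ (S.b z) * (m (S.b z) - m (S.a z)) / (m (S.a z) * m (S.b z))| ≤
        K' * D / (m (S.a z) * g) := by
      rw [abs_div, abs_mul, abs_of_pos (mul_pos ma0 mb0), abs_sub_comm (m (S.b z))]
      apply div_le_div₀ (by positivity) _ (by positivity)
      · exact mul_le_mul_of_nonneg_left mb ma0.le
      · exact mul_le_mul (hψ z hz) (hD z hz) (abs_nonneg _) hK0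
    have h5 := (abs_add_le _ _).trans (add_le_add h3 h4)
    calc |w (S.b z)| * |(ψ (S.a z) - ψ (S.b z)) / m (S.a z) +
          ψ (S.b z) * (m (S.b z) - m (S.a z)) / (m (S.a z) * m (S.b z))|
        ≤ 1 * (E / g / m (S.a z) + K' * D / (m (S.a z) * g)) :=
          mul_le_mul (hw z hz) h5 (abs_nonneg _) (by norm_num)
      _ = _ := by field_simp
  refine (sum_le_sum hterm).trans ?_
  rw [← mul_sum, S.sum_a (fun s => 1 / m s)]
  have h6 : ∑ s ∈ S.X, (S.x s : ℝ) * (1 / m s) ≤ K * S.X.card := by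
    calc ∑ s ∈ S.X, (S.x s : ℝ) * (1 / m s) ≤ ∑ s ∈ S.X, K := by
          apply sum_le_sum
          intro s hs
          have hm0 : 0 < m s := hg.trans_le (hm s)
          rw [mul_one_div, div_le_iff₀ hm0]
          exact hK s hs
      _ = _ := by rw [sum_const, nsmul_eq_mul]; ring
  calc (E + K' * D) / g * ∑ s ∈ S.X, (S.x s : ℝ) * (1 / m s)
      ≤ (E + K' * D) / g * (K * S.X.card) := mul_le_mul_of_nonneg_left h6 (by positivity)
    _ = _ := by ring

/-- variance bound for the ratio of the numbers of moves -/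
lemma FlipSys.var_bound (S : FlipSys α ι) (hXY : S.X = S.Y) (g K D β : ℝ) (hg : 0 < g)
    (hD0 : 0 ≤ D) (hK0 : 0 ≤ K)
    (hβ : ((S.X.filter (fun s => (S.x s : ℝ) < g)).card : ℝ) ≤ β)
    (hx : ∀ z ∈ S.Z, |(S.x (S.a z) : ℝ) - S.x (S.b z)| ≤ D)
    (hy : ∀ z ∈ S.Z, |(S.y (S.a z) : ℝ) - S.y (S.b z)| ≤ D)
    (hK : ∀ s ∈ S.X, (S.y s : ℝ) ≤ K * max (S.x s : ℝ) g) :
    ∑ s ∈ S.X, (S.y s / max (S.x s : ℝ) g - 1) ^ 2 ≤ β + (2 + 2 * K) * D / g * S.X.card := by
  set m : α → ℝ := fun s => max (S.x s : ℝ) g with hmdef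
  have hm : ∀ s, g ≤ m s := fun s => le_max_right _ _
  have hm0 : ∀ s, 0 < m s := fun s => hg.trans_le (hm s)
  have hmD : ∀ z ∈ S.Z, |m (S.a z) - m (S.b z)| ≤ D := fun z hz =>
    (abs_max_sub_max_le_abs _ _ _).trans (hx z hz)
  have hx1 : ∀ s ∈ S.X, (S.x s : ℝ) ≤ 1 * m s := fun s _ => by
    rw [one_mul]; exact le_max_left _ _
  set R : α → ℝ := fun s => S.y s / m s with hR
  have hR0 : ∀ s, 0 ≤ R s := fun s => div_nonneg (Nat.cast_nonneg _) (hm0 s).le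
  have hRK : ∀ s ∈ S.X, R s ≤ K := fun s hs => by
    rw [hR]; simp only; rw [div_le_iff₀ (hm0 s)]; exact hK s hs
  -- fraction of good points
  have hgood : (S.X.card : ℝ) - β ≤ ∑ s ∈ S.X, (S.x s / m s : ℝ) := by
    have h1 : ∑ s ∈ S.X, (1 - if (S.x s : ℝ) < g then (1 : ℝ) else 0) ≤
        ∑ s ∈ S.X, (S.x s / m s : ℝ) := by
      apply sum_le_sum
      intro s _
      split_ifs with h
      · rw [sub_self]; exact div_nonneg (Nat.cast_nonneg _) (hm0 s).le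
      · push Not at h
        have : m s = S.x s := max_eq_left h
        rw [this, div_self (by linarith), sub_zero]
    rw [sum_sub_distrib, sum_const, nsmul_eq_mul, mul_one, ← sum_filter, sum_const, nsmul_eq_mul,
      mul_one] at h1
    linarith
  have hle1 : ∑ s ∈ S.X, R s * (S.x s / m s : ℝ) ≤ ∑ s ∈ S.X, R s := by
    apply sum_le_sum
    intro s hs
    have h1 : (S.x s / m s : ℝ) ≤ 1 := by
      rw [div_le_one (hm0 s)]; exact le_max_left _ _
    calc R s * (S.x s / m s : ℝ) ≤ R s * 1 := mul_le_mul_of_nonneg_left h1 (hR0 s)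
      _ = R s := mul_one _
  -- first moment
  have b1 := S.basic m g 1 D 1 0 hg hm hmD hx1 le_rfl zero_le_one hD0 (fun _ => 1) (fun _ => 1)
    (fun _ => 1) (fun _ _ => by simp) (fun _ _ => by simp) (fun _ _ => by simp) (fun _ _ => rfl)
  rw [← hXY] at b1
  simp only [one_mul, zero_add, mul_one] at b1
  -- second moment
  have b2 := S.basic m g 1 D K ((1 + K) * D) hg hm hmD hx1 (by positivity) hK0 hD0 R (fun _ => 1)
    (fun _ => 1) (fun z hz => by
      rw [abs_of_nonneg (hR0 _)]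
      apply hRK
      rw [hXY]
      exact S.hb z hz)
    (fun z hz => ratio_lip _ _ _ _ g K D hg (hm _) (hm _) (hy z hz) (hmD z hz) (by positivity)
      (hK _ (by rw [hXY]; exact S.hb z hz)))
    (fun _ _ => by simp) (fun _ _ => rfl)
  rw [← hXY] at b2
  simp only [one_mul, mul_one] at b2
  have e1 : ∑ s ∈ S.X, R s * (S.y s / m s : ℝ) = ∑ s ∈ S.X, R s ^ 2 :=
    sum_congr rfl fun s _ => by rw [sq]
  rw [e1] at b2
  rw [abs_le] at b1 b2
  have e2 : ∑ s ∈ S.X, (R s - 1) ^ 2 = ∑ s ∈ S.X, R s ^ 2 - 2 * ∑ s ∈ S.X, R s + S.X.card := by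
    rw [mul_sum, ← sum_sub_distrib]
    have : (S.X.card : ℝ) = ∑ s ∈ S.X, (1 : ℝ) := by simp
    rw [this, ← sum_add_distrib]
    apply sum_congr rfl
    intro s _
    ring
  have e3 : ∑ s ∈ S.X, (R s - 1) ^ 2 = ∑ s ∈ S.X, (S.y s / max (S.x s : ℝ) g - 1) ^ 2 := rfl
  rw [← e3, e2]
  have e4 : (2 + 2 * K) * D / g * (S.X.card : ℝ) =
      ((1 + K) * D + K * D) / g * S.X.card + D / g * S.X.card := by ring
  rw [e4]
  have hRsum : ∑ s ∈ S.X, R s = ∑ s ∈ S.X, (S.y s / m s : ℝ) := rfl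
  rw [← hRsum] at b1
  linarith [b1.1, b1.2, b2.1, b2.2]

/-- smoothing -/
theorem FlipSys.smooth (S : FlipSys α ι) (hXY : S.X = S.Y) (g K D K' E : ℝ) (hg : 0 < g)
    (hD0 : 0 ≤ D) (hK0 : 0 ≤ K) (hK0' : 0 ≤ K') (hE0 : 0 ≤ E)
    (hβ : ((S.X.filter (fun s => (S.x s : ℝ) < g)).card : ℝ) ≤ S.X.card / g)
    (hx : ∀ z ∈ S.Z, |(S.x (S.a z) : ℝ) - S.x (S.b z)| ≤ D)
    (hy : ∀ z ∈ S.Z, |(S.y (S.a z) : ℝ) - S.y (S.b z)| ≤ D)
    (hK : ∀ s ∈ S.X, (S.y s : ℝ) ≤ K * max (S.x s : ℝ) g)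
    (ψ w w' : α → ℝ) (hψ : ∀ s ∈ S.X, |ψ s| ≤ K')
    (hE : ∀ z ∈ S.Z, |ψ (S.a z) - ψ (S.b z)| ≤ E / g) (hw : ∀ s ∈ S.X, |w s| ≤ 1)
    (hw' : ∀ s ∈ S.X, |w' s| ≤ 1) (hww : ∀ z ∈ S.Z, w' (S.a z) = w (S.b z)) :
    |∑ s ∈ S.X, ψ s * w' s - ∑ s ∈ S.X, ψ s * w s| ≤
      S.X.card * ((K' + E + K' * D) / g + K' * Real.sqrt ((1 + (2 + 2 * K) * D) / g)) := by
  set N : ℝ := (S.X.card : ℝ) with hN
  have hN0 : 0 ≤ N := by rw [hN]; positivity
  set m : α → ℝ := fun s => max (S.x s : ℝ) g with hmdef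
  have hm : ∀ s, g ≤ m s := fun s => le_max_right _ _
  have hm0 : ∀ s, 0 < m s := fun s => hg.trans_le (hm s)
  have hmD : ∀ z ∈ S.Z, |m (S.a z) - m (S.b z)| ≤ D := fun z hz =>
    (abs_max_sub_max_le_abs _ _ _).trans (hx z hz)
  have hx1 : ∀ s ∈ S.X, (S.x s : ℝ) ≤ 1 * m s := fun s _ => by
    rw [one_mul]; exact le_max_left _ _
  have hvar := S.var_bound hXY g K D (N / g) hg hD0 hK0 hβ hx hy hK
  have b1 := S.basic m g 1 D K' E hg hm hmD hx1 hE0 hK0' hD0 ψ w w'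
    (fun z hz => hψ _ (by rw [hXY]; exact S.hb z hz)) hE
    (fun z hz => hw _ (by rw [hXY]; exact S.hb z hz)) hww
  rw [← hXY, one_mul, ← hN] at b1
  -- the part of the bad points
  have b2 : |∑ s ∈ S.X, ψ s * w' s * (1 - S.x s / m s)| ≤ K' * (N / g) := by
    refine (abs_sum_le_sum_abs _ _).trans ?_
    calc ∑ s ∈ S.X, |ψ s * w' s * (1 - S.x s / m s)|
        ≤ ∑ s ∈ S.X, K' * (if (S.x s : ℝ) < g then 1 else 0) := by
          apply sum_le_sum
          intro s hs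
          rw [abs_mul]
          have h1 : |ψ s * w' s| ≤ K' := by
            rw [abs_mul]
            calc |ψ s| * |w' s| ≤ K' * 1 := mul_le_mul (hψ s hs) (hw' s hs) (abs_nonneg _) hK0'
              _ = K' := mul_one _
          have h2 : |1 - (S.x s : ℝ) / m s| ≤ if (S.x s : ℝ) < g then 1 else 0 := by
            have h3 : (S.x s : ℝ) / m s ≤ 1 := by
              rw [div_le_one (hm0 s)]; exact le_max_left _ _
            have h4 : 0 ≤ (S.x s : ℝ) / m s := div_nonneg (Nat.cast_nonneg _) (hm0 s).le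
            split_ifs with h
            · rw [abs_le]; constructor <;> linarith
            · push Not at h
              have : m s = S.x s := max_eq_left h
              rw [this, div_self (by linarith), sub_self, abs_zero]
          exact mul_le_mul h1 h2 (abs_nonneg _) hK0'
      _ = K' * ((S.X.filter (fun s => (S.x s : ℝ) < g)).card : ℝ) := by
          rw [← mul_sum, ← sum_filter, sum_const, nsmul_eq_mul, mul_one]
      _ ≤ K' * (N / g) := mul_le_mul_of_nonneg_left hβ hK0'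
  -- concentration
  have b3 : |∑ s ∈ S.X, ψ s * w s * (S.y s / m s - 1)| ≤
      K' * (N * Real.sqrt ((1 + (2 + 2 * K) * D) / g)) := by
    have h1 : |∑ s ∈ S.X, ψ s * w s * (S.y s / m s - 1)| ≤
        K' * ∑ s ∈ S.X, |(S.y s : ℝ) / m s - 1| := by
      refine (abs_sum_le_sum_abs _ _).trans ?_
      rw [mul_sum]
      apply sum_le_sum
      intro s hs
      rw [abs_mul]
      apply mul_le_mul_of_nonneg_right _ (abs_nonneg _)
      rw [abs_mul]
      calc |ψ s| * |w s| ≤ K' * 1 := mul_le_mul (hψ s hs) (hw s hs) (abs_nonneg _) hK0'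
        _ = K' := mul_one _
    refine h1.trans (mul_le_mul_of_nonneg_left ?_ hK0')
    have h2 := sum_mul_sq_le_sq_mul_sq S.X (fun _ => (1 : ℝ)) (fun s => |(S.y s : ℝ) / m s - 1|)
    simp only [one_mul, one_pow, sum_const, nsmul_eq_mul, mul_one, sq_abs] at h2
    have h3 : ∑ s ∈ S.X, ((S.y s : ℝ) / m s - 1) ^ 2 ≤ N * ((1 + (2 + 2 * K) * D) / g) := by
      refine hvar.trans (le_of_eq ?_)
      rw [← hN]
      ring
    apply le_of_sq_le_sq _ (by positivity)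
    rw [mul_pow, Real.sq_sqrt (by positivity)]
    calc (∑ s ∈ S.X, |(S.y s : ℝ) / m s - 1|) ^ 2
        ≤ N * ∑ s ∈ S.X, ((S.y s : ℝ) / m s - 1) ^ 2 := h2
      _ ≤ N * (N * ((1 + (2 + 2 * K) * D) / g)) := mul_le_mul_of_nonneg_left h3 hN0
      _ = _ := by ring
  have e : ∑ s ∈ S.X, ψ s * w' s - ∑ s ∈ S.X, ψ s * w s =
      ∑ s ∈ S.X, ψ s * w' s * (1 - S.x s / m s) +
      (∑ s ∈ S.X, ψ s * w' s * (S.x s / m s) - ∑ s ∈ S.X, ψ s * w s * (S.y s / m s)) +
      ∑ s ∈ S.X, ψ s * w s * (S.y s / m s - 1) := by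
    rw [← sum_sub_distrib, ← sum_sub_distrib, ← sum_add_distrib, ← sum_add_distrib]
    apply sum_congr rfl
    intro s _
    ring
  rw [e]
  refine (abs_add_le _ _).trans ?_
  refine (add_le_add ((abs_add_le _ _).trans (add_le_add b2 b1)) b3).trans (le_of_eq ?_)
  ring

/-- one step of the comparison of powers -/
theorem FlipSys.step (S : FlipSys α ι) (m : α → ℝ) (g K D L : ℝ) (hg : 0 < g) (hL : 0 ≤ L)
    (hD0 : 0 ≤ D) (hDg1 : D ≤ g) (hm : ∀ s, g ≤ m s) (hmD : ∀ z ∈ S.Z, m (S.b z) ≤ m (S.a z) + D)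
    (hy : ∀ t ∈ S.Y, (S.y t : ℝ) ≤ m t) (hK : ∀ s ∈ S.X, (S.x s : ℝ) ≤ K * m s)
    (r : α → ℝ) (hrX : ∀ s ∈ S.X, r s = S.x s / m s)
    (hr : ∀ z ∈ S.Z, r (S.a z) - L / g ≤ r (S.b z)) (c : ℝ) (hc : 0 ≤ c) (k : ℕ) :
    ∑ s ∈ S.X, (max (r s - (c + (L + K * D) / g)) 0) ^ (k + 1) ≤
      ∑ t ∈ S.Y, (max (r t - c) 0) ^ k := by
  have hm0 : ∀ s, 0 < m s := fun s => hg.trans_le (hm s)
  have h1 : ∑ z ∈ S.Z, (max (r (S.b z) - c) 0) ^ k / m (S.b z) ≤
      ∑ t ∈ S.Y, (max (r t - c) 0) ^ k := by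
    rw [S.sum_b (fun t => (max (r t - c) 0) ^ k / m t)]
    apply sum_le_sum
    intro t ht
    rw [← mul_div_assoc, div_le_iff₀ (hm0 t), mul_comm]
    apply mul_le_mul_of_nonneg_left (hy t ht) (by positivity)
  refine le_trans ?_ h1
  have h2 : ∑ z ∈ S.Z, (max (r (S.a z) - L / g - c) 0) ^ k * ((1 - D / g) / m (S.a z)) ≤
      ∑ z ∈ S.Z, (max (r (S.b z) - c) 0) ^ k / m (S.b z) := by
    apply sum_le_sum
    intro z hz
    have e1 : (max (r (S.a z) - L / g - c) 0) ^ k ≤ (max (r (S.b z) - c) 0) ^ k := by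
      apply pow_le_pow_left₀ (le_max_right _ _)
      apply max_le_max _ le_rfl
      linarith [hr z hz]
    have e2 : (1 - D / g) / m (S.a z) ≤ 1 / m (S.b z) := by
      rw [div_le_div_iff₀ (hm0 _) (hm0 _)]
      have h3 := hmD z hz
      have h4 := hm (S.b z)
      have h5 : D ≤ D / g * m (S.b z) := by
        calc D = D / g * g := by field_simp
          _ ≤ _ := mul_le_mul_of_nonneg_left h4 (by positivity)
      nlinarith
    rw [div_eq_mul_one_div ((max (r (S.b z) - c) 0) ^ k)]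
    calc (max (r (S.a z) - L / g - c) 0) ^ k * ((1 - D / g) / m (S.a z))
        ≤ (max (r (S.a z) - L / g - c) 0) ^ k * (1 / m (S.b z)) :=
          mul_le_mul_of_nonneg_left e2 (by positivity)
      _ ≤ _ := mul_le_mul_of_nonneg_right e1 (by have := hm0 (S.b z); positivity)
  refine le_trans ?_ h2
  rw [S.sum_a (fun s => (max (r s - L / g - c) 0) ^ k * ((1 - D / g) / m s))]
  apply sum_le_sum
  intro s hs
  have hr1 := hrX s hs
  have hms := hm0 s
  have hrK : r s ≤ K := by rw [hr1, div_le_iff₀ hms]; exact hK s hs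
  have hr0 : 0 ≤ r s := by rw [hr1]; positivity
  have e3 : (S.x s : ℝ) * ((max (r s - L / g - c) 0) ^ k * ((1 - D / g) / m s)) =
      (max (r s - L / g - c) 0) ^ k * (r s * (1 - D / g)) := by
    rw [hr1]; ring
  rw [e3]
  have hLg : 0 ≤ L / g := by positivity
  have hDg : 0 ≤ D / g := by positivity
  have e4 : K * D / g = K * (D / g) := by ring
  have e5 : (L + K * D) / g = L / g + K * D / g := by ring
  have hKD : r s * (D / g) ≤ K * (D / g) := mul_le_mul_of_nonneg_right hrK hDg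
  have e6 : max (r s - (c + (L + K * D) / g)) 0 ≤ r s * (1 - D / g) := by
    apply max_le
    · rw [e5, e4]
      nlinarith
    · apply mul_nonneg hr0
      have : D / g ≤ 1 := (div_le_one hg).2 hDg1
      linarith
  have e7 : max (r s - (c + (L + K * D) / g)) 0 ≤ max (r s - L / g - c) 0 := by
    apply max_le_max _ le_rfl
    rw [e5, e4]
    have : 0 ≤ K * (D / g) := by
      apply mul_nonneg _ hDg
      linarith
    linarith
  rw [pow_succ]
  apply mul_le_mul _ e6 (le_max_right _ _) (by positivity)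
  exact pow_le_pow_left₀ (le_max_right _ _) e7 k

end Pool.Agent.Lib27
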