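import Pool.Agent.Lib_helper27.GoodB

set_option autoImplicit false

namespace Pool.Agent.Lib27

open Finset Filter Topology

/-- unavoidable events -/
def Unav (k : ℕ) : Prop := ∃ M : ℕ, 1 ≤ M ∧ ((Av (EvK k) M).card : ℝ) < Real.exp (M * Lm)

lemma unav_one : Unav 1 := by
  classical
  refine ⟨1, le_rfl, ?_⟩
  have h : Av (EvK 1) 1 = ∅ := by
    rw [eq_empty_iff_forall_notMem]
    intro s hs
    rw [Av, mem_filter, mem_Cs] at hs
    apply hs.2
    refine ⟨[], s, rfl, ?_, ?_⟩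
    · rintro rfl
      simp at hs
    · right
      rw [Nat.one_le_iff_ne_zero, ← Nat.pos_iff_ne_zero, card_pos]
      refine ⟨0, ?_⟩
      rw [mem_inter, mem_vset, mem_box]
      exact ⟨mem_vt_self _ _, by simp⟩
  rw [h, card_empty, Nat.cast_zero]
  exact Real.exp_pos _

/-- coverage at step `K` -/
lemma cover_step (K : ℕ) (s : List (Fin 4)) (hocc : ¬ occ (EvK (K + 1)) s) :
    ∀ u t w m₁ m₂, s = u ++ t ++ w → t = m₁ ++ m₂ → m₂ ≠ [] → (EvK K).E (vset t) (ep 0 m₁) →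
      ∀ v ∈ vset s, v ∈ box 2 (ep 0 (u ++ m₁)) → v ∈ vt (ep 0 u) t := by
  intro u t w m₁ m₂ hs ht hm hE v hv hvb
  have htr := (EvK K).trans _ _ (ep 0 u) hE
  have hset : (vset t).image (· + ep 0 u) = (vt (ep 0 u) t).toFinset := by
    rw [vt_eq (ep 0 u) t, vset]
    ext x
    simp only [mem_image, List.mem_toFinset, List.mem_map]
  have hc : ep 0 m₁ + ep 0 u = ep 0 (u ++ m₁) := by
    rw [ep_append, ep_eq (ep 0 u) m₁]
  rw [hset, hc] at htr
  have hsubs : (vt (ep 0 u) t).toFinset ⊆ vset s := by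
    intro x hx
    rw [List.mem_toFinset] at hx
    rw [hs, mem_vset_mid]
    exact Or.inr (Or.inl hx)
  have hnot : ¬ (EvK (K + 1)).E (vset s) (ep 0 (u ++ m₁)) := by
    intro h
    apply hocc
    refine ⟨u ++ m₁, m₂ ++ w, by rw [hs, ht]; simp, ?_, h⟩
    intro h
    exact hm (List.append_eq_nil_iff.1 h).1
  change ¬ (box 1 (ep 0 (u ++ m₁)) ⊆ vset s ∨ K + 1 ≤ (vset s ∩ box 2 (ep 0 (u ++ m₁))).card) at hnot
  rw [not_or, not_le] at hnot
  obtain ⟨hn1, hn2⟩ := hnot
  change (box 1 (ep 0 (u ++ m₁)) ⊆ (vt (ep 0 u) t).toFinset ∨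
    K ≤ ((vt (ep 0 u) t).toFinset ∩ box 2 (ep 0 (u ++ m₁))).card) at htr
  rcases htr with h | h
  · exact absurd (h.trans hsubs) hn1
  · have h1 : (vt (ep 0 u) t).toFinset ∩ box 2 (ep 0 (u ++ m₁)) =
        vset s ∩ box 2 (ep 0 (u ++ m₁)) := by
      apply eq_of_subset_of_card_le (inter_subset_inter_right hsubs)
      omega
    have h2 : v ∈ vset s ∩ box 2 (ep 0 (u ++ m₁)) := mem_inter.2 ⟨hv, hvb⟩
    rw [← h1, mem_inter, List.mem_toFinset] at h2
    exact h2.1

/-- the fully visited box is unavoidable -/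
theorem unav_full : Unav 26 := by
  classical
  by_contra hfull
  -- maximal unavoidable level
  obtain ⟨K, hK1, hK2⟩ : ∃ K, Unav K ∧ ¬ Unav (K + 1) := by
    by_contra hcon
    push Not at hcon
    have : ∀ k, Unav (k + 1) := by
      intro k
      induction k with
      | zero => exact unav_one
      | succ k ih => exact hcon _ ih
    exact hfull (this 25)
  obtain ⟨M, hM, hav⟩ := hK1
  obtain ⟨a, ha, η₁, hη₁, hblock⟩ := block_theorem (EvK K) M hM hav
  obtain ⟨ε, hε, η₂, hη₂, hsurg⟩ := surgery_theorem surgA M (a / 2) (by positivity)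
  have hbig1 : ∀ᶠ N : ℕ in atTop, (50 : ℝ) ≤ a / 2 * N :=
    (tendsto_natCast_atTop_atTop.const_mul_atTop (by positivity)).eventually_ge_atTop _
  have hbig2 : ∀ᶠ N : ℕ in atTop, (1 : ℝ) ≤ ε * N :=
    (tendsto_natCast_atTop_atTop.const_mul_atTop hε).eventually_ge_atTop _
  have hbig3 : ∀ᶠ N : ℕ in atTop, (1 : ℝ) ≤ η₁ * N :=
    (tendsto_natCast_atTop_atTop.const_mul_atTop hη₁).eventually_ge_atTop _
  have hbig4 : ∀ᶠ N : ℕ in atTop, (1 : ℝ) ≤ η₂ * N :=
    (tendsto_natCast_atTop_atTop.const_mul_atTop hη₂).eventually_ge_atTop _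
  obtain ⟨N, ⟨⟨⟨⟨⟨h1, h2⟩, h3⟩, h4⟩, h5⟩, h6⟩, h7⟩ :=
    ((((((hblock.and hsurg).and hbig1).and hbig2).and hbig3).and hbig4).and
      (eventually_ge_atTop 1)).exists
  have hsub : Av (EvK (K + 1)) N ⊆ FewB (EvK K) M N ⌊a * N⌋₊ ∪ Exc surgA M N (a / 2) ε := by
    intro s hs
    rw [mem_union]
    by_contra hcon
    push Not at hcon
    obtain ⟨hn1, hn2⟩ := hcon
    rw [Av, mem_filter, mem_Cs] at hs
    obtain ⟨⟨hlen, hsaw⟩, hocc⟩ := hs
    have hgb : ⌊a * N⌋₊ < gb (EvK K) M (N / M) (s.take ((N / M) * M)) := by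
      by_contra hcon
      push Not at hcon
      apply hn1
      rw [FewB, mem_filter, mem_Cs]
      exact ⟨⟨hlen, hsaw⟩, hcon⟩
    have hgds := gds_of_blocks 2 (by norm_num) le_rfl (EvK K) M s hsaw (cover_step K s hocc)
    rw [hlen] at hgds
    apply hn2
    rw [Exc, mem_filter, mem_Cs]
    refine ⟨⟨hlen, hsaw⟩, ?_, ?_⟩
    · have e1 : a * N < ((gb (EvK K) M (N / M) (s.take ((N / M) * M)) : ℕ) : ℝ) := by
        have := Nat.lt_of_floor_lt hgb
        exact this
      have e2 : ((gb (EvK K) M (N / M) (s.take ((N / M) * M)) : ℕ) : ℝ) ≤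
          (Gds 2 M s).card + 50 := by exact_mod_cast hgds
      change a / 2 * (N : ℝ) ≤ ((Gds 2 M s).card : ℝ)
      linarith
    · have e3 : FullC s ⊆ {ep 0 s} := by
        intro c hc
        rw [mem_singleton]
        by_contra hne
        apply hocc
        have hc1 := (mem_FullC s c).1 hc
        have hc2 : c ∈ vset s := hc1 (by rw [mem_box]; omega)
        rw [mem_vset, mem_vt_iff] at hc2
        obtain ⟨u, t, hut, rfl⟩ := hc2
        refine ⟨u, t, hut, ?_, Or.inl hc1⟩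
        rintro rfl
        apply hne
        rw [hut, List.append_nil]
      have e4 := card_le_card e3
      rw [card_singleton] at e4
      change ((FullC s).card : ℝ) ≤ ε * N
      have e5 : ((FullC s).card : ℝ) ≤ 1 := by exact_mod_cast e4
      linarith
  have hcard : ((Av (EvK (K + 1)) N).card : ℝ) ≤
      Real.exp (N * (Lm - η₁)) + Real.exp (N * (Lm - η₂)) := by
    have e1 := card_le_card hsub
    have e2 := card_union_le (FewB (EvK K) M N ⌊a * N⌋₊) (Exc surgA M N (a / 2) ε)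
    have e3 : ((Av (EvK (K + 1)) N).card : ℝ) ≤ (FewB (EvK K) M N ⌊a * N⌋₊).card +
        (Exc surgA M N (a / 2) ε).card := by exact_mod_cast e1.trans e2
    linarith
  have hge : Real.exp (N * Lm) ≤ ((Av (EvK (K + 1)) N).card : ℝ) := by
    by_contra hcon
    push Not at hcon
    exact hK2 ⟨N, h7, hcon⟩
  have e1 : Real.exp (N * (Lm - η₁)) ≤ Real.exp (N * Lm) * Real.exp (-1) := by
    rw [← Real.exp_add]
    apply Real.exp_le_exp.2
    nlinarith
  have e2 : Real.exp (N * (Lm - η₂)) ≤ Real.exp (N * Lm) * Real.exp (-1) := by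
    rw [← Real.exp_add]
    apply Real.exp_le_exp.2
    nlinarith
  have e3 : Real.exp (-1) < 1 / 2 := by
    rw [Real.exp_neg]
    have := Real.exp_one_gt_d9
    rw [inv_lt_comm₀ (Real.exp_pos _) (by norm_num)]
    norm_num
    linarith
  have e4 := Real.exp_pos (N * Lm)
  nlinarith

/-- words with few slots -/
noncomputable def FewS (F : ℤ × ℤ → ℤ × ℤ → List (Fin 4)) (N : ℕ) (ε : ℝ) : Finset (List (Fin 4)) :=
  (Cs N).filter (fun s => ((Slots F TT s).card : ℝ) ≤ ε * N)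

/-- **Pattern theorem** for the slots. -/
theorem pattern_theorem (F : ℤ × ℤ → ℤ × ℤ → List (Fin 4)) (hF : FSpec F) :
    ∃ ε : ℝ, 0 < ε ∧ ∃ η : ℝ, 0 < η ∧ ∀ᶠ N : ℕ in atTop,
      ((FewS F N ε).card : ℝ) ≤ Real.exp (N * (Lm - η)) := by
  classical
  obtain ⟨M, hM, hav⟩ := unav_full
  obtain ⟨a, ha, η₁, hη₁, hblock⟩ := block_theorem (EvK 26) M hM hav
  obtain ⟨ε, hε, η₂, hη₂, hsurg⟩ := surgery_theorem (surgB F hF) M (a / 2) (by positivity)
  refine ⟨ε, hε, min η₁ η₂ / 2, by positivity, ?_⟩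
  have hm : 0 < min η₁ η₂ := lt_min hη₁ hη₂
  have hbig1 : ∀ᶠ N : ℕ in atTop, (50 : ℝ) ≤ a / 2 * N :=
    (tendsto_natCast_atTop_atTop.const_mul_atTop (by positivity)).eventually_ge_atTop _
  have hbig2 : ∀ᶠ N : ℕ in atTop, (1 : ℝ) ≤ min η₁ η₂ / 2 * N :=
    (tendsto_natCast_atTop_atTop.const_mul_atTop (by positivity)).eventually_ge_atTop _
  filter_upwards [hblock, hsurg, hbig1, hbig2] with N h1 h2 h3 h4
  have hsub : FewS F N ε ⊆ FewB (EvK 26) M N ⌊a * N⌋₊ ∪ Exc (surgB F hF) M N (a / 2) ε := by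
    intro s hs
    rw [mem_union]
    by_contra hcon
    push Not at hcon
    obtain ⟨hn1, hn2⟩ := hcon
    rw [FewS, mem_filter, mem_Cs] at hs
    obtain ⟨⟨hlen, hsaw⟩, hfew⟩ := hs
    have hgb : ⌊a * N⌋₊ < gb (EvK 26) M (N / M) (s.take ((N / M) * M)) := by
      by_contra hcon
      push Not at hcon
      apply hn1
      rw [FewB, mem_filter, mem_Cs]
      exact ⟨⟨hlen, hsaw⟩, hcon⟩
    have hcov : ∀ u t w m₁ m₂, s = u ++ t ++ w → t = m₁ ++ m₂ → m₂ ≠ [] →
        (EvK 26).E (vset t) (ep 0 m₁) → ∀ v ∈ vset s, v ∈ box 1 (ep 0 (u ++ m₁)) →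
        v ∈ vt (ep 0 u) t := by
      intro u t w m₁ m₂ hs ht hm hE v hv hvb
      rcases hE with hE | hE
      · have e1 : v - ep 0 u ∈ box 1 (ep 0 m₁) := by
          rw [ep_append, ep_eq (ep 0 u) m₁] at hvb
          rw [mem_box] at hvb ⊢
          simp only [Prod.fst_add, Prod.snd_add, Prod.fst_sub, Prod.snd_sub] at hvb ⊢
          omega
        have e2 := hE e1
        rw [mem_vset] at e2
        rw [vt_eq, List.mem_map]
        exact ⟨_, e2, by simp⟩
      · exfalso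
        have e1 := card_le_card (inter_subset_right (s₁ := vset t) (s₂ := box 2 (ep 0 m₁)))
        have e2 := box_card 2 le_rfl (ep 0 m₁)
        omega
    have hgds := gds_of_blocks 1 (by norm_num) (by norm_num) (EvK 26) M s hsaw hcov
    rw [hlen] at hgds
    apply hn2
    rw [Exc, mem_filter, mem_Cs]
    refine ⟨⟨hlen, hsaw⟩, ?_, hfew⟩
    have e1 : a * N < ((gb (EvK 26) M (N / M) (s.take ((N / M) * M)) : ℕ) : ℝ) :=
      Nat.lt_of_floor_lt hgb
    have e2 : ((gb (EvK 26) M (N / M) (s.take ((N / M) * M)) : ℕ) : ℝ) ≤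
        (Gds 1 M s).card + 50 := by exact_mod_cast hgds
    change a / 2 * (N : ℝ) ≤ ((Gds 1 M s).card : ℝ)
    linarith
  have hcard : ((FewS F N ε).card : ℝ) ≤
      Real.exp (N * (Lm - η₁)) + Real.exp (N * (Lm - η₂)) := by
    have e1 := card_le_card hsub
    have e2 := card_union_le (FewB (EvK 26) M N ⌊a * N⌋₊) (Exc (surgB F hF) M N (a / 2) ε)
    have e3 : ((FewS F N ε).card : ℝ) ≤ (FewB (EvK 26) M N ⌊a * N⌋₊).card +
        (Exc (surgB F hF) M N (a / 2) ε).card := by exact_mod_cast e1.trans e2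
    linarith
  have e1 : Real.exp (N * (Lm - η₁)) ≤ Real.exp (N * (Lm - min η₁ η₂ / 2)) * Real.exp (-1) := by
    rw [← Real.exp_add]
    apply Real.exp_le_exp.2
    have : min η₁ η₂ ≤ η₁ := min_le_left _ _
    nlinarith
  have e2 : Real.exp (N * (Lm - η₂)) ≤ Real.exp (N * (Lm - min η₁ η₂ / 2)) * Real.exp (-1) := by
    rw [← Real.exp_add]
    apply Real.exp_le_exp.2
    have : min η₁ η₂ ≤ η₂ := min_le_right _ _
    nlinarith
  have e3 : Real.exp (-1) < 1 / 2 := by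
    rw [Real.exp_neg]
    have := Real.exp_one_gt_d9
    rw [inv_lt_comm₀ (Real.exp_pos _) (by norm_num)]
    norm_num
    linarith
  have e4 := Real.exp_pos (N * (Lm - min η₁ η₂ / 2))
  nlinarith

end Pool.Agent.Lib27
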