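import Pool.Agent.Lib_helper27.FlipSys
import Pool.Agent.Lib_helper27.Fill2
import Pool.Agent.Lib_helper27.Pattern

set_option autoImplicit false

namespace Pool.Agent.Lib27

open Finset Filter Topology

/-- slots of a closed word -/
noncomputable def SlW (F : ℤ × ℤ → ℤ × ℤ → List (Fin 4)) (τ : ℤ × ℤ → ℤ × ℤ → Prop)
    (s : List (Fin 4)) : Finset (ℤ × ℤ) := Slots F τ s.dropLast

/-- the flip relation -/
def FR (F G : ℤ × ℤ → ℤ × ℤ → List (Fin 4)) (τ : ℤ × ℤ → ℤ × ℤ → Prop)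
    (s t : List (Fin 4)) (c : ℤ × ℤ) : Prop :=
  ∃ l₁ l₃ q d, ring 1 (ep 0 l₁ - c) ∧ ring 1 (q - c) ∧ ep 0 l₁ - c ≠ q - c ∧
    τ (ep 0 l₁ - c) (q - c) ∧
    (∀ v ∈ vs 0 l₁, v ∉ box 1 c) ∧ (∀ v ∈ (vt q l₃).tail, v ∉ box 1 c) ∧
    s = (l₁ ++ F (ep 0 l₁ - c) (q - c) ++ l₃) ++ [d] ∧
    t = (l₁ ++ G (ep 0 l₁ - c) (q - c) ++ l₃) ++ [d]

lemma FR_symm {F G : ℤ × ℤ → ℤ × ℤ → List (Fin 4)} {τ : ℤ × ℤ → ℤ × ℤ → Prop}
    {s t : List (Fin 4)} {c : ℤ × ℤ} (h : FR F G τ s t c) : FR G F τ t s c := by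
  obtain ⟨l₁, l₃, q, d, h1, h2, h3, h4, h5, h6, h7, h8⟩ := h
  exact ⟨l₁, l₃, q, d, h1, h2, h3, h4, h5, h6, h8, h7⟩

lemma FR_slot {F G : ℤ × ℤ → ℤ × ℤ → List (Fin 4)} {τ : ℤ × ℤ → ℤ × ℤ → Prop}
    {s t : List (Fin 4)} {c : ℤ × ℤ} (h : FR F G τ s t c) : c ∈ SlW F τ s := by
  obtain ⟨l₁, l₃, q, d, h1, h2, h3, h4, h5, h6, h7, h8⟩ := h
  rw [SlW, mem_Slots]
  refine ⟨l₁, l₃, q, h1, h2, h3, h4, h5, h6, ?_⟩
  rw [h7, List.dropLast_concat]

lemma FR_unique {F G : ℤ × ℤ → ℤ × ℤ → List (Fin 4)} (hF : FSpec F)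
    {τ : ℤ × ℤ → ℤ × ℤ → Prop} {s t t' : List (Fin 4)} {c : ℤ × ℤ} (h : FR F G τ s t c)
    (h' : FR F G τ s t' c) : t = t' := by
  obtain ⟨l₁, l₃, q, d, h1, h2, h3, -, h5, h6, h7, h8⟩ := h
  obtain ⟨m₁, m₃, q', d', k1, k2, k3, -, k5, k6, k7, k8⟩ := h'
  have e1 : l₁ ++ F (ep 0 l₁ - c) (q - c) ++ l₃ = m₁ ++ F (ep 0 m₁ - c) (q' - c) ++ m₃ := by
    have := congrArg List.dropLast (h7.symm.trans k7)
    rwa [List.dropLast_concat, List.dropLast_concat] at this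
  have e2 : d = d' := by
    have := h7.symm.trans k7
    rw [e1] at this
    simpa using this
  rw [List.append_assoc, List.append_assoc] at e1
  obtain ⟨e3, e4⟩ := first_unique (box 1 c) e1 ((box_shift _ _ _).2 h1.1)
    ((box_shift _ _ _).2 k1.1) h5 k5
  subst e3
  obtain ⟨f1, -⟩ := hF.box _ _ _ h1 h2 h3
  obtain ⟨f2, -⟩ := hF.box _ _ _ k1 k2 k3
  obtain ⟨e5, e6⟩ := last_unique (box 1 c) (ep 0 l₁) e4
    (by rw [f1]; exact (box_shift _ _ _).2 h2.1) (by rw [f2]; exact (box_shift _ _ _).2 k2.1)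
    (by rw [f1]; exact h6) (by rw [f2]; exact k6)
  have e7 : q = q' := by rw [← f1, e5, f2]
  rw [h8, k8, e6, e2, e7]

/-- length condition for a pair of states -/
def LenDiff (F G : ℤ × ℤ → ℤ × ℤ → List (Fin 4)) (i j : ℕ) : Prop :=
  ∀ p ∈ ringB, ∀ q ∈ ringB, p ≠ q → (F p q).length + j = (G p q).length + i

lemma FR_exists {F G : ℤ × ℤ → ℤ × ℤ → List (Fin 4)} (hF : FSpec F) (hG : FSpec G)
    {τ : ℤ × ℤ → ℤ × ℤ → Prop} {n m : ℕ} (hlen : LenDiff F G (2 * n) (2 * m)) (hn : 1 ≤ n)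
    {s : List (Fin 4)} (hs : s ∈ W n) {c : ℤ × ℤ} (hc : c ∈ SlW F τ s) :
    ∃ t ∈ W m, FR F G τ s t c := by
  rw [SlW, mem_Slots] at hc
  obtain ⟨l₁, l₃, q, h1, h2, h3, h4, h5, h6, h7⟩ := hc
  rw [mem_W] at hs
  obtain ⟨hl, hcl, hnd⟩ := hs
  have hs0 : s ≠ [] := by rintro rfl; simp at hl; omega
  set d := s.getLast hs0 with hd
  have hsd : s = (l₁ ++ F (ep 0 l₁ - c) (q - c) ++ l₃) ++ [d] := by
    rw [← h7, List.dropLast_append_getLast]
  obtain ⟨f1, f2⟩ := hF.box _ _ _ h1 h2 h3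
  obtain ⟨g1, g2⟩ := hG.box _ _ _ h1 h2 h3
  have hepG : ep (ep 0 l₁) (G (ep 0 l₁ - c) (q - c)) = ep 0 (l₁ ++ F (ep 0 l₁ - c) (q - c)) := by
    rw [g1, ep_append, f1]
  have hepend : ep 0 (l₁ ++ G (ep 0 l₁ - c) (q - c) ++ l₃) =
      ep 0 (l₁ ++ F (ep 0 l₁ - c) (q - c) ++ l₃) := by
    rw [ep_append _ _ l₃, ep_append _ l₁, hepG, ← ep_append]
  refine ⟨(l₁ ++ G (ep 0 l₁ - c) (q - c) ++ l₃) ++ [d], ?_,
    l₁, l₃, q, d, h1, h2, h3, h4, h5, h6, hsd, rfl⟩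
  rw [mem_W]
  refine ⟨?_, ?_, ?_⟩
  · have h8 := hlen _ (ringB_spec _ h1) _ (ringB_spec _ h2) h3
    rw [hsd] at hl
    simp only [List.length_append, List.length_singleton] at hl ⊢
    omega
  · rw [ep_append, hepend, ← ep_append, ← hsd]
    exact hcl
  · have h9 : SAWs (l₁ ++ F (ep 0 l₁ - c) (q - c) ++ l₃) := by
      unfold SAWs
      rw [hsd, vs_append] at hnd
      exact hnd
    have h10 := surg_SAW 1 c l₁ (F (ep 0 l₁ - c) (q - c)) l₃ (G (ep 0 l₁ - c) (q - c)) h9 h5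
      (by rw [ep_append, f1]; exact h6) hepG
      (by
        rw [nodup_vt]
        have := (hG.spec _ (ringB_spec _ h1) _ (ringB_spec _ h2) h3).2.1
        rwa [nodup_vt] at this) g2
    unfold SAWs at h10
    rw [vs_append]
    exact h10

lemma LenDiff_symm {F G : ℤ × ℤ → ℤ × ℤ → List (Fin 4)} {i j : ℕ} (h : LenDiff F G i j) :
    LenDiff G F j i := fun p hp q hq hne => (h p hp q hq hne).symm

open Classical in
/-- the flip system between closed words -/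
noncomputable def flipW {F G : ℤ × ℤ → ℤ × ℤ → List (Fin 4)} (hF : FSpec F) (hG : FSpec G)
    (τ : ℤ × ℤ → ℤ × ℤ → Prop) {n m : ℕ} (hlen : LenDiff F G (2 * n) (2 * m)) (hn : 1 ≤ n)
    (hm : 1 ≤ m) : FlipSys (List (Fin 4)) (List (Fin 4) × List (Fin 4) × (ℤ × ℤ)) where
  X := W n
  Y := W m
  Z := ((W n) ×ˢ ((W m) ×ˢ ((W n).biUnion (SlW F τ)))).filter (fun z => FR F G τ z.1 z.2.1 z.2.2)
  a := fun z => z.1
  b := fun z => z.2.1
  ha z hz := by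
    rw [mem_filter, mem_product] at hz
    exact hz.1.1
  hb z hz := by
    rw [mem_filter, mem_product, mem_product] at hz
    exact hz.1.2.1
  x := fun s => (SlW F τ s).card
  y := fun s => (SlW G τ s).card
  hx s hs := by
    apply card_bij (fun z _ => z.2.2)
    · rintro ⟨s', t, c⟩ hz
      simp only [mem_filter, mem_product] at hz
      obtain ⟨⟨_, h⟩, rfl⟩ := hz
      exact FR_slot h
    · rintro ⟨s₁, t₁, c₁⟩ h₁ ⟨s₂, t₂, c₂⟩ h₂ heq
      simp only [mem_filter, mem_product] at h₁ h₂ heq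
      obtain ⟨⟨_, h₁⟩, rfl⟩ := h₁
      obtain ⟨⟨_, h₂⟩, rfl⟩ := h₂
      subst heq
      rw [FR_unique hF h₁ h₂]
    · intro c hc
      obtain ⟨t, ht, h⟩ := FR_exists hF hG hlen hn hs hc
      refine ⟨(s, t, c), ?_, rfl⟩
      simp only [mem_filter, mem_product, mem_biUnion]
      exact ⟨⟨⟨hs, ht, s, hs, hc⟩, h⟩, trivial⟩
  hy t ht := by
    apply card_bij (fun z _ => z.2.2)
    · rintro ⟨s', t', c⟩ hz
      simp only [mem_filter, mem_product] at hz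
      obtain ⟨⟨_, h⟩, rfl⟩ := hz
      exact FR_slot (FR_symm h)
    · rintro ⟨s₁, t₁, c₁⟩ h₁ ⟨s₂, t₂, c₂⟩ h₂ heq
      simp only [mem_filter, mem_product] at h₁ h₂ heq
      obtain ⟨⟨_, h₁⟩, rfl⟩ := h₁
      obtain ⟨⟨_, h₂⟩, rfl⟩ := h₂
      subst heq
      rw [FR_unique hG (FR_symm h₁) (FR_symm h₂)]
    · intro c hc
      obtain ⟨s, hs, h⟩ := FR_exists hG hF (LenDiff_symm hlen) hm ht hc
      refine ⟨(s, t, c), ?_, rfl⟩
      simp only [mem_filter, mem_product, mem_biUnion]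
      exact ⟨⟨⟨hs, ht, s, hs, FR_slot (FR_symm h)⟩, FR_symm h⟩, trivial⟩

lemma flipW_mem {F G : ℤ × ℤ → ℤ × ℤ → List (Fin 4)} (hF : FSpec F) (hG : FSpec G)
    (τ : ℤ × ℤ → ℤ × ℤ → Prop) {n m : ℕ} (hlen : LenDiff F G (2 * n) (2 * m)) (hn : 1 ≤ n)
    (hm : 1 ≤ m) (z) (hz : z ∈ (flipW hF hG τ hlen hn hm).Z) : FR F G τ z.1 z.2.1 z.2.2 := by
  classical
  have : z ∈ ((W n) ×ˢ ((W m) ×ˢ ((W n).biUnion (SlW F τ)))).filter
    (fun z => FR F G τ z.1 z.2.1 z.2.2) := hz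
  exact (mem_filter.1 this).2

/-- flips change the numbers of slots by a bounded amount -/
lemma FR_lip {F G H : ℤ × ℤ → ℤ × ℤ → List (Fin 4)} (hF : FSpec F) (hG : FSpec G)
    (hH : FSpec H) {τ τ' : ℤ × ℤ → ℤ × ℤ → Prop}
    {s t : List (Fin 4)} {c : ℤ × ℤ} (h : FR F G τ s t c) :
    |((SlW H τ' s).card : ℝ) - (SlW H τ' t).card| ≤ 1250 := by
  obtain ⟨l₁, l₃, q, d, h1, h2, h3, h4, h5, h6, h7, h8⟩ := h
  obtain ⟨f1, -⟩ := hF.box _ _ _ h1 h2 h3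
  obtain ⟨g1, -⟩ := hG.box _ _ _ h1 h2 h3
  have f3 := (hF.spec _ (ringB_spec _ h1) _ (ringB_spec _ h2) h3).2.2.2
  have g3 := (hG.spec _ (ringB_spec _ h1) _ (ringB_spec _ h2) h3).2.2.2
  have k1 := slots_le hH τ' 24 l₁ _ l₃ _ f3 g3 (g1.trans f1.symm)
  have k2 := slots_le hH τ' 24 l₁ _ l₃ _ g3 f3 (f1.trans g1.symm)
  unfold SlW
  rw [h7, h8, List.dropLast_concat, List.dropLast_concat]
  have k1' : ((Slots H τ' (l₁ ++ G (ep 0 l₁ - c) (q - c) ++ l₃)).card : ℝ) ≤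
      (Slots H τ' (l₁ ++ F (ep 0 l₁ - c) (q - c) ++ l₃)).card + 1250 := by exact_mod_cast k1
  have k2' : ((Slots H τ' (l₁ ++ F (ep 0 l₁ - c) (q - c) ++ l₃)).card : ℝ) ≤
      (Slots H τ' (l₁ ++ G (ep 0 l₁ - c) (q - c) ++ l₃)).card + 1250 := by exact_mod_cast k2
  rw [abs_le]
  constructor <;> linarith

/-- number of slots -/
lemma SlW_le (F : ℤ × ℤ → ℤ × ℤ → List (Fin 4)) (τ : ℤ × ℤ → ℤ × ℤ → Prop) (n : ℕ) (hn : 1 ≤ n)
    (s : List (Fin 4)) (hs : s ∈ W n) : ((SlW F τ s).card : ℝ) ≤ 50 * n := by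
  classical
  have h1 : (SlW F τ s).card ≤ ((vt 0 s.dropLast).toFinset.biUnion (box 1)).card := by
    unfold SlW Slots vset
    exact card_filter_le _ _
  rw [mem_W] at hs
  have h2 := biUnion_box_card 1 (by norm_num) 0 s.dropLast (2 * n - 1) (by
    rw [List.length_dropLast, hs.1])
  have h3 : (SlW F τ s).card ≤ 50 * n := by omega
  exact_mod_cast h3

/-- translation of the shoelace sum -/
lemma dbl_shift (p v : ℤ × ℤ) (s : List (Fin 4)) :
    dbl (p + v) s = dbl p s + (v.1 * ((ep p s).2 - p.2) - v.2 * ((ep p s).1 - p.1)) := by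
  induction s generalizing p with
  | nil => simp
  | cons d s ih =>
    rw [dbl_cons, dbl_cons, ep_cons]
    have : p + v + dv d = (p + dv d) + v := by abel
    rw [this, ih]
    simp only [Prod.fst_add, Prod.snd_add]
    ring

/-- change of the shoelace sum under a flip -/
lemma FR_dbl {F G : ℤ × ℤ → ℤ × ℤ → List (Fin 4)} (hF : FSpec F) (hG : FSpec G)
    {τ : ℤ × ℤ → ℤ × ℤ → Prop} {s t : List (Fin 4)} {c : ℤ × ℤ} (h : FR F G τ s t c) (δ : ℤ)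
    (hδ : ∀ p ∈ ringB, ∀ q ∈ ringB, p ≠ q → τ p q → dbl p (G p q) = dbl p (F p q) + δ) :
    dbl 0 t = dbl 0 s + δ := by
  obtain ⟨l₁, l₃, q, d, h1, h2, h3, h4, h5, h6, h7, h8⟩ := h
  obtain ⟨f1, -⟩ := hF.box _ _ _ h1 h2 h3
  obtain ⟨g1, -⟩ := hG.box _ _ _ h1 h2 h3
  have hd := hδ _ (ringB_spec _ h1) _ (ringB_spec _ h2) h3 h4
  have f4 := (hF.spec _ (ringB_spec _ h1) _ (ringB_spec _ h2) h3).1
  have g4 := (hG.spec _ (ringB_spec _ h1) _ (ringB_spec _ h2) h3).1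
  have e1 := dbl_shift (ep 0 l₁ - c) c (F (ep 0 l₁ - c) (q - c))
  have e2 := dbl_shift (ep 0 l₁ - c) c (G (ep 0 l₁ - c) (q - c))
  rw [sub_add_cancel] at e1 e2
  rw [f4] at e1
  rw [g4] at e2
  rw [h7, h8]
  simp only [dbl_append, ep_append, f1, g1, e1, e2, hd]
  ring

/-- few slots are exponentially rare -/
theorem few_slots (F : ℤ × ℤ → ℤ × ℤ → List (Fin 4)) (hF : FSpec F) :
    ∃ ε : ℝ, 0 < ε ∧ ∃ η : ℝ, 0 < η ∧ ∀ᶠ n : ℕ in atTop,
      (((W n).filter (fun s => ((SlW F TT s).card : ℝ) ≤ ε * n)).card : ℝ) ≤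
        (W n).card * Real.exp (-(η * n)) := by
  classical
  obtain ⟨ε, hε, η, hη, hpat⟩ := pattern_theorem F hF
  obtain ⟨C, hC, hW⟩ := W_rate_lower
  refine ⟨ε, hε, η / 2, by positivity, ?_⟩
  have htend : Tendsto (fun n : ℕ => 2 * n - 1) atTop atTop := by
    apply tendsto_atTop_mono (f := fun n : ℕ => n - 1) _ (tendsto_sub_atTop_nat 1)
    intro n
    show n - 1 ≤ 2 * n - 1
    omega
  have h1 := htend.eventually hpat
  have hsq : ∀ᶠ n : ℕ in atTop, C * Real.sqrt n + (Lm + 2) ≤ η / 2 * n := by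
    have h2 : Tendsto (fun n : ℕ => Real.sqrt (n : ℝ)) atTop atTop :=
      Real.tendsto_sqrt_atTop.comp tendsto_natCast_atTop_atTop
    have h3 : ∀ᶠ n : ℕ in atTop, 4 * C / η ≤ Real.sqrt n := h2.eventually_ge_atTop _
    have h4 : ∀ᶠ n : ℕ in atTop, (Lm + 2) ≤ η / 4 * n :=
      (tendsto_natCast_atTop_atTop.const_mul_atTop (by positivity)).eventually_ge_atTop _
    filter_upwards [h3, h4] with n h3 h4
    have h5 : Real.sqrt n * Real.sqrt n = n := Real.mul_self_sqrt (by positivity)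
    have h6 : C * Real.sqrt n ≤ η / 4 * n := by
      rw [div_le_iff₀ hη] at h3
      have := Real.sqrt_nonneg n
      nlinarith
    linarith
  filter_upwards [h1, hsq, eventually_ge_atTop 1] with n h1 h2 hn
  have hn' : (1 : ℝ) ≤ n := by exact_mod_cast hn
  have hsub : (W n).filter (fun s => ((SlW F TT s).card : ℝ) ≤ ε * n) ⊆
      ((univ : Finset (Fin 4)) ×ˢ FewS F (2 * n - 1) ε).image (fun x => x.2 ++ [x.1]) := by
    intro s hs
    rw [mem_filter, mem_W] at hs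
    obtain ⟨⟨hl, h1, h2⟩, h3⟩ := hs
    have hs0 : s ≠ [] := by rintro rfl; simp at hl; omega
    obtain ⟨t, d, rfl⟩ : ∃ t d, s = t ++ [d] :=
      ⟨s.dropLast, s.getLast hs0, (List.dropLast_append_getLast hs0).symm⟩
    rw [mem_image]
    refine ⟨(d, t), ?_, rfl⟩
    rw [mem_product, FewS, mem_filter, mem_Cs]
    refine ⟨mem_univ _, ⟨?_, ?_⟩, ?_⟩
    · rw [List.length_append, List.length_singleton] at hl
      show t.length = _
      omega
    · unfold SAWs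
      rw [vs_append] at h2
      exact h2
    · unfold SlW at h3
      rw [List.dropLast_concat] at h3
      refine h3.trans ?_
      apply mul_le_mul_of_nonneg_left _ hε.le
      have : n ≤ 2 * n - 1 := by omega
      exact_mod_cast this
  have h3 := (card_le_card hsub).trans card_image_le
  rw [card_product] at h3
  have h4 : (((W n).filter (fun s => ((SlW F TT s).card : ℝ) ≤ ε * n)).card : ℝ) ≤
      4 * (FewS F (2 * n - 1) ε).card := by
    have : (univ : Finset (Fin 4)).card = 4 := by simp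
    rw [this] at h3
    exact_mod_cast h3
  have h5 := hW n hn
  have hWp : (0 : ℝ) < (W n).card := by
    have := W_pos n hn
    exact_mod_cast this
  have h6 : Real.exp (n * Lc - C * Real.sqrt n) ≤ (W n).card := by
    rw [← Real.exp_log hWp]
    exact Real.exp_le_exp.2 h5
  have hcast : ((2 * n - 1 : ℕ) : ℝ) = 2 * n - 1 := by
    rw [Nat.cast_sub (by omega)]
    push_cast
    ring
  rw [hcast] at h1
  have h7 : (4 : ℝ) ≤ Real.exp 2 := by
    have := Real.add_one_le_exp (1 : ℝ)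
    have h8 : Real.exp 2 = Real.exp 1 * Real.exp 1 := by rw [← Real.exp_add]; norm_num
    rw [h8]
    nlinarith
  calc _ ≤ 4 * ((FewS F (2 * n - 1) ε).card : ℝ) := h4
    _ ≤ Real.exp 2 * Real.exp ((2 * n - 1) * (Lm - η)) :=
        mul_le_mul h7 h1 (by positivity) (by positivity)
    _ ≤ Real.exp (n * Lc - C * Real.sqrt n) * Real.exp (-(η / 2 * n)) := by
        rw [← Real.exp_add, ← Real.exp_add]
        apply Real.exp_le_exp.2
        rw [Lc_eq]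
        have hL := Lm_nonneg
        have h9 : η ≤ η * n := by nlinarith
        nlinarith
    _ ≤ _ := mul_le_mul_of_nonneg_right h6 (Real.exp_pos _).le

end Pool.Agent.Lib27
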