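import Pool.Agent.Lib_helper27.Surgery

set_option autoImplicit false

namespace Pool.Agent.Lib27

open Finset Filter Topology

/-- bridges grow at most like the connective constant -/
lemma Br_le_exp (l : ℕ) : ((Br l).card : ℝ) ≤ Real.exp (l * Lm) := by
  rcases Nat.eq_zero_or_pos l with rfl | hl
  · have h1 : Br 0 ⊆ {[]} := by
      intro s hs
      rw [mem_Br] at hs
      rw [mem_singleton]
      exact List.length_eq_zero_iff.1 hs.1
    have := card_le_card h1
    rw [card_singleton] at this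
    simp only [Nat.cast_zero, zero_mul, Real.exp_zero]
    exact_mod_cast this
  · rcases Nat.eq_zero_or_pos (Br l).card with h0 | h0
    · rw [h0]
      simp
      positivity
    · have hpow : ∀ k : ℕ, (Br l).card ^ k ≤ (Br (k * l)).card := by
        intro k
        induction k with
        | zero =>
          rw [pow_zero, zero_mul, Nat.one_le_iff_ne_zero, ← Nat.pos_iff_ne_zero, card_pos]
          refine ⟨[], ?_⟩
          rw [mem_Br]
          exact ⟨rfl, by simp [SAWs], by simp⟩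
        | succ k ih =>
          rw [pow_succ]
          calc (Br l).card ^ k * (Br l).card ≤ (Br (k * l)).card * (Br l).card :=
                Nat.mul_le_mul_right _ ih
            _ ≤ (Br (k * l + l)).card := Br_mul _ _
            _ = _ := by rw [add_mul, one_mul]
      have hBC : ∀ n, (Br n).card ≤ (Cs n).card := by
        intro n
        apply card_le_card
        intro s hs
        rw [mem_Br] at hs
        rw [mem_Cs]
        exact ⟨hs.1, hs.2.1⟩
      have hlim : Tendsto (fun k : ℕ => Real.log (Cs (k * l)).card / (k * l : ℕ)) atTop (𝓝 Lm) := by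
        apply tendsto_cs.comp
        apply tendsto_atTop_mono (f := fun k : ℕ => k) _ tendsto_id
        intro k
        exact Nat.le_mul_of_pos_right k hl
      have hlp : (0 : ℝ) < l := by exact_mod_cast hl
      have hle : Real.log (Br l).card / l ≤ Lm := by
        apply ge_of_tendsto hlim
        filter_upwards [eventually_ge_atTop 1] with k hk
        have hkp : (0 : ℝ) < k := by exact_mod_cast hk
        have h1 : (Br l).card ^ k ≤ (Cs (k * l)).card := (hpow k).trans (hBC _)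
        have h2 : (k : ℝ) * Real.log (Br l).card ≤ Real.log (Cs (k * l)).card := by
          rw [← Real.log_pow]
          apply Real.log_le_log (by positivity)
          exact_mod_cast h1
        push_cast
        rw [div_le_div_iff₀ hlp (by positivity)]
        nlinarith
      have h3 : Real.log (Br l).card ≤ l * Lm := by
        rw [div_le_iff₀ hlp] at hle
        linarith
      have h4 : (0 : ℝ) < (Br l).card := by exact_mod_cast h0
      rw [← Real.exp_log h4]
      exact Real.exp_le_exp.2 h3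

lemma Cs_le_exp (l : ℕ) : ((Cs l).card : ℝ) * Real.exp (-(l * Lm)) ≤
    (l + 1) * Real.exp (5 * Real.sqrt (l + 1) + Lm) := by
  have h1 := Cs_Br l
  have h2 := Br_le_exp (l + 1)
  calc ((Cs l).card : ℝ) * Real.exp (-(l * Lm))
      ≤ ((l + 1) * Real.exp (5 * Real.sqrt (l + 1)) * Real.exp (((l + 1 : ℕ) : ℝ) * Lm)) *
        Real.exp (-(l * Lm)) := by
        apply mul_le_mul_of_nonneg_right _ (Real.exp_pos _).le
        exact h1.trans (mul_le_mul_of_nonneg_left h2 (by positivity))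
    _ = (l + 1) * (Real.exp (5 * Real.sqrt (l + 1)) * Real.exp (((l + 1 : ℕ) : ℝ) * Lm) *
        Real.exp (-(l * Lm))) := by ring
    _ = _ := by
        rw [← Real.exp_add, ← Real.exp_add]
        congr 2
        push_cast
        ring

/-- data of a local modification -/
structure Surg where
  R : ℤ
  hR1 : 1 ≤ R
  hR2 : R ≤ 2
  fill : ℤ × ℤ → ℤ × ℤ → List (Fin 4)
  fill_ep : ∀ p q, ring R p → ring R q → p ≠ q → ep p (fill p q) = q
  fill_nodup : ∀ p q, ring R p → ring R q → p ≠ q → (vt p (fill p q)).Nodup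
  fill_box : ∀ p q, ring R p → ring R q → p ≠ q → ∀ v ∈ vt p (fill p q), v ∈ box R 0
  fill_len : ∀ p q, ring R p → ring R q → p ≠ q → (fill p q).length ≤ 24
  Feat : List (Fin 4) → Finset (ℤ × ℤ)
  CF : ℕ → ℕ
  feat_new : ∀ (l₁ l₃ : List (Fin 4)) (c q : ℤ × ℤ), ring R (ep 0 l₁ - c) → ring R (q - c) →
    ep 0 l₁ - c ≠ q - c → (∀ v ∈ vs 0 l₁, v ∉ box R c) → (∀ v ∈ (vt q l₃).tail, v ∉ box R c) →
    c ∈ Feat (l₁ ++ fill (ep 0 l₁ - c) (q - c) ++ l₃)
  feat_le : ∀ (M : ℕ) (l₁ l₂ l₃ f : List (Fin 4)), l₂.length ≤ M → f.length ≤ 24 →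
    ep (ep 0 l₁) f = ep (ep 0 l₁) l₂ →
    (Feat (l₁ ++ f ++ l₃)).card ≤ (Feat (l₁ ++ l₂ ++ l₃)).card + CF M

/-- words of length at most `M` -/
def wordsLE (M : ℕ) : Finset (List (Fin 4)) := (range (M + 1)).biUnion words

lemma mem_wordsLE (M : ℕ) (s : List (Fin 4)) : s ∈ wordsLE M ↔ s.length ≤ M := by
  unfold wordsLE
  rw [mem_biUnion]
  constructor
  · rintro ⟨k, hk, hs⟩
    rw [mem_words] at hs
    rw [mem_range] at hk
    omega
  · intro h
    exact ⟨s.length, by rw [mem_range]; omega, by rw [mem_words]⟩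

open Classical in
/-- the classes of words of the iteration -/
noncomputable def XX (S : Surg) (M L a g t : ℕ) : Finset (List (Fin 4)) :=
  (wordsLE (L + 24 * t)).filter (fun s => SAWs s ∧ (S.Feat s).card ≤ a + S.CF M * t ∧
    g ≤ (Gds S.R M s).card + (700 + 28 * M) * t)

lemma mem_XX (S : Surg) (M L a g t : ℕ) (s : List (Fin 4)) : s ∈ XX S M L a g t ↔
    s.length ≤ L + 24 * t ∧ SAWs s ∧ (S.Feat s).card ≤ a + S.CF M * t ∧
    g ≤ (Gds S.R M s).card + (700 + 28 * M) * t := by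
  classical
  rw [XX, mem_filter, mem_wordsLE]

/-- the surgery at a good centre -/
lemma surgery_exists (S : Surg) (M : ℕ) (s : List (Fin 4)) (hs : SAWs s) (c : ℤ × ℤ)
    (hc : c ∈ Gds S.R M s) : ∃ l₁ l₂ l₃ f : List (Fin 4), s = l₁ ++ l₂ ++ l₃ ∧ l₂.length ≤ M ∧
      f.length ≤ 24 ∧ SAWs (l₁ ++ f ++ l₃) ∧ c ∈ S.Feat (l₁ ++ f ++ l₃) ∧
      (S.Feat (l₁ ++ f ++ l₃)).card ≤ (S.Feat s).card + S.CF M ∧
      (Gds S.R M s).card ≤ (Gds S.R M (l₁ ++ f ++ l₃)).card + (700 + 28 * M) ∧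
      ep 0 l₁ ∈ box S.R c ∧ ep (ep 0 l₁) f ∈ box S.R c ∧ (∀ v ∈ vs 0 l₁, v ∉ box S.R c) ∧
      (∀ v ∈ (vt (ep (ep 0 l₁) f) l₃).tail, v ∉ box S.R c) := by
  rw [mem_Gds] at hc
  obtain ⟨_, l₁, l₂, l₃, rfl, h1, h3, hM, hcv, hb1, hb2, ho1, ho3⟩ := hc
  set p := ep 0 l₁ with hp
  set q := ep 0 (l₁ ++ l₂) with hq
  have hR1 := S.hR1
  have hpq : p ≠ q := by
    intro heq
    have hl₂ : l₂ ≠ [] := by
      rintro rfl
      simp only [vt_nil, List.mem_singleton] at hcv
      have := (ring_of_enter S.R c l₁ h1 hb1 ho1).2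
      apply this
      rw [← hp, ← hcv, sub_self, mem_box]
      simp
      omega
    obtain ⟨hs1, _⟩ := SAWs_append _ _ hs
    obtain ⟨_, hs2⟩ := SAWs_append _ _ hs1
    have h5 : (vt p l₂).Nodup := (nodup_vt p l₂).2 hs2
    rw [vt_head, List.nodup_cons] at h5
    apply h5.1
    have h6 : ep p l₂ = p := by
      have h60 : ep p l₂ = q := by rw [hq, ep_append]
      rw [h60]; exact heq.symm
    have h7 := ep_mem_tail p l₂ hl₂
    rwa [h6] at h7
  have hrp := ring_of_enter S.R c l₁ h1 hb1 ho1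
  have hrq := ring_of_exit S.R c q l₃ h3 hb2 ho3
  have hne : p - c ≠ q - c := fun h => hpq (sub_left_injective h)
  set f := S.fill (p - c) (q - c) with hf
  have hep0 := S.fill_ep _ _ hrp hrq hne
  have hep : ep p f = q := by
    have h := ep_add (p - c) c f
    rw [sub_add_cancel] at h
    rw [h, hep0, sub_add_cancel]
  have hvt : vt p f = (vt (p - c) f).map (· + c) := by
    rw [← vt_add, sub_add_cancel]
  have hnod : (vt p f).Nodup := by
    rw [hvt]
    exact (S.fill_nodup _ _ hrp hrq hne).map (add_left_injective _)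
  have hbox : ∀ v ∈ vt p f, v ∈ box S.R c := by
    intro v hv
    rw [hvt, List.mem_map] at hv
    obtain ⟨w, hw, rfl⟩ := hv
    have := S.fill_box _ _ hrp hrq hne w hw
    rw [box_shift]
    simpa using this
  have hlen : f.length ≤ 24 := S.fill_len _ _ hrp hrq hne
  have hepq : ep p f = ep 0 (l₁ ++ l₂) := hep
  refine ⟨l₁, l₂, l₃, f, rfl, hM, hlen, ?_, ?_, ?_, ?_, hb1, ?_, ho1, ?_⟩
  · exact surg_SAW S.R c l₁ l₂ l₃ f hs ho1 ho3 hepq hnod hbox
  · exact S.feat_new l₁ l₃ c q hrp hrq hne ho1 ho3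
  · exact S.feat_le M l₁ l₂ l₃ f hM hlen (by rw [hep, hq, ep_append])
  · exact good_stay S.R S.hR2 M l₁ l₂ l₃ f h1 hepq hM hlen
  · rw [hep]; exact hb2
  · rw [hep]; exact ho3

/-- one step of the iteration -/
lemma flow_step (S : Surg) (M L a g t : ℕ) :
    ((g : ℝ) - (700 + 28 * M) * t) * Real.exp (-(24 * Lm)) *
      ∑ s ∈ XX S M L a g t, Real.exp (-(s.length * Lm)) ≤
    ((a : ℝ) + S.CF M * (t + 1)) * (wordsLE M).card *
      ∑ s ∈ XX S M L a g (t + 1), Real.exp (-(s.length * Lm)) := by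
  classical
  have hL := Lm_nonneg
  -- choice of the surgery
  have hch : ∀ y : (_ : List (Fin 4)) × (ℤ × ℤ), y ∈ (XX S M L a g t).sigma (Gds S.R M) →
      ∃ z : (_ : List (Fin 4)) × ((ℤ × ℤ) × List (Fin 4)),
        z ∈ (XX S M L a g (t + 1)).sigma (fun s => S.Feat s ×ˢ wordsLE M) ∧
        z.1.length ≤ y.1.length + 24 ∧ z.2.1 = y.2 ∧
        ∃ l₁ l₃ f : List (Fin 4), z.1 = l₁ ++ f ++ l₃ ∧ y.1 = l₁ ++ z.2.2 ++ l₃ ∧
          ep 0 l₁ ∈ box S.R y.2 ∧ ep (ep 0 l₁) f ∈ box S.R y.2 ∧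
          (∀ v ∈ vs 0 l₁, v ∉ box S.R y.2) ∧
          (∀ v ∈ (vt (ep (ep 0 l₁) f) l₃).tail, v ∉ box S.R y.2) := by
    rintro ⟨s, c⟩ hy
    rw [mem_sigma, mem_XX] at hy
    obtain ⟨⟨h1, h2, h3, h4⟩, h5⟩ := hy
    obtain ⟨l₁, l₂, l₃, f, hdec, hM, hf, hsaw, hfeat, hfl, hgl, hb1, hb2, ho1, ho3⟩ :=
      surgery_exists S M s h2 c h5
    simp only at h1 h2 h3 h4 h5
    refine ⟨⟨l₁ ++ f ++ l₃, (c, l₂)⟩, ?_, ?_, rfl, l₁, l₃, f, rfl, hdec, hb1, hb2, ho1, ho3⟩
    · rw [mem_sigma, mem_XX, mem_product, mem_wordsLE]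
      refine ⟨⟨?_, hsaw, ?_, ?_⟩, hfeat, hM⟩
      · rw [hdec] at h1
        simp only [List.length_append] at h1 ⊢
        omega
      · show (S.Feat (l₁ ++ f ++ l₃)).card ≤ a + S.CF M * (t + 1)
        have : S.CF M * (t + 1) = S.CF M * t + S.CF M := by ring
        omega
      · show g ≤ (Gds S.R M (l₁ ++ f ++ l₃)).card + (700 + 28 * M) * (t + 1)
        have : (700 + 28 * M) * (t + 1) = (700 + 28 * M) * t + (700 + 28 * M) := by ring
        omega
    · rw [hdec]
      simp only [List.length_append]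
      omega
  choose! φ hφ1 hφ2 hφ3 hφ4 using hch
  have hinj : Set.InjOn φ ((XX S M L a g t).sigma (Gds S.R M) : Set ((_ : List (Fin 4)) × (ℤ × ℤ))) := by
    intro y hy y' hy' heq
    rw [mem_coe] at hy hy'
    obtain ⟨l₁, l₃, f, e1, e2, b1, b2, o1, o3⟩ := hφ4 y hy
    obtain ⟨m₁, m₃, f', e1', e2', b1', b2', o1', o3'⟩ := hφ4 y' hy'
    have hc : y.2 = y'.2 := by rw [← hφ3 y hy, ← hφ3 y' hy', heq]
    have h1 : l₁ ++ (f ++ l₃) = m₁ ++ (f' ++ m₃) := by
      rw [← List.append_assoc, ← List.append_assoc, ← e1, ← e1', heq]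
    rw [← hc] at b1' b2' o1' o3'
    obtain ⟨h2, h3⟩ := first_unique (box S.R y.2) h1 b1 b1' o1 o1'
    subst h2
    obtain ⟨h4, h5⟩ := last_unique (box S.R y.2) (ep 0 l₁) h3 b2 b2' o3 o3'
    have h6 : y.1 = y'.1 := by rw [e2, e2', heq, h5]
    obtain ⟨a1, a2⟩ := y
    obtain ⟨a1', a2'⟩ := y'
    simp only at hc h6
    rw [hc, h6]
  -- comparison of sums
  have hsum : ∑ y ∈ (XX S M L a g t).sigma (Gds S.R M),
      Real.exp (-(24 * Lm)) * Real.exp (-(y.1.length * Lm)) ≤
      ∑ z ∈ (XX S M L a g (t + 1)).sigma (fun s => S.Feat s ×ˢ wordsLE M),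
        Real.exp (-(z.1.length * Lm)) := by
    calc ∑ y ∈ (XX S M L a g t).sigma (Gds S.R M),
          Real.exp (-(24 * Lm)) * Real.exp (-(y.1.length * Lm))
        ≤ ∑ y ∈ (XX S M L a g t).sigma (Gds S.R M), Real.exp (-((φ y).1.length * Lm)) := by
          apply sum_le_sum
          intro y hy
          rw [← Real.exp_add]
          apply Real.exp_le_exp.2
          have h1 : ((φ y).1.length : ℝ) ≤ y.1.length + 24 := by exact_mod_cast hφ2 y hy
          nlinarith
      _ = ∑ z ∈ ((XX S M L a g t).sigma (Gds S.R M)).image φ, Real.exp (-(z.1.length * Lm)) := by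
          rw [sum_image hinj]
      _ ≤ _ := by
          apply sum_le_sum_of_subset_of_nonneg
          · intro z hz
            rw [mem_image] at hz
            obtain ⟨y, hy, rfl⟩ := hz
            exact hφ1 y hy
          · intro z _ _
            exact (Real.exp_pos _).le
  rw [sum_sigma, sum_sigma] at hsum
  simp only [sum_const, nsmul_eq_mul] at hsum
  have hleft : ((g : ℝ) - (700 + 28 * M) * t) * Real.exp (-(24 * Lm)) *
      ∑ s ∈ XX S M L a g t, Real.exp (-(s.length * Lm)) ≤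
      ∑ s ∈ XX S M L a g t, ((Gds S.R M s).card : ℝ) *
        (Real.exp (-(24 * Lm)) * Real.exp (-(s.length * Lm))) := by
    rw [mul_sum]
    apply sum_le_sum
    intro s hs
    rw [mem_XX] at hs
    have h1 : (g : ℝ) ≤ (Gds S.R M s).card + (700 + 28 * M) * t := by exact_mod_cast hs.2.2.2
    have h2 : 0 < Real.exp (-(24 * Lm)) * Real.exp (-(s.length * Lm)) := by positivity
    rw [mul_assoc]
    apply mul_le_mul_of_nonneg_right _ h2.le
    linarith
  have hright : ∑ s ∈ XX S M L a g (t + 1), ((S.Feat s ×ˢ wordsLE M).card : ℝ) *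
      Real.exp (-(s.length * Lm)) ≤
      ((a : ℝ) + S.CF M * (t + 1)) * (wordsLE M).card *
      ∑ s ∈ XX S M L a g (t + 1), Real.exp (-(s.length * Lm)) := by
    rw [mul_sum]
    apply sum_le_sum
    intro s hs
    rw [mem_XX] at hs
    have h1 : ((S.Feat s).card : ℝ) ≤ a + S.CF M * (t + 1) := by exact_mod_cast hs.2.2.1
    rw [card_product]
    push_cast
    apply mul_le_mul_of_nonneg_right _ (Real.exp_pos _).le
    apply mul_le_mul_of_nonneg_right h1 (by positivity)
  exact hleft.trans (hsum.trans hright)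

end Pool.Agent.Lib27
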