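import Pool.Agent.Lib_helper27.Law

set_option autoImplicit false

namespace Pool.Agent.AreaLaw

open Finset MeasureTheory Pool.Agent.Lib27 Filter Topology Metric

/-- The law of `A_n / E[A_n]` as a point of the space of probability laws on the reals with
convergence in distribution. -/
noncomputable def areaLaw (n : ℕ) : ProbabilityMeasure ℝ := ⟨law n, law_prob n⟩

/-- The set of limits in distribution of subsequences of `A_n / E[A_n]`. -/
def LimitLaws : Set (ProbabilityMeasure ℝ) :=
  {μ | ∃ φ : ℕ → ℕ, StrictMono φ ∧ Tendsto (fun k => areaLaw (φ k)) atTop (𝓝 μ)}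

lemma area_nonneg (n : ℕ) (s : Fin (2 * n) → Fin 4) : 0 ≤ area n s := by
  rw [area_eq]
  have := T_nonneg (List.ofFn s)
  positivity

lemma ratio_nonneg (n : ℕ) (s : Fin (2 * n) → Fin 4) : 0 ≤ area n s / meanArea n := by
  apply div_nonneg (area_nonneg n s)
  unfold meanArea
  exact div_nonneg (sum_nonneg fun s _ => area_nonneg n s) (by positivity)

lemma EF_id_le (n : ℕ) : EF (fun x => x) n ≤ 1 := by
  unfold EF
  rw [← sum_div]
  have : (∑ s ∈ SAP n, area n s) / meanArea n / (SAP n).card = meanArea n / meanArea n := by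
    rw [div_right_comm]
    rfl
  rw [this]
  exact div_self_le_one _

lemma tail_bound (n : ℕ) (R : ℝ) (hR : 0 < R) : law n (Set.Icc 0 R)ᶜ ≤ ENNReal.ofReal (1 / R) := by
  rw [law_apply n _ (measurableSet_Icc.compl)]
  apply ENNReal.ofReal_le_ofReal
  calc EF ((Set.Icc 0 R)ᶜ.indicator fun _ => (1 : ℝ)) n ≤ EF (fun x => x) n / R := by
        unfold EF
        rw [div_right_comm, sum_div _ (fun s => area n s / meanArea n)]
        apply div_le_div_of_nonneg_right _ (by positivity)
        apply sum_le_sum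
        intro s _
        have h0 := ratio_nonneg n s
        by_cases h : area n s / meanArea n ∈ Set.Icc 0 R
        · rw [Set.indicator_of_notMem (by simpa using h)]
          positivity
        · rw [Set.indicator_of_mem (by simpa using h)]
          rw [one_le_div hR]
          by_contra hcon
          exact h ⟨h0, by linarith⟩
    _ ≤ 1 / R := div_le_div_of_nonneg_right (EF_id_le n) hR.le

lemma tight : IsTightMeasureSet {((μ : ProbabilityMeasure ℝ) : Measure ℝ) | μ ∈ Set.range areaLaw} := by
  rw [isTightMeasureSet_iff_exists_isCompact_measure_compl_le]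
  intro ε hε
  obtain ⟨δ, hδ, hδ'⟩ : ∃ δ : ℝ, 0 < δ ∧ ENNReal.ofReal δ ≤ ε := by
    rcases eq_or_ne ε ⊤ with h | h
    · exact ⟨1, one_pos, by rw [h]; exact le_top⟩
    · exact ⟨ε.toReal, ENNReal.toReal_pos hε.ne' h, by rw [ENNReal.ofReal_toReal h]⟩
  refine ⟨Set.Icc 0 (1 / δ), isCompact_Icc, ?_⟩
  rintro _ ⟨_, ⟨n, rfl⟩, rfl⟩
  have := tail_bound n (1 / δ) (by positivity)
  rw [one_div_one_div] at this
  exact this.trans hδ'

/-- the law as a point of the Levy-Prokhorov metric space -/
noncomputable def xlaw (n : ℕ) : LevyProkhorov (ProbabilityMeasure ℝ) :=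
  LevyProkhorov.ofMeasure (areaLaw n)

lemma xlaw_dist : Tendsto (fun n => dist (xlaw n) (xlaw (n + 1))) atTop (𝓝 0) := lp_tendsto

/-- the compact set containing all the laws -/
noncomputable def KK : Set (LevyProkhorov (ProbabilityMeasure ℝ)) :=
  LevyProkhorov.probabilityMeasureHomeomorph '' closure (Set.range areaLaw)

lemma KK_compact : IsCompact KK :=
  (isCompact_closure_of_isTightMeasureSet tight).image
    LevyProkhorov.probabilityMeasureHomeomorph.continuous

lemma xlaw_mem (n : ℕ) : xlaw n ∈ KK := ⟨areaLaw n, subset_closure ⟨n, rfl⟩, rfl⟩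

lemma limitLaws_eq : LimitLaws =
    LevyProkhorov.probabilityMeasureHomeomorph.symm '' Sub xlaw := by
  ext μ
  constructor
  · rintro ⟨φ, hφ, h⟩
    refine ⟨LevyProkhorov.probabilityMeasureHomeomorph μ, ⟨φ, hφ, ?_⟩, ?_⟩
    · exact (LevyProkhorov.probabilityMeasureHomeomorph.continuous.tendsto μ).comp h
    · exact Homeomorph.symm_apply_apply _ _
  · rintro ⟨y, ⟨φ, hφ, h⟩, rfl⟩
    refine ⟨φ, hφ, ?_⟩
    exact (LevyProkhorov.probabilityMeasureHomeomorph.symm.continuous.tendsto y).comp h

theorem limitLaws_compact : IsCompact LimitLaws := by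
  rw [limitLaws_eq]
  exact (Sub_compact xlaw KK KK_compact xlaw_mem).image (Homeomorph.continuous _)

theorem limitLaws_connected : IsConnected LimitLaws := by
  rw [limitLaws_eq]
  exact (Sub_connected xlaw KK KK_compact xlaw_mem xlaw_dist).image _
    (Homeomorph.continuous _).continuousOn

theorem dichotomy : (∃ μ, Tendsto areaLaw atTop (𝓝 μ)) ∨ ¬ LimitLaws.Countable := by
  rcases Sub_dichotomy xlaw KK KK_compact xlaw_mem xlaw_dist with ⟨y, hy⟩ | h
  · left
    exact ⟨_, (LevyProkhorov.probabilityMeasureHomeomorph.symm.continuous.tendsto y).comp hy⟩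
  · right
    rw [limitLaws_eq]
    intro hc
    apply h
    exact Set.countable_of_injective_of_countable_image
      (LevyProkhorov.probabilityMeasureHomeomorph (Ω := ℝ)).symm.injective.injOn hc

theorem syndetic (I : Set ℕ) (g : ℕ) (hI : ∀ N, ∃ n ∈ I, N ≤ n ∧ n ≤ N + g)
    (μ : ProbabilityMeasure ℝ) (hμ : Tendsto areaLaw (atTop ⊓ 𝓟 I) (𝓝 μ)) :
    Tendsto areaLaw atTop (𝓝 μ) := by
  have h1 := bounded_gap xlaw xlaw_dist I g hI (LevyProkhorov.probabilityMeasureHomeomorph μ)
    ((LevyProkhorov.probabilityMeasureHomeomorph.continuous.tendsto μ).comp hμ)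
  have h2 := (LevyProkhorov.probabilityMeasureHomeomorph.symm.continuous.tendsto
    (LevyProkhorov.probabilityMeasureHomeomorph μ)).comp h1
  rw [Homeomorph.symm_apply_apply] at h2
  exact h2

end Pool.Agent.AreaLaw
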