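import Pool.Agent.Lib_helper27.MergeTV
import Pool.Agent.Lib_helper27.Transl

set_option autoImplicit false

namespace Pool.Agent.Lib27

open Finset Filter Topology

/-- polynomials are beaten by `exp (-√n)` -/
lemma poly_exp (k : ℕ) : ∀ᶠ n : ℕ in atTop,
    (4 * ((n : ℝ) + 1) ^ 2) ^ k * Real.exp (-Real.sqrt n) ≤ 1 / Real.sqrt (Real.sqrt n) := by
  have h1 := Real.tendsto_pow_mul_exp_neg_atTop_nhds_zero (4 * k + 1)
  have hsq : Tendsto (fun n : ℕ => Real.sqrt (n : ℝ)) atTop atTop :=
    Real.tendsto_sqrt_atTop.comp tendsto_natCast_atTop_atTop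
  have h2 := (h1.comp hsq).eventually (gt_mem_nhds (show (0 : ℝ) < 1 / 16 ^ k by positivity))
  filter_upwards [h2, eventually_ge_atTop 1] with n hn h1n
  simp only [Function.comp] at hn
  have hn' : (1 : ℝ) ≤ n := by exact_mod_cast h1n
  set x := Real.sqrt (n : ℝ) with hx
  have hx1 : 1 ≤ x := by rw [hx]; exact Real.one_le_sqrt.2 hn'
  have hxx : x * x = n := Real.mul_self_sqrt (by positivity)
  set q := Real.sqrt x with hq
  have hq1 : 1 ≤ q := by rw [hq]; exact Real.one_le_sqrt.2 hx1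
  have hqq : q * q = x := Real.mul_self_sqrt (by positivity)
  rw [le_div_iff₀ (by linarith)]
  have h3 : 4 * ((n : ℝ) + 1) ^ 2 ≤ 16 * x ^ 4 := by
    have : x ^ 4 = (n : ℝ) ^ 2 := by rw [← hxx]; ring
    rw [this]
    nlinarith
  have h4 : (4 * ((n : ℝ) + 1) ^ 2) ^ k ≤ 16 ^ k * x ^ (4 * k) := by
    calc (4 * ((n : ℝ) + 1) ^ 2) ^ k ≤ (16 * x ^ 4) ^ k := pow_le_pow_left₀ (by positivity) h3 k
      _ = _ := by rw [mul_pow, ← pow_mul]
  have h5 : q ≤ x := by nlinarith
  calc (4 * ((n : ℝ) + 1) ^ 2) ^ k * Real.exp (-x) * q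
      ≤ (16 ^ k * x ^ (4 * k)) * Real.exp (-x) * x := by
        apply mul_le_mul _ h5 (by linarith) (by positivity)
        exact mul_le_mul_of_nonneg_right h4 (Real.exp_pos _).le
    _ = 16 ^ k * (x ^ (4 * k + 1) * Real.exp (-x)) := by rw [pow_succ]; ring
    _ ≤ 16 ^ k * (1 / 16 ^ k) := mul_le_mul_of_nonneg_left hn.le (by positivity)
    _ = 1 := by field_simp

lemma T_flip {F G : ℤ × ℤ → ℤ × ℤ → List (Fin 4)} (hF : FSpec F) (hG : FSpec G)
    {τ : ℤ × ℤ → ℤ × ℤ → Prop} {s t : List (Fin 4)} {c : ℤ × ℤ} (h : FR F G τ s t c)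
    (hδ : ∀ p ∈ ringB, ∀ q ∈ ringB, p ≠ q →
      dbl p (G p q) = dbl p (F p q) + 2 ∨ dbl p (G p q) = dbl p (F p q) - 2) :
    |T t - T s| ≤ 2 := by
  have h1 : dbl 0 t = dbl 0 s + 2 ∨ dbl 0 t = dbl 0 s - 2 := by
    obtain ⟨l₁, l₃, q, d, h1, h2, h3, h4, h5, h6, h7, h8⟩ := h
    rcases hδ _ (ringB_spec _ h1) _ (ringB_spec _ h2) h3 with h | h
    · left
      exact FR_dbl hF hG (τ := fun p' q' => dbl p' (G p' q') = dbl p' (F p' q') + 2) (c := c)
        ⟨l₁, l₃, q, d, h1, h2, h3, h, h5, h6, h7, h8⟩ 2 (fun _ _ _ _ _ h => h)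
    · right
      have := FR_dbl hF hG (τ := fun p' q' => dbl p' (G p' q') = dbl p' (F p' q') - 2) (c := c)
        ⟨l₁, l₃, q, d, h1, h2, h3, h, h5, h6, h7, h8⟩ (-2) (fun _ _ _ _ _ h => by
          rw [h]; ring)
      rw [this]; ring
  unfold T
  have h2 : |((|dbl 0 t| : ℤ) : ℝ) - ((|dbl 0 s| : ℤ) : ℝ)| = ((|(|dbl 0 t| - |dbl 0 s|)| : ℤ) : ℝ) := by
    push_cast
    rfl
  rw [h2]
  have h3 : |(|dbl 0 t| - |dbl 0 s|)| ≤ 2 := by
    refine (abs_abs_sub_abs_le_abs_sub _ _).trans ?_
    rcases h1 with h | h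
    · rw [h, add_sub_cancel_left]; norm_num
    · rw [h, sub_sub_cancel_left]; norm_num
  exact_mod_cast h3

/-- powers of the area: comparison of consecutive perimeters with a rate -/
theorem mom_merge (k : ℕ) : ∃ C : ℝ, 0 < C ∧ ∀ᶠ n : ℕ in atTop,
    |∑ s ∈ W (n + 1), T s ^ k - Real.exp Lc * ∑ s ∈ W n, T s ^ k| ≤
      (C / Real.sqrt (Real.sqrt n)) * ∑ s ∈ W n, T s ^ k := by
  classical
  obtain ⟨ε, hεg⟩ := goodEps_exists
  obtain ⟨Cc, hCc, hconc⟩ := conc ε hεg
  obtain ⟨hε0, hε1, η, hη, hfew⟩ := id hεg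
  set κ := Real.exp Lc with hκ
  have hκ0 : 0 < κ := Real.exp_pos _
  set K : ℝ := 50 / ε with hKdef
  have hK0 : 0 ≤ K := by rw [hKdef]; positivity
  set c4 : ℝ := 4 ^ (k + 1) with hc4
  have hc40 : 0 < c4 := by rw [hc4]; positivity
  refine ⟨(κ + 1) + K * (c4 + (1 + c4) * 1250 / ε) + Cc + (K + κ), by positivity, ?_⟩
  have hsqt : Tendsto (fun n : ℕ => Real.sqrt (n : ℝ)) atTop atTop :=
    Real.tendsto_sqrt_atTop.comp tendsto_natCast_atTop_atTop
  have ev1 : ∀ᶠ n : ℕ in atTop, ((W (n + 1)).card : ℝ) ≤ (κ + 1) * (W n).card := by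
    have := card_ratio.eventually (gt_mem_nhds (show Real.exp Lc < κ + 1 by linarith))
    filter_upwards [this, eventually_ge_atTop 2] with n hn h2
    have hW := card_pos' n h2
    rw [div_lt_iff₀ hW] at hn
    exact hn.le
  have hfew' := (tendsto_add_atTop_nat 1).eventually hfew
  have ev2 : ∀ᶠ n : ℕ in atTop, 1 / η ≤ Real.sqrt n := hsqt.eventually_ge_atTop _
  filter_upwards [hconc, ev1, hfew', ev2, poly_exp k, eventually_ge_atTop 2]
    with n hc e1 hf e2 hpe hn2
  have hn1 : 1 ≤ n := by omega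
  have hn' : (2 : ℝ) ≤ n := by exact_mod_cast hn2
  set x := Real.sqrt (n : ℝ) with hx
  set q := Real.sqrt x with hq
  have hx1 : 1 ≤ x := by rw [hx]; exact Real.one_le_sqrt.2 (by linarith)
  have hq1 : 1 ≤ q := by rw [hq]; exact Real.one_le_sqrt.2 hx1
  have hxx : x * x = n := Real.mul_self_sqrt (by positivity)
  have hqq : q * q = x := Real.mul_self_sqrt (by positivity)
  have hqx : q ≤ x := by nlinarith
  have hxn : x ≤ n := by nlinarith
  set g : ℝ := ε * n with hg
  have hg0 : 0 < g := by rw [hg]; positivity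
  set S : ℝ := ∑ s ∈ W n, T s ^ k with hS
  have hT1 : ∀ s ∈ W n, 1 ≤ T s ^ k := by
    intro s hs
    apply one_le_pow₀
    have := T_ge n hn2 s hs
    linarith
  have hNS : ((W n).card : ℝ) ≤ S := by
    rw [hS]
    calc ((W n).card : ℝ) = ∑ s ∈ W n, (1 : ℝ) := by simp
      _ ≤ _ := sum_le_sum hT1
  have hN0 : (0 : ℝ) ≤ (W n).card := by positivity
  have hS0 : 0 ≤ S := hN0.trans hNS
  have hbd : ∀ s ∈ W n, nA s ≤ K * max (nB s) g := by
    intro s hs
    calc nA s ≤ 50 * n := SlW_le fill0 TT n hn1 s hs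
      _ = K * g := by rw [hKdef, hg]; field_simp
      _ ≤ K * max (nB s) g := mul_le_mul_of_nonneg_left (le_max_right _ _) hK0
  have hm0 : ∀ s, 0 < max (nB s) g := fun s => hg0.trans_le (le_max_right _ _)
  -- (1) top level
  have htop : |∑ t ∈ W (n + 1), T t ^ k - ∑ t ∈ W (n + 1), T t ^ k * (nB t / max (nB t) g)| ≤
      (κ + 1) * (S / q) := by
    rw [← sum_sub_distrib]
    have h1 : |∑ t ∈ W (n + 1), (T t ^ k - T t ^ k * (nB t / max (nB t) g))| ≤
        (4 * ((n : ℝ) + 1) ^ 2) ^ k *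
        (((W (n + 1)).filter (fun s => nB s < ε * (n + 1 : ℕ))).card : ℝ) := by
      refine (abs_sum_le_sum_abs _ _).trans ?_
      rw [card_filter]
      push_cast
      rw [mul_sum]
      apply sum_le_sum
      intro t ht
      have h2 : nB t / max (nB t) g ≤ 1 := by
        rw [div_le_one (hm0 t)]; exact le_max_left _ _
      have h3 : 0 ≤ nB t / max (nB t) g := div_nonneg (nB_nonneg _) (hm0 t).le
      have e : T t ^ k - T t ^ k * (nB t / max (nB t) g) =
          T t ^ k * (1 - nB t / max (nB t) g) := by ring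
      have hTt := T_nonneg t
      have hTt2 : T t ^ k ≤ (4 * ((n : ℝ) + 1) ^ 2) ^ k := by
        apply pow_le_pow_left₀ hTt
        have := T_le (n + 1) t ht
        push_cast at this
        exact this
      rw [e, abs_of_nonneg (mul_nonneg (pow_nonneg hTt k) (by linarith))]
      split_ifs with h
      · apply mul_le_mul hTt2 (by linarith) (by linarith) (by positivity)
      · push Not at h
        have h4 : g ≤ nB t := by
          rw [hg]
          refine le_trans ?_ h
          nlinarith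
        rw [max_eq_left h4, div_self (by linarith), sub_self, mul_zero, mul_zero]
    refine h1.trans ?_
    have h5 : Real.exp (-(η * ((n + 1 : ℕ) : ℝ))) ≤ Real.exp (-x) := by
      apply Real.exp_le_exp.2
      push_cast
      rw [div_le_iff₀ hη] at e2
      nlinarith
    calc (4 * ((n : ℝ) + 1) ^ 2) ^ k *
          (((W (n + 1)).filter (fun s => nB s < ε * (n + 1 : ℕ))).card : ℝ)
        ≤ (4 * ((n : ℝ) + 1) ^ 2) ^ k * (((κ + 1) * (W n).card) * Real.exp (-x)) := by
          apply mul_le_mul_of_nonneg_left _ (by positivity)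
          exact hf.2.1.trans (mul_le_mul e1 h5 (Real.exp_pos _).le (by positivity))
      _ = ((κ + 1) * (W n).card) * ((4 * ((n : ℝ) + 1) ^ 2) ^ k * Real.exp (-x)) := by ring
      _ ≤ ((κ + 1) * S) * (1 / q) := by
          apply mul_le_mul _ hpe (by positivity) (by positivity)
          exact mul_le_mul_of_nonneg_left hNS (by positivity)
      _ = _ := by ring
  -- (2) the moves
  have hmove : |∑ t ∈ W (n + 1), T t ^ k * (nB t / max (nB t) g) -
      ∑ s ∈ W n, T s ^ k * (nA s / max (nB s) g)| ≤ K * (c4 + (1 + c4) * 1250 / ε) * (S / q) := by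
    have h1 : ∑ s ∈ W n, T s ^ k * (nA s / max (nB s) g) =
        ∑ z ∈ (sysU n hn1).Z, T z.1 ^ k / max (nB z.1) g := by
      have := (sysU n hn1).sum_a (fun s => T s ^ k / max (nB s) g)
      change ∑ z ∈ (sysU n hn1).Z, T z.1 ^ k / max (nB z.1) g =
        ∑ s ∈ W n, nA s * (T s ^ k / max (nB s) g) at this
      rw [this]
      apply sum_congr rfl
      intro s _
      ring
    have h2 : ∑ t ∈ W (n + 1), T t ^ k * (nB t / max (nB t) g) =
        ∑ z ∈ (sysU n hn1).Z, T z.2.1 ^ k / max (nB z.2.1) g := by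
      have := (sysU n hn1).sum_b (fun s => T s ^ k / max (nB s) g)
      change ∑ z ∈ (sysU n hn1).Z, T z.2.1 ^ k / max (nB z.2.1) g =
        ∑ t ∈ W (n + 1), nB t * (T t ^ k / max (nB t) g) at this
      rw [this]
      apply sum_congr rfl
      intro s _
      ring
    rw [h2, h1, ← sum_sub_distrib]
    refine (abs_sum_le_sum_abs _ _).trans ?_
    have hterm : ∀ z ∈ (sysU n hn1).Z, |T z.2.1 ^ k / max (nB z.2.1) g - T z.1 ^ k / max (nB z.1) g| ≤
        (c4 + (1 + c4) * 1250 / ε) / n * (T z.1 ^ k / max (nB z.1) g) := by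
      intro z hz
      have hR := sysU_mem n hn1 z hz
      have hz1 := sysU_fst n hn1 z hz
      have hT := T_flip fspec0 fspec2 hR (fun p hp q hq h => by
        by_cases ht : tP p q
        · exact Or.inl ht
        · exact Or.inr ((fill_types p hp q hq h).2 ht))
      have hpl := pow_lip k (T z.1) (T z.2.1) n hn' (T_ge n hn2 z.1 hz1) (T_nonneg _) hT
      rw [← hc4] at hpl
      have hl := (abs_max_sub_max_le_abs (nB z.1) (nB z.2.1) g).trans
        (FR_lip (H := fill2) (τ' := TT) fspec0 fspec2 fspec2 hR)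
      set m1 := max (nB z.1) g with hm1
      set m2 := max (nB z.2.1) g with hm2
      have hm10 : 0 < m1 := hm0 z.1
      have hm20 : 0 < m2 := hm0 z.2.1
      have hgm2 : g ≤ m2 := le_max_right _ _
      set a := T z.1 ^ k with ha
      set b := T z.2.1 ^ k with hb
      have ha0 : 0 ≤ a := pow_nonneg (T_nonneg _) k
      have hb0 : 0 ≤ b := pow_nonneg (T_nonneg _) k
      have hba : b ≤ (1 + c4) * a := by
        rw [abs_le] at hpl
        have h3 : c4 / n * a ≤ c4 * a := by
          apply mul_le_mul_of_nonneg_right _ ha0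
          apply div_le_self hc40.le
          linarith
        linarith [hpl.2]
      have e : b / m2 - a / m1 = (b - a) / m1 + b * (m1 - m2) / (m1 * m2) := by
        field_simp
        ring
      rw [e]
      refine (abs_add_le _ _).trans ?_
      have h3 : |(b - a) / m1| ≤ c4 / n * (a / m1) := by
        rw [abs_div, abs_of_pos hm10, ← mul_div_assoc]
        exact div_le_div_of_nonneg_right hpl hm10.le
      have h4 : |b * (m1 - m2) / (m1 * m2)| ≤ (1 + c4) * 1250 / ε / n * (a / m1) := by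
        rw [abs_div, abs_mul, abs_of_nonneg hb0, abs_of_pos (mul_pos hm10 hm20)]
        have h5 : b * |m1 - m2| ≤ (1 + c4) * a * 1250 :=
          mul_le_mul hba hl (abs_nonneg _) (by positivity)
        calc b * |m1 - m2| / (m1 * m2) ≤ (1 + c4) * a * 1250 / (m1 * g) := by
              apply div_le_div₀ (by positivity) h5 (by positivity)
              exact mul_le_mul_of_nonneg_left hgm2 hm10.le
          _ = _ := by rw [hg]; field_simp
      calc _ ≤ c4 / n * (a / m1) + (1 + c4) * 1250 / ε / n * (a / m1) := add_le_add h3 h4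
        _ = _ := by ring
    refine (sum_le_sum hterm).trans ?_
    rw [← mul_sum, ← h1]
    have h6 : ∑ s ∈ W n, T s ^ k * (nA s / max (nB s) g) ≤ K * S := by
      rw [hS, mul_sum]
      apply sum_le_sum
      intro s hs
      rw [mul_comm]
      apply mul_le_mul_of_nonneg_right _ (pow_nonneg (T_nonneg s) k)
      rw [div_le_iff₀ (hm0 s)]
      exact hbd s hs
    calc (c4 + (1 + c4) * 1250 / ε) / n * ∑ s ∈ W n, T s ^ k * (nA s / max (nB s) g)
        ≤ (c4 + (1 + c4) * 1250 / ε) / n * (K * S) :=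
          mul_le_mul_of_nonneg_left h6 (by positivity)
      _ = K * (c4 + (1 + c4) * 1250 / ε) * (S / n) := by ring
      _ ≤ _ := by
          apply mul_le_mul_of_nonneg_left _ (by positivity)
          exact div_le_div_of_nonneg_left hS0 (by linarith) (by linarith)
  -- (3) concentration
  have hconc' : |∑ s ∈ W n, T s ^ k * (nA s / max (nB s) g) - κ * S| ≤
      Cc * (S / q) + (K + κ) * (S / q) := by
    rw [hS, mul_sum, ← sum_sub_distrib, ← hS]
    refine (abs_sum_le_sum_abs _ _).trans ?_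
    have h1 : ∀ s ∈ W n, |T s ^ k * (nA s / max (nB s) g) - κ * T s ^ k| ≤
        Cc / q * T s ^ k + (K + κ) * (4 * ((n : ℝ) + 1) ^ 2) ^ k *
          (if Cc / q < |nA s / max (nB s) g - κ| then 1 else 0) := by
      intro s hs
      have e : T s ^ k * (nA s / max (nB s) g) - κ * T s ^ k =
          T s ^ k * (nA s / max (nB s) g - κ) := by ring
      have hTs := pow_nonneg (T_nonneg s) k
      rw [e, abs_mul, abs_of_nonneg hTs]
      split_ifs with h
      · have h3 : |nA s / max (nB s) g| ≤ K := div_max_le _ _ g (nA_nonneg s) hg0 K (hbd s hs)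
        have h4 : |nA s / max (nB s) g - κ| ≤ K + κ := by
          refine (abs_sub _ _).trans ?_
          rw [abs_of_pos hκ0]
          linarith
        have h5 : 0 ≤ Cc / q * T s ^ k := by positivity
        have hTs2 : T s ^ k ≤ (4 * ((n : ℝ) + 1) ^ 2) ^ k := by
          apply pow_le_pow_left₀ (T_nonneg s)
          have := T_le n s hs
          nlinarith
        have h6 : T s ^ k * |nA s / max (nB s) g - κ| ≤ (4 * ((n : ℝ) + 1) ^ 2) ^ k * (K + κ) :=
          mul_le_mul hTs2 h4 (abs_nonneg _) (by positivity)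
        linarith
      · push Not at h
        have h6 : T s ^ k * |nA s / max (nB s) g - κ| ≤ T s ^ k * (Cc / q) :=
          mul_le_mul_of_nonneg_left h hTs
        linarith
    refine (sum_le_sum h1).trans ?_
    rw [sum_add_distrib, ← mul_sum, ← mul_sum, ← sum_filter, sum_const, nsmul_eq_mul,
      mul_one, ← hS]
    have h6 : (K + κ) * (4 * ((n : ℝ) + 1) ^ 2) ^ k *
        (((W n).filter (fun s => Cc / q < |nA s / max (nB s) g - κ|)).card : ℝ) ≤
        (K + κ) * (S / q) := by
      calc _ ≤ (K + κ) * (4 * ((n : ℝ) + 1) ^ 2) ^ k * ((W n).card * Real.exp (-x)) :=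
            mul_le_mul_of_nonneg_left hc (by positivity)
        _ = (K + κ) * ((W n).card * ((4 * ((n : ℝ) + 1) ^ 2) ^ k * Real.exp (-x))) := by ring
        _ ≤ (K + κ) * (S * (1 / q)) := by
            apply mul_le_mul_of_nonneg_left _ (by positivity)
            exact mul_le_mul hNS hpe (by positivity) hS0
        _ = _ := by ring
    have h7 : Cc / q * S = Cc * (S / q) := by ring
    linarith
  have r5 : ((κ + 1) + K * (c4 + (1 + c4) * 1250 / ε) + Cc + (K + κ)) / q * S =
      (κ + 1) * (S / q) + K * (c4 + (1 + c4) * 1250 / ε) * (S / q) + Cc * (S / q) +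
        (K + κ) * (S / q) := by ring
  rw [r5]
  rw [abs_le] at htop hmove hconc' ⊢
  constructor
  · linarith [htop.1, htop.2, hmove.1, hmove.2, hconc'.1, hconc'.2]
  · linarith [htop.1, htop.2, hmove.1, hmove.2, hconc'.1, hconc'.2]

/-- ratio of the moments with a rate -/
theorem mom_ratio_rate (k : ℕ) : ∃ C : ℝ, 0 < C ∧ ∀ᶠ n : ℕ in atTop,
    |mom k (n + 1) / mom k n - 1| ≤ C / Real.sqrt (Real.sqrt n) := by
  obtain ⟨C, hC, h⟩ := mom_merge k
  obtain ⟨C', hC', h'⟩ := mom_merge 0
  set κ := Real.exp Lc with hκ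
  have hκ0 : 0 < κ := Real.exp_pos _
  refine ⟨(C + C') / (κ / 2), by positivity, ?_⟩
  have ev1 : ∀ᶠ n : ℕ in atTop, κ / 2 * (W n).card ≤ ((W (n + 1)).card : ℝ) := by
    have := card_ratio.eventually (lt_mem_nhds (show κ / 2 < Real.exp Lc by rw [← hκ]; linarith))
    filter_upwards [this, eventually_ge_atTop 2] with n hn h2
    have hW := card_pos' n h2
    rw [lt_div_iff₀ hW] at hn
    exact hn.le
  filter_upwards [h, h', ev1, eventually_ge_atTop 2] with n hn hn' e1 h2
  set q := Real.sqrt (Real.sqrt (n : ℝ)) with hq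
  have hq0 : 0 < q := by
    rw [hq]
    apply Real.sqrt_pos.2
    apply Real.sqrt_pos.2
    have : (2 : ℝ) ≤ n := by exact_mod_cast h2
    linarith
  have hA := card_pos' n h2
  have hA1 := card_pos' (n + 1) (by omega)
  simp only [pow_zero, sum_const, nsmul_eq_mul, mul_one] at hn'
  unfold mom
  set A : ℝ := ((W n).card : ℝ) with hAd
  set A1 : ℝ := ((W (n + 1)).card : ℝ) with hA1d
  set S := ∑ s ∈ W n, T s ^ k with hS
  set S1 := ∑ s ∈ W (n + 1), T s ^ k with hS1
  have hSA : A ≤ S := by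
    rw [hAd, hS]
    calc ((W n).card : ℝ) = ∑ s ∈ W n, (1 : ℝ) := by simp
      _ ≤ _ := sum_le_sum fun s hs => by
          apply one_le_pow₀
          have := T_ge n h2 s hs
          have h3 : (2 : ℝ) ≤ n := by exact_mod_cast h2
          linarith
  have hS0 : 0 < S := hA.trans_le hSA
  have e : S1 / A1 / (S / A) - 1 = ((S1 - κ * S) * A - S * (A1 - κ * A)) / (A1 * S) := by
    field_simp
    ring
  rw [e, abs_div, abs_of_pos (mul_pos hA1 hS0), div_le_iff₀ (mul_pos hA1 hS0)]
  have b1 : |(S1 - κ * S) * A| ≤ C / q * S * A := by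
    rw [abs_mul, abs_of_pos hA]
    exact mul_le_mul_of_nonneg_right hn hA.le
  have b2 : |S * (A1 - κ * A)| ≤ S * (C' / q * A) := by
    rw [abs_mul, abs_of_pos hS0]
    exact mul_le_mul_of_nonneg_left hn' hS0.le
  refine (abs_sub _ _).trans ((add_le_add b1 b2).trans ?_)
  have b3 : (C + C') / (κ / 2) / q * (κ / 2 * A * S) ≤ (C + C') / (κ / 2) / q * (A1 * S) := by
    apply mul_le_mul_of_nonneg_left _ (by positivity)
    exact mul_le_mul_of_nonneg_right e1 hS0.le
  refine le_trans (le_of_eq ?_) b3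
  field_simp

end Pool.Agent.Lib27

namespace Pool.Agent.AreaLaw

open Finset Filter Topology Pool.Agent.Lib27

theorem moment_rate (k : ℕ) : ∃ C : ℝ, 0 < C ∧ ∀ᶠ n : ℕ in atTop,
    |moment k (n + 1) / moment k n - 1| ≤ C / Real.sqrt (Real.sqrt n) := by
  obtain ⟨C, hC, h⟩ := mom_ratio_rate k
  refine ⟨C, hC, ?_⟩
  filter_upwards [h] with n hn
  rw [moment_eq, moment_eq, div_div_div_cancel_right₀ (by positivity)]
  exact hn

end Pool.Agent.AreaLaw
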