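import Pool.Agent.Lib_helper27.FinalTV
import Pool.Agent.Lib_helper27.MomRate
import Pool.Agent.Lib_helper27.Limits

set_option autoImplicit false

namespace Pool.Agent.AreaLaw

open Finset MeasureTheory Pool.Agent.Lib27 Filter Topology Metric

lemma prob_nonneg (n : ℕ) (B : Set ℝ) : 0 ≤ prob n B := (prob_mem n B).1

lemma prob_mono (n : ℕ) (B B' : Set ℝ) (h : B ⊆ B') : prob n B ≤ prob n B' := by
  classical
  unfold prob
  apply div_le_div_of_nonneg_right _ (by positivity)
  have : (SAP n).filter (fun s => area n s ∈ B) ⊆ (SAP n).filter (fun s => area n s ∈ B') := by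
    intro s hs
    rw [mem_filter] at hs ⊢
    exact ⟨hs.1, h hs.2⟩
  exact_mod_cast card_le_card this

lemma prob_union (n : ℕ) (B B' : Set ℝ) : prob n (B ∪ B') ≤ prob n B + prob n B' := by
  classical
  unfold prob
  rw [← add_div]
  apply div_le_div_of_nonneg_right _ (by positivity)
  have : (SAP n).filter (fun s => area n s ∈ B ∪ B') ⊆
      (SAP n).filter (fun s => area n s ∈ B) ∪ (SAP n).filter (fun s => area n s ∈ B') := by
    intro s hs
    rw [mem_filter] at hs
    rw [mem_union, mem_filter, mem_filter]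
    rcases hs.2 with h | h
    · exact Or.inl ⟨hs.1, h⟩
    · exact Or.inr ⟨hs.1, h⟩
  have h2 := (card_le_card this).trans (card_union_le _ _)
  have h3 : (((SAP n).filter (fun s => area n s ∈ B ∪ B')).card : ℝ) ≤
      ((SAP n).filter (fun s => area n s ∈ B)).card +
      ((SAP n).filter (fun s => area n s ∈ B')).card := by exact_mod_cast h2
  refine le_trans (le_of_eq ?_) h3
  congr

lemma EF_prob (n : ℕ) (B : Set ℝ) :
    EF (B.indicator (fun _ => (1 : ℝ))) n = prob n {a | a / meanArea n ∈ B} := by
  classical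
  unfold EF prob
  rw [card_filter]
  push_cast
  congr 1

lemma meanArea_pos (n : ℕ) (hn : 2 ≤ n) : 0 < meanArea n := by
  rw [meanArea_eq]
  have := mom_pos 1 n hn
  linarith

/-- Markov inequality for the normalised area -/
lemma prob_markov (n : ℕ) (R : ℝ) (hR : 0 < R) : prob n {a | R ≤ a / meanArea n} ≤ 1 / R := by
  have h1 := EF_prob n {x | R ≤ x}
  have h2 : prob n {a | R ≤ a / meanArea n} = EF (({x | R ≤ x} : Set ℝ).indicator fun _ => (1 : ℝ)) n :=
    h1.symm
  rw [h2]
  calc EF (({x | R ≤ x} : Set ℝ).indicator fun _ => (1 : ℝ)) n ≤ EF (fun x => x) n / R := by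
        unfold EF
        rw [div_right_comm, sum_div _ (fun s => area n s / meanArea n)]
        apply div_le_div_of_nonneg_right _ (by positivity)
        apply sum_le_sum
        intro s _
        have h0 := ratio_nonneg n s
        by_cases h : R ≤ area n s / meanArea n
        · rw [Set.indicator_of_mem (by exact h)]
          rwa [one_le_div hR]
        · rw [Set.indicator_of_notMem (by exact h)]
          positivity
    _ ≤ 1 / R := div_le_div_of_nonneg_right (EF_id_le n) hR.le

/-- total variation distance over several steps -/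
lemma tv_multi (C : ℝ) (hC : ∀ n : ℕ, 1 ≤ n → ∀ B : Set ℝ,
    |prob (n + 1) B - prob n B| ≤ C * (n : ℝ) ^ (-(1 / 4) : ℝ)) (n : ℕ) (hn : 1 ≤ n) (B : Set ℝ)
    (k : ℕ) : |prob (n + k) B - prob n B| ≤ k * (C * (n : ℝ) ^ (-(1 / 4) : ℝ)) := by
  have hn' : (1 : ℝ) ≤ n := by exact_mod_cast hn
  have hC0 : 0 ≤ C := by
    have h1 := hC 1 le_rfl ∅
    simp only [Nat.cast_one, Real.one_rpow, mul_one] at h1
    exact (abs_nonneg _).trans h1
  induction k with
  | zero => simp
  | succ k ih =>
    have h1 := hC (n + k) (by omega) B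
    have h2 : ((n + k : ℕ) : ℝ) ^ (-(1 / 4) : ℝ) ≤ (n : ℝ) ^ (-(1 / 4) : ℝ) := by
      apply Real.rpow_le_rpow_of_nonpos (by linarith) _ (by norm_num)
      exact_mod_cast Nat.le_add_right n k
    have h3 := mul_le_mul_of_nonneg_left h2 hC0
    have e : prob (n + (k + 1)) B - prob n B =
        (prob (n + k + 1) B - prob (n + k) B) + (prob (n + k) B - prob n B) := by
      rw [add_assoc]; ring
    rw [e]
    refine (abs_add_le _ _).trans ?_
    push_cast
    linarith

/-- comparison of the mean areas over several steps -/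
lemma mean_multi (c : ℝ) (hc0 : 0 ≤ c) (hc1 : c ≤ 1) (n : ℕ) (hn : 2 ≤ n)
    (h : ∀ m, n ≤ m → |meanArea (m + 1) / meanArea m - 1| ≤ c) (k : ℕ) :
    (1 - k * c) * meanArea n ≤ meanArea (n + k) ∧
      meanArea (n + k) ≤ Real.exp (k * c) * meanArea n := by
  induction k with
  | zero => simp
  | succ k ih =>
    obtain ⟨ih1, ih2⟩ := ih
    have hMn := meanArea_pos n hn
    have hM := meanArea_pos (n + k) (by omega)
    have h1 := h (n + k) (by omega)
    rw [abs_le] at h1
    have h2 : meanArea (n + k + 1) ≤ (1 + c) * meanArea (n + k) := by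
      have h3 : meanArea (n + k + 1) / meanArea (n + k) ≤ 1 + c := by linarith [h1.2]
      rwa [div_le_iff₀ hM] at h3
    have h3 : (1 - c) * meanArea (n + k) ≤ meanArea (n + k + 1) := by
      have h3 : 1 - c ≤ meanArea (n + k + 1) / meanArea (n + k) := by linarith [h1.1]
      rwa [le_div_iff₀ hM] at h3
    constructor
    · rw [← add_assoc]
      refine le_trans ?_ h3
      have h4 : (1 - c) * ((1 - k * c) * meanArea n) ≤ (1 - c) * meanArea (n + k) :=
        mul_le_mul_of_nonneg_left ih1 (by linarith)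
      refine le_trans ?_ h4
      push_cast
      have : 0 ≤ (k : ℝ) * c * c * meanArea n := by positivity
      nlinarith
    · rw [← add_assoc]
      refine h2.trans ?_
      calc (1 + c) * meanArea (n + k) ≤ Real.exp c * (Real.exp (k * c) * meanArea n) := by
            apply mul_le_mul _ ih2 hM.le (Real.exp_pos _).le
            have := Real.add_one_le_exp c
            linarith
        _ = _ := by
            rw [← mul_assoc, ← Real.exp_add]
            push_cast
            ring_nf

/-- the Levy-Prokhorov distance between the normalised laws at `n` and at `n + k` -/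
lemma lp_multi (C : ℝ) (hC : ∀ n : ℕ, 1 ≤ n → ∀ B : Set ℝ,
    |prob (n + 1) B - prob n B| ≤ C * (n : ℝ) ^ (-(1 / 4) : ℝ)) (n k : ℕ) (hn : 2 ≤ n)
    (δ : ℝ) (hδ : 0 < δ) (h : k * (C * (n : ℝ) ^ (-(1 / 4) : ℝ)) +
      |meanArea (n + k) / meanArea n - 1| / δ ≤ δ) :
    levyProkhorovDist (law n) (law (n + k)) ≤ δ := by
  apply levyProkhorovDist_le_of_forall_le _ _ hδ.le
  intro η B hη hB
  rw [law_apply n B hB]
  have hmono : law (n + k) (thickening δ B) ≤ law (n + k) (thickening η B) :=
    measure_mono (thickening_mono hη.le B)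
  have hop : MeasurableSet (thickening δ B) := isOpen_thickening.measurableSet
  have hMn := meanArea_pos n hn
  have hMm := meanArea_pos (n + k) (by omega)
  have h6 : EF (B.indicator (fun _ => (1 : ℝ))) n ≤
      EF ((thickening δ B).indicator (fun _ => (1 : ℝ))) (n + k) + δ := by
    rw [EF_prob, EF_prob]
    have h1 := tv_multi C hC n (by omega) {a | a / meanArea n ∈ B} k
    rw [abs_le] at h1
    set lam := meanArea (n + k) / meanArea n with hlam
    have h2 : prob (n + k) {a | a / meanArea n ∈ B} ≤
        prob (n + k) {a | a / meanArea (n + k) ∈ thickening δ B} + |lam - 1| / δ := by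
      rcases eq_or_ne lam 1 with hl | hl
      · rw [hl, sub_self, abs_zero, zero_div, add_zero]
        apply prob_mono
        intro a ha
        have he : meanArea (n + k) = meanArea n := by
          rw [hlam, div_eq_one_iff_eq hMn.ne'] at hl
          exact hl
        show a / meanArea (n + k) ∈ thickening δ B
        rw [he]
        exact self_subset_thickening hδ B ha
      · have hl0 : 0 < |lam - 1| := abs_pos.2 (sub_ne_zero.2 hl)
        have h3 := prob_markov (n + k) (δ / |lam - 1|) (by positivity)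
        rw [one_div_div] at h3
        have h4 : prob (n + k) {a | a / meanArea n ∈ B} ≤
            prob (n + k) ({a | a / meanArea (n + k) ∈ thickening δ B} ∪
              ({a | δ / |lam - 1| ≤ a / meanArea (n + k)} ∪ {a | a < 0})) := by
          apply prob_mono
          intro a ha
          by_cases hsm : δ / |lam - 1| ≤ a / meanArea (n + k)
          · exact Or.inr (Or.inl hsm)
          · by_cases ha0 : a < 0
            · exact Or.inr (Or.inr ha0)
            · left
              push Not at hsm ha0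
              show a / meanArea (n + k) ∈ thickening δ B
              rw [mem_thickening_iff]
              refine ⟨a / meanArea n, ha, ?_⟩
              rw [dist_comm, Real.dist_eq]
              have e : a / meanArea n - a / meanArea (n + k) =
                  a / meanArea (n + k) * (lam - 1) := by
                rw [hlam]
                field_simp
              rw [e, abs_mul, abs_of_nonneg (div_nonneg ha0 hMm.le)]
              rwa [lt_div_iff₀ hl0] at hsm
        have h5 : prob (n + k) {a | a < 0} = 0 := by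
          classical
          unfold prob
          have : (SAP (n + k)).filter (fun s => area (n + k) s ∈ {a : ℝ | a < 0}) = ∅ := by
            rw [filter_eq_empty_iff]
            intro s _ hs
            have := area_nonneg (n + k) s
            simp only [Set.mem_ofPred_eq] at hs
            linarith
          rw [this]
          simp
        have h7 := prob_union (n + k) {a | a / meanArea (n + k) ∈ thickening δ B}
          ({a | δ / |lam - 1| ≤ a / meanArea (n + k)} ∪ {a | a < 0})
        have h8 := prob_union (n + k) {a | δ / |lam - 1| ≤ a / meanArea (n + k)} {a | a < 0}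
        linarith
    linarith [h1.1]
  calc ENNReal.ofReal (EF (B.indicator (fun _ => (1 : ℝ))) n)
      ≤ ENNReal.ofReal (EF ((thickening δ B).indicator (fun _ => (1 : ℝ))) (n + k) + δ) :=
        ENNReal.ofReal_le_ofReal h6
    _ = ENNReal.ofReal (EF ((thickening δ B).indicator (fun _ => (1 : ℝ))) (n + k)) +
        ENNReal.ofReal δ := by
        rw [ENNReal.ofReal_add _ hδ.le]
        exact EF_nonneg _ _ (fun x => Set.indicator_nonneg (fun _ _ => zero_le_one) _)
    _ ≤ law (n + k) (thickening η B) + ENNReal.ofReal η := by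
        rw [← law_apply (n + k) _ hop]
        exact add_le_add hmono (ENNReal.ofReal_le_ofReal hη.le)

/-- the laws stay close over `o(n^{1/4})` steps -/
theorem gap_dist (γ : ℕ → ℕ) (hγ : Tendsto (fun n : ℕ => (γ n : ℝ) / (n : ℝ) ^ (1 / 4 : ℝ)) atTop (𝓝 0))
    (ε : ℝ) (hε : 0 < ε) : ∀ᶠ n in atTop, ∀ m, n ≤ m → m ≤ n + γ n →
      levyProkhorovDist (law n) (law m) ≤ ε := by
  obtain ⟨C, hC⟩ := tv_merge
  have hC0 : 0 ≤ C := by
    have h1 := hC 1 le_rfl ∅
    simp only [Nat.cast_one, Real.one_rpow, mul_one] at h1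
    exact (abs_nonneg _).trans h1
  obtain ⟨C', hC', hM⟩ := moment_rate 1
  obtain ⟨N, hN⟩ := eventually_atTop.1 hM
  -- choose a small number
  set τ : ℝ := min (1 / 2) (min (ε / 2 / (C + 1)) (ε ^ 2 / 8 / C')) with hτ
  have hτ0 : 0 < τ := by rw [hτ]; positivity
  have hτ1 : τ ≤ 1 / 2 := min_le_left _ _
  have hτ2 : τ * (C + 1) ≤ ε / 2 := by
    have : τ ≤ ε / 2 / (C + 1) := (min_le_right _ _).trans (min_le_left _ _)
    rwa [le_div_iff₀ (by linarith)] at this
  have hτ3 : τ * C' ≤ ε ^ 2 / 8 := by
    have : τ ≤ ε ^ 2 / 8 / C' := (min_le_right _ _).trans (min_le_right _ _)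
    rwa [le_div_iff₀ hC'] at this
  have hγ' : Tendsto (fun n : ℕ => (γ n : ℝ) / (n : ℝ) ^ (1 / 4 : ℝ) * (1 + C')) atTop (𝓝 0) := by
    have := hγ.mul_const (1 + C')
    rwa [zero_mul] at this
  have ev1 := hγ.eventually (gt_mem_nhds hτ0)
  have ev2 := hγ'.eventually (gt_mem_nhds (show (0 : ℝ) < 1 / 2 by norm_num))
  have hsq : Tendsto (fun n : ℕ => Real.sqrt (n : ℝ)) atTop atTop :=
    Real.tendsto_sqrt_atTop.comp tendsto_natCast_atTop_atTop
  have ev3 : ∀ᶠ n : ℕ in atTop, C' ≤ Real.sqrt (Real.sqrt n) :=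
    (Real.tendsto_sqrt_atTop.comp hsq).eventually_ge_atTop _
  filter_upwards [ev1, ev2, ev3, eventually_ge_atTop (max N 2)] with n e1 e2 e3 hn m hnm hm
  have hn2 : 2 ≤ n := le_trans (le_max_right _ _) hn
  have hnN : N ≤ n := le_trans (le_max_left _ _) hn
  obtain ⟨k, rfl⟩ : ∃ k, m = n + k := ⟨m - n, by omega⟩
  have hk : k ≤ γ n := by omega
  have hk' : (k : ℝ) ≤ γ n := by exact_mod_cast hk
  have hn' : (2 : ℝ) ≤ n := by exact_mod_cast hn2
  have hpos : (0 : ℝ) < (n : ℝ) ^ (1 / 4 : ℝ) := Real.rpow_pos_of_pos (by linarith) _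
  set q := (n : ℝ) ^ (1 / 4 : ℝ) with hq
  rw [qroot, ← hq] at e3
  have hkq : (k : ℝ) / q ≤ τ := by
    refine le_trans ?_ e1.le
    exact div_le_div_of_nonneg_right hk' hpos.le
  apply lp_multi C hC n k hn2 ε hε
  have p1 : (k : ℝ) * (C * (n : ℝ) ^ (-(1 / 4) : ℝ)) ≤ ε / 2 := by
    rw [Real.rpow_neg (by linarith), ← hq]
    calc (k : ℝ) * (C * q⁻¹) = (k / q) * C := by ring
      _ ≤ τ * C := mul_le_mul_of_nonneg_right hkq hC0
      _ ≤ ε / 2 := by nlinarith
  have p2 : |meanArea (n + k) / meanArea n - 1| ≤ ε ^ 2 / 2 := by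
    have hc0 : 0 ≤ C' / q := by positivity
    have hc1 : C' / q ≤ 1 := by rw [div_le_one hpos]; exact e3
    have h := mean_multi (C' / q) hc0 hc1 n hn2 (by
      intro m hm
      have h1 := hN m (by omega)
      have e : meanArea (m + 1) / meanArea m = moment 1 (m + 1) / moment 1 m := by
        rw [meanArea_eq, meanArea_eq, moment_eq, moment_eq]
        norm_num
      rw [e]
      refine h1.trans ?_
      rw [qroot]
      apply div_le_div_of_nonneg_left hC'.le hpos
      apply Real.rpow_le_rpow (by linarith) _ (by norm_num)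
      exact_mod_cast hm) k
    have hMn := meanArea_pos n hn2
    have hkc : (k : ℝ) * (C' / q) ≤ τ * C' := by
      calc (k : ℝ) * (C' / q) = (k / q) * C' := by ring
        _ ≤ τ * C' := mul_le_mul_of_nonneg_right hkq hC'.le
    have hkc0 : 0 ≤ (k : ℝ) * (C' / q) := by positivity
    have hkc1 : (k : ℝ) * (C' / q) ≤ 1 / 2 := by
      calc (k : ℝ) * (C' / q) ≤ (γ n : ℝ) * (C' / q) := mul_le_mul_of_nonneg_right hk' hc0
        _ = (γ n : ℝ) / q * C' := by ring
        _ ≤ (γ n : ℝ) / q * (1 + C') := by
            apply mul_le_mul_of_nonneg_left (by linarith) (by positivity)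
        _ ≤ 1 / 2 := e2.le
    have hexp : Real.exp (k * (C' / q)) ≤ 1 + 2 * (k * (C' / q)) := by
      have := Real.abs_exp_sub_one_le (x := k * (C' / q)) (by
        rw [abs_of_nonneg hkc0]; linarith)
      rw [abs_of_nonneg hkc0] at this
      have h2 := (abs_le.1 this).2
      linarith
    rw [abs_le]
    constructor
    · have h1 : 1 - k * (C' / q) ≤ meanArea (n + k) / meanArea n := by
        rw [le_div_iff₀ hMn]; exact h.1
      nlinarith
    · have h1 : meanArea (n + k) / meanArea n ≤ Real.exp (k * (C' / q)) := by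
        rw [div_le_iff₀ hMn]; exact h.2
      nlinarith
  have p3 : |meanArea (n + k) / meanArea n - 1| / ε ≤ ε / 2 := by
    rw [div_le_iff₀ hε]
    nlinarith
  linarith

/-- convergence along a set of indices with gaps `o(n^{1/4})` implies convergence -/
theorem sparse (I : Set ℕ) (γ : ℕ → ℕ)
    (hγ : Tendsto (fun n : ℕ => (γ n : ℝ) / (n : ℝ) ^ (1 / 4 : ℝ)) atTop (𝓝 0))
    (hI : ∀ᶠ n in atTop, ∃ i ∈ I, n ≤ i ∧ i ≤ n + γ n)
    (μ : ProbabilityMeasure ℝ) (hμ : Tendsto areaLaw (atTop ⊓ 𝓟 I) (𝓝 μ)) :
    Tendsto areaLaw atTop (𝓝 μ) := by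
  set y := LevyProkhorov.probabilityMeasureHomeomorph μ with hy
  have h1 : Tendsto xlaw (atTop ⊓ 𝓟 I) (𝓝 y) :=
    (LevyProkhorov.probabilityMeasureHomeomorph.continuous.tendsto μ).comp hμ
  have h2 : Tendsto xlaw atTop (𝓝 y) := by
    rw [Metric.tendsto_atTop]
    intro ε hε
    rw [Metric.tendsto_nhds] at h1
    have h3 := h1 (ε / 2) (by positivity)
    rw [eventually_inf_principal, eventually_atTop] at h3
    obtain ⟨N, hN⟩ := h3
    have h4 := gap_dist γ hγ (ε / 4) (by positivity)
    obtain ⟨N', hN'⟩ := eventually_atTop.1 (h4.and (hI.and (eventually_ge_atTop N)))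
    refine ⟨N', fun n hn => ?_⟩
    obtain ⟨h5, ⟨i, hiI, hni, hin⟩, h6⟩ := hN' n hn
    have h7 := hN i (by omega) hiI
    have h8 : dist (xlaw n) (xlaw i) ≤ ε / 4 := h5 i hni hin
    calc dist (xlaw n) y ≤ dist (xlaw n) (xlaw i) + dist (xlaw i) y := dist_triangle _ _ _
      _ < ε := by linarith
  have h3 := (LevyProkhorov.probabilityMeasureHomeomorph.symm.continuous.tendsto y).comp h2
  rw [hy, Homeomorph.symm_apply_apply] at h3
  exact h3

end Pool.Agent.AreaLaw
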