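import Pool.Agent.Lib_helper27.Slots

set_option autoImplicit false

namespace Pool.Agent.Lib27

open Finset Filter Topology

/-- a vertex of a self-avoiding walk determines its time -/
lemma prefix_inj {s l l' m m' : List (Fin 4)} (hs : SAWs s) (h1 : s = l ++ l') (h2 : s = m ++ m')
    (h : ep 0 l = ep 0 m) : l = m := by
  have key : ∀ l l' : List (Fin 4), s = l ++ l' → ∀ v ∈ vs 0 l, v ∉ ({ep 0 l} : Finset (ℤ × ℤ)) := by
    intro l l' h1 v hv hv'
    rw [mem_singleton] at hv'
    unfold SAWs at hs
    rw [h1, vt_append, List.nodup_append'] at hs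
    apply hs.2.2 hv
    rw [hv']
    exact mem_vt_self _ _
  have h3 := first_unique (B := {ep 0 l}) (h1.symm.trans h2) (by simp) (by rw [h]; simp)
    (key l l' h1) (by rw [h]; exact key m m' h2)
  exact h3.1

/-- windows visited only in a block are good -/
lemma good_of_cover (R : ℤ) (M : ℕ) (s u t w : List (Fin 4)) (hs : SAWs s) (hdec : s = u ++ t ++ w)
    (ht : t.length ≤ M) (c : ℤ × ℤ) (hR : 0 ≤ R) (hc : c ∈ vt (ep 0 u) t)
    (hcov : ∀ v ∈ vset s, v ∈ box R c → v ∈ vt (ep 0 u) t)
    (h0 : (0 : ℤ × ℤ) ∉ box R c) (h1 : ep 0 s ∉ box R c) : GoodAt R M s c := by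
  have hcb : c ∈ box R c := by rw [mem_box]; omega
  have hcs : c ∈ vset s := by
    rw [hdec, mem_vset_mid]; exact Or.inr (Or.inl hc)
  obtain ⟨l₁, l', hl', hin1, hout1⟩ := split_first (fun v => v ∈ box R c) s 0
    ⟨c, (mem_vset _ _).1 hcs, hcb⟩
  have hp : ep 0 l₁ ∈ vt (ep 0 l₁) l' := mem_vt_self _ _
  obtain ⟨l₂, l₃, hl₂, hin2, hout2⟩ := split_last (fun v => v ∈ box R c) l' (ep 0 l₁)
    ⟨ep 0 l₁, hp, hin1⟩
  have hse : s = l₁ ++ l₂ ++ l₃ := by rw [hl', hl₂, List.append_assoc]
  have hout2' : ∀ v ∈ (vt (ep 0 (l₁ ++ l₂)) l₃).tail, v ∉ box R c := by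
    rw [ep_append]; exact hout2
  have hin2' : ep 0 (l₁ ++ l₂) ∈ box R c := by rw [ep_append]; exact hin2
  -- times
  have hmem1 : ep 0 l₁ ∈ vset s := by
    rw [mem_vset, mem_vt_iff]
    exact ⟨l₁, l', hl', rfl⟩
  have hmem2 : ep 0 (l₁ ++ l₂) ∈ vset s := by
    rw [mem_vset, mem_vt_iff]
    exact ⟨l₁ ++ l₂, l₃, hse, rfl⟩
  have htime : ∀ l l'' : List (Fin 4), s = l ++ l'' → ep 0 l ∈ vt (ep 0 u) t →
      u.length ≤ l.length ∧ l.length ≤ u.length + t.length := by
    intro l l'' hl hv
    rw [mem_vt_iff] at hv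
    obtain ⟨a, b, hab, hv⟩ := hv
    rw [← ep_append] at hv
    have h2 : s = (u ++ a) ++ (b ++ w) := by rw [hdec, hab]; simp
    have h3 := prefix_inj hs hl h2 hv
    rw [h3, hab]
    simp only [List.length_append]
    omega
  have ht1 := htime l₁ l' hl' (hcov _ hmem1 hin1)
  have ht2 := htime (l₁ ++ l₂) l₃ hse (hcov _ hmem2 hin2')
  refine ⟨l₁, l₂, l₃, hse, ?_, ?_, ?_, ?_, hin1, hin2', hout1, hout2'⟩
  · rintro rfl
    exact h0 hin1
  · rintro rfl
    apply h1
    rw [hse, List.append_nil]
    exact hin2'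
  · rw [List.length_append] at ht2
    omega
  · rw [hse, mem_vset_mid] at hcs
    rcases hcs with h | h | h
    · exact absurd hcb (hout1 c h)
    · exact h
    · rw [ep_append] at hout2'
      exact absurd hcb (hout2' c h)

/-- number of good windows from the number of good blocks -/
lemma gds_of_blocks (R : ℤ) (hR0 : 0 ≤ R) (hR : R ≤ 2) (e : Event) (M : ℕ) (s : List (Fin 4))
    (hs : SAWs s)
    (hcov : ∀ u t w m₁ m₂, s = u ++ t ++ w → t = m₁ ++ m₂ → m₂ ≠ [] → e.E (vset t) (ep 0 m₁) →
      ∀ v ∈ vset s, v ∈ box R (ep 0 (u ++ m₁)) → v ∈ vt (ep 0 u) t) :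
    gb e M (s.length / M) (s.take ((s.length / M) * M)) ≤ (Gds R M s).card + 50 := by
  classical
  set k := s.length / M with hk
  have hkM : k * M ≤ s.length := Nat.div_mul_le_self _ _
  -- choice of centres
  have hch : ∀ b, b ∈ (range k).filter (fun b => occ e (((s.take (k * M)).drop (b * M)).take M)) →
      ∃ m₁ m₂ : List (Fin 4), (s.drop (b * M)).take M = m₁ ++ m₂ ∧ m₂ ≠ [] ∧
        e.E (vset ((s.drop (b * M)).take M)) (ep 0 m₁) := by
    intro b hb
    rw [mem_filter, mem_range] at hb
    obtain ⟨hb1, hb2⟩ := hb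
    have h3 : ((s.take (k * M)).drop (b * M)).take M = (s.drop (b * M)).take M := by
      rw [List.drop_take, List.take_take]
      congr 1
      apply min_eq_left
      have : (b + 1) * M ≤ k * M := Nat.mul_le_mul_right _ hb1
      rw [add_mul, one_mul] at this
      omega
    rw [h3] at hb2
    exact hb2
  choose! m₁ m₂ hm hne hE using hch
  set I := (range k).filter (fun b => occ e (((s.take (k * M)).drop (b * M)).take M)) with hI
  have hgb : gb e M k (s.take (k * M)) = I.card := rfl
  rw [hgb]
  set f : ℕ → ℤ × ℤ := fun b => ep 0 (s.take (b * M) ++ m₁ b) with hf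
  have hdec : ∀ b, b ∈ I → s = s.take (b * M) ++ (s.drop (b * M)).take M ++ s.drop (b * M + M) := by
    intro b _
    have e1 : s.drop (b * M + M) = (s.drop (b * M)).drop M := by rw [List.drop_drop]
    rw [e1, List.append_assoc, List.take_append_drop, List.take_append_drop]
  have hbk : ∀ b, b ∈ I → b * M + M ≤ s.length := by
    intro b hb
    rw [hI, mem_filter, mem_range] at hb
    have : (b + 1) * M ≤ k * M := Nat.mul_le_mul_right _ hb.1
    rw [add_mul, one_mul] at this
    omega
  have hlen1 : ∀ b, b ∈ I → (s.take (b * M)).length = b * M := by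
    intro b hb
    have := hbk b hb
    rw [List.length_take]
    omega
  have hlen2 : ∀ b, b ∈ I → ((s.drop (b * M)).take M).length = M := by
    intro b hb
    have := hbk b hb
    rw [List.length_take, List.length_drop]
    omega
  have hlen3 : ∀ b, b ∈ I → (m₁ b).length < M := by
    intro b hb
    have h1 := hlen2 b hb
    rw [hm b hb, List.length_append] at h1
    have h2 := List.length_pos_of_ne_nil (hne b hb)
    omega
  have hinj : Set.InjOn f (I : Set ℕ) := by
    intro b hb b' hb' heq
    rw [mem_coe] at hb hb'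
    have h1 : s.take (b * M) ++ m₁ b = s.take (b' * M) ++ m₁ b' := by
      apply prefix_inj hs (l' := m₂ b ++ s.drop (b * M + M)) (m' := m₂ b' ++ s.drop (b' * M + M))
      · have h := hdec b hb
        rw [hm b hb] at h
        simpa using h
      · have h := hdec b' hb'
        rw [hm b' hb'] at h
        simpa using h
      · exact heq
    have h2 := congrArg List.length h1
    rw [List.length_append, List.length_append, hlen1 b hb, hlen1 b' hb'] at h2
    have h3 := hlen3 b hb
    have h4 := hlen3 b' hb'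
    rcases lt_trichotomy b b' with h | h | h
    · have : (b + 1) * M ≤ b' * M := Nat.mul_le_mul_right _ h
      rw [add_mul, one_mul] at this
      omega
    · exact h
    · have : (b' + 1) * M ≤ b * M := Nat.mul_le_mul_right _ h
      rw [add_mul, one_mul] at this
      omega
  have hsub : I.image f ⊆ Gds R M s ∪ (box R 0 ∪ box R (ep 0 s)) := by
    intro c hc
    rw [mem_image] at hc
    obtain ⟨b, hb, rfl⟩ := hc
    by_contra hcon
    simp only [mem_union, not_or] at hcon
    obtain ⟨h1, h2, h3⟩ := hcon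
    apply h1
    have hcv : f b ∈ vt (ep 0 (s.take (b * M))) ((s.drop (b * M)).take M) := by
      rw [mem_vt_iff]
      exact ⟨m₁ b, m₂ b, hm b hb, by rw [hf]; simp only; rw [ep_append]⟩
    rw [mem_Gds]
    refine ⟨?_, ?_⟩
    · rw [hdec b hb, mem_vset_mid]
      exact Or.inr (Or.inl hcv)
    · apply good_of_cover R M s _ _ _ hs (hdec b hb) (hlen2 b hb).le (f b) hR0 hcv
      · exact hcov _ _ _ _ _ (hdec b hb) (hm b hb) (hne b hb) (hE b hb)
      · rw [box_comm]; exact h2
      · rw [box_comm]; exact h3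
  have h1 := card_le_card hsub
  rw [card_image_of_injOn hinj] at h1
  have h2 := card_union_le (Gds R M s) (box R 0 ∪ box R (ep 0 s))
  have h3 := card_union_le (box R (0 : ℤ × ℤ)) (box R (ep 0 s))
  have h4 := box_card R hR 0
  have h5 := box_card R hR (ep 0 s)
  omega

/-- the events of the argument -/
noncomputable def EvK (k : ℕ) : Event where
  E A c := box 1 c ⊆ A ∨ k ≤ (A ∩ box 2 c).card
  mono A B c h := by
    rintro (h1 | h1)
    · exact Or.inl (h1.trans h)
    · exact Or.inr (h1.trans (card_le_card (inter_subset_inter_right h)))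
  trans A c v := by
    have hbox : ∀ (R : ℤ) (w : ℤ × ℤ), w ∈ box R (c + v) ↔ w - v ∈ box R c := by
      intro R w
      rw [mem_box, mem_box]
      simp only [Prod.fst_add, Prod.snd_add, Prod.fst_sub, Prod.snd_sub]
      constructor <;> intro h <;> omega
    rintro (h1 | h1)
    · left
      intro w hw
      rw [hbox] at hw
      rw [mem_image]
      exact ⟨w - v, h1 hw, by simp⟩
    · right
      refine h1.trans ?_
      rw [← card_image_of_injective (A ∩ box 2 c) (add_left_injective v)]
      apply card_le_card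
      intro w hw
      rw [mem_image] at hw
      obtain ⟨x, hx, rfl⟩ := hw
      rw [mem_inter] at hx
      rw [mem_inter]
      refine ⟨mem_image.2 ⟨x, hx.1, rfl⟩, ?_⟩
      rw [hbox]
      simpa using hx.2

end Pool.Agent.Lib27
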