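import Pool.Agent.Lib_helper27.Flow

set_option autoImplicit false

namespace Pool.Agent.Lib27

open Finset Filter Topology

open Classical in
/-- words with many good windows and few features -/
noncomputable def Exc (S : Surg) (M N : ℕ) (α ε : ℝ) : Finset (List (Fin 4)) :=
  (Cs N).filter (fun s => α * N ≤ (Gds S.R M s).card ∧ ((S.Feat s).card : ℝ) ≤ ε * N)

lemma XX_bound (S : Surg) (M L a g t : ℕ) :
    ∑ s ∈ XX S M L a g t, Real.exp (-(s.length * Lm)) ≤
      ((L : ℝ) + 24 * t + 1) ^ 2 * Real.exp (5 * Real.sqrt (L + 24 * t + 1) + Lm) := by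
  classical
  have hL := Lm_nonneg
  set K := L + 24 * t with hK
  have hsub : XX S M L a g t ⊆ (range (K + 1)).biUnion Cs := by
    intro s hs
    rw [mem_XX] at hs
    rw [mem_biUnion]
    refine ⟨s.length, by rw [mem_range]; omega, ?_⟩
    rw [mem_Cs]
    exact ⟨rfl, hs.2.1⟩
  calc ∑ s ∈ XX S M L a g t, Real.exp (-(s.length * Lm))
      ≤ ∑ s ∈ (range (K + 1)).biUnion Cs, Real.exp (-(s.length * Lm)) :=
        sum_le_sum_of_subset_of_nonneg hsub fun _ _ _ => (Real.exp_pos _).le
    _ ≤ ∑ l ∈ range (K + 1), ∑ s ∈ Cs l, Real.exp (-(s.length * Lm)) := by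
        rw [sum_biUnion]
        intro i _ j _ hij
        rw [Function.onFun, disjoint_left]
        intro s hs hs'
        rw [mem_Cs] at hs hs'
        exact hij (hs.1.symm.trans hs'.1)
    _ ≤ ∑ l ∈ range (K + 1), ((K : ℝ) + 1) * Real.exp (5 * Real.sqrt (K + 1) + Lm) := by
        apply sum_le_sum
        intro l hl
        rw [mem_range] at hl
        have h1 : ∑ s ∈ Cs l, Real.exp (-(s.length * Lm)) = (Cs l).card * Real.exp (-(l * Lm)) := by
          rw [← nsmul_eq_mul, ← sum_const]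
          apply sum_congr rfl
          intro s hs
          rw [mem_Cs] at hs
          rw [hs.1]
        rw [h1]
        refine (Cs_le_exp l).trans ?_
        have h2 : (l : ℝ) ≤ K := by exact_mod_cast Nat.lt_succ_iff.1 hl
        apply mul_le_mul (by linarith) _ (Real.exp_pos _).le (by positivity)
        apply Real.exp_le_exp.2
        have h3 : Real.sqrt (l + 1) ≤ Real.sqrt (K + 1) := Real.sqrt_le_sqrt (by linarith)
        linarith
    _ = _ := by
        rw [sum_const, card_range, nsmul_eq_mul, hK]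
        push_cast
        ring_nf

/-- **Surgery theorem.** -/
theorem surgery_theorem (S : Surg) (M : ℕ) (α : ℝ) (hα : 0 < α) :
    ∃ ε : ℝ, 0 < ε ∧ ∃ η : ℝ, 0 < η ∧ ∀ᶠ N : ℕ in atTop,
      ((Exc S M N α ε).card : ℝ) ≤ Real.exp (N * (Lm - η)) := by
  classical
  have hL := Lm_nonneg
  set K0 : ℝ := ((wordsLE M).card : ℝ) with hK0
  have hK0' : 1 ≤ K0 := by
    rw [hK0]
    have : 1 ≤ (wordsLE M).card := by
      rw [Nat.one_le_iff_ne_zero, ← Nat.pos_iff_ne_zero, card_pos]
      exact ⟨[], by rw [mem_wordsLE]; simp⟩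
    exact_mod_cast this
  set ρ : ℝ := α / (2 * K0 * Real.exp (24 * Lm + 1)) with hρ
  have hρ0 : 0 < ρ := by rw [hρ]; positivity
  set CG : ℝ := 700 + 28 * M with hCG
  have hCG0 : 0 < CG := by rw [hCG]; positivity
  set CF : ℝ := ((S.CF M : ℕ) : ℝ) with hCF
  have hCF0 : 0 ≤ CF := by rw [hCF]; positivity
  set δ : ℝ := min (α / (2 * CG)) (ρ / (2 * (CF + 1))) with hδ
  have hδ0 : 0 < δ := by rw [hδ]; apply lt_min <;> positivity
  have hδ1 : CG * δ ≤ α / 2 := by
    have : δ ≤ α / (2 * CG) := min_le_left _ _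
    calc CG * δ ≤ CG * (α / (2 * CG)) := mul_le_mul_of_nonneg_left this hCG0.le
      _ = α / 2 := by field_simp
  have hδ2 : CF * δ ≤ ρ / 2 := by
    have : δ ≤ ρ / (2 * (CF + 1)) := min_le_right _ _
    calc CF * δ ≤ (CF + 1) * (ρ / (2 * (CF + 1))) :=
          mul_le_mul (by linarith) this hδ0.le (by linarith)
      _ = ρ / 2 := by field_simp
  refine ⟨ρ / 2, by positivity, δ / 2, by positivity, ?_⟩
  -- asymptotics
  have hbig : ∀ᶠ N : ℕ in atTop,
      2 * Real.log ((1 + 24 * δ) * N + 1) + 5 * Real.sqrt ((1 + 24 * δ) * N + 1) + Lm + 1 ≤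
        δ / 2 * N := by
    have h1 : Tendsto (fun x : ℝ => (2 * Real.log x + 5 * Real.sqrt x + (Lm + 1)) / x) atTop (𝓝 0) := by
      have e1 : Tendsto (fun x : ℝ => Real.log x / x) atTop (𝓝 0) := by
        have := Real.isLittleO_log_id_atTop.tendsto_div_nhds_zero
        simpa using this
      have e2 : Tendsto (fun x : ℝ => Real.sqrt x / x) atTop (𝓝 0) := by
        have h : Tendsto (fun x : ℝ => (Real.sqrt x)⁻¹) atTop (𝓝 0) :=
          (Real.tendsto_sqrt_atTop).inv_tendsto_atTop
        apply h.congr'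
        filter_upwards [eventually_gt_atTop 0] with x hx
        rw [div_eq_mul_inv]
        have := Real.mul_self_sqrt hx.le
        have hs : 0 < Real.sqrt x := Real.sqrt_pos.2 hx
        field_simp
        nlinarith
      have e3 : Tendsto (fun x : ℝ => (Lm + 1) / x) atTop (𝓝 0) :=
        tendsto_const_nhds.div_atTop tendsto_id
      have := ((e1.const_mul 2).add (e2.const_mul 5)).add e3
      simp only [mul_zero, add_zero] at this
      apply this.congr
      intro x
      ring
    have h2 : Tendsto (fun N : ℕ => (1 + 24 * δ) * (N : ℝ) + 1) atTop atTop :=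
      tendsto_atTop_add_const_right _ _ (tendsto_natCast_atTop_atTop.const_mul_atTop (by positivity))
    have h3 := h1.comp h2
    set c0 : ℝ := δ / (4 * (1 + 24 * δ)) with hc0
    have hc0' : 0 < c0 := by rw [hc0]; positivity
    have h4 := h3.eventually (gt_mem_nhds hc0')
    filter_upwards [h4, eventually_ge_atTop 1] with N hN hN1
    simp only [Function.comp] at hN
    have hN1' : (1 : ℝ) ≤ N := by exact_mod_cast hN1
    have hpos : 0 < (1 + 24 * δ) * (N : ℝ) + 1 := by positivity
    rw [div_lt_iff₀ hpos] at hN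
    have h5 : c0 * ((1 + 24 * δ) * (N : ℝ) + 1) ≤ δ / 2 * N := by
      have : (1 + 24 * δ) * (N : ℝ) + 1 ≤ 2 * ((1 + 24 * δ) * N) := by nlinarith
      calc c0 * ((1 + 24 * δ) * (N : ℝ) + 1) ≤ c0 * (2 * ((1 + 24 * δ) * N)) :=
            mul_le_mul_of_nonneg_left this hc0'.le
        _ = δ / 2 * N := by rw [hc0]; field_simp; ring
    linarith
  filter_upwards [hbig, eventually_ge_atTop 1] with N hN hN1
  have hN1' : (1 : ℝ) ≤ N := by exact_mod_cast hN1
  set T := ⌊δ * N⌋₊ with hT
  have hT1 : (T : ℝ) ≤ δ * N := Nat.floor_le (by positivity)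
  have hT2 : δ * N < T + 1 := Nat.lt_floor_add_one _
  set a := ⌊ρ / 2 * N⌋₊ with ha
  have ha1 : (a : ℝ) ≤ ρ / 2 * N := Nat.floor_le (by positivity)
  set g := ⌈α * N⌉₊ with hg
  have hg1 : α * N ≤ g := Nat.le_ceil _
  set w : ℕ → ℝ := fun t => ∑ s ∈ XX S M N a g t, Real.exp (-(s.length * Lm)) with hw
  have hw0 : ∀ t, 0 ≤ w t := fun t => sum_nonneg fun _ _ => (Real.exp_pos _).le
  have hstep : ∀ t, t < T → Real.exp 1 * w t ≤ w (t + 1) := by
    intro t ht
    have htT : (t : ℝ) + 1 ≤ T := by exact_mod_cast ht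
    have h1 := flow_step S M N a g t
    rw [← hCG, ← hCF, ← hK0] at h1
    have h2 : α / 2 * N ≤ (g : ℝ) - CG * t := by
      have : CG * t ≤ CG * (δ * N) := by
        apply mul_le_mul_of_nonneg_left _ hCG0.le
        linarith
      nlinarith
    have h3 : (a : ℝ) + CF * (t + 1) ≤ ρ * N := by
      have : CF * (t + 1) ≤ CF * (δ * N) := by
        apply mul_le_mul_of_nonneg_left _ hCF0
        linarith
      nlinarith
    have h4 : α / 2 * N * Real.exp (-(24 * Lm)) * w t ≤ ρ * N * K0 * w (t + 1) := by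
      calc α / 2 * N * Real.exp (-(24 * Lm)) * w t
          ≤ ((g : ℝ) - CG * t) * Real.exp (-(24 * Lm)) * w t := by
            apply mul_le_mul_of_nonneg_right _ (hw0 t)
            apply mul_le_mul_of_nonneg_right h2 (Real.exp_pos _).le
        _ ≤ ((a : ℝ) + CF * (t + 1)) * K0 * w (t + 1) := h1
        _ ≤ ρ * N * K0 * w (t + 1) := by
            apply mul_le_mul_of_nonneg_right _ (hw0 _)
            apply mul_le_mul_of_nonneg_right h3 (by linarith)
    have h5 : ρ * K0 = α / 2 * Real.exp (-(24 * Lm)) * Real.exp (-1) := by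
      rw [hρ, mul_assoc (α / 2), ← Real.exp_add]
      have : -(24 * Lm) + -1 = -(24 * Lm + 1) := by ring
      rw [this, Real.exp_neg]
      field_simp
    have h6 : 0 < α / 2 * N * Real.exp (-(24 * Lm)) := by positivity
    have h7 : ρ * N * K0 * w (t + 1) =
        (α / 2 * N * Real.exp (-(24 * Lm))) * (Real.exp (-1) * w (t + 1)) := by
      calc ρ * N * K0 * w (t + 1) = (ρ * K0) * N * w (t + 1) := by ring
        _ = _ := by rw [h5]; ring
    rw [h7] at h4
    have h8 : w t ≤ Real.exp (-1) * w (t + 1) := le_of_mul_le_mul_left h4 h6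
    calc Real.exp 1 * w t ≤ Real.exp 1 * (Real.exp (-1) * w (t + 1)) :=
          mul_le_mul_of_nonneg_left h8 (Real.exp_pos _).le
      _ = w (t + 1) := by rw [← mul_assoc, ← Real.exp_add]; simp
  have hiter : ∀ t, t ≤ T → Real.exp t * w 0 ≤ w t := by
    intro t
    induction t with
    | zero => intro _; simp
    | succ t ih =>
      intro ht
      have h1 := ih (by omega)
      have h2 := hstep t (by omega)
      push_cast
      rw [add_comm (t : ℝ) 1, Real.exp_add, mul_assoc]
      exact (mul_le_mul_of_nonneg_left h1 (Real.exp_pos _).le).trans h2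
  have hfin := hiter T le_rfl
  have hbd := XX_bound S M N a g T
  have hw0' : ((Exc S M N α (ρ / 2)).card : ℝ) * Real.exp (-(N * Lm)) ≤ w 0 := by
    rw [← nsmul_eq_mul, ← sum_const]
    have hsub : Exc S M N α (ρ / 2) ⊆ XX S M N a g 0 := by
      intro s hs
      rw [Exc, mem_filter, mem_Cs] at hs
      obtain ⟨⟨h1, h2⟩, h3, h4⟩ := hs
      rw [mem_XX]
      refine ⟨by omega, h2, ?_, ?_⟩
      · rw [mul_zero, add_zero, ha]
        exact Nat.le_floor h4
      · rw [mul_zero, add_zero, hg]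
        exact Nat.ceil_le.2 h3
    calc ∑ s ∈ Exc S M N α (ρ / 2), Real.exp (-(N * Lm))
        = ∑ s ∈ Exc S M N α (ρ / 2), Real.exp (-(s.length * Lm)) := by
          apply sum_congr rfl
          intro s hs
          rw [Exc, mem_filter, mem_Cs] at hs
          rw [hs.1.1]
      _ ≤ _ := sum_le_sum_of_subset_of_nonneg hsub fun _ _ _ => (Real.exp_pos _).le
  have h1 : Real.exp T * (((Exc S M N α (ρ / 2)).card : ℝ) * Real.exp (-(N * Lm))) ≤
      ((N : ℝ) + 24 * T + 1) ^ 2 * Real.exp (5 * Real.sqrt (N + 24 * T + 1) + Lm) :=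
    (mul_le_mul_of_nonneg_left hw0' (Real.exp_pos _).le).trans (hfin.trans hbd)
  have h2 : (N : ℝ) + 24 * T + 1 ≤ (1 + 24 * δ) * N + 1 := by nlinarith
  have h3 : ((N : ℝ) + 24 * T + 1) ^ 2 * Real.exp (5 * Real.sqrt (N + 24 * T + 1) + Lm) ≤
      Real.exp (2 * Real.log ((1 + 24 * δ) * N + 1) + 5 * Real.sqrt ((1 + 24 * δ) * N + 1) + Lm) := by
    have hpos : 0 < (1 + 24 * δ) * (N : ℝ) + 1 := by positivity
    have e1 : Real.exp (2 * Real.log ((1 + 24 * δ) * N + 1) +
        5 * Real.sqrt ((1 + 24 * δ) * N + 1) + Lm) =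
        ((1 + 24 * δ) * N + 1) ^ 2 * Real.exp (5 * Real.sqrt ((1 + 24 * δ) * N + 1) + Lm) := by
      rw [add_assoc, Real.exp_add]
      congr 1
      rw [mul_comm, Real.exp_mul, Real.exp_log hpos]
      norm_num
    rw [e1]
    apply mul_le_mul
    · apply pow_le_pow_left₀ (by positivity) h2
    · apply Real.exp_le_exp.2
      have := Real.sqrt_le_sqrt h2
      linarith
    · positivity
    · positivity
  have h4 := h1.trans h3
  have h5 : ((Exc S M N α (ρ / 2)).card : ℝ) = Real.exp (N * Lm - T) *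
      (Real.exp T * (((Exc S M N α (ρ / 2)).card : ℝ) * Real.exp (-(N * Lm)))) := by
    have : Real.exp (N * Lm - T) * (Real.exp T * (((Exc S M N α (ρ / 2)).card : ℝ) *
        Real.exp (-(N * Lm)))) = ((Exc S M N α (ρ / 2)).card : ℝ) *
        (Real.exp (N * Lm - T) * Real.exp T * Real.exp (-(N * Lm))) := by ring
    rw [this, ← Real.exp_add, ← Real.exp_add]
    have : (N : ℝ) * Lm - T + T + -(N * Lm) = 0 := by ring
    rw [this, Real.exp_zero, mul_one]
  rw [h5]
  refine (mul_le_mul_of_nonneg_left h4 (Real.exp_pos _).le).trans ?_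
  rw [← Real.exp_add]
  apply Real.exp_le_exp.2
  nlinarith

end Pool.Agent.Lib27
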