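import Mathlib

set_option autoImplicit false

namespace Pool.Agent.Lib27

open Filter Topology

lemma floor_div_tendsto (c : ℝ) (hc : 0 ≤ c) :
    Tendsto (fun n : ℕ => (⌊c * n⌋₊ : ℝ) / n) atTop (𝓝 c) :=
  (tendsto_nat_floor_mul_div_atTop hc).comp tendsto_natCast_atTop_atTop

lemma alg1 (x y m n : ℝ) (hm : m ≠ 0) (hn : n ≠ 0) : x / n - y / m * (m / n) = (x - y) / n := by
  field_simp

lemma alg2 (x y m n : ℝ) (hm : m ≠ 0) (hn : n ≠ 0) : y / m * (m / n) - x / n = (y - x) / n := by
  field_simp

/-- ratio limit lemma -/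
theorem kesten (a : ℕ → ℝ) (ha : ∀ n, 0 < a n) (L : ℝ)
    (hL : Tendsto (fun n : ℕ => Real.log (a n) / n) atTop (𝓝 L)) (C : ℝ) (hC : 0 < C) (N : ℕ)
    (h : ∀ n ≥ N, (a (n + 1) / a n) ^ 2 ≤ a (n + 2) / a n + C / n) :
    Tendsto (fun n => a (n + 1) / a n) atTop (𝓝 (Real.exp L)) := by
  set κ := Real.exp L with hκ
  have hκ0 : 0 < κ := Real.exp_pos L
  set ρ : ℕ → ℝ := fun n => a (n + 1) / a n with hρ
  have hρ0 : ∀ n, 0 < ρ n := fun n => div_pos (ha _) (ha _)
  have hstep : ∀ n ≥ N, 1 ≤ n → ρ n ≤ ρ (n + 1) + C / (n * ρ n) := by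
    intro n hn hn1
    have h1 := h n hn
    have hn' : (0 : ℝ) < n := by exact_mod_cast hn1
    have h2 : a (n + 2) / a n = ρ n * ρ (n + 1) := by
      simp only [hρ]
      have := (ha (n + 1)).ne'
      have := (ha n).ne'
      field_simp
    rw [h2] at h1
    have h3 : ρ n ^ 2 ≤ ρ n * ρ (n + 1) + C / n := h1
    have h4 := hρ0 n
    have h5 : C / (n * ρ n) = (C / n) / ρ n := by field_simp
    rw [h5, ← sub_le_iff_le_add', le_div_iff₀ h4]
    nlinarith
  have hmt : Tendsto (fun n : ℕ => (n : ℝ)) atTop atTop := tendsto_natCast_atTop_atTop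
  rw [tendsto_order]
  constructor
  · -- lower bound
    intro b hb
    by_contra hcon
    rw [not_eventually] at hcon
    -- choose δ
    obtain ⟨δ, hδ0, hδ1, hδ2⟩ : ∃ δ : ℝ, 0 < δ ∧ 4 * δ ≤ κ ∧ b ≤ κ - 2 * δ := by
      refine ⟨min (κ / 4) ((κ - b) / 2), lt_min (by linarith) (by linarith), ?_, ?_⟩
      · have := min_le_left (κ / 4) ((κ - b) / 2); linarith
      · have := min_le_right (κ / 4) ((κ - b) / 2); linarith
    set E := 4 * C / κ with hE
    have hE0 : 0 < E := by positivity
    set c := min (1 / 2) (δ / E) with hc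
    have hc0 : 0 < c := lt_min (by norm_num) (by positivity)
    have hc1 : c ≤ 1 / 2 := min_le_left _ _
    have hc2 : c * E ≤ δ := by
      have := min_le_right (1 / 2 : ℝ) (δ / E)
      rw [← hc] at this
      rwa [le_div_iff₀ hE0] at this
    -- main claim
    have hclaim : ∀ n : ℕ, 2 * N + 2 ≤ n → ρ n ≤ b → ∀ m : ℕ, (m : ℝ) ≤ c * n →
        ρ (n - m) ≤ κ - 2 * δ + E * m / n := by
      intro n hn hρn m
      have hn0 : (0 : ℝ) < n := by
        have : 0 < n := by omega
        exact_mod_cast this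
      induction m with
      | zero => intro _; simp; linarith
      | succ m ih =>
        intro hm
        have hm' : (m : ℝ) ≤ c * n := by push_cast at hm; linarith
        have ih := ih hm'
        have hmn : (m : ℝ) + 1 ≤ n / 2 := by
          push_cast at hm
          nlinarith
        have hmn2 : 2 * (m + 1) ≤ n := by
          have : (2 : ℝ) * (m + 1) ≤ n := by linarith
          exact_mod_cast this
        have hj : n - m = (n - (m + 1)) + 1 := by omega
        set j := n - (m + 1) with hjdef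
        have hjN : N ≤ j := by omega
        have hj1 : 1 ≤ j := by omega
        have hjr : (n : ℝ) / 2 ≤ j := by
          have : n ≤ 2 * j := by omega
          have : (n : ℝ) ≤ 2 * j := by exact_mod_cast this
          linarith
        have hpos : 0 ≤ E * (m + 1 : ℕ) / n := by positivity
        rcases le_or_gt (ρ j) (κ / 2) with h1 | h1
        · linarith
        · have h2 := hstep j hjN hj1
          rw [hj] at ih
          have hj0 : (0 : ℝ) < j := by exact_mod_cast hj1
          have h3 : C / (j * ρ j) ≤ E / n := by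
            rw [hE, div_div, div_le_div_iff₀ (mul_pos hj0 (hρ0 j)) (mul_pos hκ0 hn0)]
            have : κ * n ≤ 4 * (j * ρ j) := by nlinarith
            nlinarith
          have h4 : E * (m + 1 : ℕ) / n = E * m / n + E / n := by push_cast; ring
          rw [h4]
          linarith
    have hprod : ∀ n : ℕ, 2 * N + 2 ≤ n → ρ n ≤ b → ∀ m : ℕ, (m : ℝ) ≤ c * n →
        Real.log (a n) - Real.log (a (n - m)) ≤ m * Real.log (κ - δ) := by
      intro n hn hρn m
      have hn0 : (0 : ℝ) < n := by
        have : 0 < n := by omega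
        exact_mod_cast this
      induction m with
      | zero => intro _; simp
      | succ m ih =>
        intro hm
        have hm' : (m : ℝ) ≤ c * n := by push_cast at hm; linarith
        have ih := ih hm'
        have hmn : (m : ℝ) + 1 ≤ n / 2 := by
          push_cast at hm
          nlinarith
        have hmn2 : 2 * (m + 1) ≤ n := by
          have : (2 : ℝ) * (m + 1) ≤ n := by linarith
          exact_mod_cast this
        have hj : n - m = (n - (m + 1)) + 1 := by omega
        have h1 := hclaim n hn hρn (m + 1) hm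
        have h2 : E * (m + 1 : ℕ) / n ≤ δ := by
          rw [div_le_iff₀ hn0]
          calc E * (m + 1 : ℕ) ≤ E * (c * n) := by gcongr
            _ = (c * E) * n := by ring
            _ ≤ δ * n := by gcongr
        have h3 : ρ (n - (m + 1)) ≤ κ - δ := by linarith
        have h4 : Real.log (a (n - m)) - Real.log (a (n - (m + 1))) ≤ Real.log (κ - δ) := by
          rw [hj, ← Real.log_div (ha _).ne' (ha _).ne']
          exact Real.log_le_log (hρ0 _) h3
        push_cast
        linarith
    -- limits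
    have hA : Tendsto (fun n : ℕ => (n - ⌊c * n⌋₊ : ℕ)) atTop atTop := by
      refine tendsto_atTop_atTop.2 (fun M => ⟨2 * M, fun n hn => ?_⟩)
      have h1 : (⌊c * n⌋₊ : ℝ) ≤ c * n := Nat.floor_le (by positivity)
      have h2 : (⌊c * n⌋₊ : ℝ) ≤ n / 2 := by nlinarith [(Nat.cast_nonneg n : (0 : ℝ) ≤ n)]
      have h3 : 2 * ⌊c * n⌋₊ ≤ n := by
        have : (2 : ℝ) * ⌊c * n⌋₊ ≤ n := by linarith
        exact_mod_cast this
      omega
    have hfl := floor_div_tendsto c hc0.le
    have hB : Tendsto (fun n : ℕ => ((n - ⌊c * n⌋₊ : ℕ) : ℝ) / n) atTop (𝓝 (1 - c)) := by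
      have h1 : Tendsto (fun n : ℕ => 1 - (⌊c * n⌋₊ : ℝ) / n) atTop (𝓝 (1 - c)) :=
        tendsto_const_nhds.sub hfl
      refine h1.congr' ?_
      filter_upwards [eventually_ge_atTop 1] with n hn
      have hn0 : (n : ℝ) ≠ 0 := by positivity
      have h2 : ⌊c * n⌋₊ ≤ n := by
        have h3 : (⌊c * n⌋₊ : ℝ) ≤ c * n := Nat.floor_le (by positivity)
        have h4 : (⌊c * n⌋₊ : ℝ) ≤ n := by nlinarith [(Nat.cast_nonneg n : (0 : ℝ) ≤ n)]
        exact_mod_cast h4
      rw [Nat.cast_sub h2]
      field_simp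
    have hD : Tendsto (fun n : ℕ => Real.log (a n) / n -
        Real.log (a (n - ⌊c * n⌋₊)) / ((n - ⌊c * n⌋₊ : ℕ) : ℝ) *
          (((n - ⌊c * n⌋₊ : ℕ) : ℝ) / n)) atTop (𝓝 (L - L * (1 - c))) :=
      hL.sub ((hL.comp hA).mul hB)
    have hE' : Tendsto (fun n : ℕ => (⌊c * n⌋₊ : ℝ) / n * Real.log (κ - δ)) atTop
        (𝓝 (c * Real.log (κ - δ))) := hfl.mul_const _
    have hfinal : L - L * (1 - c) ≤ c * Real.log (κ - δ) := by
      refine le_of_tendsto_of_tendsto_of_frequently hD hE' ?_
      refine (hcon.and_eventually (eventually_ge_atTop (2 * N + 2))).mono ?_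
      rintro n ⟨hn1, hn2⟩
      have hρn : ρ n ≤ b := not_lt.1 hn1
      have h1 := hprod n hn2 hρn ⌊c * n⌋₊ (Nat.floor_le (by positivity))
      have hn0 : (0 : ℝ) < n := by
        have : 0 < n := by omega
        exact_mod_cast this
      have h2 : ((n - ⌊c * n⌋₊ : ℕ) : ℝ) ≠ 0 := by
        have h3 : (⌊c * n⌋₊ : ℝ) ≤ c * n := Nat.floor_le (by positivity)
        have h4 : (⌊c * n⌋₊ : ℝ) ≤ n / 2 := by nlinarith
        have h5 : 2 * ⌊c * n⌋₊ ≤ n := by
          have : (2 : ℝ) * ⌊c * n⌋₊ ≤ n := by linarith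
          exact_mod_cast this
        have : n - ⌊c * n⌋₊ ≠ 0 := by omega
        exact_mod_cast this
      have h3 : Real.log (a n) / n - Real.log (a (n - ⌊c * n⌋₊)) / ((n - ⌊c * n⌋₊ : ℕ) : ℝ) *
          (((n - ⌊c * n⌋₊ : ℕ) : ℝ) / n) = (Real.log (a n) - Real.log (a (n - ⌊c * n⌋₊))) / n :=
        alg1 _ _ _ _ h2 hn0.ne'
      rw [h3, div_mul_eq_mul_div]
      exact div_le_div_of_nonneg_right h1 hn0.le
    have hlog : Real.log (κ - δ) < L := by
      rw [← Real.log_exp L, ← hκ]
      exact Real.log_lt_log (by linarith) (by linarith)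
    nlinarith
  · -- upper bound
    intro b hb
    by_contra hcon
    rw [not_eventually] at hcon
    obtain ⟨δ, hδ0, hδ2⟩ : ∃ δ : ℝ, 0 < δ ∧ κ + 2 * δ ≤ b :=
      ⟨(b - κ) / 2, by linarith, by linarith⟩
    set E := C / κ with hE
    have hE0 : 0 < E := by positivity
    set c := δ / E with hc
    have hc0 : 0 < c := by positivity
    have hc2 : c * E ≤ δ := by
      rw [hc]; field_simp; exact le_rfl
    have hclaim : ∀ n : ℕ, N + 1 ≤ n → b ≤ ρ n → ∀ m : ℕ, (m : ℝ) ≤ c * n →
        κ + 2 * δ - E * m / n ≤ ρ (n + m) := by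
      intro n hn hρn m
      have hn0 : (0 : ℝ) < n := by
        have : 0 < n := by omega
        exact_mod_cast this
      induction m with
      | zero => intro _; simp; linarith
      | succ m ih =>
        intro hm
        have hm' : (m : ℝ) ≤ c * n := by push_cast at hm; linarith
        have ih := ih hm'
        have h2 : E * m / n ≤ δ := by
          rw [div_le_iff₀ hn0]
          calc E * m ≤ E * (c * n) := by gcongr
            _ = (c * E) * n := by ring
            _ ≤ δ * n := by gcongr
        have h3 : κ ≤ ρ (n + m) := by linarith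
        have h4 := hstep (n + m) (by omega) (by omega)
        have h5 : C / ((n + m : ℕ) * ρ (n + m)) ≤ E / n := by
          rw [hE, div_div]
          apply div_le_div_of_nonneg_left hC.le (by positivity)
          push_cast
          have : (0 : ℝ) ≤ m := by positivity
          nlinarith
        have h6 : E * (m + 1 : ℕ) / n = E * m / n + E / n := by push_cast; ring
        rw [h6]
        have h7 : n + (m + 1) = n + m + 1 := by omega
        rw [h7]
        linarith
    have hprod : ∀ n : ℕ, N + 1 ≤ n → b ≤ ρ n → ∀ m : ℕ, (m : ℝ) ≤ c * n →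
        m * Real.log (κ + δ) ≤ Real.log (a (n + m)) - Real.log (a n) := by
      intro n hn hρn m
      have hn0 : (0 : ℝ) < n := by
        have : 0 < n := by omega
        exact_mod_cast this
      induction m with
      | zero => intro _; simp
      | succ m ih =>
        intro hm
        have hm' : (m : ℝ) ≤ c * n := by push_cast at hm; linarith
        have ih := ih hm'
        have h1 := hclaim n hn hρn m hm'
        have h2 : E * m / n ≤ δ := by
          rw [div_le_iff₀ hn0]
          calc E * m ≤ E * (c * n) := by gcongr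
            _ = (c * E) * n := by ring
            _ ≤ δ * n := by gcongr
        have h3 : κ + δ ≤ ρ (n + m) := by linarith
        have h4 : Real.log (κ + δ) ≤ Real.log (a (n + (m + 1))) - Real.log (a (n + m)) := by
          rw [← Real.log_div (ha _).ne' (ha _).ne']
          exact Real.log_le_log (by linarith) h3
        push_cast
        linarith
    have hA : Tendsto (fun n : ℕ => n + ⌊c * n⌋₊) atTop atTop :=
      tendsto_atTop_mono (fun n => Nat.le_add_right _ _) tendsto_id
    have hfl := floor_div_tendsto c hc0.le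
    have hB : Tendsto (fun n : ℕ => ((n + ⌊c * n⌋₊ : ℕ) : ℝ) / n) atTop (𝓝 (1 + c)) := by
      have h1 : Tendsto (fun n : ℕ => 1 + (⌊c * n⌋₊ : ℝ) / n) atTop (𝓝 (1 + c)) :=
        tendsto_const_nhds.add hfl
      refine h1.congr' ?_
      filter_upwards [eventually_ge_atTop 1] with n hn
      have hn0 : (n : ℝ) ≠ 0 := by positivity
      push_cast
      field_simp
    have hD : Tendsto (fun n : ℕ =>
        Real.log (a (n + ⌊c * n⌋₊)) / ((n + ⌊c * n⌋₊ : ℕ) : ℝ) *
          (((n + ⌊c * n⌋₊ : ℕ) : ℝ) / n) - Real.log (a n) / n) atTop (𝓝 (L * (1 + c) - L)) :=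
      ((hL.comp hA).mul hB).sub hL
    have hE' : Tendsto (fun n : ℕ => (⌊c * n⌋₊ : ℝ) / n * Real.log (κ + δ)) atTop
        (𝓝 (c * Real.log (κ + δ))) := hfl.mul_const _
    have hfinal : c * Real.log (κ + δ) ≤ L * (1 + c) - L := by
      refine le_of_tendsto_of_tendsto_of_frequently hE' hD ?_
      refine (hcon.and_eventually (eventually_ge_atTop (N + 1))).mono ?_
      rintro n ⟨hn1, hn2⟩
      have hρn : b ≤ ρ n := not_lt.1 hn1
      have h1 := hprod n hn2 hρn ⌊c * n⌋₊ (Nat.floor_le (by positivity))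
      have hn0 : (0 : ℝ) < n := by
        have : 0 < n := by omega
        exact_mod_cast this
      have h2 : ((n + ⌊c * n⌋₊ : ℕ) : ℝ) ≠ 0 := by
        have : n + ⌊c * n⌋₊ ≠ 0 := by omega
        exact_mod_cast this
      have h3 : Real.log (a (n + ⌊c * n⌋₊)) / ((n + ⌊c * n⌋₊ : ℕ) : ℝ) *
          (((n + ⌊c * n⌋₊ : ℕ) : ℝ) / n) - Real.log (a n) / n =
          (Real.log (a (n + ⌊c * n⌋₊)) - Real.log (a n)) / n :=
        alg2 _ _ _ _ h2 hn0.ne'
      rw [h3, div_mul_eq_mul_div]
      exact div_le_div_of_nonneg_right h1 hn0.le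
    have hlog : L < Real.log (κ + δ) := by
      conv_lhs => rw [← Real.log_exp L, ← hκ]
      exact Real.log_lt_log hκ0 (by linarith)
    nlinarith

end Pool.Agent.Lib27
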