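import Pool.Agent.Lib_helper27.Poor

set_option autoImplicit false

namespace Pool.Agent.Lib27

open Finset Filter Topology

/-- all positions of the walk, end point included -/
def fv (p : ℤ × ℤ) : List (Fin 4) → List (ℤ × ℤ)
  | [] => [p]
  | d :: s => p :: fv (p + dv d) s

lemma fv_eq (p : ℤ × ℤ) (s : List (Fin 4)) : fv p s = vs p s ++ [ep p s] := by
  induction s generalizing p with
  | nil => rfl
  | cons d s ih => simp [fv, ih]

lemma fv_append (p : ℤ × ℤ) (s t : List (Fin 4)) : fv p (s ++ t) = vs p s ++ fv (ep p s) t := by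
  induction s generalizing p with
  | nil => rfl
  | cons d s ih => simp [fv, ih]

lemma fv_append' (p : ℤ × ℤ) (s t : List (Fin 4)) :
    fv p (s ++ t) = fv p s ++ (fv (ep p s) t).tail := by
  induction s generalizing p with
  | nil =>
    cases t <;> simp [fv]
  | cons d s ih => simp [fv, ih]

lemma fv_translate (p q : ℤ × ℤ) (s : List (Fin 4)) : fv (p + q) s = (fv p s).map (· + q) := by
  rw [fv_eq, fv_eq, vs_add, ep_add]; simp

lemma fv_eq0 (p : ℤ × ℤ) (s : List (Fin 4)) : fv p s = (fv 0 s).map (· + p) := by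
  rw [← fv_translate, zero_add]

lemma head_mem_fv (p : ℤ × ℤ) (s : List (Fin 4)) : p ∈ fv p s := by
  cases s <;> simp [fv]

lemma ep_mem_fv (p : ℤ × ℤ) (s : List (Fin 4)) : ep p s ∈ fv p s := by
  rw [fv_eq]; simp

/-- bridges in the East direction -/
def BR (w : List (Fin 4)) : Prop :=
  (∀ v ∈ (fv 0 w).tail, 0 < v.1) ∧ (∀ v ∈ fv 0 w, v.1 ≤ (ep 0 w).1) ∧ (fv 0 w).Nodup

instance (w : List (Fin 4)) : Decidable (BR w) := by unfold BR; infer_instance

lemma BR_nil : BR [] := by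
  refine ⟨by simp [fv], by simp [fv], by simp [fv]⟩

lemma BR_ep_nonneg (w : List (Fin 4)) (h : BR w) : 0 ≤ (ep 0 w).1 := by
  have := h.2.1 0 (head_mem_fv 0 w)
  simpa using this

lemma fv_head_tail (p : ℤ × ℤ) (s : List (Fin 4)) : fv p s = p :: (fv p s).tail := by
  cases s <;> simp [fv]

lemma BR_append (w₁ w₂ : List (Fin 4)) (h₁ : BR w₁) (h₂ : BR w₂) : BR (w₁ ++ w₂) := by
  obtain ⟨a1, b1, c1⟩ := h₁
  have e2 := BR_ep_nonneg w₂ h₂
  have e1 := BR_ep_nonneg w₁ ⟨a1, b1, c1⟩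
  obtain ⟨a2, b2, c2⟩ := h₂
  have hep : ep 0 (w₁ ++ w₂) = ep 0 w₂ + ep 0 w₁ := by
    rw [ep_append, ep_eq]
  have htail : (fv (ep 0 w₁) w₂).tail = ((fv 0 w₂).tail).map (· + ep 0 w₁) := by
    rw [fv_eq0, List.map_tail]
  have hb : ∀ v ∈ (fv (ep 0 w₁) w₂).tail, (ep 0 w₁).1 < v.1 := by
    intro v hv
    rw [htail, List.mem_map] at hv
    obtain ⟨u, hu, rfl⟩ := hv
    have := a2 u hu
    simp only [Prod.fst_add]
    linarith
  refine ⟨?_, ?_, ?_⟩
  · rw [fv_append']
    intro v hv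
    rw [fv_head_tail 0 w₁, List.cons_append, List.tail_cons, List.mem_append] at hv
    rcases hv with hv | hv
    · exact a1 v hv
    · have := hb v hv
      linarith
  · intro v hv
    rw [fv_append', List.mem_append] at hv
    rw [hep]
    simp only [Prod.fst_add]
    rcases hv with hv | hv
    · have := b1 v hv
      linarith
    · rw [htail, List.mem_map] at hv
      obtain ⟨u, hu, rfl⟩ := hv
      have := b2 u (List.mem_of_mem_tail hu)
      simp only [Prod.fst_add]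
      linarith
  · rw [fv_append', List.nodup_append']
    refine ⟨c1, ?_, ?_⟩
    · rw [htail]
      exact (c2.tail).map (add_left_injective _)
    · intro v hv hv'
      have h3 := b1 v hv
      have h4 := hb v hv'
      linarith

/-- reflection of words in the horizontal axis -/
def rf (w : List (Fin 4)) : List (Fin 4) := w.map (fun d => -d)

lemma dv_neg (d : Fin 4) : dv (-d) = ((dv d).1, -(dv d).2) := by revert d; decide

lemma ep_rf (p : ℤ × ℤ) (w : List (Fin 4)) : ep (p.1, -p.2) (rf w) = ((ep p w).1, -(ep p w).2) := by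
  induction w generalizing p with
  | nil => rfl
  | cons d w ih =>
    have := ih (p + dv d)
    simp only [rf, List.map_cons, ep_cons, dv_neg] at this ⊢
    rw [← this]
    congr 1
    simp [Prod.ext_iff]
    ring

lemma fv_rf (p : ℤ × ℤ) (w : List (Fin 4)) :
    fv (p.1, -p.2) (rf w) = (fv p w).map (fun v => (v.1, -v.2)) := by
  induction w generalizing p with
  | nil => rfl
  | cons d w ih =>
    have := ih (p + dv d)
    simp only [rf, List.map_cons, fv, dv_neg] at this ⊢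
    rw [← this]
    congr 2
    simp [Prod.ext_iff]
    ring

lemma zero_refl : (((0 : ℤ × ℤ)).1, -((0 : ℤ × ℤ)).2) = (0 : ℤ × ℤ) := by decide

lemma ep_rf0 (w : List (Fin 4)) : ep 0 (rf w) = ((ep 0 w).1, -(ep 0 w).2) := by
  have := ep_rf 0 w
  rw [zero_refl] at this
  exact this

lemma fv_rf0 (w : List (Fin 4)) : fv 0 (rf w) = (fv 0 w).map (fun v => (v.1, -v.2)) := by
  have := fv_rf 0 w
  rw [zero_refl] at this
  exact this

lemma BR_rf (w : List (Fin 4)) (h : BR w) : BR (rf w) := by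
  obtain ⟨a, b, c⟩ := h
  refine ⟨?_, ?_, ?_⟩
  · rw [fv_rf0, ← List.map_tail]
    intro v hv
    rw [List.mem_map] at hv
    obtain ⟨u, hu, rfl⟩ := hv
    exact a u hu
  · rw [fv_rf0, ep_rf0]
    intro v hv
    rw [List.mem_map] at hv
    obtain ⟨u, hu, rfl⟩ := hv
    exact b u hu
  · rw [fv_rf0]
    refine c.map ?_
    rintro ⟨x, y⟩ ⟨x', y'⟩ h
    simp only [Prod.mk.injEq, neg_inj] at h
    rw [h.1, h.2]

lemma rf_inj : Function.Injective rf := by
  intro a b h
  unfold rf at h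
  exact List.map_injective_iff.2 neg_injective h

/-- the building pieces -/
def Pcs : Finset (List (Fin 4)) :=
  {[0], [0, 1], [0, 1, 1], [0, 1, 1, 1], [0, 1, 1, 1, 1], [0, 1, 1, 1, 1, 1],
    [0, 1, 1, 1, 1, 1, 1], [0, 3], [0, 3, 3], [0, 3, 3, 3], [0, 3, 3, 3, 3], [0, 3, 3, 3, 3, 3],
    [0, 3, 3, 3, 3, 3, 3], [0, 0, 1, 2, 1, 0], [0, 0, 3, 2, 3, 0]}

lemma Pcs_BR : ∀ w ∈ Pcs, BR w := by decide

lemma Pcs_len : ∀ w ∈ Pcs, 1 ≤ w.length ∧ w.length ≤ 7 := by decide

lemma Pcs_sum : (1001 / 1000 : ℝ) ≤ ∑ w ∈ Pcs, (12 / 29 : ℝ) ^ w.length := by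
  rw [Pcs]
  repeat rw [sum_insert (by decide)]
  rw [sum_singleton]
  norm_num

/-- admissible starts -/
def gs (w : List (Fin 4)) : Prop :=
  w = [] ∨ ∃ w', w = 0 :: w' ∧ ¬ ([1, 2] <+: w') ∧ ¬ ([3, 2] <+: w')

lemma gs_append (p w : List (Fin 4)) (hp : p ∈ Pcs) (hw : gs w) : gs (p ++ w) := by
  right
  rcases hw with rfl | ⟨w', rfl, _, _⟩
  · rw [List.append_nil]
    simp only [Pcs, mem_insert, mem_singleton] at hp
    rcases hp with rfl | rfl | rfl | rfl | rfl | rfl | rfl | rfl | rfl | rfl | rfl | rfl | rfl |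
      rfl | rfl <;> exact ⟨_, rfl, by decide, by decide⟩
  · simp only [Pcs, mem_insert, mem_singleton] at hp
    rcases hp with rfl | rfl | rfl | rfl | rfl | rfl | rfl | rfl | rfl | rfl | rfl | rfl | rfl |
      rfl | rfl <;> exact ⟨_, rfl, by simp, by simp⟩

lemma Pcs_prefix : ∀ p ∈ Pcs, ∀ q ∈ Pcs, p <+: q → p ≠ q →
    ([1] <+: q.drop p.length ∨ [3] <+: q.drop p.length ∨ [0, 1, 2] <+: q.drop p.length ∨
      [0, 3, 2] <+: q.drop p.length) := by decide

lemma gs_no (a w : List (Fin 4)) (h : gs (a ++ w)) (ha : [1] <+: a ∨ [3] <+: a ∨ [0, 1, 2] <+: a ∨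
      [0, 3, 2] <+: a) : False := by
  rcases ha with ⟨t, rfl⟩ | ⟨t, rfl⟩ | ⟨t, rfl⟩ | ⟨t, rfl⟩ <;>
    rcases h with h | ⟨w', h, h1, h2⟩ <;> simp at h
  · apply h1; rw [← h]; simp
  · apply h2; rw [← h]; simp

lemma piece_inj (p q w w' : List (Fin 4)) (hp : p ∈ Pcs) (hq : q ∈ Pcs) (hw : gs w) (hw' : gs w')
    (h : p ++ w = q ++ w') : p = q ∧ w = w' := by
  have key : ∀ p q w w' : List (Fin 4), p ∈ Pcs → q ∈ Pcs → gs w → p ++ w = q ++ w' →
      p <+: q → p = q ∧ w = w' := by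
    intro p q w w' hp hq hw h hpre
    by_cases hpq : p = q
    · subst hpq
      exact ⟨rfl, List.append_cancel_left h⟩
    · exfalso
      have h1 := Pcs_prefix p hp q hq hpre hpq
      obtain ⟨t, rfl⟩ := hpre
      rw [List.append_assoc] at h
      have h2 := List.append_cancel_left h
      rw [List.drop_left] at h1
      rw [h2] at hw
      exact gs_no t w' hw h1
  rcases List.append_eq_append_iff.1 h with ⟨a, h1, h2⟩ | ⟨a, h1, h2⟩
  · exact key p q w w' hp hq hw h ⟨a, h1.symm⟩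
  · obtain ⟨e1, e2⟩ := key q p w' w hq hp hw' h.symm ⟨a, h1.symm⟩
    exact ⟨e1.symm, e2.symm⟩

/-- concatenations of `k` pieces -/
def Vk : ℕ → Finset (List (Fin 4))
  | 0 => {[]}
  | k + 1 => (Pcs ×ˢ Vk k).image (fun x => x.1 ++ x.2)

lemma Vk_props (k : ℕ) : ∀ w ∈ Vk k, gs w ∧ BR w ∧ w.length ≤ 7 * k := by
  induction k with
  | zero =>
    intro w hw
    simp only [Vk, mem_singleton] at hw
    subst hw
    exact ⟨Or.inl rfl, BR_nil, by simp⟩
  | succ k ih =>
    intro w hw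
    simp only [Vk, mem_image, mem_product, Prod.exists] at hw
    obtain ⟨p, w', ⟨hp, hw'⟩, rfl⟩ := hw
    obtain ⟨h1, h2, h3⟩ := ih w' hw'
    refine ⟨gs_append p w' hp h1, BR_append p w' (Pcs_BR p hp) h2, ?_⟩
    have := (Pcs_len p hp).2
    rw [List.length_append]
    omega

lemma Vk_sum (k : ℕ) : (1001 / 1000 : ℝ) ^ k ≤ ∑ w ∈ Vk k, (12 / 29 : ℝ) ^ w.length := by
  induction k with
  | zero => simp [Vk]
  | succ k ih =>
    rw [Vk, sum_image, sum_product]
    · have h1 : ∀ p ∈ Pcs, ∑ w ∈ Vk k, (12 / 29 : ℝ) ^ (p ++ w).length =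
          (12 / 29 : ℝ) ^ p.length * ∑ w ∈ Vk k, (12 / 29 : ℝ) ^ w.length := by
        intro p _
        rw [mul_sum]
        apply sum_congr rfl
        intro w _
        rw [List.length_append, pow_add]
      rw [sum_congr rfl h1, ← sum_mul, pow_succ, mul_comm]
      exact mul_le_mul Pcs_sum ih (by positivity) (sum_nonneg (fun _ _ => by positivity))
    · rintro ⟨p, w⟩ hp ⟨q, w'⟩ hq h
      simp only [coe_product, Set.mem_prod, mem_coe] at hp hq h
      obtain ⟨e1, e2⟩ := piece_inj p q w w' hp.1 hq.1 (Vk_props k w hp.2).1 (Vk_props k w' hq.2).1 h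
      rw [e1, e2]

end Pool.Agent.Lib27
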