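import Pool.Agent.Lib_helper27.Lower

set_option autoImplicit false

namespace Pool.Agent.Lib27

open Finset Filter Topology

/-- a class of bridges with common length and displacement, exponentially many of them -/
lemma exists_class : ∃ (l : ℕ) (e : ℤ × ℤ) (C : Finset (List (Fin 4))),
    (∀ w ∈ C, w.length = l ∧ ep 0 w = e ∧ BR w) ∧ (29 / 12 : ℝ) ^ l < C.card := by
  classical
  by_contra hcon
  push Not at hcon
  -- choose k large
  have hk : ∃ k : ℕ, ((7 * k + 1 : ℕ) : ℝ) * ((14 * k + 1 : ℕ) : ℝ) ^ 2 < (1001 / 1000 : ℝ) ^ k := by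
    have h1 := tendsto_pow_const_div_const_pow_of_one_lt 3 (r := (1001 / 1000 : ℝ)) (by norm_num)
    have h2 : ∀ᶠ k : ℕ in atTop, (k : ℝ) ^ 3 / (1001 / 1000 : ℝ) ^ k < 1 / 4000 :=
      h1.eventually_lt_const (by norm_num)
    obtain ⟨k, hk, hk1⟩ := (h2.and (eventually_ge_atTop 1)).exists
    refine ⟨k, ?_⟩
    have hk1' : (1 : ℝ) ≤ k := by exact_mod_cast hk1
    rw [div_lt_iff₀ (by positivity)] at hk
    push_cast
    have h3 : (7 * (k : ℝ) + 1) * (14 * (k : ℝ) + 1) ^ 2 ≤ 8 * k * (15 * k) ^ 2 := by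
      gcongr <;> nlinarith
    nlinarith [pow_pos (by linarith : (0 : ℝ) < k) 3]
  obtain ⟨k, hk⟩ := hk
  have hsum := Vk_sum k
  set T : Finset (ℕ × (ℤ × ℤ)) := range (7 * k + 1) ×ˢ
    (Icc (-(7 * k : ℤ)) (7 * k) ×ˢ Icc (-(7 * k : ℤ)) (7 * k)) with hT
  have hmaps : ∀ w ∈ Vk k, (w.length, ep 0 w) ∈ T := by
    intro w hw
    obtain ⟨_, _, hl⟩ := Vk_props k w hw
    have hb := ep_bound 0 w
    simp only [Prod.fst_zero, Prod.snd_zero] at hb
    have hl' : (w.length : ℤ) ≤ 7 * k := by exact_mod_cast hl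
    simp only [hT, mem_product, mem_range, mem_Icc]
    omega
  have h1 : ∑ w ∈ Vk k, (12 / 29 : ℝ) ^ w.length =
      ∑ c ∈ T, ∑ w ∈ (Vk k).filter (fun w => (w.length, ep 0 w) = c), (12 / 29 : ℝ) ^ w.length :=
    (sum_fiberwise_of_maps_to hmaps _).symm
  have h2 : ∀ c ∈ T, ∑ w ∈ (Vk k).filter (fun w => (w.length, ep 0 w) = c),
      (12 / 29 : ℝ) ^ w.length ≤ 1 := by
    rintro ⟨l, e⟩ _
    have h3 := hcon l e ((Vk k).filter (fun w => (w.length, ep 0 w) = (l, e))) (by
      intro w hw
      rw [mem_filter, Prod.mk.injEq] at hw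
      exact ⟨hw.2.1, hw.2.2, (Vk_props k w hw.1).2.1⟩)
    have h4 : ∑ w ∈ (Vk k).filter (fun w => (w.length, ep 0 w) = (l, e)),
        (12 / 29 : ℝ) ^ w.length = ((Vk k).filter (fun w => (w.length, ep 0 w) = (l, e))).card *
          (12 / 29 : ℝ) ^ l := by
      rw [← nsmul_eq_mul, ← sum_const]
      apply sum_congr rfl
      intro w hw
      rw [mem_filter, Prod.mk.injEq] at hw
      rw [hw.2.1]
    rw [h4]
    calc _ ≤ (29 / 12 : ℝ) ^ l * (12 / 29 : ℝ) ^ l :=
          mul_le_mul_of_nonneg_right h3 (by positivity)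
      _ = 1 := by rw [← mul_pow]; norm_num
  have h5 : ∑ w ∈ Vk k, (12 / 29 : ℝ) ^ w.length ≤ T.card := by
    rw [h1]
    calc _ ≤ ∑ c ∈ T, (1 : ℝ) := sum_le_sum h2
      _ = T.card := by simp
  have h6 : T.card = (7 * k + 1) * (14 * k + 1) ^ 2 := by
    rw [hT, card_product, card_product, card_range, Int.card_Icc]
    have : (7 * (k : ℤ) + 1 - -(7 * k)).toNat = 14 * k + 1 := by omega
    rw [this]; ring
  rw [h6] at h5
  push_cast at h5 hk
  linarith

/-- strands: `r` pairs of blocks -/
def Tp (C : Finset (List (Fin 4))) : ℕ → Finset (List (Fin 4))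
  | 0 => {[]}
  | r + 1 => ((C ×ˢ C) ×ˢ Tp C r).image (fun x => x.1.1 ++ (rf x.1.2 ++ x.2))

lemma rf_length (w : List (Fin 4)) : (rf w).length = w.length := by simp [rf]

lemma fv_bound (p : ℤ × ℤ) (s : List (Fin 4)) : ∀ v ∈ fv p s, v.2 ≤ p.2 + s.length ∧
    p.2 - s.length ≤ v.2 := by
  induction s generalizing p with
  | nil => intro v hv; simp [fv] at hv; subst hv; simp
  | cons d s ih =>
    intro v hv
    simp only [fv, List.mem_cons] at hv
    rcases hv with rfl | hv
    · simp only [List.length_cons, Nat.cast_add, Nat.cast_one]; omega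
    · have h1 := ih (p + dv d) v hv
      have h2 := dv_bound d
      simp only [Prod.snd_add, List.length_cons, Nat.cast_add, Nat.cast_one] at h1 ⊢
      omega

lemma Tp_props (C : Finset (List (Fin 4))) (l : ℕ) (e : ℤ × ℤ)
    (hC : ∀ w ∈ C, w.length = l ∧ ep 0 w = e ∧ BR w) (r : ℕ) :
    (∀ u ∈ Tp C r, u.length = 2 * r * l ∧ ep 0 u = (2 * r * e.1, 0) ∧ BR u ∧
      ∀ v ∈ fv 0 u, v.2 ≤ 2 * l ∧ -(2 * l : ℤ) ≤ v.2) ∧ (Tp C r).card = C.card ^ (2 * r) := by
  induction r with
  | zero =>
    refine ⟨?_, by simp [Tp]⟩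
    intro u hu
    simp only [Tp, mem_singleton] at hu
    subst hu
    refine ⟨by simp, by simp [Prod.ext_iff], BR_nil, ?_⟩
    intro v hv
    simp [fv] at hv
    subst hv
    simp
  | succ r ih =>
    obtain ⟨ih1, ih2⟩ := ih
    constructor
    · intro u hu
      simp only [Tp, mem_image, mem_product, Prod.exists] at hu
      obtain ⟨w, w', u', ⟨⟨hw, hw'⟩, hu'⟩, rfl⟩ := hu
      obtain ⟨a1, a2, a3⟩ := hC w hw
      obtain ⟨b1, b2, b3⟩ := hC w' hw'
      obtain ⟨c1, c2, c3, c4⟩ := ih1 u' hu'
      have e1 : ep 0 (w ++ rf w') = (2 * e.1, 0) := by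
        rw [ep_append, ep_eq, ep_rf0, a2, b2]
        simp [Prod.ext_iff]; ring
      refine ⟨?_, ?_, ?_, ?_⟩
      · simp only [List.length_append, rf_length, a1, b1, c1]; ring
      · rw [← List.append_assoc, ep_append, ep_eq, e1, c2]
        simp [Prod.ext_iff]; ring
      · exact BR_append _ _ a3 (BR_append _ _ (BR_rf _ b3) c3)
      · intro v hv
        rw [← List.append_assoc, fv_append', List.mem_append] at hv
        rcases hv with hv | hv
        · have := fv_bound 0 (w ++ rf w') v hv
          simp only [List.length_append, rf_length, a1, b1, Prod.snd_zero] at this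
          push_cast at this
          constructor <;> linarith [this.1, this.2]
        · have hv := List.mem_of_mem_tail hv
          rw [fv_eq0, e1, List.mem_map] at hv
          obtain ⟨x, hx, rfl⟩ := hv
          have := c4 x hx
          simpa using this
    · rw [Tp, card_image_of_injOn, card_product, card_product, ih2]
      · ring
      · rintro ⟨⟨a, b⟩, c⟩ h ⟨⟨a', b'⟩, c'⟩ h' heq
        simp only [coe_product, Set.mem_prod, mem_coe] at h h'
        simp only at heq
        obtain ⟨e1, e2⟩ := List.append_inj heq (by rw [(hC a h.1.1).1, (hC a' h'.1.1).1])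
        obtain ⟨e3, e4⟩ := List.append_inj e2 (by
          rw [rf_length, rf_length, (hC b h.1.2).1, (hC b' h'.1.2).1])
        rw [e1, rf_inj e3, e4]

/-- vertical segments -/
lemma ep_rep (p : ℤ × ℤ) (h : ℕ) (d : Fin 4) :
    ep p (List.replicate h d) = p + ((h : ℤ) * (dv d).1, (h : ℤ) * (dv d).2) := by
  induction h generalizing p with
  | zero => simp
  | succ h ih =>
    rw [List.replicate_succ, ep_cons, ih]
    simp [Prod.ext_iff]
    constructor <;> ring

lemma vs_rep_down (p : ℤ × ℤ) (h : ℕ) : (∀ v ∈ vs p (List.replicate h 3), v.1 = p.1 ∧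
    v.2 ≤ p.2 ∧ p.2 - h < v.2) ∧ (vs p (List.replicate h 3)).Nodup := by
  induction h generalizing p with
  | zero => simp
  | succ h ih =>
    obtain ⟨i1, i2⟩ := ih (p + dv 3)
    have e1 : (p + dv 3).1 = p.1 := by simp [dv]
    have e2 : (p + dv 3).2 = p.2 - 1 := by simp [dv]; ring
    rw [e1, e2] at i1
    rw [List.replicate_succ, vs_cons]
    constructor
    · intro v hv
      rw [List.mem_cons] at hv
      rcases hv with rfl | hv
      · refine ⟨rfl, le_rfl, by push_cast; linarith⟩
      · obtain ⟨h1, h2, h3⟩ := i1 v hv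
        refine ⟨h1, by linarith, by push_cast; linarith⟩
    · rw [List.nodup_cons]
      refine ⟨fun hp => ?_, i2⟩
      have := (i1 p hp).2.1
      linarith

lemma vs_rep_up (p : ℤ × ℤ) (h : ℕ) : (∀ v ∈ vs p (List.replicate h 1), v.1 = p.1 ∧
    p.2 ≤ v.2 ∧ v.2 < p.2 + h) ∧ (vs p (List.replicate h 1)).Nodup := by
  induction h generalizing p with
  | zero => simp
  | succ h ih =>
    obtain ⟨i1, i2⟩ := ih (p + dv 1)
    have e1 : (p + dv 1).1 = p.1 := by simp [dv]
    have e2 : (p + dv 1).2 = p.2 + 1 := by simp [dv]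
    rw [e1, e2] at i1
    rw [List.replicate_succ, vs_cons]
    constructor
    · intro v hv
      rw [List.mem_cons] at hv
      rcases hv with rfl | hv
      · refine ⟨rfl, le_rfl, by push_cast; linarith⟩
      · obtain ⟨h1, h2, h3⟩ := i1 v hv
        refine ⟨h1, by linarith, by push_cast; linarith⟩
    · rw [List.nodup_cons]
      refine ⟨fun hp => ?_, i2⟩
      have := (i1 p hp).2.1
      linarith

/-- half turn of a word -/
def ht (w : List (Fin 4)) : List (Fin 4) := w.map (· + 2)

lemma ep_ht (p : ℤ × ℤ) (w : List (Fin 4)) : ep p (ht w) = p - ep 0 w := by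
  induction w generalizing p with
  | nil => simp [ht]
  | cons d w ih =>
    have := ih (p + dv (d + 2))
    simp only [ht, List.map_cons, ep_cons] at this ⊢
    rw [this, dv_add_two, ep_eq (0 + dv d)]
    abel

lemma fv_ht (p : ℤ × ℤ) (w : List (Fin 4)) : fv p (ht w) = (fv 0 w).map (fun v => p - v) := by
  induction w generalizing p with
  | nil => simp [ht, fv]
  | cons d w ih =>
    have := ih (p + dv (d + 2))
    simp only [ht, List.map_cons, fv] at this ⊢
    rw [this, dv_add_two, fv_eq0 (0 + dv d), List.map_map]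
    congr 1
    · simp
    · apply List.map_congr_left
      intro v _
      simp only [Function.comp_apply]
      abel

/-- the polygon made of two strands -/
def poly (a b : List (Fin 4)) (h : ℕ) : List (Fin 4) :=
  a ++ (0 :: (List.replicate h 3 ++ (ht b ++ (2 :: List.replicate h 1))))

lemma poly_SAPw (a b : List (Fin 4)) (H : ℤ) (X : ℤ) (h : ℕ) (hh : 2 * H < h)
    (ha : BR a) (hb : BR b) (hae : ep 0 a = (X, 0)) (hbe : ep 0 b = (X, 0))
    (hav : ∀ v ∈ fv 0 a, v.2 ≤ H ∧ -H ≤ v.2) (hbv : ∀ v ∈ fv 0 b, v.2 ≤ H ∧ -H ≤ v.2) :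
    SAPw (poly a b h) := by
  have hX : 0 ≤ X := by
    have := BR_ep_nonneg a ha
    rw [hae] at this; exact this
  have e1 : ((X, 0) : ℤ × ℤ) + dv 0 = (X + 1, 0) := by simp [dv]
  have e2 : ep (X + 1, 0) (List.replicate h 3) = (X + 1, -(h : ℤ)) := by
    rw [ep_rep]; simp [dv]
  have e3 : ep (X + 1, -(h : ℤ)) (ht b) = (1, -(h : ℤ)) := by
    rw [ep_ht, hbe]; simp
  have e4 : ((1, -(h : ℤ)) : ℤ × ℤ) + dv 2 = (0, -(h : ℤ)) := by simp [dv]
  have e5 : ep (0, -(h : ℤ)) (List.replicate h 1) = 0 := by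
    rw [ep_rep]; simp [dv]
  constructor
  · rw [poly, ep_append, hae, ep_cons, e1, ep_append, e2, ep_append, e3, ep_cons, e4, e5]
  · have hvs : vs 0 (poly a b h) = fv 0 a ++ (vs (X + 1, 0) (List.replicate h 3) ++
        (fv (X + 1, -(h : ℤ)) (ht b) ++ vs (0, -(h : ℤ)) (List.replicate h 1))) := by
      rw [poly, vs_append, hae, vs_cons, e1, vs_append, e2, vs_append, e3, vs_cons, e4,
        fv_eq 0 a, fv_eq _ (ht b), hae, e3]
      simp
    rw [hvs]
    obtain ⟨d1, d2⟩ := vs_rep_down (X + 1, 0) h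
    obtain ⟨u1, u2⟩ := vs_rep_up (0, -(h : ℤ)) h
    have hfb : ∀ v ∈ fv (X + 1, -(h : ℤ)) (ht b), v.2 < -H ∧ 1 ≤ v.1 ∧
        (v.1 = X + 1 → v.2 = -(h : ℤ)) := by
      intro v hv
      rw [fv_ht, List.mem_map] at hv
      obtain ⟨x, hx, rfl⟩ := hv
      have f1 := hbv x hx
      have f2 := hb.2.1 x hx
      rw [hbe] at f2
      refine ⟨?_, ?_, ?_⟩
      · simp only [Prod.snd_sub]; linarith
      · simp only [Prod.fst_sub]; linarith
      · simp only [Prod.fst_sub, Prod.snd_sub]
        intro hx1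
        rw [fv_head_tail, List.mem_cons] at hx
        rcases hx with rfl | hx
        · simp
        · have := hb.1 x hx
          linarith
    have hfa : ∀ v ∈ fv 0 a, -H ≤ v.2 ∧ v.1 ≤ X ∧ (v.1 = 0 → v.2 = 0) := by
      intro v hv
      have f1 := hav v hv
      have f2 := ha.2.1 v hv
      rw [hae] at f2
      refine ⟨f1.2, f2, ?_⟩
      intro hv1
      rw [fv_head_tail, List.mem_cons] at hv
      rcases hv with rfl | hv
      · simp
      · have := ha.1 v hv
        linarith
    rw [List.nodup_append', List.nodup_append', List.nodup_append']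
    refine ⟨ha.2.2, ⟨d2, ⟨?_, u2, ?_⟩, ?_⟩, ?_⟩
    · rw [fv_ht]
      exact hb.2.2.map (fun x y hxy => sub_right_injective hxy)
    · intro v hv hv'
      have g1 := hfb v hv
      have g2 := (u1 v hv').1
      simp only at g2
      linarith [g1.2.1]
    · intro v hv hv'
      rw [List.mem_append] at hv'
      have g1 := d1 v hv
      simp only at g1
      rcases hv' with hv' | hv'
      · have g2 := (hfb v hv').2.2 g1.1
        linarith [g1.2.2]
      · have g2 := (u1 v hv').1
        simp only at g2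
        linarith [g1.1]
    · intro v hv hv'
      rw [List.mem_append, List.mem_append] at hv'
      have g0 := hfa v hv
      rcases hv' with hv' | hv' | hv'
      · have g1 := (d1 v hv').1
        simp only at g1
        linarith [g0.2.1]
      · have g2 := (hfb v hv').1
        linarith [g0.1]
      · obtain ⟨g1, g2, g3⟩ := u1 v hv'
        simp only at g1 g3
        have := g0.2.2 g1
        linarith

lemma W_lower (C : Finset (List (Fin 4))) (l : ℕ) (e : ℤ × ℤ)
    (hC : ∀ w ∈ C, w.length = l ∧ ep 0 w = e ∧ BR w) (r : ℕ) :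
    C.card ^ (4 * r) ≤ (W (2 * r * l + 4 * l + 2)).card := by
  classical
  obtain ⟨h1, h2⟩ := Tp_props C l e hC r
  have h3 : C.card ^ (4 * r) = (Tp C r ×ˢ Tp C r).card := by
    rw [card_product, h2]; ring
  rw [h3]
  refine card_le_card_of_injOn (fun x => poly x.1 x.2 (4 * l + 1)) ?_ ?_
  · rintro ⟨a, b⟩ hab
    simp only [coe_product, Set.mem_prod, mem_coe] at hab
    obtain ⟨a1, a2, a3, a4⟩ := h1 a hab.1
    obtain ⟨b1, b2, b3, b4⟩ := h1 b hab.2
    rw [mem_coe, mem_W]
    constructor
    · simp only [poly, ht, List.length_append, List.length_cons, List.length_replicate,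
        List.length_map, a1, b1]
      ring
    · refine poly_SAPw a b (2 * l) (2 * r * e.1) (4 * l + 1) ?_ a3 b3 a2 b2 a4 b4
      push_cast; linarith
  · rintro ⟨a, b⟩ hab ⟨a', b'⟩ hab' heq
    simp only [coe_product, Set.mem_prod, mem_coe] at hab hab'
    simp only [poly] at heq
    obtain ⟨e1, e2⟩ := List.append_inj heq (by rw [(h1 a hab.1).1, (h1 a' hab'.1).1])
    rw [List.cons.injEq] at e2
    have e3 := List.append_cancel_left e2.2
    obtain ⟨e4, _⟩ := List.append_inj e3 (by
      simp only [ht, List.length_map]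
      rw [(h1 b hab.2).1, (h1 b' hab'.2).1])
    have e5 : b = b' := by
      unfold ht at e4
      exact List.map_injective_iff.2 (add_left_injective 2) e4
    rw [e1, e5]

/-- the growth rate exceeds that of bump-poor words -/
lemma Lc_gt : 2 * Real.log (29 / 12) < Lc := by
  obtain ⟨l, e, C, hC, hcard⟩ := exists_class
  have hl : 1 ≤ l := by
    by_contra h0
    have : l = 0 := by omega
    subst this
    have h1 : C ⊆ {[]} := by
      intro w hw
      rw [mem_singleton]
      exact List.length_eq_zero_iff.1 (hC w hw).1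
    have h2 := card_le_card h1
    rw [card_singleton] at h2
    have h3 : (C.card : ℝ) ≤ 1 := by exact_mod_cast h2
    simp at hcard
    omega
  have hlog : l * Real.log (29 / 12) < Real.log C.card := by
    rw [← Real.log_pow]
    exact Real.log_lt_log (by positivity) hcard
  have hCpos : (0 : ℝ) < C.card := lt_trans (by positivity) hcard
  -- pass to the limit
  have h1 : Tendsto (fun r : ℕ => Real.log (W (2 * r * l + 4 * l + 2)).card /
      ((2 * r * l + 4 * l + 2 : ℕ) : ℝ)) atTop (𝓝 Lc) := by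
    refine tendsto_W.comp ?_
    refine tendsto_atTop_mono (fun r => ?_) tendsto_id
    simp only [id]
    nlinarith
  have h2 : Tendsto (fun r : ℕ => (4 * r : ℝ) * Real.log C.card /
      ((2 * r * l + 4 * l + 2 : ℕ) : ℝ)) atTop (𝓝 (2 * Real.log C.card / l)) := by
    have h3 : Tendsto (fun r : ℕ => ((4 * l + 2 : ℝ)) / (r : ℝ)) atTop (𝓝 0) :=
      tendsto_const_nhds.div_atTop tendsto_natCast_atTop_atTop
    have h4 : Tendsto (fun r : ℕ => 4 * Real.log C.card / (2 * l + (4 * l + 2 : ℝ) / r)) atTop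
        (𝓝 (4 * Real.log C.card / (2 * l + 0))) := by
      apply Tendsto.div tendsto_const_nhds (tendsto_const_nhds.add h3)
      have : (0 : ℝ) < l := by exact_mod_cast hl
      positivity
    have h5 : 4 * Real.log C.card / (2 * l + 0) = 2 * Real.log C.card / l := by
      have : (l : ℝ) ≠ 0 := by positivity
      field_simp
      ring
    rw [h5] at h4
    refine h4.congr' ?_
    filter_upwards [eventually_ge_atTop 1] with r hr
    have hr' : (r : ℝ) ≠ 0 := by positivity
    push_cast
    field_simp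
    ring
  have h3 : 2 * Real.log C.card / l ≤ Lc := by
    refine le_of_tendsto_of_tendsto h2 h1 ?_
    filter_upwards with r
    apply div_le_div_of_nonneg_right _ (by positivity)
    have := W_lower C l e hC r
    have h6 : Real.log ((C.card : ℝ) ^ (4 * r)) ≤ Real.log (W (2 * r * l + 4 * l + 2)).card := by
      apply Real.log_le_log (by positivity)
      exact_mod_cast this
    rw [Real.log_pow] at h6
    push_cast at h6
    exact h6
  refine lt_of_lt_of_le ?_ h3
  have : (0 : ℝ) < l := by exact_mod_cast hl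
  rw [lt_div_iff₀ this]
  linarith

end Pool.Agent.Lib27
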