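import Pool.Agent.Lib_helper27.SmoothW

set_option autoImplicit false

namespace Pool.Agent.Lib27

open Finset Filter Topology

lemma slot_types_disjoint {F : ℤ × ℤ → ℤ × ℤ → List (Fin 4)} (hF : FSpec F)
    {τ τ' : ℤ × ℤ → ℤ × ℤ → Prop} (hτ : ∀ p q, τ p q → ¬ τ' p q) {s : List (Fin 4)} {c : ℤ × ℤ}
    (h : SlotAt F τ s c) (h' : SlotAt F τ' s c) : False := by
  obtain ⟨l₁, l₃, q, h1, h2, h3, h4, h5, h6, h7⟩ := h
  obtain ⟨m₁, m₃, q', k1, k2, k3, k4, k5, k6, k7⟩ := h'
  have e1 := h7.symm.trans k7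
  rw [List.append_assoc, List.append_assoc] at e1
  obtain ⟨e3, e4⟩ := first_unique (box 1 c) e1 ((box_shift _ _ _).2 h1.1)
    ((box_shift _ _ _).2 k1.1) h5 k5
  subst e3
  obtain ⟨f1, -⟩ := hF.box _ _ _ h1 h2 h3
  obtain ⟨f2, -⟩ := hF.box _ _ _ k1 k2 k3
  obtain ⟨e5, e6⟩ := last_unique (box 1 c) (ep 0 l₁) e4
    (by rw [f1]; exact (box_shift _ _ _).2 h2.1) (by rw [f2]; exact (box_shift _ _ _).2 k2.1)
    (by rw [f1]; exact h6) (by rw [f2]; exact k6)
  have e7 : q = q' := by rw [← f1, e5, f2]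
  subst e7
  exact hτ _ _ h4 k4

lemma SlW_split {F : ℤ × ℤ → ℤ × ℤ → List (Fin 4)} (hF : FSpec F) (s : List (Fin 4)) :
    (((SlW F TT s).card : ℕ) : ℝ) = (SlW F tP s).card + (SlW F tM s).card := by
  classical
  have h : SlW F TT s = SlW F tP s ∪ SlW F tM s := by
    ext c
    unfold SlW
    rw [mem_union, mem_Slots, mem_Slots, mem_Slots]
    constructor
    · rintro ⟨l₁, l₃, q, h1, h2, h3, -, h5, h6, h7⟩
      by_cases h4 : tP (ep 0 l₁ - c) (q - c)
      · exact Or.inl ⟨l₁, l₃, q, h1, h2, h3, h4, h5, h6, h7⟩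
      · exact Or.inr ⟨l₁, l₃, q, h1, h2, h3, h4, h5, h6, h7⟩
    · rintro (⟨l₁, l₃, q, h1, h2, h3, -, h5, h6, h7⟩ | ⟨l₁, l₃, q, h1, h2, h3, -, h5, h6, h7⟩)
      · exact ⟨l₁, l₃, q, h1, h2, h3, trivial, h5, h6, h7⟩
      · exact ⟨l₁, l₃, q, h1, h2, h3, trivial, h5, h6, h7⟩
  rw [h, card_union_of_disjoint]
  · push_cast
    rfl
  · rw [disjoint_left]
    intro c h1 h2
    unfold SlW at h1 h2
    rw [mem_Slots] at h1 h2
    exact slot_types_disjoint hF (fun p q hp hm => hm hp) h1 h2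

/-- one typed comparison between consecutive perimeters -/
lemma typed_step (τ : ℤ × ℤ → ℤ × ℤ → Prop) (δ : ℤ)
    (hδ : ∀ p ∈ ringB, ∀ q ∈ ringB, p ≠ q → τ p q → dbl p (fill2 p q) = dbl p (fill0 p q) + δ)
    (n : ℕ) (hn : 1 ≤ n) (g K : ℝ) (hg0 : 0 < g) (hK0 : 0 ≤ K) (hK : 50 * (n : ℝ) ≤ K * g)
    (u : ℤ → ℝ) (hu : ∀ d, |u d| ≤ 1) :
    |∑ s ∈ W n, u (dbl 0 s + δ) * ((SlW fill0 τ s).card / max (nB s) g) -
      ∑ t ∈ W (n + 1), u (dbl 0 t) * ((SlW fill2 τ t).card / max (nB t) g)| ≤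
      K * 1250 / g * (W n).card := by
  classical
  have hmem : ∀ z, z ∈ (flipW fspec0 fspec2 τ (len02 n) hn (by omega : 1 ≤ n + 1)).Z →
      FR fill0 fill2 τ z.1 z.2.1 z.2.2 := fun z hz =>
    flipW_mem fspec0 fspec2 τ (len02 n) hn (by omega) z hz
  have h := (flipW fspec0 fspec2 τ (len02 n) hn (by omega : 1 ≤ n + 1)).basic
    (fun s => max (nB s) g) g K 1250 1 0 hg0 (fun s => le_max_right _ _)
    (fun z hz => (abs_max_sub_max_le_abs _ _ _).trans
      (FR_lip (H := fill2) (τ' := TT) fspec0 fspec2 fspec2 (hmem z hz)))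
    (by
      intro s hs
      change ((SlW fill0 τ s).card : ℝ) ≤ K * max (nB s) g
      have hs' : s ∈ W n := hs
      have e1 := SlW_le fill0 τ n hn s hs'
      calc ((SlW fill0 τ s).card : ℝ) ≤ 50 * n := e1
        _ ≤ K * g := hK
        _ ≤ K * max (nB s) g := mul_le_mul_of_nonneg_left (le_max_right _ _) hK0)
    le_rfl zero_le_one (by norm_num) (fun _ => 1) (fun t => u (dbl 0 t))
    (fun s => u (dbl 0 s + δ)) (fun _ _ => by simp) (fun _ _ => by simp) (fun _ _ => hu _)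
    (by
      intro z hz
      have h1 := FR_dbl fspec0 fspec2 (hmem z hz) δ hδ
      change u (dbl 0 z.1 + δ) = u (dbl 0 z.2.1)
      rw [h1])
  simp only [one_mul, zero_add] at h
  exact h

lemma div_max_le (a b g : ℝ) (ha : 0 ≤ a) (hg : 0 < g) (K : ℝ) (h : a ≤ K * max b g) :
    |a / max b g| ≤ K := by
  have hm : 0 < max b g := hg.trans_le (le_max_right _ _)
  rw [abs_of_nonneg (div_nonneg ha hm.le), div_le_iff₀ hm]
  exact h

/-- the unnormalised comparison of consecutive perimeters -/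
theorem merge_dbl : ∃ C : ℝ, 0 < C ∧ ∀ᶠ n : ℕ in atTop, ∀ (u : ℤ → ℝ), (∀ d, |u d| ≤ 1) →
    |∑ s ∈ W (n + 1), u (dbl 0 s) - Real.exp Lc * ∑ s ∈ W n, u (dbl 0 s)| ≤
      (W n).card * (C / Real.sqrt (Real.sqrt n)) := by
  classical
  obtain ⟨ε, hεg⟩ := goodEps_exists
  obtain ⟨Cc, hCc, hconc⟩ := conc ε hεg
  obtain ⟨hε0, hε1, η, hη, hfew⟩ := id hεg
  set κ := Real.exp Lc with hκ
  have hκ0 : 0 < κ := Real.exp_pos _
  set K : ℝ := 50 / ε with hKdef
  have hK0 : 0 ≤ K := by rw [hKdef]; positivity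
  obtain ⟨Cs, hCs, hsm⟩ := smooth_dbl ε hεg K ((1 + K) * 1250 / ε) hK0 (by positivity)
  refine ⟨2 * (K * 1250 / ε) + 2 * Cs + Cc + (K + κ) + (κ + 1), by positivity, ?_⟩
  have hsqt : Tendsto (fun n : ℕ => Real.sqrt (n : ℝ)) atTop atTop :=
    Real.tendsto_sqrt_atTop.comp tendsto_natCast_atTop_atTop
  have ev1 : ∀ᶠ n : ℕ in atTop, ((W (n + 1)).card : ℝ) ≤ (κ + 1) * (W n).card := by
    have := card_ratio.eventually (gt_mem_nhds (show Real.exp Lc < κ + 1 by linarith))
    filter_upwards [this, eventually_ge_atTop 2] with n hn h2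
    have hW := card_pos' n h2
    rw [div_lt_iff₀ hW] at hn
    exact hn.le
  have hfew' := (tendsto_add_atTop_nat 1).eventually hfew
  have ev2 : ∀ᶠ n : ℕ in atTop, 1 / η ≤ Real.sqrt n := hsqt.eventually_ge_atTop _
  filter_upwards [hconc, hsm, ev1, hfew', ev2, eventually_ge_atTop 2] with n hc hs e1 hf e2 hn2 u hu
  have hn1 : 1 ≤ n := by omega
  have hn' : (2 : ℝ) ≤ n := by exact_mod_cast hn2
  set x := Real.sqrt (n : ℝ) with hx
  set q := Real.sqrt x with hq
  have hx1 : 1 ≤ x := by rw [hx]; exact Real.one_le_sqrt.2 (by linarith)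
  have hq1 : 1 ≤ q := by rw [hq]; exact Real.one_le_sqrt.2 hx1
  have hxx : x * x = n := Real.mul_self_sqrt (by positivity)
  have hqq : q * q = x := Real.mul_self_sqrt (by positivity)
  have hqx : q ≤ x := by nlinarith
  have hxn : x ≤ n := by nlinarith
  set g : ℝ := ε * n with hg
  have hg0 : 0 < g := by rw [hg]; positivity
  have hKg : 50 * (n : ℝ) ≤ K * g := by
    rw [hKdef, hg]
    have : 50 / ε * (ε * n) = 50 * (n : ℝ) := by field_simp
    rw [this]
  set N : ℝ := ((W n).card : ℝ) with hN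
  have hN0 : 0 ≤ N := by rw [hN]; positivity
  have hbd : ∀ (τ : ℤ × ℤ → ℤ × ℤ → Prop), ∀ s ∈ W n,
      ((SlW fill0 τ s).card : ℝ) ≤ K * max (nB s) g := by
    intro τ s hs
    calc ((SlW fill0 τ s).card : ℝ) ≤ 50 * n := SlW_le fill0 τ n hn1 s hs
      _ ≤ K * g := hKg
      _ ≤ K * max (nB s) g := mul_le_mul_of_nonneg_left (le_max_right _ _) hK0
  have hψb : ∀ (τ : ℤ × ℤ → ℤ × ℤ → Prop), ∀ s ∈ W n,
      |((SlW fill0 τ s).card : ℝ) / max (nB s) g| ≤ K := fun τ s hs =>
    div_max_le _ _ g (by positivity) hg0 K (hbd τ s hs)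
  have hψl : ∀ (τ : ℤ × ℤ → ℤ × ℤ → Prop), ∀ s t c, FR fillLo fillHi TT s t c → s ∈ W n → t ∈ W n →
      |((SlW fill0 τ s).card : ℝ) / max (nB s) g - ((SlW fill0 τ t).card : ℝ) / max (nB t) g| ≤
        (1 + K) * 1250 / ε / n := by
    intro τ s t c hR _ ht
    have h1 := FR_lip (H := fill0) (τ' := τ) fspecLo fspecHi fspec0 hR
    have h2 := (abs_max_sub_max_le_abs (nB s) (nB t) g).trans
      (FR_lip (H := fill2) (τ' := TT) fspecLo fspecHi fspec2 hR)
    have h3 := ratio_lip _ _ (max (nB s) g) (max (nB t) g) g K 1250 hg0 (le_max_right _ _)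
      (le_max_right _ _) h1 h2 (by positivity) (hbd τ t ht)
    refine h3.trans (le_of_eq ?_)
    rw [hg]
    field_simp
  -- typed steps
  have sP := typed_step tP 2 (fun p _ q _ _ h => h) n hn1 g K hg0 hK0 hKg u hu
  have sM := typed_step tM (-2) (fun p hp q hq h ht => by
    have := (fill_types p hp q hq h).2 ht
    rw [this]; ring) n hn1 g K hg0 hK0 hKg u hu
  -- smoothing
  have mP := hs (fun s => ((SlW fill0 tP s).card : ℝ) / max (nB s) g) u (hψb tP) (hψl tP) hu
  have mM := hs (fun s => ((SlW fill0 tM s).card : ℝ) / max (nB s) g) (fun d => u (d - 2))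
    (hψb tM) (hψl tM) (fun d => hu _)
  simp only [add_sub_cancel_right] at mM
  -- top level
  have hf2 := hf.2.1
  have htop : |∑ t ∈ W (n + 1), u (dbl 0 t) -
      ∑ t ∈ W (n + 1), u (dbl 0 t) * (nB t / max (nB t) g)| ≤ (κ + 1) * N / q := by
    rw [← sum_sub_distrib]
    have h1 : |∑ t ∈ W (n + 1), (u (dbl 0 t) - u (dbl 0 t) * (nB t / max (nB t) g))| ≤
        (((W (n + 1)).filter (fun s => nB s < ε * (n + 1 : ℕ))).card : ℝ) := by
      refine (abs_sum_le_sum_abs _ _).trans ?_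
      rw [card_filter]
      push_cast
      apply sum_le_sum
      intro t _
      have hm : 0 < max (nB t) g := hg0.trans_le (le_max_right _ _)
      have h2 : nB t / max (nB t) g ≤ 1 := by
        rw [div_le_one hm]; exact le_max_left _ _
      have h3 : 0 ≤ nB t / max (nB t) g := div_nonneg (nB_nonneg _) hm.le
      have e : u (dbl 0 t) - u (dbl 0 t) * (nB t / max (nB t) g) =
          u (dbl 0 t) * (1 - nB t / max (nB t) g) := by ring
      rw [e, abs_mul, abs_of_nonneg (by linarith : 0 ≤ 1 - nB t / max (nB t) g)]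
      have hu1 := hu (dbl 0 t)
      split_ifs with h
      · calc |u (dbl 0 t)| * (1 - nB t / max (nB t) g) ≤ 1 * 1 :=
            mul_le_mul hu1 (by linarith) (by linarith) zero_le_one
          _ = 1 := one_mul _
      · push Not at h
        have h4 : g ≤ nB t := by
          rw [hg]
          refine le_trans ?_ h
          nlinarith
        rw [max_eq_left h4, div_self (by linarith), sub_self, mul_zero]
    refine h1.trans (hf2.trans ?_)
    have h5 : Real.exp (-(η * ((n + 1 : ℕ) : ℝ))) ≤ 1 / q := by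
      have h6 : Real.exp (-(η * ((n + 1 : ℕ) : ℝ))) ≤ Real.exp (-x) := by
        apply Real.exp_le_exp.2
        push_cast
        rw [div_le_iff₀ hη] at e2
        nlinarith
      refine h6.trans ?_
      rw [Real.exp_neg, ← one_div]
      apply one_div_le_one_div_of_le (by linarith)
      have := Real.add_one_le_exp x
      linarith
    calc ((W (n + 1)).card : ℝ) * Real.exp (-(η * ((n + 1 : ℕ) : ℝ)))
        ≤ ((κ + 1) * N) * (1 / q) := mul_le_mul e1 h5 (Real.exp_pos _).le (by positivity)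
      _ = _ := by ring
  -- concentration
  have hconc' : |∑ s ∈ W n, u (dbl 0 s) * (nA s / max (nB s) g) - κ * ∑ s ∈ W n, u (dbl 0 s)| ≤
      N * (Cc / q) + (K + κ) * (N / q) := by
    rw [mul_sum, ← sum_sub_distrib]
    refine (abs_sum_le_sum_abs _ _).trans ?_
    have h1 : ∀ s ∈ W n, |u (dbl 0 s) * (nA s / max (nB s) g) - κ * u (dbl 0 s)| ≤
        Cc / q + (K + κ) * (if Cc / q < |nA s / max (nB s) g - κ| then 1 else 0) := by
      intro s hs
      have e : u (dbl 0 s) * (nA s / max (nB s) g) - κ * u (dbl 0 s) =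
          u (dbl 0 s) * (nA s / max (nB s) g - κ) := by ring
      rw [e, abs_mul]
      have h2 : |u (dbl 0 s)| * |nA s / max (nB s) g - κ| ≤ |nA s / max (nB s) g - κ| := by
        calc _ ≤ 1 * |nA s / max (nB s) g - κ| :=
              mul_le_mul_of_nonneg_right (hu _) (abs_nonneg _)
          _ = _ := one_mul _
      refine h2.trans ?_
      split_ifs with h
      · have h3 := hψb TT s hs
        have h4 : |nA s / max (nB s) g - κ| ≤ K + κ := by
          refine (abs_sub _ _).trans ?_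
          rw [abs_of_pos hκ0]
          have : |nA s / max (nB s) g| ≤ K := h3
          linarith
        have h5 : 0 ≤ Cc / q := by positivity
        linarith
      · push Not at h
        linarith
    refine (sum_le_sum h1).trans ?_
    rw [sum_add_distrib, sum_const, nsmul_eq_mul, ← mul_sum, ← sum_filter, sum_const, nsmul_eq_mul,
      mul_one, ← hN]
    have h6 : (((W n).filter (fun s => Cc / q < |nA s / max (nB s) g - κ|)).card : ℝ) ≤ N / q := by
      refine hc.trans ?_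
      rw [div_eq_mul_one_div N q]
      apply mul_le_mul_of_nonneg_left _ hN0
      rw [Real.exp_neg, ← one_div]
      apply one_div_le_one_div_of_le (by linarith)
      have := Real.add_one_le_exp x
      linarith
    have h7 := mul_le_mul_of_nonneg_left h6 (by positivity : 0 ≤ K + κ)
    linarith
  -- recombination
  have eB : ∑ t ∈ W (n + 1), u (dbl 0 t) * (nB t / max (nB t) g) =
      ∑ t ∈ W (n + 1), u (dbl 0 t) * ((SlW fill2 tP t).card / max (nB t) g) +
      ∑ t ∈ W (n + 1), u (dbl 0 t) * ((SlW fill2 tM t).card / max (nB t) g) := by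
    rw [← sum_add_distrib]
    apply sum_congr rfl
    intro t _
    have : nB t = (SlW fill2 tP t).card + (SlW fill2 tM t).card := SlW_split fspec2 t
    conv_lhs => rw [show nB t / max (nB t) g =
      ((SlW fill2 tP t).card + (SlW fill2 tM t).card) / max (nB t) g by rw [← this]]
    ring
  have eA : ∑ s ∈ W n, u (dbl 0 s) * (nA s / max (nB s) g) =
      ∑ s ∈ W n, ((SlW fill0 tP s).card : ℝ) / max (nB s) g * u (dbl 0 s) +
      ∑ s ∈ W n, ((SlW fill0 tM s).card : ℝ) / max (nB s) g * u (dbl 0 s) := by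
    rw [← sum_add_distrib]
    apply sum_congr rfl
    intro s _
    have : nA s = (SlW fill0 tP s).card + (SlW fill0 tM s).card := SlW_split fspec0 s
    rw [this]
    ring
  have eP : ∑ s ∈ W n, u (dbl 0 s + 2) * ((SlW fill0 tP s).card / max (nB s) g) =
      ∑ s ∈ W n, ((SlW fill0 tP s).card : ℝ) / max (nB s) g * u (dbl 0 s + 2) :=
    sum_congr rfl fun s _ => mul_comm _ _
  have eM : ∑ s ∈ W n, u (dbl 0 s + -2) * ((SlW fill0 tM s).card / max (nB s) g) =
      ∑ s ∈ W n, ((SlW fill0 tM s).card : ℝ) / max (nB s) g * u (dbl 0 s - 2) :=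
    sum_congr rfl fun s _ => by rw [mul_comm]; rfl
  rw [eB] at htop
  rw [eA] at hconc'
  rw [eP] at sP
  rw [eM] at sM
  have r1 : K * 1250 / g * N ≤ K * 1250 / ε * (N / q) := by
    rw [hg]
    have h1 : K * 1250 / (ε * n) * N = K * 1250 / ε * (N / n) := by field_simp
    rw [h1]
    apply mul_le_mul_of_nonneg_left _ (by positivity)
    apply div_le_div_of_nonneg_left hN0 (by linarith)
    linarith
  have r2 : N * (Cs / x) ≤ Cs * (N / q) := by
    have h1 : N * (Cs / x) = Cs * (N / x) := by ring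
    rw [h1]
    apply mul_le_mul_of_nonneg_left _ hCs.le
    exact div_le_div_of_nonneg_left hN0 (by linarith) hqx
  have r3 : (κ + 1) * N / q = (κ + 1) * (N / q) := by ring
  have r4 : N * (Cc / q) = Cc * (N / q) := by ring
  have r5 : N * ((2 * (K * 1250 / ε) + 2 * Cs + Cc + (K + κ) + (κ + 1)) / q) =
      2 * (K * 1250 / ε * (N / q)) + 2 * (Cs * (N / q)) + Cc * (N / q) + (K + κ) * (N / q) +
      (κ + 1) * (N / q) := by ring
  rw [r5]
  rw [r3] at htop
  rw [r4] at hconc'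
  have sP' := sP.trans r1
  have sM' := sM.trans r1
  have mP' := mP.trans r2
  have mM' := mM.trans r2
  rw [abs_le] at sP' sM' mP' mM' htop hconc' ⊢
  constructor
  · linarith [sP'.1, sP'.2, sM'.1, sM'.2, mP'.1, mP'.2, mM'.1, mM'.2, htop.1, htop.2,
      hconc'.1, hconc'.2]
  · linarith [sP'.1, sP'.2, sM'.1, sM'.2, mP'.1, mP'.2, mM'.1, mM'.2, htop.1, htop.2,
      hconc'.1, hconc'.2]

/-- **Merging in total variation** of the signed area laws, with a rate. -/
theorem merge_EU : ∃ C : ℝ, 0 < C ∧ ∀ᶠ n : ℕ in atTop, ∀ (u : ℤ → ℝ), (∀ d, |u d| ≤ 1) →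
    |EU u (n + 1) - EU u n| ≤ C / Real.sqrt (Real.sqrt n) := by
  obtain ⟨C, hC, h⟩ := merge_dbl
  set κ := Real.exp Lc with hκ
  have hκ0 : 0 < κ := Real.exp_pos _
  refine ⟨4 * C / κ, by positivity, ?_⟩
  have ev1 : ∀ᶠ n : ℕ in atTop, κ / 2 * (W n).card ≤ ((W (n + 1)).card : ℝ) := by
    have := card_ratio.eventually (lt_mem_nhds (show κ / 2 < Real.exp Lc by rw [← hκ]; linarith))
    filter_upwards [this, eventually_ge_atTop 2] with n hn h2
    have hW := card_pos' n h2
    rw [lt_div_iff₀ hW] at hn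
    exact hn.le
  filter_upwards [h, ev1, eventually_ge_atTop 2] with n hn e1 h2 u hu
  set x := Real.sqrt (n : ℝ) with hx
  set q := Real.sqrt x with hq
  have hn' : (2 : ℝ) ≤ n := by exact_mod_cast h2
  have hx1 : 1 ≤ x := by rw [hx]; exact Real.one_le_sqrt.2 (by linarith)
  have hq1 : 1 ≤ q := by rw [hq]; exact Real.one_le_sqrt.2 hx1
  have hA := card_pos' n h2
  have hA1 := card_pos' (n + 1) (by omega)
  have h1 := hn u hu
  have h3 := hn (fun _ => 1) (fun _ => by simp)
  simp only [sum_const, nsmul_eq_mul, mul_one] at h3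
  unfold EU
  set A : ℝ := ((W n).card : ℝ) with hAd
  set A1 : ℝ := ((W (n + 1)).card : ℝ) with hA1d
  set S := ∑ s ∈ W n, u (dbl 0 s) with hS
  set S1 := ∑ s ∈ W (n + 1), u (dbl 0 s) with hS1
  have hSA : |S| ≤ A := by
    refine (abs_sum_le_sum_abs _ _).trans ?_
    calc ∑ s ∈ W n, |u (dbl 0 s)| ≤ ∑ s ∈ W n, (1 : ℝ) := sum_le_sum fun s _ => hu _
      _ = A := by simp [hAd]
  have e : S1 / A1 - S / A = (S1 - κ * S) / A1 + S * (κ * A - A1) / (A * A1) := by
    field_simp
    ring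
  rw [e]
  refine (abs_add_le _ _).trans ?_
  have b1 : |(S1 - κ * S) / A1| ≤ A * (C / q) / A1 := by
    rw [abs_div, abs_of_pos hA1]
    exact div_le_div_of_nonneg_right h1 hA1.le
  have b2 : |S * (κ * A - A1) / (A * A1)| ≤ A * (C / q) / A1 := by
    rw [abs_div, abs_mul, abs_of_pos (mul_pos hA hA1), abs_sub_comm, div_le_div_iff₀
      (mul_pos hA hA1) hA1]
    calc |S| * |A1 - κ * A| * A1 ≤ A * (A * (C / q)) * A1 := by
          apply mul_le_mul_of_nonneg_right _ hA1.le
          exact mul_le_mul hSA h3 (abs_nonneg _) hA.le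
      _ = _ := by ring
  have b3 : A * (C / q) / A1 ≤ 2 * C / κ / q := by
    rw [div_le_iff₀ hA1]
    have : 2 * C / κ / q * A1 ≥ 2 * C / κ / q * (κ / 2 * A) :=
      mul_le_mul_of_nonneg_left e1 (by positivity)
    have e2 : 2 * C / κ / q * (κ / 2 * A) = A * (C / q) := by
      field_simp
    linarith
  calc _ ≤ 2 * C / κ / q + 2 * C / κ / q := add_le_add (b1.trans b3) (b2.trans b3)
    _ = _ := by ring

end Pool.Agent.Lib27
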