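import Pool.Agent.Lib_helper27.Conn

set_option autoImplicit false

namespace Pool.Agent.Lib27

open Finset Filter Topology

/-- no immediate reversal -/
def NR : List (Fin 4) → Prop
  | a :: b :: s => b ≠ a + 2 ∧ NR (b :: s)
  | _ => True

instance NR_dec : (s : List (Fin 4)) → Decidable (NR s)
  | [] => isTrue trivial
  | [_] => isTrue trivial
  | a :: b :: s => by
    unfold NR
    have := NR_dec (b :: s)
    infer_instance

lemma NR_of_getD (s : List (Fin 4)) (h : ∀ j, j + 1 < s.length → s.getD (j + 1) 0 ≠ s.getD j 0 + 2) :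
    NR s := by
  match s with
  | [] => trivial
  | [_] => trivial
  | a :: b :: s =>
    refine ⟨?_, NR_of_getD (b :: s) (fun j hj => ?_)⟩
    · have := h 0 (by simp)
      simpa using this
    · have := h (j + 1) (by simpa using hj)
      simpa using this

lemma NR_of_SAPw (s : List (Fin 4)) (hs : SAPw s) (h3 : 3 ≤ s.length) : NR s := by
  apply NR_of_getD
  intro j hj h
  exact norev s hs h3 j (j + 1) (by omega) hj rfl h

/-- weight of a word -/
noncomputable def wtB (s : List (Fin 4)) : ℝ := if NR s then (1 / 1000 : ℝ) ^ cntB s else 0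

lemma wtB_nonneg (s : List (Fin 4)) : 0 ≤ wtB s := by
  unfold wtB; split_ifs <;> positivity

lemma wtB_cons (a b c : Fin 4) (s : List (Fin 4)) :
    wtB (a :: b :: c :: s) = if b = a + 2 then 0 else
      (if perp a b ∧ c = a + 2 then (1 / 1000 : ℝ) else 1) * wtB (b :: c :: s) := by
  unfold wtB
  by_cases h1 : b = a + 2
  · have : ¬ NR (a :: b :: c :: s) := fun h => h.1 h1
    rw [if_neg this, if_pos h1]
  · by_cases h2 : NR (b :: c :: s)
    · have : NR (a :: b :: c :: s) := ⟨h1, h2⟩
      rw [if_pos this, if_neg h1, if_pos h2]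
      simp only [cntB]
      split_ifs with h3
      · rw [pow_add, pow_one]
      · simp
    · have : ¬ NR (a :: b :: c :: s) := fun h => h2 h.2
      rw [if_neg this, if_neg h1, if_neg h2, mul_zero]

noncomputable def GB (N : ℕ) (a b : Fin 4) : ℝ := ∑ s ∈ words N, wtB (a :: b :: s)

lemma GB_succ (N : ℕ) (a b : Fin 4) :
    GB (N + 1) a b = if b = a + 2 then 0 else
      ∑ c : Fin 4, (if perp a b ∧ c = a + 2 then (1 / 1000 : ℝ) else 1) * GB N b c := by
  unfold GB
  rw [sum_words_succ]
  split_ifs with h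
  · apply sum_eq_zero
    intro c _
    apply sum_eq_zero
    intro s _
    rw [wtB_cons, if_pos h]
  · apply sum_congr rfl
    intro c _
    rw [mul_sum]
    apply sum_congr rfl
    intro s _
    rw [wtB_cons, if_neg h]

lemma GB_rev (N : ℕ) (a : Fin 4) : GB N a (a + 2) = 0 := by
  cases N with
  | zero => simp [GB, words, wtB, NR]
  | succ N => rw [GB_succ, if_pos rfl]

lemma GB_bound (N : ℕ) : ∀ a : Fin 4, GB N a a ≤ (483 / 200 : ℝ) ^ N * (1414 / 1000) ∧
    GB N a (a + 1) ≤ (483 / 200 : ℝ) ^ N ∧ GB N a (a + 3) ≤ (483 / 200 : ℝ) ^ N := by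
  induction N with
  | zero =>
    intro a
    have h1 : NR [a, a] := ⟨by revert a; decide, trivial⟩
    have h2 : NR [a, a + 1] := ⟨by revert a; decide, trivial⟩
    have h3 : NR [a, a + 3] := ⟨by revert a; decide, trivial⟩
    refine ⟨?_, ?_, ?_⟩
    · simp [GB, words, wtB, h1, cntB]; norm_num
    · simp [GB, words, wtB, h2, cntB]
    · simp [GB, words, wtB, h3, cntB]
  | succ N ih =>
    intro a
    have hpow : (483 / 200 : ℝ) ^ (N + 1) = (483 / 200 : ℝ) ^ N * (483 / 200) := pow_succ _ _
    have hpos : (0 : ℝ) < (483 / 200 : ℝ) ^ N := by positivity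
    have hexp : ∀ b : Fin 4, ∀ f : Fin 4 → ℝ, ∑ c : Fin 4, f c =
        f b + f (b + 1) + f (b + 2) + f (b + 3) := by
      intro b f
      rw [Fin.sum_univ_four]
      fin_cases b <;> simp <;> ring
    refine ⟨?_, ?_, ?_⟩
    · have hne : ¬ (a = a + 2) := by revert a; decide
      have hnp : ¬ perp a a := by revert a; decide
      rw [GB_succ, if_neg hne, hexp a]
      simp only [hnp, false_and, if_false, one_mul, GB_rev]
      obtain ⟨e1, e2, e3⟩ := ih a
      rw [hpow]
      nlinarith
    · have hne : ¬ (a + 1 = a + 2) := by revert a; decide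
      have hp : perp a (a + 1) := by revert a; decide
      rw [GB_succ, if_neg hne, hexp (a + 1)]
      have c1 : ¬ (a + 1 = a + 2) := hne
      have c2 : a + 1 + 1 = a + 2 := by revert a; decide
      have c3 : ¬ (a + 1 + 2 = a + 2) := by revert a; decide
      have c4 : ¬ (a + 1 + 3 = a + 2) := by revert a; decide
      simp only [hp, c1, c3, c4, true_and, and_false, if_false, one_mul, GB_rev]
      rw [if_pos c2]
      obtain ⟨e1, e2, e3⟩ := ih (a + 1)
      rw [hpow]
      nlinarith
    · have hne : ¬ (a + 3 = a + 2) := by revert a; decide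
      have hp : perp a (a + 3) := by revert a; decide
      rw [GB_succ, if_neg hne, hexp (a + 3)]
      have c1 : ¬ (a + 3 = a + 2) := hne
      have c2 : ¬ (a + 3 + 1 = a + 2) := by revert a; decide
      have c3 : ¬ (a + 3 + 2 = a + 2) := by revert a; decide
      have c4 : a + 3 + 3 = a + 2 := by revert a; decide
      simp only [hp, c1, c2, c3, true_and, and_false, if_false, one_mul, GB_rev]
      rw [if_pos c4]
      obtain ⟨e1, e2, e3⟩ := ih (a + 3)
      rw [hpow]
      nlinarith

lemma GB_le (N : ℕ) (a b : Fin 4) : GB N a b ≤ (483 / 200 : ℝ) ^ N * (1414 / 1000) := by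
  have hpos : (0 : ℝ) < (483 / 200 : ℝ) ^ N := by positivity
  have hc : b = a ∨ b = a + 1 ∨ b = a + 2 ∨ b = a + 3 := by revert a b; decide
  obtain ⟨e1, e2, e3⟩ := GB_bound N a
  rcases hc with rfl | rfl | rfl | rfl
  · exact e1
  · nlinarith
  · rw [GB_rev]; positivity
  · nlinarith

lemma sum_wtB (N : ℕ) : ∑ s ∈ words (N + 2), wtB s ≤ 23 * (483 / 200 : ℝ) ^ N := by
  have hpos : (0 : ℝ) < (483 / 200 : ℝ) ^ N := by positivity
  have h1 : ∑ s ∈ words (N + 2), wtB s = ∑ a : Fin 4, ∑ b : Fin 4, GB N a b := by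
    rw [sum_words_succ]
    apply sum_congr rfl
    intro a _
    rw [sum_words_succ]
    rfl
  rw [h1]
  calc ∑ a : Fin 4, ∑ b : Fin 4, GB N a b
      ≤ ∑ a : Fin 4, ∑ b : Fin 4, (483 / 200 : ℝ) ^ N * (1414 / 1000) :=
        sum_le_sum (fun a _ => sum_le_sum (fun b _ => GB_le N a b))
    _ = 16 * ((483 / 200 : ℝ) ^ N * (1414 / 1000)) := by simp; ring
    _ ≤ _ := by nlinarith

open Classical in
/-- words with few bumps -/
noncomputable def Bad (n : ℕ) : Finset (List (Fin 4)) := (W n).filter (fun s => 12000 * cntB s < n)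

lemma const_ineq : (1000 : ℝ) ≤ (1450 / 1449 : ℝ) ^ 24000 := by
  have h1 : (2 : ℝ) ≤ (1450 / 1449 : ℝ) ^ 1449 := by
    have := one_add_mul_le_pow (a := (1 / 1449 : ℝ)) (by norm_num) 1449
    have h2 : (1 + 1 / 1449 : ℝ) = 1450 / 1449 := by norm_num
    rw [h2] at this
    refine le_trans ?_ this
    norm_num
  calc (1000 : ℝ) ≤ 2 ^ 16 := by norm_num
    _ ≤ ((1450 / 1449 : ℝ) ^ 1449) ^ 16 := pow_le_pow_left₀ (by norm_num) h1 _
    _ = (1450 / 1449 : ℝ) ^ 23184 := by rw [← pow_mul]
    _ ≤ _ := pow_le_pow_right₀ (by norm_num) (by norm_num)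

lemma log_const : Real.log 1000 / 12000 + 2 * Real.log (483 / 200) ≤ 2 * Real.log (29 / 12) := by
  have h1 : Real.log 1000 ≤ 24000 * Real.log (1450 / 1449) := by
    have := Real.log_le_log (by norm_num) const_ineq
    rw [Real.log_pow] at this
    exact_mod_cast this
  have h2 : Real.log (1450 / 1449) = Real.log (29 / 12) - Real.log (483 / 200) := by
    rw [← Real.log_div (by norm_num) (by norm_num)]
    norm_num
  rw [h2] at h1
  linarith

lemma bad_card (n : ℕ) (hn : 2 ≤ n) :
    ((Bad n).card : ℝ) ≤ 23 * Real.exp (n * (2 * Real.log (29 / 12))) := by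
  classical
  set c := Real.exp (-(n / 12000 * Real.log 1000)) with hc
  have hcpos : 0 < c := Real.exp_pos _
  have h1 : ∀ s ∈ Bad n, c ≤ wtB s := by
    intro s hs
    rw [Bad, mem_filter, mem_W] at hs
    obtain ⟨⟨hl, hS⟩, hB⟩ := hs
    have hnr : NR s := NR_of_SAPw s hS (by omega)
    rw [wtB, if_pos hnr]
    have e1 : (1 / 1000 : ℝ) ^ cntB s = Real.exp (-(cntB s * Real.log 1000)) := by
      rw [Real.exp_neg, mul_comm, Real.exp_mul, Real.exp_log (by norm_num), Real.rpow_natCast]
      simp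
    rw [e1, hc]
    apply Real.exp_le_exp.2
    have h3 : (12000 : ℝ) * cntB s < n := by exact_mod_cast hB
    have h4 : 0 < Real.log 1000 := Real.log_pos (by norm_num)
    have h5 : (cntB s : ℝ) ≤ n / 12000 := by linarith
    nlinarith
  have h2 : (Bad n).card * c ≤ 23 * (483 / 200 : ℝ) ^ (2 * n) := by
    calc ((Bad n).card : ℝ) * c = ∑ s ∈ Bad n, c := by simp
      _ ≤ ∑ s ∈ Bad n, wtB s := sum_le_sum h1
      _ ≤ ∑ s ∈ words (2 * n), wtB s := by
          apply sum_le_sum_of_subset_of_nonneg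
          · exact (filter_subset _ _).trans (filter_subset _ _)
          · intro s _ _; exact wtB_nonneg s
      _ = ∑ s ∈ words ((2 * n - 2) + 2), wtB s := by
          congr 2; omega
      _ ≤ 23 * (483 / 200 : ℝ) ^ (2 * n - 2) := sum_wtB _
      _ ≤ 23 * (483 / 200 : ℝ) ^ (2 * n) := by
          apply mul_le_mul_of_nonneg_left _ (by norm_num)
          exact pow_le_pow_right₀ (by norm_num) (by omega)
  have h3 : ((Bad n).card : ℝ) ≤ 23 * (483 / 200 : ℝ) ^ (2 * n) / c := by
    rw [le_div_iff₀ hcpos]; exact h2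
  refine h3.trans ?_
  rw [mul_div_assoc]
  apply mul_le_mul_of_nonneg_left _ (by norm_num)
  have e2 : (483 / 200 : ℝ) ^ (2 * n) = Real.exp (2 * n * Real.log (483 / 200)) := by
    have e3 : Real.exp ((2 * n : ℕ) * Real.log (483 / 200)) = (483 / 200 : ℝ) ^ (2 * n) := by
      rw [Real.exp_nat_mul, Real.exp_log (by norm_num)]
    rw [← e3]
    push_cast
    rfl
  rw [e2, hc, ← Real.exp_sub]
  apply Real.exp_le_exp.2
  have := log_const
  have hn0 : (0 : ℝ) ≤ n := by positivity
  nlinarith

end Pool.Agent.Lib27
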