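import Pool.Agent.Lib_helper27.Lower2
import Pool.Agent.Lib_helper27.Kesten

set_option autoImplicit false

namespace Pool.Agent.Lib27

open Finset Filter Topology

/-- slowly varying weights -/
structure GoodWt (wt : ℕ → List (Fin 4) → ℝ) where
  C : ℝ
  K : ℕ
  hC : 1 ≤ C
  one_le : ∀ n, 2 ≤ n → ∀ s ∈ W n, 1 ≤ wt n s
  le_poly : ∀ n, 2 ≤ n → ∀ s ∈ W n, wt n s ≤ C * (n : ℝ) ^ K
  lip : ∀ n, 2 ≤ n → ∀ s ∈ W n, ∀ x ∈ Up s,
    |wt (n + 1) (ins x.1 x.2 s) - wt n s| ≤ C / n * wt n s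

/-- total weight -/
noncomputable def aw (wt : ℕ → List (Fin 4) → ℝ) (n : ℕ) : ℝ := ∑ s ∈ W n, wt n s

open Classical in
/-- bump-rich words -/
noncomputable def Gd (n : ℕ) : Finset (List (Fin 4)) := (W n).filter (fun s => n ≤ 12000 * cntB s)

/-- the ratio of free sides and bumps -/
noncomputable def rr (s : List (Fin 4)) : ℝ := ((Up s).card : ℝ) / (cntB s : ℝ)

lemma mem_Gd (n : ℕ) (s : List (Fin 4)) : s ∈ Gd n ↔ s ∈ W n ∧ n ≤ 12000 * cntB s := by
  classical
  rw [Gd, mem_filter]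

lemma mem_Bad (n : ℕ) (s : List (Fin 4)) : s ∈ Bad n ↔ s ∈ W n ∧ 12000 * cntB s < n := by
  classical
  rw [Bad, mem_filter]

lemma sum_split (n : ℕ) (f : List (Fin 4) → ℝ) :
    ∑ s ∈ W n, f s = ∑ s ∈ Gd n, f s + ∑ s ∈ Bad n, f s := by
  classical
  rw [← sum_filter_add_sum_filter_not (W n) (fun s => n ≤ 12000 * cntB s) f]
  have : (W n).filter (fun s => ¬ n ≤ 12000 * cntB s) = Bad n := by
    ext s
    rw [mem_filter, mem_Bad, not_le]
  rw [this]
  rfl

/-- insertion facts -/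
lemma ins_facts (n : ℕ) (s : List (Fin 4)) (hs : s ∈ W n) (x : ℕ × Fin 4) (hx : x ∈ Up s) :
    ins x.1 x.2 s ∈ W (n + 1) ∧ 1 ≤ cntB (ins x.1 x.2 s) ∧
    cntB (ins x.1 x.2 s) ≤ cntB s + 5 ∧ cntB s ≤ cntB (ins x.1 x.2 s) + 5 ∧
    (Up s).card ≤ (Up (ins x.1 x.2 s)).card + 20 := by
  have hx' := hx
  rw [mem_Up] at hx'
  obtain ⟨h1, h2, h3⟩ := hx'
  rw [mem_W] at hs
  have hF := Up_bump_ge s hs.2 x.1 x.2 hx
  obtain ⟨l₁, b, l₂, rfl, hl⟩ := exists_split x.1 s h1
  have h4 : (l₁ ++ b :: l₂).getD l₁.length 0 = b := by simp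
  rw [← hl] at h2 h3 hF ⊢
  rw [h4] at h2
  rw [ins_split] at h3 hF ⊢
  refine ⟨?_, ?_, cntB_bump_le _ _ _ _, cntB_bump_ge _ _ _ _, hF⟩
  · rw [mem_W]
    refine ⟨?_, h3⟩
    have := hs.1
    simp only [List.length_append, List.length_cons] at this ⊢
    omega
  · rw [← card_Dn]
    apply card_pos.2
    refine ⟨l₁.length, ?_⟩
    rw [mem_Dn, isB_split]
    exact ⟨h2, rfl⟩

/-- the exact double counting identity -/
lemma sum_over_down (n : ℕ) (f : List (Fin 4) → ℝ) (hf : ∀ s ∈ W (n + 1), 0 ≤ f s) :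
    ∑ s ∈ W n, ∑ x ∈ Up s, f (ins x.1 x.2 s) / cntB (ins x.1 x.2 s) ≤ ∑ s ∈ W (n + 1), f s ∧
    ∑ s ∈ W (n + 1), f s ≤ ∑ s ∈ Bad (n + 1), f s +
      ∑ s ∈ W n, ∑ x ∈ Up s, f (ins x.1 x.2 s) / cntB (ins x.1 x.2 s) := by
  classical
  have h1 := sum_updown n (fun _ s' => f s' / cntB s')
  rw [h1]
  have h2 : ∀ s ∈ W (n + 1), ∑ i ∈ Dn s, f s / cntB s = if cntB s = 0 then 0 else f s := by
    intro s _
    rw [sum_const, card_Dn, nsmul_eq_mul]
    split_ifs with h
    · rw [h]; simp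
    · have : (cntB s : ℝ) ≠ 0 := by exact_mod_cast h
      field_simp
  rw [sum_congr rfl h2]
  constructor
  · apply sum_le_sum
    intro s hs
    split_ifs
    · exact hf s hs
    · exact le_rfl
  · have h3 : ∑ s ∈ W (n + 1), f s = ∑ s ∈ W (n + 1), (if cntB s = 0 then f s else 0) +
        ∑ s ∈ W (n + 1), (if cntB s = 0 then 0 else f s) := by
      rw [← sum_add_distrib]
      apply sum_congr rfl
      intro s _
      split_ifs <;> simp
    rw [h3]
    have h4 : ∑ s ∈ W (n + 1), (if cntB s = 0 then f s else 0) ≤ ∑ s ∈ Bad (n + 1), f s := by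
      rw [← sum_filter]
      apply sum_le_sum_of_subset_of_nonneg
      · intro s hs
        rw [mem_filter] at hs
        rw [mem_Bad]
        exact ⟨hs.1, by omega⟩
      · intro s hs _
        rw [mem_Bad] at hs
        exact hf s hs.1
    linarith

lemma rr_nonneg (s : List (Fin 4)) : 0 ≤ rr s := by unfold rr; positivity

lemma rr_le (n : ℕ) (hn : 1 ≤ n) (s : List (Fin 4)) (hs : s ∈ Gd n) : rr s ≤ 96000 := by
  rw [mem_Gd, mem_W] at hs
  obtain ⟨⟨hl, _⟩, hB⟩ := hs
  have h1 := card_Up_le s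
  rw [hl] at h1
  have hBpos : 0 < cntB s := by omega
  unfold rr
  rw [div_le_iff₀ (by exact_mod_cast hBpos)]
  have h2 : ((Up s).card : ℝ) ≤ 8 * n := by
    have : (Up s).card ≤ 8 * n := by omega
    exact_mod_cast this
  have h3 : (n : ℝ) ≤ 12000 * cntB s := by exact_mod_cast hB
  linarith

variable {wt : ℕ → List (Fin 4) → ℝ}

lemma wt_pos (hw : GoodWt wt) (n : ℕ) (hn : 2 ≤ n) (s : List (Fin 4)) (hs : s ∈ W n) :
    0 < wt n s := lt_of_lt_of_le one_pos (hw.one_le n hn s hs)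

lemma aw_ge (hw : GoodWt wt) (n : ℕ) (hn : 2 ≤ n) : ((W n).card : ℝ) ≤ aw wt n := by
  unfold aw
  calc ((W n).card : ℝ) = ∑ s ∈ W n, (1 : ℝ) := by simp
    _ ≤ _ := sum_le_sum (fun s hs => hw.one_le n hn s hs)

lemma aw_pos (hw : GoodWt wt) (n : ℕ) (hn : 2 ≤ n) : 0 < aw wt n := by
  have h1 := aw_ge hw n hn
  have h2 := W_pos n (by omega)
  have h3 : (1 : ℝ) ≤ (W n).card := by exact_mod_cast h2
  linarith

lemma aw_le (hw : GoodWt wt) (n : ℕ) (hn : 2 ≤ n) :
    aw wt n ≤ (hw.C * (n : ℝ) ^ hw.K) * (W n).card := by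
  unfold aw
  calc ∑ s ∈ W n, wt n s ≤ ∑ s ∈ W n, (hw.C * (n : ℝ) ^ hw.K) :=
        sum_le_sum (fun s hs => hw.le_poly n hn s hs)
    _ = _ := by rw [sum_const, nsmul_eq_mul]; ring

/-- polynomial factors are subexponential -/
lemma log_poly (C : ℝ) (hC : 1 ≤ C) (K : ℕ) :
    Tendsto (fun n : ℕ => Real.log (C * (n : ℝ) ^ K) / n) atTop (𝓝 0) := by
  have h1 : Tendsto (fun n : ℕ => Real.log C / (n : ℝ) + K * (Real.log n / n)) atTop
      (𝓝 (0 + K * 0)) := by
    apply Tendsto.add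
    · exact tendsto_const_nhds.div_atTop tendsto_natCast_atTop_atTop
    · apply Tendsto.const_mul
      have h2 : Tendsto (fun x : ℝ => Real.log x / x) atTop (𝓝 0) := by
        have := Real.isLittleO_log_id_atTop.tendsto_div_nhds_zero
        simpa using this
      exact h2.comp tendsto_natCast_atTop_atTop
  simp only [mul_zero, add_zero] at h1
  refine h1.congr' ?_
  filter_upwards [eventually_ge_atTop 1] with n hn
  have hn' : (n : ℝ) ≠ 0 := by positivity
  have hC' : C ≠ 0 := by linarith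
  rw [Real.log_mul hC' (by positivity), Real.log_pow]
  ring

lemma tendsto_aw (hw : GoodWt wt) :
    Tendsto (fun n : ℕ => Real.log (aw wt n) / n) atTop (𝓝 Lc) := by
  have h1 := (log_poly hw.C hw.hC hw.K).add tendsto_W
  rw [zero_add] at h1
  refine tendsto_of_tendsto_of_tendsto_of_le_of_le' tendsto_W h1 ?_ ?_
  · filter_upwards [eventually_ge_atTop 2] with n hn
    have h2 := W_pos n (by omega)
    apply div_le_div_of_nonneg_right _ (by positivity)
    exact Real.log_le_log (by exact_mod_cast h2) (aw_ge hw n hn)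
  · filter_upwards [eventually_ge_atTop 2] with n hn
    have h2 := W_pos n (by omega)
    have hn' : (0 : ℝ) < n := by
      have : 0 < n := by omega
      exact_mod_cast this
    rw [← add_div]
    apply div_le_div_of_nonneg_right _ (by positivity)
    have hC := hw.hC
    have h3 : (0 : ℝ) < hw.C * (n : ℝ) ^ hw.K := by positivity
    have h4 : (0 : ℝ) < (W n).card := by exact_mod_cast h2
    rw [← Real.log_mul h3.ne' h4.ne']
    exact Real.log_le_log (aw_pos hw n hn) (aw_le hw n hn)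

/-- sum over bad words -/
noncomputable def bs (wt : ℕ → List (Fin 4) → ℝ) (n : ℕ) : ℝ := ∑ s ∈ Bad n, wt n s

lemma bs_nonneg (hw : GoodWt wt) (n : ℕ) (hn : 2 ≤ n) : 0 ≤ bs wt n := by
  apply sum_nonneg
  intro s hs
  rw [mem_Bad] at hs
  exact (wt_pos hw n hn s hs.1).le

lemma bs_le (hw : GoodWt wt) (n : ℕ) (hn : 2 ≤ n) :
    bs wt n ≤ hw.C * (n : ℝ) ^ hw.K * (23 * Real.exp (n * (2 * Real.log (29 / 12)))) := by
  have hC := hw.hC
  calc bs wt n ≤ ∑ s ∈ Bad n, (hw.C * (n : ℝ) ^ hw.K) := by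
        apply sum_le_sum
        intro s hs
        rw [mem_Bad] at hs
        exact hw.le_poly n hn s hs.1
    _ = hw.C * (n : ℝ) ^ hw.K * (Bad n).card := by rw [sum_const, nsmul_eq_mul]; ring
    _ ≤ _ := mul_le_mul_of_nonneg_left (bad_card n hn) (by positivity)

/-- bad words have a negligible total weight, even after multiplication by `n^2` -/
lemma bs_small (hw : GoodWt wt) :
    ∀ᶠ n : ℕ in atTop, bs wt n ≤ aw wt n / (n : ℝ) ^ 2 := by
  -- compare logarithms
  have h1 := tendsto_aw hw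
  have h2 : Tendsto (fun n : ℕ => Real.log ((hw.C * 23) * (n : ℝ) ^ (hw.K + 2)) / n) atTop (𝓝 0) :=
    log_poly _ (by have := hw.hC; linarith) _
  have h3 : Tendsto (fun n : ℕ => Real.log (aw wt n) / n -
      Real.log ((hw.C * 23) * (n : ℝ) ^ (hw.K + 2)) / n) atTop (𝓝 (Lc - 0)) := h1.sub h2
  rw [sub_zero] at h3
  have h4 := h3.eventually (lt_mem_nhds Lc_gt)
  filter_upwards [h4, eventually_ge_atTop 2] with n hn hn2
  have hn' : (0 : ℝ) < n := by
    have : 0 < n := by omega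
    exact_mod_cast this
  have hC := hw.hC
  rw [← sub_div, lt_div_iff₀ hn'] at hn
  have h5 := bs_le hw n hn2
  have h6 : (0 : ℝ) < (hw.C * 23) * (n : ℝ) ^ (hw.K + 2) := by positivity
  have h7 : Real.exp (n * (2 * Real.log (29 / 12))) ≤ aw wt n / ((hw.C * 23) * (n : ℝ) ^ (hw.K + 2)) := by
    have := Real.exp_le_exp.2 hn.le
    rw [Real.exp_sub, Real.exp_log (aw_pos hw n hn2), Real.exp_log h6] at this
    rw [mul_comm]
    exact this
  refine h5.trans ?_
  calc hw.C * (n : ℝ) ^ hw.K * (23 * Real.exp (n * (2 * Real.log (29 / 12))))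
      ≤ hw.C * (n : ℝ) ^ hw.K * (23 * (aw wt n / ((hw.C * 23) * (n : ℝ) ^ (hw.K + 2)))) := by
        gcongr
    _ = aw wt n / (n : ℝ) ^ 2 := by
        have : (n : ℝ) ≠ 0 := hn'.ne'
        have : hw.C ≠ 0 := by linarith
        field_simp
        ring

/-- first moment sum -/
noncomputable def S1 (wt : ℕ → List (Fin 4) → ℝ) (n : ℕ) : ℝ := ∑ s ∈ Gd n, wt n s * rr s

/-- second moment sum -/
noncomputable def S2 (wt : ℕ → List (Fin 4) → ℝ) (n : ℕ) : ℝ := ∑ s ∈ Gd n, wt n s * rr s ^ 2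

lemma gd_le (hw : GoodWt wt) (n : ℕ) (hn : 2 ≤ n) : ∑ s ∈ Gd n, wt n s ≤ aw wt n := by
  unfold aw
  rw [sum_split n]
  have := bs_nonneg hw n hn
  unfold bs at this
  linarith

lemma S1_nonneg (hw : GoodWt wt) (n : ℕ) (hn : 2 ≤ n) : 0 ≤ S1 wt n := by
  apply sum_nonneg
  intro s hs
  have hs' := (mem_Gd n s).1 hs
  exact mul_nonneg (wt_pos hw n hn s hs'.1).le (rr_nonneg s)

lemma S1_le (hw : GoodWt wt) (n : ℕ) (hn : 2 ≤ n) : S1 wt n ≤ 96000 * aw wt n := by
  calc S1 wt n ≤ ∑ s ∈ Gd n, 96000 * wt n s := by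
        apply sum_le_sum
        intro s hs
        have hs' := (mem_Gd n s).1 hs
        have h1 := wt_pos hw n hn s hs'.1
        have h2 := rr_le n (by omega) s hs
        nlinarith
    _ = 96000 * ∑ s ∈ Gd n, wt n s := by rw [mul_sum]
    _ ≤ _ := by have := gd_le hw n hn; linarith

lemma S2_le (hw : GoodWt wt) (n : ℕ) (hn : 2 ≤ n) : S2 wt n ≤ 96000 ^ 2 * aw wt n := by
  calc S2 wt n ≤ ∑ s ∈ Gd n, 96000 ^ 2 * wt n s := by
        apply sum_le_sum
        intro s hs
        have hs' := (mem_Gd n s).1 hs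
        have h1 := wt_pos hw n hn s hs'.1
        have h2 := rr_le n (by omega) s hs
        have h3 := rr_nonneg s
        have h4 : rr s ^ 2 ≤ 96000 ^ 2 := pow_le_pow_left₀ h3 h2 2
        nlinarith
    _ = 96000 ^ 2 * ∑ s ∈ Gd n, wt n s := by rw [mul_sum]
    _ ≤ _ := by have := gd_le hw n hn; nlinarith

lemma S1_sq_le (hw : GoodWt wt) (n : ℕ) (hn : 2 ≤ n) : S1 wt n ^ 2 ≤ S2 wt n * aw wt n := by
  have h1 : S1 wt n ^ 2 ≤ (∑ s ∈ Gd n, wt n s) * S2 wt n := by
    have := sum_mul_sq_le_sq_mul_sq (Gd n) (fun s => Real.sqrt (wt n s))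
      (fun s => Real.sqrt (wt n s) * rr s)
    have e1 : ∑ s ∈ Gd n, Real.sqrt (wt n s) * (Real.sqrt (wt n s) * rr s) = S1 wt n := by
      apply sum_congr rfl
      intro s hs
      have hs' := (mem_Gd n s).1 hs
      rw [← mul_assoc, Real.mul_self_sqrt (wt_pos hw n hn s hs'.1).le]
    have e2 : ∑ s ∈ Gd n, Real.sqrt (wt n s) ^ 2 = ∑ s ∈ Gd n, wt n s := by
      apply sum_congr rfl
      intro s hs
      have hs' := (mem_Gd n s).1 hs
      rw [Real.sq_sqrt (wt_pos hw n hn s hs'.1).le]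
    have e3 : ∑ s ∈ Gd n, (Real.sqrt (wt n s) * rr s) ^ 2 = S2 wt n := by
      apply sum_congr rfl
      intro s hs
      have hs' := (mem_Gd n s).1 hs
      rw [mul_pow, Real.sq_sqrt (wt_pos hw n hn s hs'.1).le]
    rw [e1, e2, e3] at this
    exact this
  have h2 := gd_le hw n hn
  have h3 : 0 ≤ S2 wt n := by
    apply sum_nonneg
    intro s hs
    have hs' := (mem_Gd n s).1 hs
    exact mul_nonneg (wt_pos hw n hn s hs'.1).le (by positivity)
  calc _ ≤ _ := h1
    _ ≤ aw wt n * S2 wt n := mul_le_mul_of_nonneg_right h2 h3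
    _ = _ := by ring

/-- upper bound for the next total weight -/
lemma upper_one (hw : GoodWt wt) (n : ℕ) (hn : 120000 ≤ n) :
    aw wt (n + 1) ≤ bs wt (n + 1) + 8 * n * (1 + hw.C) * bs wt n +
      (1 + hw.C / n) * (1 + 120000 / n) * S1 wt n := by
  have hn2 : 2 ≤ n := by omega
  have hn' : (0 : ℝ) < n := by
    have : 0 < n := by omega
    exact_mod_cast this
  have hn1 : (1 : ℝ) ≤ n := by
    have : 1 ≤ n := by omega
    exact_mod_cast this
  have hC := hw.hC
  obtain ⟨_, h2⟩ := sum_over_down n (wt (n + 1))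
    (fun s hs => (wt_pos hw (n + 1) (by omega) s hs).le)
  have h3 : ∑ s ∈ W n, ∑ x ∈ Up s, wt (n + 1) (ins x.1 x.2 s) / cntB (ins x.1 x.2 s) ≤
      8 * n * (1 + hw.C) * bs wt n + (1 + hw.C / n) * (1 + 120000 / n) * S1 wt n := by
    rw [sum_split n, add_comm]
    apply add_le_add
    · unfold bs
      rw [mul_sum]
      apply sum_le_sum
      intro s hs
      rw [mem_Bad] at hs
      have hpos := wt_pos hw n hn2 s hs.1
      calc ∑ x ∈ Up s, wt (n + 1) (ins x.1 x.2 s) / cntB (ins x.1 x.2 s)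
          ≤ ∑ x ∈ Up s, (1 + hw.C) * wt n s := by
            apply sum_le_sum
            intro x hx
            obtain ⟨g1, g2, _, _, _⟩ := ins_facts n s hs.1 x hx
            have g3 := hw.lip n hn2 s hs.1 x hx
            have g4 := (abs_le.1 g3).2
            have g5 : hw.C / n * wt n s ≤ hw.C * wt n s := by
              apply mul_le_mul_of_nonneg_right _ hpos.le
              exact div_le_self (by linarith) hn1
            have g6 : (1 : ℝ) ≤ cntB (ins x.1 x.2 s) := by exact_mod_cast g2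
            have g7 : 0 ≤ wt (n + 1) (ins x.1 x.2 s) := (wt_pos hw (n + 1) (by omega) _ g1).le
            calc _ ≤ wt (n + 1) (ins x.1 x.2 s) := div_le_self g7 g6
              _ ≤ _ := by linarith
        _ = (Up s).card * ((1 + hw.C) * wt n s) := by rw [sum_const, nsmul_eq_mul]
        _ ≤ (8 * n) * ((1 + hw.C) * wt n s) := by
            apply mul_le_mul_of_nonneg_right _ (by positivity)
            have := card_Up_le s
            rw [((mem_W n s).1 hs.1).1] at this
            have : (Up s).card ≤ 8 * n := by omega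
            exact_mod_cast this
        _ = _ := by ring
    · unfold S1
      rw [mul_sum]
      apply sum_le_sum
      intro s hs
      rw [mem_Gd] at hs
      have hpos := wt_pos hw n hn2 s hs.1
      have hB10 : 10 ≤ cntB s := by omega
      have hB10' : (10 : ℝ) ≤ cntB s := by exact_mod_cast hB10
      have hBn : (n : ℝ) ≤ 12000 * cntB s := by exact_mod_cast hs.2
      calc ∑ x ∈ Up s, wt (n + 1) (ins x.1 x.2 s) / cntB (ins x.1 x.2 s)
          ≤ ∑ x ∈ Up s, (1 + hw.C / n) * (1 + 120000 / n) * (wt n s * (1 / cntB s)) := by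
            apply sum_le_sum
            intro x hx
            obtain ⟨g1, g2, _, g3, _⟩ := ins_facts n s hs.1 x hx
            have g4 := (abs_le.1 (hw.lip n hn2 s hs.1 x hx)).2
            have g5 : (cntB s : ℝ) - 5 ≤ cntB (ins x.1 x.2 s) := by
              have : (cntB s : ℝ) ≤ cntB (ins x.1 x.2 s) + 5 := by exact_mod_cast g3
              linarith
            have g6 : wt (n + 1) (ins x.1 x.2 s) ≤ (1 + hw.C / n) * wt n s := by linarith
            have g7 : 1 / (cntB (ins x.1 x.2 s) : ℝ) ≤ (1 + 120000 / n) * (1 / cntB s) := by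
              have e1 : (10 : ℝ) / cntB s ≤ 120000 / n := by
                rw [div_le_div_iff₀ (by linarith) hn']
                linarith
              calc 1 / (cntB (ins x.1 x.2 s) : ℝ) ≤ 1 / ((cntB s : ℝ) - 5) :=
                    one_div_le_one_div_of_le (by linarith) g5
                _ ≤ (1 + 10 / cntB s) * (1 / cntB s) := by
                    rw [div_le_iff₀ (by linarith)]
                    have : (cntB s : ℝ) ≠ 0 := by linarith
                    have e2 : (1 + 10 / (cntB s : ℝ)) * (1 / cntB s) * (cntB s - 5) =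
                        ((cntB s + 10) * (cntB s - 5)) / (cntB s : ℝ) ^ 2 := by
                      field_simp
                    rw [e2, le_div_iff₀ (by positivity)]
                    nlinarith
                _ ≤ _ := by
                    apply mul_le_mul_of_nonneg_right _ (by positivity)
                    linarith
            calc wt (n + 1) (ins x.1 x.2 s) / cntB (ins x.1 x.2 s)
                = wt (n + 1) (ins x.1 x.2 s) * (1 / cntB (ins x.1 x.2 s)) := by ring
              _ ≤ ((1 + hw.C / n) * wt n s) * ((1 + 120000 / n) * (1 / cntB s)) := by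
                  apply mul_le_mul g6 g7 (by positivity) (by positivity)
              _ = _ := by ring
        _ = _ := by
            rw [sum_const, nsmul_eq_mul]
            unfold rr
            ring
  unfold aw
  calc _ ≤ _ := h2
    _ ≤ _ := by unfold bs at h3 ⊢; linarith

/-- the constant in the lower bound -/
noncomputable def CL (C : ℝ) : ℝ := 2 * C * 96000 ^ 2 + 12000 * (15 * 96000 ^ 2 + 20 * 96000)

lemma alg_lower (F B n C : ℝ) (hF : 0 ≤ F) (hB : 10 ≤ B) (hn : 0 < n) (hBn : n ≤ 12000 * B)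
    (hC : 1 ≤ C) (hCn : C ≤ n) (hr : F / B ≤ 96000) :
    (F / B) ^ 2 - CL C / n ≤ F * (F - 20) * (1 - C / n) ^ 2 / ((B + 5) * (B + 10)) := by
  have hB0 : 0 < B := by linarith
  set r := F / B with hrdef
  have hr0 : 0 ≤ r := by positivity
  have hFr : F = r * B := by rw [hrdef]; field_simp
  set v := F * (F - 20) / ((B + 5) * (B + 10)) with hv
  have hD : 0 < (B + 5) * (B + 10) := by positivity
  have hv1 : v ≤ r ^ 2 := by
    rw [hv, div_le_iff₀ hD, hFr]
    have : r * B * (r * B - 20) ≤ (r * B) ^ 2 := by nlinarith [mul_nonneg hr0 hB0.le]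
    calc r * B * (r * B - 20) ≤ (r * B) ^ 2 := this
      _ = r ^ 2 * B ^ 2 := by ring
      _ ≤ r ^ 2 * ((B + 5) * (B + 10)) := by
          apply mul_le_mul_of_nonneg_left _ (by positivity)
          nlinarith
  have hv2 : r ^ 2 - (15 * r ^ 2 + 20 * r) / B ≤ v := by
    rw [hv, le_div_iff₀ hD, hFr]
    have e1 : (r ^ 2 - (15 * r ^ 2 + 20 * r) / B) * ((B + 5) * (B + 10)) =
        r ^ 2 * ((1 - 15 / B) * ((B + 5) * (B + 10))) - 20 * r * (((B + 5) * (B + 10)) / B) := by
      field_simp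
      ring
    rw [e1]
    have e2 : (1 - 15 / B) * ((B + 5) * (B + 10)) ≤ B ^ 2 := by
      have : (1 - 15 / B) * ((B + 5) * (B + 10)) = B ^ 2 - 175 - 750 / B := by
        field_simp
        ring
      rw [this]
      have : 0 < 750 / B := by positivity
      linarith
    have e3 : B ≤ ((B + 5) * (B + 10)) / B := by
      rw [le_div_iff₀ hB0]; nlinarith
    have e4 : r ^ 2 * ((1 - 15 / B) * ((B + 5) * (B + 10))) ≤ r ^ 2 * B ^ 2 :=
      mul_le_mul_of_nonneg_left e2 (by positivity)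
    have e5 : 20 * r * B ≤ 20 * r * (((B + 5) * (B + 10)) / B) :=
      mul_le_mul_of_nonneg_left e3 (by positivity)
    nlinarith
  have hrr : r ^ 2 ≤ 96000 ^ 2 := pow_le_pow_left₀ hr0 hr 2
  have hy : (15 * r ^ 2 + 20 * r) / B ≤ 12000 * (15 * 96000 ^ 2 + 20 * 96000) / n := by
    rw [div_le_div_iff₀ hB0 hn]
    have : 15 * r ^ 2 + 20 * r ≤ 15 * 96000 ^ 2 + 20 * 96000 := by linarith
    calc (15 * r ^ 2 + 20 * r) * n ≤ (15 * 96000 ^ 2 + 20 * 96000) * (12000 * B) := by
          apply mul_le_mul this hBn hn.le (by positivity)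
      _ = _ := by ring
  have hq : (1 - C / n) ^ 2 ≥ 1 - 2 * C / n := by
    have : (1 - C / n) ^ 2 = 1 - 2 * C / n + (C / n) ^ 2 := by ring
    rw [this]
    have : 0 ≤ (C / n) ^ 2 := by positivity
    linarith
  have hq1 : (1 - C / n) ^ 2 ≤ 1 := by
    have h1 : C / n ≤ 1 := (div_le_one hn).2 hCn
    have h2 : 0 ≤ C / n := by positivity
    apply pow_le_one₀ (by linarith) (by linarith)
  have hfin : F * (F - 20) * (1 - C / n) ^ 2 / ((B + 5) * (B + 10)) = v * (1 - C / n) ^ 2 := by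
    rw [hv]; ring
  rw [hfin]
  have h5 : v * (1 - C / n) ^ 2 = v - (1 - (1 - C / n) ^ 2) * v := by ring
  have h6 : (1 - (1 - C / n) ^ 2) * v ≤ (2 * C / n) * 96000 ^ 2 := by
    calc (1 - (1 - C / n) ^ 2) * v ≤ (1 - (1 - C / n) ^ 2) * 96000 ^ 2 := by
          apply mul_le_mul_of_nonneg_left (by linarith) (by linarith)
      _ ≤ (2 * C / n) * 96000 ^ 2 := by
          apply mul_le_mul_of_nonneg_right (by linarith) (by positivity)
  have h7 : CL C / n = (2 * C / n) * 96000 ^ 2 + 12000 * (15 * 96000 ^ 2 + 20 * 96000) / n := by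
    unfold CL; ring
  rw [h5, h7]
  linarith

lemma lower_two (hw : GoodWt wt) (n : ℕ) (hn : 120000 ≤ n) (hCn : hw.C ≤ n) :
    S2 wt n - CL hw.C / n * aw wt n ≤ aw wt (n + 2) := by
  have hn2 : 2 ≤ n := by omega
  have hn' : (0 : ℝ) < n := by
    have : 0 < n := by omega
    exact_mod_cast this
  have hC := hw.hC
  have hCn1 : hw.C / n ≤ 1 := (div_le_one hn').2 hCn
  have hCn0 : 0 ≤ hw.C / n := by positivity
  set ψ : List (Fin 4) → ℝ := fun s' =>
    ∑ x ∈ Up s', wt (n + 2) (ins x.1 x.2 s') / cntB (ins x.1 x.2 s') with hψ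
  have hψ0 : ∀ s' ∈ W (n + 1), 0 ≤ ψ s' := by
    intro s' hs'
    apply sum_nonneg
    intro x hx
    obtain ⟨g1, _⟩ := ins_facts (n + 1) s' hs' x hx
    exact div_nonneg (wt_pos hw (n + 2) (by omega) _ g1).le (by positivity)
  obtain ⟨h1, _⟩ := sum_over_down (n + 1) (wt (n + 2))
    (fun s hs => (wt_pos hw (n + 2) (by omega) s hs).le)
  obtain ⟨h2, _⟩ := sum_over_down n ψ hψ0
  have h3 : ∀ s ∈ Gd n, wt n s * (rr s ^ 2 - CL hw.C / n) ≤
      ∑ x ∈ Up s, ψ (ins x.1 x.2 s) / cntB (ins x.1 x.2 s) := by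
    intro s hs
    have hr := rr_le n (by omega) s hs
    rw [mem_Gd] at hs
    have hpos := wt_pos hw n hn2 s hs.1
    have hB10 : 10 ≤ cntB s := by omega
    have hB10' : (10 : ℝ) ≤ cntB s := by exact_mod_cast hB10
    have hBn : (n : ℝ) ≤ 12000 * cntB s := by exact_mod_cast hs.2
    set τ := (1 - hw.C / n) ^ 2 * wt n s / (cntB s + 10) with hτ
    have hτ0 : 0 ≤ τ := by positivity
    have h4 : ∀ x ∈ Up s, ((Up s).card - 20 : ℝ) * τ / (cntB s + 5) ≤
        ψ (ins x.1 x.2 s) / cntB (ins x.1 x.2 s) := by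
      intro x hx
      obtain ⟨g1, g2, g3, g4, g5⟩ := ins_facts n s hs.1 x hx
      have g6 := (abs_le.1 (hw.lip n hn2 s hs.1 x hx)).1
      set s' := ins x.1 x.2 s with hs'
      have hpos' := wt_pos hw (n + 1) (by omega) s' g1
      have g7 : (1 - hw.C / n) * wt n s ≤ wt (n + 1) s' := by linarith
      have g2' : (1 : ℝ) ≤ cntB s' := by exact_mod_cast g2
      have g3' : (cntB s' : ℝ) ≤ cntB s + 5 := by exact_mod_cast g3
      have g5' : ((Up s).card : ℝ) - 20 ≤ (Up s').card := by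
        have : ((Up s).card : ℝ) ≤ (Up s').card + 20 := by exact_mod_cast g5
        linarith
      have h5 : ∀ y ∈ Up s', τ ≤ wt (n + 2) (ins y.1 y.2 s') / cntB (ins y.1 y.2 s') := by
        intro y hy
        obtain ⟨k1, k2, k3, k4, k5⟩ := ins_facts (n + 1) s' g1 y hy
        have k6 := (abs_le.1 (hw.lip (n + 1) (by omega) s' g1 y hy)).1
        have k7 : (1 - hw.C / n) * wt (n + 1) s' ≤ wt (n + 2) (ins y.1 y.2 s') := by
          have : hw.C / ((n + 1 : ℕ) : ℝ) ≤ hw.C / n := by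
            apply div_le_div_of_nonneg_left (by linarith) hn'
            push_cast; linarith
          have : hw.C / ((n + 1 : ℕ) : ℝ) * wt (n + 1) s' ≤ hw.C / n * wt (n + 1) s' :=
            mul_le_mul_of_nonneg_right this hpos'.le
          linarith
        have k3' : (cntB (ins y.1 y.2 s') : ℝ) ≤ cntB s' + 5 := by exact_mod_cast k3
        have k2' : (1 : ℝ) ≤ cntB (ins y.1 y.2 s') := by exact_mod_cast k2
        have k8 : (1 - hw.C / n) ^ 2 * wt n s ≤ wt (n + 2) (ins y.1 y.2 s') := by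
          calc (1 - hw.C / n) ^ 2 * wt n s = (1 - hw.C / n) * ((1 - hw.C / n) * wt n s) := by ring
            _ ≤ (1 - hw.C / n) * wt (n + 1) s' := mul_le_mul_of_nonneg_left g7 (by linarith)
            _ ≤ _ := k7
        rw [hτ]
        apply div_le_div₀ _ k8 (by linarith) (by linarith)
        exact le_trans (by positivity) k8
      have h6 : ((Up s').card : ℝ) * τ ≤ ψ s' := by
        rw [hψ]
        calc ((Up s').card : ℝ) * τ = ∑ y ∈ Up s', τ := by rw [sum_const, nsmul_eq_mul]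
          _ ≤ _ := sum_le_sum h5
      rcases le_or_gt 0 (((Up s).card : ℝ) - 20) with h7 | h7
      · apply div_le_div₀ (hψ0 s' g1) _ (by linarith) g3'
        exact le_trans (mul_le_mul_of_nonneg_right g5' hτ0) h6
      · have : ((Up s).card - 20 : ℝ) * τ / (cntB s + 5) ≤ 0 := by
          apply div_nonpos_of_nonpos_of_nonneg
          · exact mul_nonpos_of_nonpos_of_nonneg h7.le hτ0
          · linarith
        refine this.trans ?_
        exact div_nonneg (hψ0 s' g1) (by linarith)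
    calc wt n s * (rr s ^ 2 - CL hw.C / n)
        ≤ wt n s * ((Up s).card * ((Up s).card - 20) * (1 - hw.C / n) ^ 2 /
            ((cntB s + 5) * (cntB s + 10))) := by
          apply mul_le_mul_of_nonneg_left _ hpos.le
          exact alg_lower (Up s).card (cntB s) n hw.C (by positivity) hB10' hn' hBn hC hCn hr
      _ = ∑ x ∈ Up s, ((Up s).card - 20 : ℝ) * τ / (cntB s + 5) := by
          rw [sum_const, nsmul_eq_mul, hτ]
          field_simp
      _ ≤ _ := sum_le_sum h4
  have h8 : ∑ s ∈ Gd n, wt n s * (rr s ^ 2 - CL hw.C / n) ≤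
      ∑ s ∈ W n, ∑ x ∈ Up s, ψ (ins x.1 x.2 s) / cntB (ins x.1 x.2 s) := by
    rw [sum_split n]
    have h9 : 0 ≤ ∑ s ∈ Bad n, ∑ x ∈ Up s, ψ (ins x.1 x.2 s) / cntB (ins x.1 x.2 s) := by
      apply sum_nonneg
      intro s hs
      rw [mem_Bad] at hs
      apply sum_nonneg
      intro x hx
      obtain ⟨g1, _⟩ := ins_facts n s hs.1 x hx
      exact div_nonneg (hψ0 _ g1) (by positivity)
    have := sum_le_sum h3
    linarith
  have h10 : ∑ s ∈ Gd n, wt n s * (rr s ^ 2 - CL hw.C / n) =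
      S2 wt n - CL hw.C / n * ∑ s ∈ Gd n, wt n s := by
    unfold S2
    rw [mul_sum, ← sum_sub_distrib]
    apply sum_congr rfl
    intro s _
    ring
  rw [h10] at h8
  have h11 := gd_le hw n hn2
  have h12 : 0 ≤ CL hw.C / n := by
    unfold CL; positivity
  have h13 : CL hw.C / n * ∑ s ∈ Gd n, wt n s ≤ CL hw.C / n * aw wt n :=
    mul_le_mul_of_nonneg_left h11 h12
  unfold aw at h13 ⊢
  unfold aw at *
  linarith

lemma upper_clean (hw : GoodWt wt) : ∃ C4 : ℝ, 0 < C4 ∧ ∀ᶠ n : ℕ in atTop,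
    aw wt (n + 1) ≤ S1 wt n + C4 / n * aw wt n := by
  have hC := hw.hC
  set K0 : ℝ := 2 * (8 * (1 + hw.C) + (1 + hw.C) * 2 * 96000) with hK0
  refine ⟨K0 + 8 * (1 + hw.C) + 96000 * (hw.C + 120000 + 120000 * hw.C), by positivity, ?_⟩
  have hb := bs_small hw
  have hb1 := (tendsto_add_atTop_nat 1).eventually hb
  filter_upwards [hb, hb1, eventually_ge_atTop 120000] with n h1 h2 hn
  have hn2 : 2 ≤ n := by omega
  have hn' : (0 : ℝ) < n := by
    have : 0 < n := by omega
    exact_mod_cast this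
  have hn1 : (1 : ℝ) ≤ n := by
    have : 1 ≤ n := by omega
    exact_mod_cast this
  have hn12 : (120000 : ℝ) ≤ n := by exact_mod_cast hn
  have hU := upper_one hw n hn
  have hA := aw_pos hw n hn2
  have hA1 := aw_pos hw (n + 1) (by omega)
  have hS := S1_le hw n hn2
  have hS0 := S1_nonneg hw n hn2
  have hb0 := bs_nonneg hw n hn2
  have e1 : 8 * n * (1 + hw.C) * bs wt n ≤ 8 * (1 + hw.C) / n * aw wt n := by
    calc 8 * n * (1 + hw.C) * bs wt n ≤ 8 * n * (1 + hw.C) * (aw wt n / (n : ℝ) ^ 2) := by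
          apply mul_le_mul_of_nonneg_left h1 (by positivity)
      _ = _ := by field_simp
  have hq1 : hw.C / n ≤ hw.C := div_le_self (by linarith) hn1
  have hq2 : (120000 : ℝ) / n ≤ 1 := (div_le_one hn').2 hn12
  have e2 : (1 + hw.C / n) * (1 + 120000 / n) * S1 wt n ≤ (1 + hw.C) * 2 * (96000 * aw wt n) := by
    apply mul_le_mul _ hS hS0 (by positivity)
    apply mul_le_mul (by linarith) (by linarith) (by positivity) (by positivity)
  have e3 : bs wt (n + 1) ≤ aw wt (n + 1) / (n : ℝ) ^ 2 := by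
    refine h2.trans ?_
    apply div_le_div_of_nonneg_left hA1.le (by positivity)
    push_cast
    nlinarith
  have e4 : aw wt (n + 1) / (n : ℝ) ^ 2 ≤ aw wt (n + 1) / 2 := by
    apply div_le_div_of_nonneg_left hA1.le (by positivity)
    nlinarith
  have e5 : 8 * (1 + hw.C) / n * aw wt n ≤ 8 * (1 + hw.C) * aw wt n := by
    apply mul_le_mul_of_nonneg_right _ hA.le
    exact div_le_self (by linarith) hn1
  have e6 : aw wt (n + 1) ≤ K0 * aw wt n := by
    rw [hK0]; linarith
  have e7 : bs wt (n + 1) ≤ K0 / n * aw wt n := by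
    calc bs wt (n + 1) ≤ aw wt (n + 1) / (n : ℝ) ^ 2 := e3
      _ ≤ K0 * aw wt n / (n : ℝ) ^ 2 := by gcongr
      _ ≤ K0 * aw wt n / n := by
          apply div_le_div_of_nonneg_left (by positivity) hn'
          nlinarith
      _ = _ := by ring
  have e8 : (1 + hw.C / n) * (1 + 120000 / n) * S1 wt n ≤ S1 wt n +
      96000 * (hw.C + 120000 + 120000 * hw.C) / n * aw wt n := by
    have h3 : (1 + hw.C / n) * (1 + 120000 / n) ≤ 1 + (hw.C + 120000 + 120000 * hw.C) / n := by
      have : (1 + hw.C / n) * (1 + 120000 / n) =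
          1 + (hw.C + 120000) / n + (120000 * hw.C / n) / n := by
        field_simp
        ring
      rw [this]
      have h4 : (120000 * hw.C / n) / n ≤ 120000 * hw.C / n :=
        div_le_self (by positivity) hn1
      have h5 : (hw.C + 120000 + 120000 * hw.C) / n = (hw.C + 120000) / n + 120000 * hw.C / n := by
        ring
      linarith
    calc _ ≤ (1 + (hw.C + 120000 + 120000 * hw.C) / n) * S1 wt n :=
          mul_le_mul_of_nonneg_right h3 hS0
      _ = S1 wt n + (hw.C + 120000 + 120000 * hw.C) / n * S1 wt n := by ring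
      _ ≤ S1 wt n + (hw.C + 120000 + 120000 * hw.C) / n * (96000 * aw wt n) := by
          gcongr
      _ = _ := by ring
  have e9 : (K0 + 8 * (1 + hw.C) + 96000 * (hw.C + 120000 + 120000 * hw.C)) / n * aw wt n =
      K0 / n * aw wt n + 8 * (1 + hw.C) / n * aw wt n +
        96000 * (hw.C + 120000 + 120000 * hw.C) / n * aw wt n := by ring
  rw [e9]
  linarith

lemma lower_clean (hw : GoodWt wt) : ∀ᶠ n : ℕ in atTop,
    S2 wt n - CL hw.C / n * aw wt n ≤ aw wt (n + 2) := by
  have h1 : ∀ᶠ n : ℕ in atTop, hw.C ≤ n :=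
    tendsto_natCast_atTop_atTop.eventually_ge_atTop hw.C
  filter_upwards [h1, eventually_ge_atTop 120000] with n h2 h3
  exact lower_two hw n h3 h2

lemma kesten_hyp (hw : GoodWt wt) : ∃ C : ℝ, 0 < C ∧ ∃ N : ℕ, 2 ≤ N ∧ ∀ n ≥ N,
    (aw wt (n + 1) / aw wt n) ^ 2 ≤ aw wt (n + 2) / aw wt n + C / n := by
  obtain ⟨C4, hC4, hU⟩ := upper_clean hw
  have hL := lower_clean hw
  have hCL : 0 < CL hw.C := by
    have := hw.hC
    unfold CL; positivity
  refine ⟨2 * 96000 * C4 + C4 ^ 2 + CL hw.C, by positivity, ?_⟩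
  obtain ⟨N, hN⟩ := eventually_atTop.1 (hU.and hL)
  refine ⟨max N 2, le_max_right _ _, fun n hn => ?_⟩
  obtain ⟨h1, h2⟩ := hN n (le_trans (le_max_left _ _) hn)
  have hn2 : 2 ≤ n := le_trans (le_max_right _ _) hn
  have hn' : (0 : ℝ) < n := by
    have : 0 < n := by omega
    exact_mod_cast this
  have hn1 : (1 : ℝ) ≤ n := by
    have : 1 ≤ n := by omega
    exact_mod_cast this
  have hA := aw_pos hw n hn2
  have hA1 := aw_pos hw (n + 1) (by omega)
  set R1 := S1 wt n / aw wt n with hR1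
  set R2 := S2 wt n / aw wt n with hR2
  have hS := S1_le hw n hn2
  have hS0 := S1_nonneg hw n hn2
  have f1 : 0 ≤ R1 := div_nonneg hS0 hA.le
  have f2 : R1 ≤ 96000 := by rw [hR1, div_le_iff₀ hA]; exact hS
  have f3 : R1 ^ 2 ≤ R2 := by
    rw [hR1, hR2, div_pow, div_le_div_iff₀ (by positivity) hA]
    have := S1_sq_le hw n hn2
    nlinarith
  have f4 : aw wt (n + 1) / aw wt n ≤ R1 + C4 / n := by
    rw [div_le_iff₀ hA, hR1, add_mul, div_mul_cancel₀ _ hA.ne']
    exact h1
  have f5 : R2 ≤ aw wt (n + 2) / aw wt n + CL hw.C / n := by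
    rw [hR2, div_le_iff₀ hA, add_mul, div_mul_cancel₀ _ hA.ne']
    linarith
  have f6 : 0 ≤ aw wt (n + 1) / aw wt n := by positivity
  calc (aw wt (n + 1) / aw wt n) ^ 2 ≤ (R1 + C4 / n) ^ 2 := pow_le_pow_left₀ f6 f4 2
    _ = R1 ^ 2 + 2 * R1 * C4 / n + (C4 ^ 2 / n) / n := by ring
    _ ≤ R2 + 2 * 96000 * C4 / n + C4 ^ 2 / n := by
        have g1 : (C4 ^ 2 / n) / n ≤ C4 ^ 2 / n := div_le_self (by positivity) hn1
        have g2 : 2 * R1 * C4 / n ≤ 2 * 96000 * C4 / n := by gcongr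
        linarith
    _ ≤ aw wt (n + 2) / aw wt n + CL hw.C / n + 2 * 96000 * C4 / n + C4 ^ 2 / n := by linarith
    _ = _ := by ring

/-- ratio limit theorem for slowly varying weights -/
theorem ratio_limit (hw : GoodWt wt) :
    Tendsto (fun n => aw wt (n + 1) / aw wt n) atTop (𝓝 (Real.exp Lc)) := by
  obtain ⟨C, hC, N, hN2, hN⟩ := kesten_hyp hw
  set a : ℕ → ℝ := fun n => if n < 2 then 1 else aw wt n with ha
  have ha2 : ∀ n, 2 ≤ n → a n = aw wt n := fun n hn => by
    simp only [ha]; rw [if_neg (by omega)]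
  have hpos : ∀ n, 0 < a n := by
    intro n
    rcases Nat.lt_or_ge n 2 with h | h
    · simp only [ha]; rw [if_pos h]; norm_num
    · rw [ha2 n h]; exact aw_pos hw n h
  have hlog : Tendsto (fun n : ℕ => Real.log (a n) / n) atTop (𝓝 Lc) := by
    refine (tendsto_aw hw).congr' ?_
    filter_upwards [eventually_ge_atTop 2] with n hn
    rw [ha2 n hn]
  have h1 := kesten a hpos Lc hlog C hC N (fun n hn => by
    rw [ha2 n (by omega), ha2 (n + 1) (by omega), ha2 (n + 2) (by omega)]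
    exact hN n hn)
  refine h1.congr' ?_
  filter_upwards [eventually_ge_atTop 2] with n hn
  rw [ha2 n hn, ha2 (n + 1) (by omega)]

/-- mean square deviation of the ratio `rr` from `κ` on bump-rich words -/
noncomputable def VV (wt : ℕ → List (Fin 4) → ℝ) (n : ℕ) : ℝ :=
  (∑ s ∈ Gd n, wt n s * (rr s - Real.exp Lc) ^ 2) / aw wt n

theorem variance_limit (hw : GoodWt wt) : Tendsto (fun n => VV wt n) atTop (𝓝 0) := by
  obtain ⟨C4, hC4, hU⟩ := upper_clean hw
  have hL := lower_clean hw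
  have hr := ratio_limit hw
  have hr1 : Tendsto (fun n => aw wt (n + 2) / aw wt (n + 1)) atTop (𝓝 (Real.exp Lc)) :=
    hr.comp (tendsto_add_atTop_nat 1)
  set κ := Real.exp Lc with hκ
  have hκ0 : 0 < κ := Real.exp_pos _
  have hinv : ∀ c : ℝ, Tendsto (fun n : ℕ => c / (n : ℝ)) atTop (𝓝 0) := fun c =>
    tendsto_const_nhds.div_atTop tendsto_natCast_atTop_atTop
  have hup : Tendsto (fun n : ℕ => aw wt (n + 2) / aw wt (n + 1) * (aw wt (n + 1) / aw wt n) +
      CL hw.C / n - 2 * κ * (aw wt (n + 1) / aw wt n - C4 / n) + κ ^ 2) atTop (𝓝 0) := by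
    have h1 := (((hr1.mul hr).add (hinv (CL hw.C))).sub
      ((hr.sub (hinv C4)).const_mul (2 * κ))).add_const (κ ^ 2)
    have h2 : κ * κ + 0 - 2 * κ * (κ - 0) + κ ^ 2 = 0 := by ring
    rw [h2] at h1
    exact h1
  refine tendsto_of_tendsto_of_tendsto_of_le_of_le' tendsto_const_nhds hup ?_ ?_
  · filter_upwards [eventually_ge_atTop 2] with n hn
    apply div_nonneg _ (aw_pos hw n hn).le
    apply sum_nonneg
    intro s hs
    have hs' := (mem_Gd n s).1 hs
    exact mul_nonneg (wt_pos hw n hn s hs'.1).le (by positivity)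
  · filter_upwards [hU, hL, eventually_ge_atTop 2] with n h1 h2 hn
    have hn' : (0 : ℝ) < n := by
      have : 0 < n := by omega
      exact_mod_cast this
    have hA := aw_pos hw n hn
    have hA1 := aw_pos hw (n + 1) (by omega)
    have h3 : ∑ s ∈ Gd n, wt n s * (rr s - κ) ^ 2 =
        S2 wt n - 2 * κ * S1 wt n + κ ^ 2 * ∑ s ∈ Gd n, wt n s := by
      unfold S1 S2
      rw [mul_sum, mul_sum, ← sum_sub_distrib, ← sum_add_distrib]
      apply sum_congr rfl
      intro s _
      ring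
    have h4 := gd_le hw n hn
    unfold VV
    rw [div_le_iff₀ hA, ← hκ, h3]
    have e1 : (aw wt (n + 2) / aw wt (n + 1) * (aw wt (n + 1) / aw wt n) +
      CL hw.C / n - 2 * κ * (aw wt (n + 1) / aw wt n - C4 / n) + κ ^ 2) * aw wt n =
      (aw wt (n + 2) + CL hw.C / n * aw wt n) - 2 * κ * (aw wt (n + 1) - C4 / n * aw wt n) +
        κ ^ 2 * aw wt n := by
      field_simp
    rw [e1]
    have e2 : S2 wt n ≤ aw wt (n + 2) + CL hw.C / n * aw wt n := by linarith
    have e3 : aw wt (n + 1) - C4 / n * aw wt n ≤ S1 wt n := by linarith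
    have e4 : 2 * κ * (aw wt (n + 1) - C4 / n * aw wt n) ≤ 2 * κ * S1 wt n :=
      mul_le_mul_of_nonneg_left e3 (by positivity)
    have e5 : κ ^ 2 * ∑ s ∈ Gd n, wt n s ≤ κ ^ 2 * aw wt n :=
      mul_le_mul_of_nonneg_left h4 (by positivity)
    linarith

end Pool.Agent.Lib27
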