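import Pool.Agent.Lib_helper27.Conn

set_option autoImplicit false

namespace Pool.Agent.Lib27

open Finset Filter Topology

/-- all vertices of a walk, the last one included -/
def vt (p : ℤ × ℤ) (s : List (Fin 4)) : List (ℤ × ℤ) := vs p s ++ [ep p s]

@[simp] lemma vt_nil (p : ℤ × ℤ) : vt p [] = [p] := rfl
@[simp] lemma vt_cons (p : ℤ × ℤ) (d : Fin 4) (s : List (Fin 4)) :
    vt p (d :: s) = p :: vt (p + dv d) s := rfl

lemma vt_append (p : ℤ × ℤ) (s t : List (Fin 4)) :
    vt p (s ++ t) = vs p s ++ vt (ep p s) t := by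
  unfold vt
  rw [vs_append, ep_append, List.append_assoc]

@[simp] lemma vt_length (p : ℤ × ℤ) (s : List (Fin 4)) : (vt p s).length = s.length + 1 := by
  simp [vt]

lemma vt_add (p q : ℤ × ℤ) (s : List (Fin 4)) : vt (p + q) s = (vt p s).map (· + q) := by
  unfold vt
  rw [vs_add, ep_add, List.map_append]
  rfl

lemma vt_eq (p : ℤ × ℤ) (s : List (Fin 4)) : vt p s = (vt 0 s).map (· + p) := by
  rw [← vt_add, zero_add]

lemma nodup_vt (p : ℤ × ℤ) (s : List (Fin 4)) : (vt p s).Nodup ↔ (vt 0 s).Nodup := by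
  rw [vt_eq]
  exact List.nodup_map_iff (add_left_injective p)

lemma ep_mem_vt (p : ℤ × ℤ) (s : List (Fin 4)) : ep p s ∈ vt p s := by
  simp [vt]

lemma mem_vt_self (p : ℤ × ℤ) (s : List (Fin 4)) : p ∈ vt p s := by
  cases s <;> simp

lemma vt_head (p : ℤ × ℤ) (s : List (Fin 4)) : vt p s = p :: (vt p s).tail := by
  cases s <;> simp

lemma vt_append' (p : ℤ × ℤ) (s t : List (Fin 4)) :
    vt p (s ++ t) = vt p s ++ (vt (ep p s) t).tail := by
  rw [vt_append, vt_head (ep p s) t]
  unfold vt
  simp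

/-- self-avoiding words -/
def SAWs (s : List (Fin 4)) : Prop := (vt 0 s).Nodup

lemma SAWs_append (s t : List (Fin 4)) (h : SAWs (s ++ t)) : SAWs s ∧ SAWs t := by
  unfold SAWs at *
  constructor
  · rw [vt_append'] at h
    exact h.of_append_left
  · rw [vt_append] at h
    have := h.of_append_right
    rwa [nodup_vt] at this

open Classical in
/-- self-avoiding words of length `N` -/
noncomputable def Cs (N : ℕ) : Finset (List (Fin 4)) := (words N).filter SAWs

lemma mem_Cs (N : ℕ) (s : List (Fin 4)) : s ∈ Cs N ↔ s.length = N ∧ SAWs s := by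
  classical
  rw [Cs, mem_filter, mem_words]

lemma Cs_mul (m n : ℕ) : (Cs (m + n)).card ≤ (Cs m).card * (Cs n).card := by
  rw [← card_product]
  apply card_le_card_of_injOn (fun s => (s.take m, s.drop m))
  · intro s hs
    simp only [coe_product, Set.mem_prod, mem_coe, mem_Cs] at hs ⊢
    obtain ⟨h1, h2⟩ := hs
    have h3 : s = s.take m ++ s.drop m := (List.take_append_drop m s).symm
    rw [h3] at h2
    obtain ⟨h4, h5⟩ := SAWs_append _ _ h2
    refine ⟨⟨?_, h4⟩, ⟨?_, h5⟩⟩
    · simp [h1]
    · simp [h1]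
  · intro s _ t _ h
    simp only [Prod.mk.injEq] at h
    rw [← List.take_append_drop m s, ← List.take_append_drop m t, h.1, h.2]

lemma Cs_le (N : ℕ) : (Cs N).card ≤ 4 ^ N := by
  classical
  rw [← card_words]
  exact card_filter_le _ _

lemma straight_saw (N : ℕ) (p : ℤ × ℤ) : (vt p (List.replicate N 0)).Nodup ∧
    ∀ v ∈ vt p (List.replicate N 0), p.1 ≤ v.1 := by
  induction N generalizing p with
  | zero => simp
  | succ N ih =>
    obtain ⟨h1, h2⟩ := ih (p + dv 0)
    rw [List.replicate_succ, vt_cons]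
    constructor
    · rw [List.nodup_cons]
      refine ⟨fun h => ?_, h1⟩
      have := h2 p h
      simp [dv] at this
    · intro v hv
      rw [List.mem_cons] at hv
      rcases hv with rfl | hv
      · exact le_rfl
      · have := h2 v hv
        simp [dv] at this
        omega

lemma Cs_pos (N : ℕ) : 1 ≤ (Cs N).card := by
  rw [Nat.one_le_iff_ne_zero, ← Nat.pos_iff_ne_zero, card_pos]
  refine ⟨List.replicate N 0, ?_⟩
  rw [mem_Cs]
  exact ⟨by simp, (straight_saw N 0).1⟩

noncomputable def csU (n : ℕ) : ℝ := Real.log (Cs n).card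

lemma csU_sub : Subadditive csU := by
  intro m n
  unfold csU
  have h1 := Cs_mul m n
  have h2 := Cs_pos m
  have h3 := Cs_pos n
  have h5 := Cs_pos (m + n)
  rw [← Real.log_mul (by positivity) (by positivity)]
  apply Real.log_le_log
  · positivity
  · exact_mod_cast h1

lemma csU_bdd : BddBelow (Set.range fun n : ℕ => csU n / n) := by
  refine ⟨0, ?_⟩
  rintro x ⟨n, rfl⟩
  simp only [csU]
  have := Cs_pos n
  apply div_nonneg _ (by positivity)
  apply Real.log_nonneg
  exact_mod_cast this

/-- logarithm of the connective constant -/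
noncomputable def Lm : ℝ := csU_sub.lim

lemma tendsto_cs : Tendsto (fun n : ℕ => Real.log (Cs n).card / n) atTop (𝓝 Lm) :=
  csU_sub.tendsto_lim csU_bdd

lemma cs_log_ge (n : ℕ) : n * Lm ≤ Real.log (Cs n).card := by
  rcases Nat.eq_zero_or_pos n with rfl | hn
  · have := Cs_pos 0
    simp
    positivity
  · have h := csU_sub.lim_le_div csU_bdd (n := n) (by omega)
    have hn' : (0 : ℝ) < n := by exact_mod_cast hn
    rw [le_div_iff₀ hn'] at h
    unfold Lm
    unfold csU at *
    linarith

lemma Lm_nonneg : 0 ≤ Lm := by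
  apply ge_of_tendsto' tendsto_cs
  intro n
  have := Cs_pos n
  apply div_nonneg _ (by positivity)
  apply Real.log_nonneg
  exact_mod_cast this

/-- `c_N ≥ μ^N` -/
lemma cs_ge (n : ℕ) : Real.exp (n * Lm) ≤ (Cs n).card := by
  have h := cs_log_ge n
  have h1 := Cs_pos n
  have h2 : (0 : ℝ) < (Cs n).card := by positivity
  rw [← Real.exp_log h2]
  exact Real.exp_le_exp.2 h

end Pool.Agent.Lib27
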