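import Pool.Agent.Lib_helper27.Fill

set_option autoImplicit false

namespace Pool.Agent.Lib27

open Finset Filter Topology

lemma biUnion_box_card (R : ℤ) (hR : R ≤ 2) (p : ℤ × ℤ) (f : List (Fin 4)) (k : ℕ)
    (hf : f.length ≤ k) : ((vt p f).toFinset.biUnion (box R)).card ≤ (k + 1) * 25 := by
  refine card_biUnion_le.trans ?_
  calc ∑ u ∈ (vt p f).toFinset, (box R u).card ≤ ∑ u ∈ (vt p f).toFinset, 25 :=
        sum_le_sum fun u _ => box_card R hR u
    _ = (vt p f).toFinset.card * 25 := by rw [sum_const, smul_eq_mul]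
    _ ≤ (k + 1) * 25 := by
        apply Nat.mul_le_mul_right
        refine (List.toFinset_card_le _).trans ?_
        rw [vt_length]; omega

open Classical in
/-- centres of fully visited 3 x 3 boxes -/
noncomputable def FullC (s : List (Fin 4)) : Finset (ℤ × ℤ) :=
  (vset s).filter (fun c => box 1 c ⊆ vset s)

lemma mem_FullC (s : List (Fin 4)) (c : ℤ × ℤ) : c ∈ FullC s ↔ box 1 c ⊆ vset s := by
  classical
  rw [FullC, mem_filter]
  constructor
  · exact fun h => h.2
  · intro h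
    refine ⟨h ?_, h⟩
    rw [mem_box]; omega

lemma mem_vset_mid (l₁ f l₃ : List (Fin 4)) (v : ℤ × ℤ) :
    v ∈ vset (l₁ ++ f ++ l₃) ↔ v ∈ vs 0 l₁ ∨ v ∈ vt (ep 0 l₁) f ∨
      v ∈ (vt (ep (ep 0 l₁) f) l₃).tail := by
  rw [mem_vset, vt_append', vt_append, ep_append, List.mem_append, List.mem_append, or_assoc]

/-- the first surgery -/
noncomputable def surgA : Surg where
  R := 2
  hR1 := by norm_num
  hR2 := le_rfl
  fill := fillA
  fill_ep p q hp hq h := (fillA_spec p (ringA_spec p hp) q (ringA_spec q hq) h).1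
  fill_nodup p q hp hq h := (fillA_spec p (ringA_spec p hp) q (ringA_spec q hq) h).2.1
  fill_box p q hp hq h v hv := by
    have := (fillA_spec p (ringA_spec p hp) q (ringA_spec q hq) h).2.2.1 v hv
    rw [mem_box]
    simp only [Prod.fst_zero, Prod.snd_zero]
    omega
  fill_len p q hp hq h := (fillA_spec p (ringA_spec p hp) q (ringA_spec q hq) h).2.2.2.1
  Feat := FullC
  CF := fun _ => 625
  feat_new l₁ l₃ c q hp hq h _ _ := by
    rw [mem_FullC]
    intro v hv
    rw [mem_vset_mid]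
    right; left
    rw [box_shift] at hv
    have h1 := (fillA_spec _ (ringA_spec _ hp) _ (ringA_spec _ hq) h).2.2.2.2 (v - c)
      (nine_spec _ hv)
    have h2 : vt (ep 0 l₁) (fillA (ep 0 l₁ - c) (q - c)) =
        (vt (ep 0 l₁ - c) (fillA (ep 0 l₁ - c) (q - c))).map (· + c) := by
      rw [← vt_add, sub_add_cancel]
    rw [h2, List.mem_map]
    exact ⟨v - c, h1, by simp⟩
  feat_le M l₁ l₂ l₃ f _ hf hep := by
    classical
    have hsub : FullC (l₁ ++ f ++ l₃) ⊆ FullC (l₁ ++ l₂ ++ l₃) ∪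
        (vt (ep 0 l₁) f).toFinset.biUnion (box 1) := by
      intro c hc
      rw [mem_union]
      by_contra hcon
      push Not at hcon
      obtain ⟨h1, h2⟩ := hcon
      apply h1
      rw [mem_FullC] at hc ⊢
      intro v hv
      have h3 := hc hv
      rw [mem_vset_mid] at h3 ⊢
      rcases h3 with h3 | h3 | h3
      · exact Or.inl h3
      · exfalso
        apply h2
        rw [mem_biUnion]
        exact ⟨v, by rw [List.mem_toFinset]; exact h3, (box_comm _ _ _).1 hv⟩
      · rw [hep] at h3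
        exact Or.inr (Or.inr h3)
    have h1 := card_le_card hsub
    have h2 := card_union_le (FullC (l₁ ++ l₂ ++ l₃)) ((vt (ep 0 l₁) f).toFinset.biUnion (box 1))
    have h3 := biUnion_box_card 1 (by norm_num) (ep 0 l₁) f 24 hf
    omega

/-- the trivial type of slots -/
def TT : ℤ × ℤ → ℤ × ℤ → Prop := fun _ _ => True

/-- a slot of type `τ` at `c` in the state given by `F` -/
def SlotAt (F : ℤ × ℤ → ℤ × ℤ → List (Fin 4)) (τ : ℤ × ℤ → ℤ × ℤ → Prop) (s : List (Fin 4))
    (c : ℤ × ℤ) : Prop :=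
  ∃ l₁ l₃ q, ring 1 (ep 0 l₁ - c) ∧ ring 1 (q - c) ∧ ep 0 l₁ - c ≠ q - c ∧
    τ (ep 0 l₁ - c) (q - c) ∧
    (∀ v ∈ vs 0 l₁, v ∉ box 1 c) ∧ (∀ v ∈ (vt q l₃).tail, v ∉ box 1 c) ∧
    s = l₁ ++ F (ep 0 l₁ - c) (q - c) ++ l₃

open Classical in
noncomputable def Slots (F : ℤ × ℤ → ℤ × ℤ → List (Fin 4)) (τ : ℤ × ℤ → ℤ × ℤ → Prop)
    (s : List (Fin 4)) : Finset (ℤ × ℤ) :=
  ((vset s).biUnion (box 1)).filter (SlotAt F τ s)

lemma mem_Slots (F : ℤ × ℤ → ℤ × ℤ → List (Fin 4)) (τ : ℤ × ℤ → ℤ × ℤ → Prop)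
    (s : List (Fin 4)) (c : ℤ × ℤ) :
    c ∈ Slots F τ s ↔ SlotAt F τ s c := by
  classical
  rw [Slots, mem_filter]
  constructor
  · exact fun h => h.2
  · intro h
    refine ⟨?_, h⟩
    obtain ⟨l₁, l₃, q, h1, h2, h3, hτ, h4, h5, rfl⟩ := h
    rw [mem_biUnion]
    refine ⟨ep 0 l₁, ?_, ?_⟩
    · rw [mem_vset_mid]
      right; left
      exact mem_vt_self _ _
    · rw [box_comm, box_shift]
      exact h1.1

/-- specification of a state -/
structure FSpec (F : ℤ × ℤ → ℤ × ℤ → List (Fin 4)) : Prop where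
  spec : ∀ p ∈ ringB, ∀ q ∈ ringB, p ≠ q → ep p (F p q) = q ∧
    (vt p (F p q)).Nodup ∧
    (∀ v ∈ vt p (F p q), (-1 ≤ v.1 ∧ v.1 ≤ 1) ∧ (-1 ≤ v.2 ∧ v.2 ≤ 1)) ∧
    (F p q).length ≤ 24

lemma FSpec.box {F : ℤ × ℤ → ℤ × ℤ → List (Fin 4)} (hF : FSpec F) (p q c : ℤ × ℤ)
    (hp : ring 1 (p - c)) (hq : ring 1 (q - c)) (h : p - c ≠ q - c) :
    ep p (F (p - c) (q - c)) = q ∧ ∀ v ∈ vt p (F (p - c) (q - c)), v ∈ box 1 c := by
  obtain ⟨h1, -, h2, -⟩ := hF.spec _ (ringB_spec _ hp) _ (ringB_spec _ hq) h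
  constructor
  · have h := ep_add (p - c) c (F (p - c) (q - c))
    rw [sub_add_cancel] at h
    rw [h, h1, sub_add_cancel]
  · intro v hv
    have h3 : vt p (F (p - c) (q - c)) = (vt (p - c) (F (p - c) (q - c))).map (· + c) := by
      rw [← vt_add, sub_add_cancel]
    rw [h3, List.mem_map] at hv
    obtain ⟨w, hw, rfl⟩ := hv
    have := h2 w hw
    rw [mem_box]
    simp only [Prod.fst_add, Prod.snd_add]
    omega

/-- slots away from a modification are kept -/
lemma slot_stay {F : ℤ × ℤ → ℤ × ℤ → List (Fin 4)} (hF : FSpec F) (τ : ℤ × ℤ → ℤ × ℤ → Prop)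
    (l₁ l₂ l₃ f : List (Fin 4))
    (hep : ep (ep 0 l₁) f = ep (ep 0 l₁) l₂) (c : ℤ × ℤ)
    (hl : ∀ v ∈ vt (ep 0 l₁) l₂, v ∉ box 1 c) (hf : ∀ v ∈ vt (ep 0 l₁) f, v ∉ box 1 c)
    (h : SlotAt F τ (l₁ ++ f ++ l₃) c) : SlotAt F τ (l₁ ++ l₂ ++ l₃) c := by
  obtain ⟨m₁, m₃, q, hp, hq, hne, hτ, ho1, ho3, hs⟩ := h
  obtain ⟨hepF, hboxF⟩ := hF.box _ _ _ hp hq hne
  set m₂ := F (ep 0 m₁ - c) (q - c) with hm₂
  set p := ep 0 l₁ with hpdef
  rcases Nat.lt_or_ge l₁.length (m₁ ++ m₂).length with hA | hA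
  · rcases Nat.lt_or_ge m₁.length (l₁ ++ f).length with hB | hB
    · exfalso
      rcases le_total m₁.length l₁.length with hC | hC
      · -- the vertex `p` is in the window
        obtain ⟨u, hu, -⟩ := prefix_of_le (l₁ := m₁) (t := m₂ ++ m₃) (l₁' := l₁) (t' := f ++ l₃)
          (by rw [← List.append_assoc, ← hs, List.append_assoc]) hC
        obtain ⟨u', hu', -⟩ := prefix_of_le (l₁ := l₁) (t := f ++ l₃) (l₁' := m₁ ++ m₂) (t' := m₃)
          (by rw [← List.append_assoc, hs]) hA.le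
        rw [hu, List.append_assoc] at hu'
        have h1 : m₂ = u ++ u' := List.append_cancel_left hu'
        apply hf p (mem_vt_self _ _)
        apply hboxF
        rw [mem_vt_iff]
        exact ⟨u, u', h1, by rw [hpdef, hu, ep_append]⟩
      · -- the entrance is on `f`
        obtain ⟨u, hu, -⟩ := prefix_of_le (l₁ := l₁) (t := f ++ l₃) (l₁' := m₁) (t' := m₂ ++ m₃)
          (by rw [← List.append_assoc, hs, List.append_assoc]) hC
        obtain ⟨u', hu', -⟩ := prefix_of_le (l₁ := m₁) (t := m₂ ++ m₃) (l₁' := l₁ ++ f) (t' := l₃)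
          (by rw [hs, List.append_assoc]) hB.le
        rw [hu, List.append_assoc] at hu'
        have h1 : f = u ++ u' := List.append_cancel_left hu'
        apply hf (ep 0 m₁)
        · rw [mem_vt_iff]
          exact ⟨u, u', h1, by rw [hpdef, hu, ep_append]⟩
        · apply hboxF
          exact mem_vt_self _ _
    · -- the window is after the modification
      obtain ⟨t, ht, ht'⟩ := prefix_of_le (l₁ := l₁ ++ f) (t := l₃) (l₁' := m₁) (t' := m₂ ++ m₃)
            (by rw [hs, List.append_assoc]) hB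
      have e1 : ep 0 (l₁ ++ l₂ ++ t) = ep 0 m₁ := by
        rw [ht, ep_append, ep_append, ← hpdef, ← hep, ep_append _ _ t, ep_append, ← hpdef]
      refine ⟨l₁ ++ l₂ ++ t, m₃, q, by rw [e1]; exact hp, hq, by rw [e1]; exact hne,
        by rw [e1]; exact hτ, ?_, ho3, ?_⟩
      · intro v hv
        rw [vs_append, vs_append, List.mem_append, List.mem_append] at hv
        rcases hv with (hv | hv) | hv
        · apply ho1
          rw [ht, vs_append, vs_append, List.mem_append, List.mem_append]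
          left; left; exact hv
        · exact hl v (by unfold vt; exact List.mem_append_left _ hv)
        · apply ho1
          rw [ht, vs_append, List.mem_append]
          right
          rw [ep_append, ← hpdef, ← hep] at hv
          rw [ep_append, ← hpdef]
          exact hv
      · rw [e1, ← hm₂, ht']
        simp
  · -- the window is visited before the modification
    obtain ⟨t, ht, ht'⟩ := prefix_of_le (l₁ := m₁ ++ m₂) (t := m₃) (l₁' := l₁) (t' := f ++ l₃)
        (by rw [← hs, List.append_assoc]) hA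
    refine ⟨m₁, t ++ l₂ ++ l₃, q, hp, hq, hne, hτ, ho1, ?_, ?_⟩
    · intro v hv
      have hpt : ep q t = p := by rw [hpdef, ht, ep_append, ep_append, hepF]
      rw [vt_tail_append, vt_tail_append, List.mem_append, List.mem_append, hpt] at hv
      rw [ht', vt_tail_append, vt_tail_append, hpt] at ho3
      rcases hv with (hv | hv) | hv
      · exact ho3 v (List.mem_append_left _ hv)
      · exact hl v (List.mem_of_mem_tail hv)
      · apply ho3 v
        apply List.mem_append_right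
        apply List.mem_append_right
        rw [ep_append, hpt, ← hep] at hv
        exact hv
    · rw [← hm₂, ht]
      simp

lemma slots_le {F : ℤ × ℤ → ℤ × ℤ → List (Fin 4)} (hF : FSpec F)
    (τ : ℤ × ℤ → ℤ × ℤ → Prop) (M : ℕ) (l₁ l₂ l₃ f : List (Fin 4)) (hl : l₂.length ≤ M) (hf : f.length ≤ 24)
    (hep : ep (ep 0 l₁) f = ep (ep 0 l₁) l₂) :
    (Slots F τ (l₁ ++ f ++ l₃)).card ≤
      (Slots F τ (l₁ ++ l₂ ++ l₃)).card + (625 + (M + 1) * 25) := by
  classical
  have hsub : Slots F τ (l₁ ++ f ++ l₃) ⊆ Slots F τ (l₁ ++ l₂ ++ l₃) ∪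
      ((vt (ep 0 l₁) f).toFinset.biUnion (box 1) ∪ (vt (ep 0 l₁) l₂).toFinset.biUnion (box 1)) := by
    intro c hc
    by_contra hcon
    simp only [mem_union, not_or, mem_biUnion, List.mem_toFinset, not_exists, not_and] at hcon
    obtain ⟨h1, h2, h3⟩ := hcon
    apply h1
    rw [mem_Slots] at hc ⊢
    exact slot_stay hF τ l₁ l₂ l₃ f hep c (fun v hv h => h3 v hv ((box_comm _ _ _).1 h))
      (fun v hv h => h2 v hv ((box_comm _ _ _).1 h)) hc
  have h1 := card_le_card hsub
  have h2 := card_union_le (Slots F τ (l₁ ++ l₂ ++ l₃))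
    ((vt (ep 0 l₁) f).toFinset.biUnion (box 1) ∪ (vt (ep 0 l₁) l₂).toFinset.biUnion (box 1))
  have h3 := card_union_le ((vt (ep 0 l₁) f).toFinset.biUnion (box 1))
    ((vt (ep 0 l₁) l₂).toFinset.biUnion (box 1))
  have h4 := biUnion_box_card 1 (by norm_num) (ep 0 l₁) f 24 hf
  have h5 := biUnion_box_card 1 (by norm_num) (ep 0 l₁) l₂ M hl
  omega

/-- the second surgery -/
noncomputable def surgB (F : ℤ × ℤ → ℤ × ℤ → List (Fin 4)) (hF : FSpec F) : Surg where
  R := 1
  hR1 := le_rfl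
  hR2 := by norm_num
  fill := F
  fill_ep p q hp hq h := (hF.spec p (ringB_spec p hp) q (ringB_spec q hq) h).1
  fill_nodup p q hp hq h := (hF.spec p (ringB_spec p hp) q (ringB_spec q hq) h).2.1
  fill_box p q hp hq h v hv := by
    have := (hF.spec p (ringB_spec p hp) q (ringB_spec q hq) h).2.2.1 v hv
    rw [mem_box]
    simp only [Prod.fst_zero, Prod.snd_zero]
    omega
  fill_len p q hp hq h := (hF.spec p (ringB_spec p hp) q (ringB_spec q hq) h).2.2.2
  Feat := Slots F TT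
  CF := fun M => 625 + (M + 1) * 25
  feat_new l₁ l₃ c q hp hq h ho1 ho3 := by
    rw [mem_Slots]
    exact ⟨l₁, l₃, q, hp, hq, h, trivial, ho1, ho3, rfl⟩
  feat_le M l₁ l₂ l₃ f hl hf hep := slots_le hF TT M l₁ l₂ l₃ f hl hf hep

lemma fspecLo : FSpec fillLo := ⟨fillLo_spec⟩
lemma fspecHi : FSpec fillHi := ⟨fillHi_spec⟩

end Pool.Agent.Lib27
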