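import Pool.Agent.Lib_helper27.Conc2

set_option autoImplicit false

namespace Pool.Agent.Lib27

open Finset Filter Topology

/-- flips between the two states of equal length -/
noncomputable def sysH (n : ℕ) (hn : 1 ≤ n) :
    FlipSys (List (Fin 4)) (List (Fin 4) × List (Fin 4) × (ℤ × ℤ)) :=
  flipW fspecLo fspecHi TT (lenLoHi n) hn hn

lemma sysH_mem (n : ℕ) (hn : 1 ≤ n) (z : List (Fin 4) × List (Fin 4) × (ℤ × ℤ))
    (hz : z ∈ (sysH n hn).Z) : FR fillLo fillHi TT z.1 z.2.1 z.2.2 :=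
  flipW_mem fspecLo fspecHi TT (lenLoHi n) hn hn z hz

lemma FR_LoHi_dbl {s t : List (Fin 4)} {c : ℤ × ℤ} (h : FR fillLo fillHi TT s t c) :
    dbl 0 t = dbl 0 s + 2 :=
  FR_dbl fspecLo fspecHi h 2 (fun p hp q hq hne _ => (fill_states p hp q hq hne).2)

/-- smoothness of the weighted distribution of the area -/
theorem smooth_dbl (ε : ℝ) (hε : GoodEps ε) (K' E : ℝ) (hK' : 0 ≤ K') (hE : 0 ≤ E) :
    ∃ C : ℝ, 0 < C ∧ ∀ᶠ n : ℕ in atTop, ∀ (ψ : List (Fin 4) → ℝ) (u : ℤ → ℝ),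
      (∀ s ∈ W n, |ψ s| ≤ K') →
      (∀ s t c, FR fillLo fillHi TT s t c → s ∈ W n → t ∈ W n → |ψ s - ψ t| ≤ E / n) →
      (∀ d, |u d| ≤ 1) →
      |∑ s ∈ W n, ψ s * u (dbl 0 s + 2) - ∑ s ∈ W n, ψ s * u (dbl 0 s)| ≤
        (W n).card * (C / Real.sqrt n) := by
  classical
  obtain ⟨hε0, hε1, η, hη, hfew⟩ := hε
  set K : ℝ := 50 / ε with hK
  have hK0 : 0 ≤ K := by rw [hK]; positivity
  refine ⟨(K' + E * ε + K' * 1250) / ε +
    K' * Real.sqrt ((1 + (2 + 2 * K) * 1250) / ε) + 1, by positivity, ?_⟩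
  have ev1 : ∀ᶠ n : ℕ in atTop, Real.exp (-(η * n)) ≤ 1 / (ε * n) := by
    have h1 : Tendsto (fun x : ℝ => x ^ 1 * Real.exp (-x)) atTop (𝓝 0) :=
      Real.tendsto_pow_mul_exp_neg_atTop_nhds_zero 1
    have h2 : Tendsto (fun n : ℕ => η * (n : ℝ)) atTop atTop :=
      tendsto_natCast_atTop_atTop.const_mul_atTop hη
    have h3 := h1.comp h2
    have h4 := h3.eventually (gt_mem_nhds (show (0 : ℝ) < η / ε by positivity))
    filter_upwards [h4, eventually_ge_atTop 1] with n hn hn1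
    have hn' : (0 : ℝ) < n := by exact_mod_cast hn1
    simp only [Function.comp, pow_one] at hn
    rw [le_div_iff₀ (by positivity)]
    rw [lt_div_iff₀ hε0] at hn
    have : η * (Real.exp (-(η * n)) * (ε * n)) ≤ η * 1 := by
      calc η * (Real.exp (-(η * n)) * (ε * n)) = η * n * Real.exp (-(η * n)) * ε := by ring
        _ ≤ η * 1 := by linarith
    exact le_of_mul_le_mul_left this hη
  filter_upwards [hfew, ev1, eventually_ge_atTop 1] with n hf e1 hn ψ u hψ hE' hu
  have hn' : (1 : ℝ) ≤ n := by exact_mod_cast hn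
  have hn0 : (0 : ℝ) < n := by linarith
  set g : ℝ := ε * n with hg
  have hg0 : 0 < g := by rw [hg]; positivity
  have hWn : (0 : ℝ) ≤ (W n).card := by positivity
  have hmain := (sysH n hn).smooth rfl g K 1250 K' (E * ε) hg0 (by norm_num) hK0 hK'
    (by positivity)
    (by
      change (((W n).filter (fun s => nL s < g)).card : ℝ) ≤ (W n).card / g
      refine hf.2.2.trans ?_
      calc ((W n).card : ℝ) * Real.exp (-(η * n)) ≤ (W n).card * (1 / (ε * n)) :=
            mul_le_mul_of_nonneg_left e1 hWn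
        _ = _ := by rw [hg]; ring)
    (fun z hz => FR_lip (H := fillLo) (τ' := TT) fspecLo fspecHi fspecLo (sysH_mem n hn z hz))
    (fun z hz => FR_lip (H := fillHi) (τ' := TT) fspecLo fspecHi fspecHi (sysH_mem n hn z hz))
    (by
      intro s hs
      have h1 := SlW_le fillHi TT n hn s hs
      change ((SlW fillHi TT s).card : ℝ) ≤ K * max (nL s) g
      calc ((SlW fillHi TT s).card : ℝ) ≤ 50 * n := h1
        _ = K * g := by rw [hK, hg]; field_simp
        _ ≤ K * max (nL s) g := mul_le_mul_of_nonneg_left (le_max_right _ _) hK0)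
    ψ (fun s => u (dbl 0 s)) (fun s => u (dbl 0 s + 2)) (fun s hs => hψ s hs)
    (by
      intro z hz
      have h1 : z.1 ∈ W n := (sysH n hn).ha z hz
      have h2 : z.2.1 ∈ W n := (sysH n hn).hb z hz
      have h3 := hE' z.1 z.2.1 z.2.2 (sysH_mem n hn z hz) h1 h2
      change |ψ z.1 - ψ z.2.1| ≤ E * ε / g
      refine h3.trans (le_of_eq ?_)
      rw [hg]
      field_simp)
    (fun s _ => hu _) (fun s _ => hu _)
    (by
      intro z hz
      have h1 := FR_LoHi_dbl (sysH_mem n hn z hz)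
      change u (dbl 0 z.1 + 2) = u (dbl 0 z.2.1)
      rw [h1])
  change |∑ s ∈ W n, ψ s * u (dbl 0 s + 2) - ∑ s ∈ W n, ψ s * u (dbl 0 s)| ≤
    (W n).card * _ at hmain
  refine hmain.trans (mul_le_mul_of_nonneg_left ?_ hWn)
  set x := Real.sqrt (n : ℝ) with hx
  have hx1 : 1 ≤ x := by rw [hx]; exact Real.one_le_sqrt.2 hn'
  have hxx : x * x = n := Real.mul_self_sqrt (by positivity)
  have h1 : (K' + E * ε + K' * 1250) / g ≤ (K' + E * ε + K' * 1250) / ε / x := by
    rw [div_div]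
    apply div_le_div_of_nonneg_left (by positivity) (by positivity)
    rw [hg]
    apply mul_le_mul_of_nonneg_left _ hε0.le
    nlinarith
  have h2 : Real.sqrt ((1 + (2 + 2 * K) * 1250) / g) =
      Real.sqrt ((1 + (2 + 2 * K) * 1250) / ε) / x := by
    rw [hg, ← div_div, Real.sqrt_div (by positivity)]
  rw [h2]
  have h3 : 0 ≤ 1 / x := by positivity
  calc (K' + E * ε + K' * 1250) / g + K' * (Real.sqrt ((1 + (2 + 2 * K) * 1250) / ε) / x)
      ≤ (K' + E * ε + K' * 1250) / ε / x +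
        K' * (Real.sqrt ((1 + (2 + 2 * K) * 1250) / ε) / x) + 1 / x := by linarith
    _ = _ := by ring

/-- averages of functions of the signed area -/
noncomputable def EU (u : ℤ → ℝ) (n : ℕ) : ℝ := (∑ s ∈ W n, u (dbl 0 s)) / (W n).card

/-- the signed area law is almost invariant under a shift -/
theorem shift_dbl : ∃ C : ℝ, 0 < C ∧ ∀ᶠ n : ℕ in atTop, ∀ (u : ℤ → ℝ), (∀ d, |u d| ≤ 1) →
      |EU (fun d => u (d + 2)) n - EU u n| ≤ C / Real.sqrt n := by
  obtain ⟨ε, hε⟩ := goodEps_exists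
  obtain ⟨C, hC, h⟩ := smooth_dbl ε hε 1 0 zero_le_one le_rfl
  refine ⟨C, hC, ?_⟩
  filter_upwards [h, eventually_ge_atTop 2] with n hn h2 u hu
  have h1 := hn (fun _ => 1) u (fun _ _ => by simp) (fun _ _ _ _ _ _ => by simp) hu
  simp only [one_mul] at h1
  have hW := card_pos' n h2
  unfold EU
  rw [← sub_div, abs_div, abs_of_pos hW, div_le_iff₀ hW, mul_comm]
  exact h1

end Pool.Agent.Lib27
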