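import Pool.Agent.Lib_helper27.Words

set_option autoImplicit false

namespace Pool.Agent.Lib27

open Finset

/-- insert a bump with side step `a` around step number `i` -/
def ins : ℕ → Fin 4 → List (Fin 4) → List (Fin 4)
  | 0, a, b :: s => a :: b :: (a + 2) :: s
  | i + 1, a, b :: s => b :: ins i a s
  | _, _, [] => []

/-- remove a bump at position `i` -/
def rem : ℕ → List (Fin 4) → List (Fin 4)
  | 0, _ :: b :: _ :: s => b :: s
  | i + 1, b :: s => b :: rem i s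
  | _, s => s

/-- there is a bump at position `i` -/
def isB : ℕ → List (Fin 4) → Prop
  | 0, a :: b :: c :: _ => perp a b ∧ c = a + 2
  | i + 1, _ :: s => isB i s
  | _, _ => False

lemma ins_split (l₁ l₂ : List (Fin 4)) (a b : Fin 4) :
    ins l₁.length a (l₁ ++ b :: l₂) = l₁ ++ a :: b :: (a + 2) :: l₂ := by
  induction l₁ with
  | nil => simp [ins]
  | cons d s ih => simp [ins, ih]

lemma rem_split (l₁ l₂ : List (Fin 4)) (a b c : Fin 4) :
    rem l₁.length (l₁ ++ a :: b :: c :: l₂) = l₁ ++ b :: l₂ := by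
  induction l₁ with
  | nil => simp [rem]
  | cons d s ih => simp [rem, ih]

lemma isB_split (l₁ l₂ : List (Fin 4)) (a b c : Fin 4) :
    isB l₁.length (l₁ ++ a :: b :: c :: l₂) ↔ (perp a b ∧ c = a + 2) := by
  induction l₁ with
  | nil => simp [isB]
  | cons d s ih => simp [isB, ih]

lemma isB_exists (i : ℕ) (s : List (Fin 4)) (h : isB i s) :
    ∃ l₁ a b l₂, perp a b ∧ s = l₁ ++ a :: b :: (a + 2) :: l₂ ∧ l₁.length = i := by
  induction i generalizing s with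
  | zero =>
    match s, h with
    | a :: b :: c :: l, h =>
      obtain ⟨h1, h2⟩ := h
      exact ⟨[], a, b, l, h1, by simp [h2], rfl⟩
  | succ i ih =>
    match s, h with
    | d :: s, h =>
      obtain ⟨l₁, a, b, l₂, h1, h2, h3⟩ := ih s h
      exact ⟨d :: l₁, a, b, l₂, h1, by simp [h2], by simp [h3]⟩

lemma exists_split (i : ℕ) (s : List (Fin 4)) (h : i < s.length) :
    ∃ l₁ b l₂, s = l₁ ++ b :: l₂ ∧ l₁.length = i := by
  refine ⟨s.take i, s[i], s.drop (i + 1), ?_, ?_⟩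
  · simp
  · simp only [List.length_take]; omega

lemma isB_lt (i : ℕ) (s : List (Fin 4)) (h : isB i s) : i + 2 < s.length := by
  obtain ⟨l₁, a, b, l₂, _, rfl, rfl⟩ := isB_exists i s h
  simp only [List.length_append, List.length_cons]; omega

lemma perp_symm {a b : Fin 4} (h : perp a b) : perp b a := by
  revert a b; decide

lemma vs_nobump (p : ℤ × ℤ) (l₁ l₂ : List (Fin 4)) (b : Fin 4) :
    vs p (l₁ ++ b :: l₂) = vs p l₁ ++ ep p l₁ :: vs (ep p l₁ + dv b) l₂ := by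
  rw [vs_append]; rfl

lemma bump_point (P : ℤ × ℤ) (a b : Fin 4) : P + dv a + dv b + dv (a + 2) = P + dv b := by
  rw [dv_add_two]; abel

lemma vs_bump (p : ℤ × ℤ) (l₁ l₂ : List (Fin 4)) (a b : Fin 4) :
    vs p (l₁ ++ a :: b :: (a + 2) :: l₂) =
      vs p l₁ ++ ep p l₁ :: (ep p l₁ + dv a) :: (ep p l₁ + dv a + dv b) ::
        vs (ep p l₁ + dv b) l₂ := by
  rw [vs_append]
  simp only [vs_cons, bump_point]

lemma ep_bump (p : ℤ × ℤ) (l₁ l₂ : List (Fin 4)) (a b : Fin 4) :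
    ep p (l₁ ++ a :: b :: (a + 2) :: l₂) = ep p (l₁ ++ b :: l₂) := by
  rw [ep_append, ep_append]
  simp only [ep_cons, bump_point]

lemma vs_bump_perm (p : ℤ × ℤ) (l₁ l₂ : List (Fin 4)) (a b : Fin 4) :
    List.Perm (vs p (l₁ ++ a :: b :: (a + 2) :: l₂))
      ((ep p l₁ + dv a) :: (ep p l₁ + dv a + dv b) :: vs p (l₁ ++ b :: l₂)) := by
  rw [vs_bump, vs_nobump]
  have h1 : List.Perm (ep p l₁ :: (ep p l₁ + dv a) :: (ep p l₁ + dv a + dv b) ::
        vs (ep p l₁ + dv b) l₂) ((ep p l₁ + dv a) :: (ep p l₁ + dv a + dv b) :: ep p l₁ ::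
        vs (ep p l₁ + dv b) l₂) := by
    refine (List.Perm.swap _ _ _).trans ?_
    exact List.Perm.cons _ (List.Perm.swap _ _ _)
  refine (List.Perm.append_left _ h1).trans ?_
  refine (List.perm_middle).trans (List.Perm.cons _ ?_)
  exact List.perm_middle

lemma SAPw_bump_iff (l₁ l₂ : List (Fin 4)) (a b : Fin 4) :
    SAPw (l₁ ++ a :: b :: (a + 2) :: l₂) ↔
      SAPw (l₁ ++ b :: l₂) ∧ (ep 0 l₁ + dv a) ∉ vs 0 (l₁ ++ b :: l₂) ∧
        (ep 0 l₁ + dv a + dv b) ∉ vs 0 (l₁ ++ b :: l₂) := by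
  unfold SAPw
  rw [ep_bump, (vs_bump_perm 0 l₁ l₂ a b).nodup_iff, List.nodup_cons, List.nodup_cons,
    List.mem_cons]
  have : ep 0 l₁ + dv a ≠ ep 0 l₁ + dv a + dv b := by
    intro h
    exact dv_ne_zero b (left_eq_add.mp h)
  tauto

lemma mem_vs_bump (l₁ l₂ : List (Fin 4)) (a b : Fin 4) (v : ℤ × ℤ) :
    v ∈ vs 0 (l₁ ++ a :: b :: (a + 2) :: l₂) ↔
      v = ep 0 l₁ + dv a ∨ v = ep 0 l₁ + dv a + dv b ∨ v ∈ vs 0 (l₁ ++ b :: l₂) := by
  rw [(vs_bump_perm 0 l₁ l₂ a b).mem_iff, List.mem_cons, List.mem_cons]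

/-- signed double area changes by two times the cross product -/
lemma dbl_bump (p : ℤ × ℤ) (l₁ l₂ : List (Fin 4)) (a b : Fin 4) :
    dbl p (l₁ ++ a :: b :: (a + 2) :: l₂) =
      dbl p (l₁ ++ b :: l₂) + 2 * ((dv a).1 * (dv b).2 - (dv a).2 * (dv b).1) := by
  rw [dbl_append, dbl_append]
  simp only [dbl_cons]
  rw [bump_point]
  simp only [dv_add_two, Prod.fst_add, Prod.snd_add, Prod.fst_neg, Prod.snd_neg]
  ring

open Classical in
/-- the set of closed self-avoiding words of length `2n` -/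
noncomputable def W (n : ℕ) : Finset (List (Fin 4)) := (words (2 * n)).filter SAPw

lemma mem_W (n : ℕ) (s : List (Fin 4)) : s ∈ W n ↔ s.length = 2 * n ∧ SAPw s := by
  classical
  rw [W, mem_filter, mem_words]

open Classical in
/-- allowed insertions -/
noncomputable def Up (s : List (Fin 4)) : Finset (ℕ × Fin 4) :=
  ((range s.length) ×ˢ (univ : Finset (Fin 4))).filter
    (fun x => perp x.2 (s.getD x.1 0) ∧ SAPw (ins x.1 x.2 s))

open Classical in
/-- positions of bumps -/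
noncomputable def Dn (s : List (Fin 4)) : Finset ℕ := (range s.length).filter (fun i => isB i s)

lemma mem_Up (s : List (Fin 4)) (x : ℕ × Fin 4) :
    x ∈ Up s ↔ x.1 < s.length ∧ perp x.2 (s.getD x.1 0) ∧ SAPw (ins x.1 x.2 s) := by
  simp [Up]

lemma mem_Dn (s : List (Fin 4)) (i : ℕ) : i ∈ Dn s ↔ isB i s := by
  simp only [Dn, mem_filter, mem_range, and_iff_right_iff_imp]
  intro h
  have := isB_lt i s h
  omega

lemma sum_updown (n : ℕ) (φ : List (Fin 4) → List (Fin 4) → ℝ) :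
    ∑ s ∈ W n, ∑ x ∈ Up s, φ s (ins x.1 x.2 s) =
      ∑ s ∈ W (n + 1), ∑ i ∈ Dn s, φ (rem i s) s := by
  rw [sum_sigma', sum_sigma']
  refine sum_bij' (fun y _ => (⟨ins y.2.1 y.2.2 y.1, y.2.1⟩ : (_ : List (Fin 4)) × ℕ))
    (fun y _ => (⟨rem y.2 y.1, (y.2, y.1.getD y.2 0)⟩ : (_ : List (Fin 4)) × (ℕ × Fin 4)))
    ?_ ?_ ?_ ?_ ?_
  · rintro ⟨s, i, a⟩ h
    simp only [mem_sigma, mem_W, mem_Up, mem_Dn] at h ⊢
    obtain ⟨⟨hs, hS⟩, hi, hp, hS'⟩ := h
    obtain ⟨l₁, b, l₂, rfl, rfl⟩ := exists_split i s hi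
    rw [ins_split] at hS' ⊢
    have h2 : (l₁ ++ b :: l₂).getD l₁.length 0 = b := by simp
    rw [h2] at hp
    refine ⟨⟨?_, hS'⟩, ?_⟩
    · simp only [List.length_append, List.length_cons] at hs ⊢
      omega
    · rw [isB_split]
      exact ⟨hp, rfl⟩
  · rintro ⟨s, i⟩ h
    simp only [mem_sigma, mem_W, mem_Up, mem_Dn] at h ⊢
    obtain ⟨⟨hs, hS⟩, hi⟩ := h
    obtain ⟨l₁, a, b, l₂, hp, rfl, rfl⟩ := isB_exists i s hi
    rw [rem_split]
    have h1 : (l₁ ++ a :: b :: (a + 2) :: l₂).getD l₁.length 0 = a := by simp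
    have h2 : (l₁ ++ b :: l₂).getD l₁.length 0 = b := by simp
    rw [h1, h2, ins_split]
    refine ⟨⟨?_, ((SAPw_bump_iff _ _ _ _).1 hS).1⟩, ?_, hp, hS⟩
    · simp only [List.length_append, List.length_cons] at hs ⊢
      omega
    · simp
  · rintro ⟨s, i, a⟩ h
    simp only [mem_sigma, mem_W, mem_Up] at h
    obtain ⟨⟨hs, hS⟩, hi, hp, hS'⟩ := h
    obtain ⟨l₁, b, l₂, rfl, rfl⟩ := exists_split i s hi
    simp only [ins_split, rem_split]
    simp
  · rintro ⟨s, i⟩ h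
    simp only [mem_sigma, mem_W, mem_Dn] at h
    obtain ⟨⟨hs, hS⟩, hi⟩ := h
    obtain ⟨l₁, a, b, l₂, hp, rfl, rfl⟩ := isB_exists i s hi
    have h1 : (l₁ ++ a :: b :: (a + 2) :: l₂).getD l₁.length 0 = a := by simp
    simp only [rem_split, h1, ins_split]
  · rintro ⟨s, i, a⟩ h
    simp only [mem_sigma, mem_W, mem_Up] at h
    obtain ⟨⟨hs, hS⟩, hi, hp, hS'⟩ := h
    obtain ⟨l₁, b, l₂, rfl, rfl⟩ := exists_split i s hi
    simp only [ins_split, rem_split]

end Pool.Agent.Lib27
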