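import Mathlib

set_option autoImplicit false

namespace Pool.Agent.Lib27

/-- The four unit steps East, North, West, South. -/
def dv : Fin 4 → ℤ × ℤ := ![((1:ℤ), (0:ℤ)), ((0:ℤ), (1:ℤ)), ((-1:ℤ), (0:ℤ)), ((0:ℤ), (-1:ℤ))]

/-- End point of the walk started at `p`. -/
def ep (p : ℤ × ℤ) : List (Fin 4) → ℤ × ℤ
  | [] => p
  | d :: s => ep (p + dv d) s

/-- The list of starting points of the steps of the walk started at `p`. -/
def vs (p : ℤ × ℤ) : List (Fin 4) → List (ℤ × ℤ)
  | [] => []
  | d :: s => p :: vs (p + dv d) s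

/-- Shoelace sum of the walk started at `p`. -/
def dbl (p : ℤ × ℤ) : List (Fin 4) → ℤ
  | [] => 0
  | d :: s => (p.1 * (dv d).2 - p.2 * (dv d).1) + dbl (p + dv d) s

/-- Closed self-avoiding words. -/
def SAPw (s : List (Fin 4)) : Prop := ep 0 s = 0 ∧ (vs 0 s).Nodup

@[simp] lemma ep_nil (p : ℤ × ℤ) : ep p [] = p := rfl
@[simp] lemma ep_cons (p : ℤ × ℤ) (d : Fin 4) (s : List (Fin 4)) :
    ep p (d :: s) = ep (p + dv d) s := rfl
@[simp] lemma vs_nil (p : ℤ × ℤ) : vs p [] = [] := rfl
@[simp] lemma vs_cons (p : ℤ × ℤ) (d : Fin 4) (s : List (Fin 4)) :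
    vs p (d :: s) = p :: vs (p + dv d) s := rfl
@[simp] lemma dbl_nil (p : ℤ × ℤ) : dbl p [] = 0 := rfl
@[simp] lemma dbl_cons (p : ℤ × ℤ) (d : Fin 4) (s : List (Fin 4)) :
    dbl p (d :: s) = (p.1 * (dv d).2 - p.2 * (dv d).1) + dbl (p + dv d) s := rfl

lemma ep_append (p : ℤ × ℤ) (s t : List (Fin 4)) : ep p (s ++ t) = ep (ep p s) t := by
  induction s generalizing p with
  | nil => simp
  | cons d s ih => simp [ih]

lemma vs_append (p : ℤ × ℤ) (s t : List (Fin 4)) :
    vs p (s ++ t) = vs p s ++ vs (ep p s) t := by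
  induction s generalizing p with
  | nil => simp
  | cons d s ih => simp [ih]

lemma dbl_append (p : ℤ × ℤ) (s t : List (Fin 4)) :
    dbl p (s ++ t) = dbl p s + dbl (ep p s) t := by
  induction s generalizing p with
  | nil => simp
  | cons d s ih => simp [ih, add_assoc]

@[simp] lemma vs_length (p : ℤ × ℤ) (s : List (Fin 4)) : (vs p s).length = s.length := by
  induction s generalizing p with
  | nil => simp
  | cons d s ih => simp [ih]

lemma ep_add (p q : ℤ × ℤ) (s : List (Fin 4)) : ep (p + q) s = ep p s + q := by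
  induction s generalizing p with
  | nil => simp
  | cons d s ih =>
    simp only [ep_cons]
    rw [← ih]
    congr 1
    abel

lemma vs_add (p q : ℤ × ℤ) (s : List (Fin 4)) : vs (p + q) s = (vs p s).map (· + q) := by
  induction s generalizing p with
  | nil => simp
  | cons d s ih =>
    simp only [vs_cons, List.map_cons]
    rw [← ih]
    congr 2
    abel

lemma ep_eq (p : ℤ × ℤ) (s : List (Fin 4)) : ep p s = ep 0 s + p := by
  rw [← ep_add, zero_add]

lemma vs_eq (p : ℤ × ℤ) (s : List (Fin 4)) : vs p s = (vs 0 s).map (· + p) := by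
  rw [← vs_add, zero_add]

lemma dv_add_two (a : Fin 4) : dv (a + 2) = - dv a := by
  fin_cases a <;> simp [dv]

lemma dv_ne_zero (a : Fin 4) : dv a ≠ 0 := by
  fin_cases a <;> simp [dv]

lemma dv_injective : Function.Injective dv := by
  decide

/-- perpendicularity of steps -/
def perp (a b : Fin 4) : Prop := a = b + 1 ∨ a = b + 3

instance (a b : Fin 4) : Decidable (perp a b) := by unfold perp; infer_instance

lemma perp_cross (a b : Fin 4) (h : perp a b) :
    (dv a).1 * (dv b).2 - (dv a).2 * (dv b).1 = 1 ∨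
    (dv a).1 * (dv b).2 - (dv a).2 * (dv b).1 = -1 := by
  revert a b; decide

/-- all words of a given length -/
def words : ℕ → Finset (List (Fin 4))
  | 0 => {[]}
  | N + 1 => (Finset.univ ×ˢ words N).image (fun x => x.1 :: x.2)

lemma mem_words (N : ℕ) (s : List (Fin 4)) : s ∈ words N ↔ s.length = N := by
  induction N generalizing s with
  | zero => simp [words]
  | succ N ih =>
    simp only [words, Finset.mem_image, Finset.mem_product, Finset.mem_univ, true_and,
      Prod.exists]
    constructor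
    · rintro ⟨d, t, ht, rfl⟩
      simp [(ih t).1 ht]
    · intro h
      cases s with
      | nil => simp at h
      | cons d t =>
        refine ⟨d, t, (ih t).2 (by simpa using h), rfl⟩

lemma sum_words_succ (N : ℕ) (f : List (Fin 4) → ℝ) :
    ∑ s ∈ words (N + 1), f s = ∑ d : Fin 4, ∑ s ∈ words N, f (d :: s) := by
  rw [words, Finset.sum_image, Finset.sum_product]
  rintro ⟨a, s⟩ _ ⟨b, t⟩ _ h
  simpa using h

lemma card_words (N : ℕ) : (words N).card = 4 ^ N := by
  induction N with
  | zero => simp [words]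
  | succ N ih =>
    rw [words, Finset.card_image_of_injective, Finset.card_product, ih]
    · simp [pow_succ, mul_comm]
    · rintro ⟨a, s⟩ ⟨b, t⟩ h
      simpa using h

end Pool.Agent.Lib27
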